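import Pool.Agent.RTD.RS5

/-! RTD row FA: fans of the inside and of the outside. -/

namespace RTD

/-- shifting: PROOF: induction on `t`, generalizing `i`. -/
theorem tri_shift (t : BT) (i k : ℕ) :
    t.tri (i + k) = (t.tri i).image (fun f => f.image (fun v => v + k)) := by
  induction t generalizing i with
  | nil => simp [BT.tri]
  | node l r ihl ihr =>
    simp only [BT.tri, Finset.image_insert, Finset.image_union, Finset.image_singleton]
    rw [ihl i]
    have e1 : i + k + l.size + 1 = i + l.size + 1 + k := by omega
    have e2 : i + k + l.size + r.size + 2 = i + l.size + r.size + 2 + k := by omega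
    rw [e1, e2, ihr]

private def FA_phi (x k v : ℕ) : ℕ := if v ≤ x then v else v + k

private lemma FA_phi_inj (x k : ℕ) : Function.Injective (FA_phi x k) := by
  intro a b h
  unfold FA_phi at h
  split_ifs at h <;> omega

private lemma FA_img_low {A : Finset (Finset ℕ)} {x k : ℕ} (h : ∀ f ∈ A, ∀ v ∈ f, v ≤ x) :
    A.image (fun f => f.image (FA_phi x k)) = A := by
  ext g
  rw [Finset.mem_image]
  have key : ∀ f ∈ A, f.image (FA_phi x k) = f := by
    intro f hf
    ext v
    rw [Finset.mem_image]
    constructor
    · rintro ⟨w, hw, rfl⟩
      rw [FA_phi, if_pos (h f hf w hw)]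
      exact hw
    · intro hv
      exact ⟨v, hv, by rw [FA_phi, if_pos (h f hf v hv)]⟩
  constructor
  · rintro ⟨f, hf, rfl⟩
    rw [key f hf]; exact hf
  · intro hg
    exact ⟨g, hg, key g hg⟩

private lemma FA_img_high {A : Finset (Finset ℕ)} {x k : ℕ} (h : ∀ f ∈ A, ∀ v ∈ f, x < v) :
    A.image (fun f => f.image (FA_phi x k)) = A.image (fun f => f.image (fun v => v + k)) := by
  apply Finset.image_congr
  intro f hf
  apply Finset.image_congr
  intro v hv
  have := h f hf v hv
  rw [FA_phi, if_neg (by omega)]

private lemma FA_parts (t : BT) (i x z : ℕ) (h : (x, z) ∈ t.cl i) (o u : BT)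
    (h1 : t.restr (Lin x z) i = some u) (h2 : t.restr (Lout x z) i = some o) :
    t.tri i = u.tri x ∪ (o.tri i).image (fun f => f.image (FA_phi x (z - x - 1))) := by
  induction t generalizing i o u with
  | nil => simp [BT.cl] at h
  | node l r ihl ihr =>
    obtain ⟨o1, u1, a1, a2, -, a4, a5, a6, a7⟩ := plug_eq _ i x z h
    rw [h1] at a1
    rw [h2] at a2
    cases a1
    cases a2
    simp only [BT.cl, Finset.mem_insert, Finset.mem_union, Prod.mk.injEq] at h
    rcases h with ⟨hx, hz⟩ | h | h
    · -- the root clade
      subst hx
      have hsz : o.size = 0 := by simp only [BT.size] at a5; omega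
      have ho : o = .nil := by
        cases o with
        | nil => rfl
        | node a b => simp [BT.size] at hsz
      subst ho
      have hu : (BT.node l r).restr (Lin x z) x = some (.node l r) := by
        obtain ⟨o2, u2, b1, b2, b3, b4, b5, b6, b7⟩ := plug_eq (.node l r) x x z (by
          simp only [BT.cl, Finset.mem_insert, Prod.mk.injEq]
          exact Or.inl ⟨trivial, hz⟩)
        rw [h2] at b2
        cases b2
        simp only [BT.plug, if_true] at b3
        rw [b1, b3]
      rw [h1] at hu
      cases hu
      simp [BT.tri]
    · -- left
      obtain ⟨o', u', b1, b2, -, b4, b5, b6, b7⟩ := plug_eq l i x z h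
      have hb := cl_bound l i x z h
      have hr1 : r.restr (Lin x z) (i + l.size + 1) = none := by
        rw [restr_none]
        intro g h1 h2
        simp only [Lin, decide_eq_false_iff_not]
        omega
      have hu : u = u' := by
        simp only [BT.restr, b1, hr1] at h1
        exact (Option.some.inj h1).symm
      subst hu
      have ih := ihl i h o' u b1 b2
      have hr2 : r.restr (Lout x z) (i + l.size + 1) = some r := by
        have hall : ∀ (r : BT) (j : ℕ), z ≤ j → r.restr (Lout x z) j = some r := by
          intro r
          induction r with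
          | nil =>
            intro j hj
            have : Lout x z j = true := by simp only [Lout, decide_eq_true_eq]; omega
            simp [BT.restr, this]
          | node a b iha ihb =>
            intro j hj
            simp only [BT.restr]
            rw [iha j hj, ihb _ (by omega)]
        exact hall r _ (by omega)
      have ho : o = .node o' r := by
        simp only [BT.restr, b2, hr2] at h2
        exact (Option.some.inj h2).symm
      subst ho
      simp only [BT.tri, Finset.image_insert, Finset.image_union, Finset.image_singleton]
      rw [ih]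
      have hk : z - x - 1 = u.size := by omega
      have c1 : FA_phi x (z - x - 1) i = i := by rw [FA_phi, if_pos (by omega)]
      have c2 : FA_phi x (z - x - 1) (i + o'.size + 1) = i + l.size + 1 := by
        rw [FA_phi, if_neg (by omega)]; omega
      have c3 : FA_phi x (z - x - 1) (i + o'.size + r.size + 2) = i + l.size + r.size + 2 := by
        rw [FA_phi, if_neg (by omega)]; omega
      have c4 : (r.tri (i + o'.size + 1)).image (fun f => f.image (FA_phi x (z - x - 1))) =
          r.tri (i + l.size + 1) := by
        rw [FA_img_high, ← tri_shift]
        · congr 1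
          omega
        · intro f hf v hv
          have := (tri_mem r _ f hf).2 v hv
          omega
      rw [c1, c2, c3, c4]
      ext f
      simp only [Finset.mem_insert, Finset.mem_union]
      tauto
    · -- right
      obtain ⟨o', u', b1, b2, -, b4, b5, b6, b7⟩ := plug_eq r _ x z h
      have hb := cl_bound r _ x z h
      have hr1 : l.restr (Lin x z) i = none := by
        rw [restr_none]
        intro g h1 h2
        simp only [Lin, decide_eq_false_iff_not]
        omega
      have hu : u = u' := by
        simp only [BT.restr, b1, hr1] at h1
        exact (Option.some.inj h1).symm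
      subst hu
      have ih := ihr _ h o' u b1 b2
      have hr2 : l.restr (Lout x z) i = some l := by
        have hall : ∀ (r : BT) (j : ℕ), j + r.size < x → r.restr (Lout x z) j = some r := by
          intro r
          induction r with
          | nil =>
            intro j hj
            simp only [BT.size, add_zero] at hj
            have : Lout x z j = true := by simp only [Lout, decide_eq_true_eq]; omega
            simp [BT.restr, this]
          | node a b iha ihb =>
            intro j hj
            simp only [BT.size] at hj
            simp only [BT.restr]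
            rw [iha j (by omega), ihb _ (by omega)]
        exact hall l _ (by omega)
      have ho : o = .node l o' := by
        simp only [BT.restr, b2, hr2] at h2
        exact (Option.some.inj h2).symm
      subst ho
      simp only [BT.tri, Finset.image_insert, Finset.image_union, Finset.image_singleton]
      rw [ih]
      have hk : z - x - 1 = u.size := by omega
      have c1 : FA_phi x (z - x - 1) i = i := by rw [FA_phi, if_pos (by omega)]
      have c2 : FA_phi x (z - x - 1) (i + l.size + 1) = i + l.size + 1 := by
        rw [FA_phi, if_pos (by omega)]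
      have c3 : FA_phi x (z - x - 1) (i + l.size + o'.size + 2) = i + l.size + r.size + 2 := by
        rw [FA_phi, if_neg (by omega)]; omega
      have c4 : (l.tri i).image (fun f => f.image (FA_phi x (z - x - 1))) = l.tri i := by
        apply FA_img_low
        intro f hf v hv
        have := (tri_mem l _ f hf).2 v hv
        omega
      rw [c1, c2, c3, c4]
      ext f
      simp only [Finset.mem_insert, Finset.mem_union]
      tauto

/-- The triangles of `t` are those of the inside `u` and the images of those of the outside `o`.
PROOF: induction on `t` as in `plug_eq` (same case distinction; `φ` is the identity on vertices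
`≤ x`, and shifts the vertices `> x` by `z - x - 1 = u.size`; use `tri_shift` for the part to the right
of the clade). -/
theorem tri_parts (t : BT) (i x z : ℕ) (h : (x, z) ∈ t.cl i) (o u : BT)
    (h1 : t.restr (Lin x z) i = some u) (h2 : t.restr (Lout x z) i = some o) :
    t.tri i = u.tri x ∪
      (o.tri i).image (fun f => f.image (fun v => if v ≤ x then v else v + (z - x - 1))) :=
  FA_parts t i x z h o u h1 h2

/-- A proper clade has a triangle on its outer side: PROOF: induction on `t`: `(x,z)` is the
root clade of the left or right subtree (then the root triangle) or a proper clade of it.  -/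
theorem outer_tri (t : BT) (i x z : ℕ) (h : (x, z) ∈ t.cl i) (h' : (x, z) ≠ (i, i + t.size + 1)) :
    ∃ f ∈ t.tri i, x ∈ f ∧ z ∈ f ∧ ∃ v ∈ f, v < x ∨ z < v := by
  induction t generalizing i with
  | nil => simp [BT.cl] at h
  | node l r ihl ihr =>
    simp only [BT.cl, Finset.mem_insert, Finset.mem_union] at h
    simp only [BT.size] at h'
    simp only [BT.tri]
    rcases h with h | h | h
    · exfalso
      apply h'
      rw [h, Prod.mk.injEq]
      omega
    · by_cases hr : (x, z) = (i, i + l.size + 1)
      · rw [Prod.mk.injEq] at hr
        obtain ⟨rfl, rfl⟩ := hr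
        exact ⟨_, Finset.mem_insert_self _ _, by simp, by simp, x + l.size + r.size + 2, by simp,
          by omega⟩
      · obtain ⟨f, hf, h1, h2, h3⟩ := ihl i h hr
        exact ⟨f, by simp [hf], h1, h2, h3⟩
    · by_cases hr : (x, z) = (i + l.size + 1, i + l.size + 1 + r.size + 1)
      · rw [Prod.mk.injEq] at hr
        obtain ⟨rfl, hz⟩ := hr
        refine ⟨_, Finset.mem_insert_self _ _, by simp, ?_, i, by simp, by omega⟩
        have : z = i + l.size + r.size + 2 := by omega
        rw [this]; simp
      · obtain ⟨f, hf, h1, h2, h3⟩ := ihr _ h hr
        exact ⟨f, by simp [hf], h1, h2, h3⟩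

private lemma FA_root (u : BT) (x : ℕ) (hu : 1 ≤ u.size) :
    ∃ f ∈ u.tri x, x ∈ f ∧ x + u.size + 1 ∈ f ∧ ∃ m ∈ f, x < m ∧ m < x + u.size + 1 := by
  cases u with
  | nil => simp [BT.size] at hu
  | node l r =>
    simp only [BT.tri, BT.size]
    refine ⟨_, Finset.mem_insert_self _ _, by simp, ?_, x + l.size + 1, by simp, by omega, by omega⟩
    have : x + (l.size + r.size + 1) + 1 = x + l.size + r.size + 2 := by omega
    rw [this]; simp

/-- PROOF: `fan u v = #{f ∈ u.tri 0 : v ∈ f} = #{f ∈ u.tri x : x+v ∈ f}` (`tri_shift`, injective), and
`u.tri x ⊆ t.tri 0` (`tri_parts`).  If `v = 0` or `v = z - x`, the triangle of `outer_tri` contains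
`x + v` and is not in `u.tri x` (`tri_mem`). -/
theorem fan_inn (t : BT) (x z v : ℕ) (h : (x, z) ∈ t.cl 0) (h' : (x, z) ≠ (0, t.size + 1)) :
    fan (t.inn x z) v + (if v = 0 ∨ v = z - x then 1 else 0) ≤ fan t (x + v) := by
  obtain ⟨o, u, a1, a2, a3, a4, a5, a6, a7⟩ := plug_eq t 0 x z h
  have hb := cl_bound t 0 x z h
  have c1 : t.inn x z = u := by simp [BT.inn, a1]
  rw [c1]
  have hp := FA_parts t 0 x z h o u a1 a2
  have hshift : u.tri x = (u.tri 0).image (fun f => f.image (fun v => v + x)) := by
    have := tri_shift u 0 x
    rwa [zero_add] at this
  have hinj : Function.Injective (fun f : Finset ℕ => f.image (fun v => v + x)) :=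
    Finset.image_injective (fun a b hab => by simpa using hab)
  have h1 : fan u v = ((u.tri x).filter (fun f => x + v ∈ f)).card := by
    unfold fan
    rw [hshift, Finset.filter_image, Finset.card_image_of_injective _ hinj]
    congr 1
    apply Finset.filter_congr
    intro f _
    rw [Finset.mem_image]
    constructor
    · intro hv; exact ⟨v, hv, by omega⟩
    · rintro ⟨w, hw, hwv⟩
      have : w = v := by omega
      rwa [← this]
  have hsub : u.tri x ⊆ t.tri 0 := by
    rw [hp]; exact Finset.subset_union_left
  rw [h1]
  unfold fan
  by_cases hv : v = 0 ∨ v = z - x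
  · rw [if_pos hv]
    obtain ⟨f, hf, f1, f2, w, hw, hw'⟩ := outer_tri t 0 x z h (by rwa [zero_add])
    have hfu : f ∉ u.tri x := by
      intro hfu
      have := (tri_mem u x f hfu).2 w hw
      omega
    have hfv : x + v ∈ f := by
      rcases hv with rfl | rfl
      · simpa using f1
      · have : x + (z - x) = z := by omega
        rw [this]; exact f2
    rw [← Finset.card_insert_of_notMem (a := f) (fun h => hfu (Finset.mem_filter.mp h).1)]
    apply Finset.card_le_card
    intro g hg
    rw [Finset.mem_insert] at hg
    rcases hg with rfl | hg
    · exact Finset.mem_filter.mpr ⟨hf, hfv⟩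
    · rw [Finset.mem_filter] at hg ⊢
      exact ⟨hsub hg.1, hg.2⟩
  · rw [if_neg hv, add_zero]
    exact Finset.card_le_card (Finset.filter_subset_filter _ hsub)

/-- PROOF: the map `φ v = if v ≤ x then v else v + (z-x-1)` is injective, so
`fan o v = #{f ∈ (o.tri 0).image φ : φ v ∈ f}` and this set is contained in the set of triangles of
`t` at `φ v` (`tri_parts`).  If `v = x` or `v = x+1` (`φ v = x` or `z`) there is one more triangle: the
root triangle of `u.tri x`, `u` not empty, contains `x` and `z = x + u.size + 1` and a vertex strictly
between, so it is not in the image of `φ`. -/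
theorem fan_out (t : BT) (x z v : ℕ) (h : (x, z) ∈ t.cl 0) :
    fan (t.out x z) v + (if v = x ∨ v = x + 1 then 1 else 0) ≤
      fan t (if v ≤ x then v else v + (z - x - 1)) := by
  obtain ⟨o, u, a1, a2, a3, a4, a5, a6, a7⟩ := plug_eq t 0 x z h
  have hb := cl_bound t 0 x z h
  have c1 : t.out x z = o := by simp [BT.out, a2]
  rw [c1]
  have hp := FA_parts t 0 x z h o u a1 a2
  show _ ≤ fan t (FA_phi x (z - x - 1) v)
  set φ := FA_phi x (z - x - 1) with hφ
  have hφi : Function.Injective φ := FA_phi_inj _ _
  have hinj : Function.Injective (fun f : Finset ℕ => f.image φ) := Finset.image_injective hφi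
  have h1 : fan o v = (((o.tri 0).image (fun f => f.image φ)).filter (fun f => φ v ∈ f)).card := by
    unfold fan
    rw [Finset.filter_image, Finset.card_image_of_injective _ hinj]
    congr 1
    apply Finset.filter_congr
    intro f _
    rw [hφi.mem_finset_image]
  have hsub : (o.tri 0).image (fun f => f.image φ) ⊆ t.tri 0 := by
    rw [hp]; exact Finset.subset_union_right
  rw [h1]
  unfold fan
  by_cases hv : v = x ∨ v = x + 1
  · rw [if_pos hv]
    obtain ⟨f, hf, f1, f2, m, hm, hm1, hm2⟩ := FA_root u x (by omega)
    have hfo : f ∉ (o.tri 0).image (fun f => f.image φ) := by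
      intro hfo
      obtain ⟨g, hg, rfl⟩ := Finset.mem_image.mp hfo
      obtain ⟨w, hw, hwm⟩ := Finset.mem_image.mp hm
      rw [hφ, FA_phi] at hwm
      split_ifs at hwm <;> omega
    have hfv : φ v ∈ f := by
      rcases hv with rfl | rfl
      · have : φ v = v := by rw [hφ, FA_phi, if_pos le_rfl]
        rw [this]; exact f1
      · have : φ (x + 1) = x + u.size + 1 := by rw [hφ, FA_phi, if_neg (by omega)]; omega
        rw [this]; exact f2
    have hft : f ∈ t.tri 0 := by
      rw [hp]; exact Finset.mem_union_left _ hf
    rw [← Finset.card_insert_of_notMem (a := f) (fun h => hfo (Finset.mem_filter.mp h).1)]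
    apply Finset.card_le_card
    intro g hg
    rw [Finset.mem_insert] at hg
    rcases hg with rfl | hg
    · exact Finset.mem_filter.mpr ⟨hft, hfv⟩
    · rw [Finset.mem_filter] at hg ⊢
      exact ⟨hsub hg.1, hg.2⟩
  · rw [if_neg hv, add_zero]
    exact Finset.card_le_card (Finset.filter_subset_filter _ hsub)

end RTD
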