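import Pool.Agent.RTD.RS2

/-! RTD row FR: fans and a rotation. -/

namespace RTD

/-- number of triangles at the vertex `v`, by recursion -/
private def FR_cnt : BT → ℕ → ℕ → ℕ
  | .nil, _, _ => 0
  | .node l r, i, v =>
    (if v = i ∨ v = i + l.size + 1 ∨ v = i + l.size + r.size + 2 then 1 else 0) +
      (FR_cnt l i v + FR_cnt r (i + l.size + 1) v)

private lemma FR_cnt_eq (t : BT) (i v : ℕ) :
    ((t.tri i).filter (fun f => v ∈ f)).card = FR_cnt t i v := by
  induction t generalizing i with
  | nil => simp [BT.tri, FR_cnt]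
  | node l r ihl ihr =>
    simp only [BT.tri, FR_cnt]
    have hd : Disjoint (l.tri i) (r.tri (i + l.size + 1)) := by
      rw [Finset.disjoint_left]
      intro f hf hg
      obtain ⟨h1, h2⟩ := tri_mem l i f hf
      obtain ⟨h3, h4⟩ := tri_mem r _ f hg
      have : f ⊆ {i + l.size + 1} := by
        intro v hv
        have := h2 v hv
        have := h4 v hv
        rw [Finset.mem_singleton]
        omega
      have := Finset.card_le_card this
      rw [h1, Finset.card_singleton] at this
      omega
    have hn : ({i, i + l.size + 1, i + l.size + r.size + 2} : Finset ℕ) ∉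
        l.tri i ∪ r.tri (i + l.size + 1) := by
      rw [Finset.mem_union, not_or]
      constructor
      · intro h
        have := (tri_mem l i _ h).2 (i + l.size + r.size + 2) (by simp)
        omega
      · intro h
        have := (tri_mem r _ _ h).2 i (by simp)
        omega
    have hU : ((l.tri i ∪ r.tri (i + l.size + 1)).filter (fun f => v ∈ f)).card =
        FR_cnt l i v + FR_cnt r (i + l.size + 1) v := by
      rw [Finset.filter_union, Finset.card_union_of_disjoint
        (Finset.disjoint_filter_filter hd), ihl, ihr]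
    rw [Finset.filter_insert]
    have hmem : (v ∈ ({i, i + l.size + 1, i + l.size + r.size + 2} : Finset ℕ)) ↔
        (v = i ∨ v = i + l.size + 1 ∨ v = i + l.size + r.size + 2) := by simp
    by_cases hv : v = i ∨ v = i + l.size + 1 ∨ v = i + l.size + r.size + 2
    · rw [if_pos (hmem.mpr hv), if_pos hv, Finset.card_insert_of_notMem
        (fun h => hn (Finset.mem_filter.mp h).1), hU]
      omega
    · rw [if_neg (fun h => hv (hmem.mp h)), if_neg hv, hU]
      omega

private lemma FR_main {t t' : BT} (h : Rot t t') (x z v : ℕ) : ∀ i, (x, z) ∉ t.cl i →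
    (x, z) ∈ t'.cl i → FR_cnt t' i v ≤ FR_cnt t i v + (if v = x ∨ v = z then 1 else 0) := by
  induction h with
  | right a b c =>
    intro i h1 h2
    have e1 : i + (a.size + b.size + 1) + 1 = i + a.size + 1 + b.size + 1 := by omega
    simp only [BT.cl, BT.size, Finset.mem_insert, Finset.mem_union, Prod.mk.injEq, e1] at h1 h2
    push Not at h1
    obtain ⟨g1, ⟨g2, g3, g4⟩, g5⟩ := h1
    rcases h2 with ⟨h2, h3⟩ | h2 | ⟨rfl, rfl⟩ | h2 | h2
    · exact absurd (by omega) (g1 h2)
    · exact absurd h2 g3
    · simp only [FR_cnt, BT.size, e1]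
      split_ifs <;> omega
    · exact absurd h2 g4
    · exact absurd h2 g5
  | left a b c =>
    intro i h1 h2
    have e1 : i + (a.size + b.size + 1) + 1 = i + a.size + 1 + b.size + 1 := by omega
    simp only [BT.cl, BT.size, Finset.mem_insert, Finset.mem_union, Prod.mk.injEq, e1] at h1 h2
    push Not at h1
    obtain ⟨g1, g2, g3, g4, g5⟩ := h1
    rcases h2 with ⟨h2, h3⟩ | (⟨rfl, rfl⟩ | h2 | h2) | h2
    · exact absurd (by omega) (g1 h2)
    · simp only [FR_cnt, BT.size, e1]
      split_ifs <;> omega
    · exact absurd h2 g2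
    · exact absurd h2 g4
    · exact absurd h2 g5
  | @inl l l' r h ih =>
    intro i h1 h2
    have hs := rot_size h
    simp only [BT.cl, Finset.mem_insert, Finset.mem_union, hs] at h1 h2
    push Not at h1
    obtain ⟨g1, g2, g3⟩ := h1
    rcases h2 with h2 | h2 | h2
    · exact absurd h2 g1
    · have := ih i g2 h2
      simp only [FR_cnt, hs]
      omega
    · exact absurd h2 g3
  | @inr l r r' h ih =>
    intro i h1 h2
    have hs := rot_size h
    simp only [BT.cl, Finset.mem_insert, Finset.mem_union, hs] at h1 h2
    push Not at h1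
    obtain ⟨g1, g2, g3⟩ := h1
    rcases h2 with h2 | h2 | h2
    · exact absurd h2 g1
    · exact absurd h2 g2
    · have := ih _ g3 h2
      simp only [FR_cnt, hs]
      omega

/-- PROOF: first show by induction on `h` (generalizing `i`) that for
`h1 : (x,z) ∉ t.cl i`, `h2 : (x,z) ∈ t'.cl i` there are `y, w` with
`t'.tri i \ t.tri i = {{x,y,z}, {x,z,w}}`, `t.tri i \ t'.tri i = {{x,y,w},{y,z,w}}` and `x,y,z,w`
distinct (this is `rot_flip` together with the information that the new diagonal is the new clade).
Then every triangle of `t'` at `v` is a triangle of `t` at `v` or one of the two new ones.  If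
`v = x`: two new ones, at least one old one (`{x,y,w}`) is lost; `v = z` the same (`{y,z,w}`);
`v = y`: one new one, two lost; `v = w` the same; otherwise no change. -/
theorem fan_rot {t t' : BT} (h : Rot t t') (x z v : ℕ) (h1 : (x, z) ∉ t.cl 0)
    (h2 : (x, z) ∈ t'.cl 0) :
    fan t' v ≤ fan t v + (if v = x ∨ v = z then 1 else 0) := by
  unfold fan
  rw [FR_cnt_eq, FR_cnt_eq]
  exact FR_main h x z v 0 h1 h2

end RTD
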