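import Pool.Agent.RTD.Defs

/-! RTD row BT1: size and shape of the triangle sets. -/

namespace RTD

/-- every triangle of `t.tri i` has three vertices, all in `[i, i+size+1]`.
PROOF: induction on `t`, generalizing `i`.  The root triangle `{i, i+|l|+1, i+|l|+|r|+2}` has three
different elements; the others by the induction hypotheses and `omega`. -/
theorem tri_mem (t : BT) (i : ℕ) (f : Finset ℕ) (hf : f ∈ t.tri i) :
    f.card = 3 ∧ ∀ v ∈ f, i ≤ v ∧ v ≤ i + t.size + 1 := by
  induction t generalizing i with
  | nil => simp [BT.tri] at hf
  | node l r ihl ihr =>
    simp only [BT.tri, Finset.mem_insert, Finset.mem_union] at hf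
    simp only [BT.size]
    rcases hf with rfl | hf | hf
    · constructor
      · rw [Finset.card_eq_three]
        exact ⟨i, i + l.size + 1, i + l.size + r.size + 2, by omega, by omega, by omega, rfl⟩
      · intro v hv
        simp only [Finset.mem_insert, Finset.mem_singleton] at hv
        omega
    · obtain ⟨h1, h2⟩ := ihl i hf
      refine ⟨h1, fun v hv => ?_⟩
      have := h2 v hv
      omega
    · obtain ⟨h1, h2⟩ := ihr _ hf
      refine ⟨h1, fun v hv => ?_⟩
      have := h2 v hv
      omega

/-- the number of triangles is the number of nodes.
PROOF: induction on `t`, generalizing `i`.  `node l r`: the root triangle is not in `l.tri i`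
(its element `i+|l|+|r|+2` is too big, `tri_mem`), not in `r.tri (i+|l|+1)` (its element `i` is too
small), and `l.tri i`, `r.tri (i+|l|+1)` are disjoint (a common triangle would have its three
elements in `[i, i+|l|+1]` and in `[i+|l|+1, ..]`, so all equal to `i+|l|+1`, card 1). -/
theorem tri_card (t : BT) (i : ℕ) : (t.tri i).card = t.size := by
  induction t generalizing i with
  | nil => simp [BT.tri, BT.size]
  | node l r ihl ihr =>
    simp only [BT.tri, BT.size]
    rw [Finset.card_insert_of_notMem, Finset.card_union_of_disjoint, ihl, ihr]
    · rw [Finset.disjoint_left]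
      intro f hf hg
      obtain ⟨h1, h2⟩ := tri_mem l i f hf
      obtain ⟨h3, h4⟩ := tri_mem r _ f hg
      have : f ⊆ {i + l.size + 1} := by
        intro v hv
        have := h2 v hv
        have := h4 v hv
        rw [Finset.mem_singleton]
        omega
      have := Finset.card_le_card this
      rw [h1, Finset.card_singleton] at this
      omega
    · rw [Finset.mem_union, not_or]
      constructor
      · intro h
        have := (tri_mem l i _ h).2 (i + l.size + r.size + 2) (by simp)
        omega
      · intro h
        have := (tri_mem r _ _ h).2 i (by simp)
        omega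

end RTD
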