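import Pool.Agent.RTD.PA
import Pool.Agent.RTD.BT1

/-! RTD row TF: rotating a tree to a fan. -/

namespace RTD

theorem TF_lcomb_size (q : ℕ) : (lcomb q).size = q := by
  induction q with
  | zero => rfl
  | succ q ih => simp [lcomb, BT.size, ih]

theorem TF_rcomb_size (q : ℕ) : (rcomb q).size = q := by
  induction q with
  | zero => rfl
  | succ q ih => simp [rcomb, BT.size, ih]

/-- PROOF: induction on `q`; every triangle of `lcomb q` contains `0`, resp. of `rcomb q` contains
`q+1`; `fanTree q v` has `q` nodes. (size) -/
theorem fanTree_size (q v : ℕ) (hv : v ≤ q + 1) : (fanTree q v).size = q := by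
  unfold fanTree
  split_ifs with h1 h2
  · exact TF_lcomb_size q
  · exact TF_rcomb_size q
  · simp only [BT.size, TF_lcomb_size, TF_rcomb_size]
    omega

theorem TF_exists (t : BT) : ∀ (i v : ℕ), 1 ≤ t.size → i ≤ v → v ≤ i + t.size + 1 →
    ∃ f ∈ t.tri i, v ∈ f := by
  induction t with
  | nil => intro i v h; simp [BT.size] at h
  | node l r ihl ihr =>
    intro i v _ h1 h2
    simp only [BT.size] at h2
    rcases Nat.lt_or_ge v (i + l.size + 1) with h | h
    · rcases Nat.eq_zero_or_pos l.size with h3 | h3
      · refine ⟨_, Finset.mem_insert_self _ _, ?_⟩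
        have : v = i := by omega
        subst this
        simp
      · obtain ⟨f, hf, hv⟩ := ihl i v h3 h1 (by omega)
        refine ⟨f, ?_, hv⟩
        simp only [BT.tri, Finset.mem_insert, Finset.mem_union]
        exact Or.inr (Or.inl hf)
    · rcases Nat.eq_zero_or_pos r.size with h3 | h3
      · refine ⟨_, Finset.mem_insert_self _ _, ?_⟩
        have : v = i + l.size + 1 ∨ v = i + l.size + r.size + 2 := by omega
        rcases this with h4 | h4 <;> simp [h4]
      · obtain ⟨f, hf, hv⟩ := ihr (i + l.size + 1) v h3 h (by omega)
        refine ⟨f, ?_, hv⟩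
        simp only [BT.tri, Finset.mem_insert, Finset.mem_union]
        exact Or.inr (Or.inr hf)

/-- every vertex of the polygon lies in a triangle.  PROOF: induction. -/
theorem fan_pos (t : BT) (ht : 1 ≤ t.size) (v : ℕ) (hv : v ≤ t.size + 1) : 1 ≤ fan t v := by
  obtain ⟨f, hf, hvf⟩ := TF_exists t 0 v ht (Nat.zero_le _) (by omega)
  unfold fan
  exact Finset.card_pos.2 ⟨f, Finset.mem_filter.2 ⟨hf, hvf⟩⟩

theorem fan_le_size (t : BT) (v : ℕ) : fan t v ≤ t.size := by
  unfold fan
  rw [← tri_card t 0]
  exact Finset.card_filter_le _ _

/-- number of triangles at a vertex, with an offset -/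
def TF_fani (t : BT) (i v : ℕ) : ℕ := ((t.tri i).filter (fun f => v ∈ f)).card

theorem TF_fani_le (t : BT) (i v : ℕ) : TF_fani t i v ≤ t.size := by
  unfold TF_fani
  rw [← tri_card t i]
  exact Finset.card_filter_le _ _

theorem TF_fani_zero (t : BT) (i v : ℕ) (h : v < i ∨ i + t.size + 1 < v) : TF_fani t i v = 0 := by
  unfold TF_fani
  rw [Finset.card_eq_zero, Finset.filter_eq_empty_iff]
  intro f hf hvf
  have := (tri_mem t i f hf).2 v hvf
  omega

theorem TF_fani_node (l r : BT) (i v : ℕ) : TF_fani (.node l r) i v =
    (if v = i ∨ v = i + l.size + 1 ∨ v = i + l.size + r.size + 2 then 1 else 0) + TF_fani l i v +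
      TF_fani r (i + l.size + 1) v := by
  have h1 : ({i, i + l.size + 1, i + l.size + r.size + 2} : Finset ℕ) ∉ l.tri i := by
    intro h
    have := (tri_mem l i _ h).2 (i + l.size + r.size + 2) (by simp)
    omega
  have h2 : ({i, i + l.size + 1, i + l.size + r.size + 2} : Finset ℕ) ∉ r.tri (i + l.size + 1) := by
    intro h
    have := (tri_mem r _ _ h).2 i (by simp)
    omega
  have h3 : Disjoint (l.tri i) (r.tri (i + l.size + 1)) := by
    rw [Finset.disjoint_left]
    intro f hf hf'
    obtain ⟨a1, a2⟩ := tri_mem l i f hf
    obtain ⟨b1, b2⟩ := tri_mem r _ f hf'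
    have : f ⊆ {i + l.size + 1} := by
      intro u hu
      have := a2 u hu
      have := b2 u hu
      rw [Finset.mem_singleton]
      omega
    have := Finset.card_le_card this
    rw [a1] at this
    simp at this
  unfold TF_fani
  simp only [BT.tri]
  rw [Finset.filter_insert, Finset.filter_union]
  have h4 : Disjoint ((l.tri i).filter (fun f => v ∈ f)) ((r.tri (i + l.size + 1)).filter (fun f => v ∈ f)) :=
    Finset.disjoint_filter_filter h3
  have h5 : (v ∈ ({i, i + l.size + 1, i + l.size + r.size + 2} : Finset ℕ)) ↔
      (v = i ∨ v = i + l.size + 1 ∨ v = i + l.size + r.size + 2) := by simp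
  by_cases hv : v ∈ ({i, i + l.size + 1, i + l.size + r.size + 2} : Finset ℕ)
  · rw [if_pos hv, if_pos (h5.1 hv), Finset.card_insert_of_notMem, Finset.card_union_of_disjoint h4]
    · omega
    · rw [Finset.mem_union, Finset.mem_filter, Finset.mem_filter]
      rintro (h | h)
      · exact h1 h.1
      · exact h2 h.1
  · rw [if_neg hv, if_neg (fun h => hv (h5.2 h)), Finset.card_union_of_disjoint h4]
    omega

theorem TF_A1 (r : BT) : ∀ a : ℕ, Path r.size (.node (lcomb a) r) (lcomb (a + r.size + 1)) := by
  induction r with
  | nil => intro a; exact Path.refl _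
  | node b c ihb ihc =>
    intro a
    have s1 : Path 1 (.node (lcomb a) (.node b c)) (.node (.node (lcomb a) b) c) :=
      Path.one (Rot.left _ _ _)
    have s2 := (ihb a).left c
    have s3 := ihc (a + b.size + 1)
    have := (s1.trans s2).trans s3
    have e1 : 1 + b.size + c.size = (BT.node b c).size := by simp only [BT.size]; omega
    have e2 : a + b.size + 1 + c.size + 1 = a + (BT.node b c).size + 1 := by
      simp only [BT.size]; omega
    rw [e1, e2] at this
    exact this

theorem TF_B1 (l : BT) : ∀ a : ℕ, Path l.size (.node l (rcomb a)) (rcomb (a + l.size + 1)) := by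
  induction l with
  | nil => intro a; exact Path.refl _
  | node b c ihb ihc =>
    intro a
    have s1 : Path 1 (.node (.node b c) (rcomb a)) (.node b (.node c (rcomb a))) :=
      Path.one (Rot.right _ _ _)
    have s2 := (ihc a).right b
    have s3 := ihb (a + c.size + 1)
    have := (s1.trans s2).trans s3
    have e1 : 1 + c.size + b.size = (BT.node b c).size := by simp only [BT.size]; omega
    have e2 : a + c.size + 1 + b.size + 1 = a + (BT.node b c).size + 1 := by
      simp only [BT.size]; omega
    rw [e1, e2] at this
    exact this

theorem TF_A (t : BT) : ∀ i : ℕ, Path (t.size - TF_fani t i i) t (lcomb t.size) := by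
  induction t with
  | nil => intro i; exact Path.refl _
  | node l r ihl ihr =>
    intro i
    have h1 := (ihl i).left r
    have h2 := TF_A1 r l.size
    have := h1.trans h2
    have f0 := TF_fani_le l i i
    have e1 : l.size - TF_fani l i i + r.size =
        (BT.node l r).size - TF_fani (BT.node l r) i i := by
      rw [TF_fani_node, if_pos (Or.inl rfl), TF_fani_zero r (i + l.size + 1) i (by omega)]
      simp only [BT.size]
      omega
    rw [e1] at this
    exact this

theorem TF_B (t : BT) : ∀ i : ℕ, Path (t.size - TF_fani t i (i + t.size + 1)) t (rcomb t.size) := by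
  induction t with
  | nil => intro i; exact Path.refl _
  | node l r ihl ihr =>
    intro i
    have h1 := (ihr (i + l.size + 1)).right l
    have h2 := TF_B1 l r.size
    have := h1.trans h2
    have f0 := TF_fani_le r (i + l.size + 1) (i + l.size + 1 + r.size + 1)
    have e1 : r.size - TF_fani r (i + l.size + 1) (i + l.size + 1 + r.size + 1) + l.size =
        (BT.node l r).size - TF_fani (BT.node l r) i (i + (BT.node l r).size + 1) := by
      have e0 : i + (BT.node l r).size + 1 = i + l.size + 1 + r.size + 1 := by
        simp only [BT.size]; omega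
      rw [e0, TF_fani_node, if_pos (by omega), TF_fani_zero l i _ (by omega)]
      simp only [BT.size]
      omega
    have e2 : r.size + l.size + 1 = (BT.node l r).size := by simp only [BT.size]; omega
    rw [e1, e2] at this
    exact this

theorem TF_main (t : BT) : ∀ i v : ℕ, v ≤ t.size + 1 →
    Path (t.size - TF_fani t i (i + v)) t (fanTree t.size v) := by
  induction t with
  | nil =>
    intro i v hv
    have : fanTree BT.nil.size v = BT.nil := by
      have : v = 0 ∨ v = 1 := by simp only [BT.size] at hv; omega
      rcases this with h | h <;> subst h <;> rfl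
    rw [this]
    have e : BT.nil.size - TF_fani BT.nil i (i + v) = 0 := by simp [BT.size]
    rw [e]
    exact Path.refl _
  | node l r ihl ihr =>
    intro i v hv
    by_cases h0 : v = 0
    · subst h0
      exact TF_A _ i
    by_cases h1 : v = (BT.node l r).size + 1
    · subst h1
      have : fanTree (BT.node l r).size ((BT.node l r).size + 1) = rcomb (BT.node l r).size := by
        unfold fanTree
        rw [if_neg (by omega), if_pos rfl]
      rw [this]
      exact TF_B _ i
    have hf : fanTree (BT.node l r).size v = .node (rcomb (v - 1)) (lcomb ((BT.node l r).size - v)) := by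
      unfold fanTree
      rw [if_neg h0, if_neg h1]
    rw [hf, TF_fani_node]
    simp only [BT.size] at hv h1 ⊢
    rcases Nat.lt_trichotomy v (l.size + 1) with h | h | h
    · rw [if_neg (by omega), TF_fani_zero r (i + l.size + 1) (i + v) (by omega)]
      have s1 := (ihl i v (by omega)).left r
      have hf' : fanTree l.size v = .node (rcomb (v - 1)) (lcomb (l.size - v)) := by
        unfold fanTree
        rw [if_neg h0, if_neg (by omega)]
      rw [hf'] at s1
      have s2 : Path 1 (.node (.node (rcomb (v - 1)) (lcomb (l.size - v))) r)
          (.node (rcomb (v - 1)) (.node (lcomb (l.size - v)) r)) := Path.one (Rot.right _ _ _)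
      have s3 := (TF_A1 r (l.size - v)).right (rcomb (v - 1))
      have := (s1.trans s2).trans s3
      have f0 := TF_fani_le l i (i + v)
      have e1 : l.size - TF_fani l i (i + v) + 1 + r.size =
          l.size + r.size + 1 - (0 + TF_fani l i (i + v) + 0) := by omega
      have e2 : l.size - v + r.size + 1 = l.size + r.size + 1 - v := by omega
      rw [e1, e2] at this
      exact this
    · subst h
      rw [if_pos (by omega)]
      have s1 := (TF_B l i).left r
      have s2 := (TF_A r (i + l.size + 1)).right (rcomb l.size)
      have := s1.trans s2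
      have f0 := TF_fani_le l i (i + l.size + 1)
      have f1 := TF_fani_le r (i + l.size + 1) (i + l.size + 1)
      have e1 : l.size - TF_fani l i (i + l.size + 1) + (r.size - TF_fani r (i + l.size + 1) (i + l.size + 1)) =
          l.size + r.size + 1 - (1 + TF_fani l i (i + (l.size + 1)) +
            TF_fani r (i + l.size + 1) (i + (l.size + 1))) := by
        rw [← add_assoc i l.size 1]
        omega
      have e2 : r.size = l.size + r.size + 1 - (l.size + 1) := by omega
      have e3 : l.size = l.size + 1 - 1 := by omega
      rw [← e3, ← e2]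
      rw [e1] at this
      exact this
    · obtain ⟨v', rfl⟩ : ∃ v', v = l.size + 1 + v' := ⟨v - (l.size + 1), by omega⟩
      rw [if_neg (by omega), TF_fani_zero l i (i + (l.size + 1 + v')) (by omega)]
      have s1 := (ihr (i + l.size + 1) v' (by omega)).right l
      have hf' : fanTree r.size v' = .node (rcomb (v' - 1)) (lcomb (r.size - v')) := by
        unfold fanTree
        rw [if_neg (by omega), if_neg (by omega)]
      rw [hf'] at s1
      have s2 : Path 1 (.node l (.node (rcomb (v' - 1)) (lcomb (r.size - v'))))
          (.node (.node l (rcomb (v' - 1))) (lcomb (r.size - v'))) := Path.one (Rot.left _ _ _)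
      have s3 := (TF_B1 l (v' - 1)).left (lcomb (r.size - v'))
      have := (s1.trans s2).trans s3
      have f0 := TF_fani_le r (i + l.size + 1) (i + l.size + 1 + v')
      have e0 : i + (l.size + 1 + v') = i + l.size + 1 + v' := by omega
      rw [e0]
      have e1 : r.size - TF_fani r (i + l.size + 1) (i + l.size + 1 + v') + 1 + l.size =
          l.size + r.size + 1 - (0 + 0 + TF_fani r (i + l.size + 1) (i + l.size + 1 + v')) := by omega
      have e2 : r.size - v' = l.size + r.size + 1 - (l.size + 1 + v') := by omega
      have e3 : v' - 1 + l.size + 1 = l.size + 1 + v' - 1 := by omega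
      rw [e1, e2, e3] at this
      exact this

/-- PROOF: we need exactly `size - fan` rotations.
(A) `v = 0`: by induction on `t`: for `t = node l r`: rotate `l` to `lcomb |l|`
(`|l| - fan l 0` rotations), then `node (lcomb a) r → lcomb (a + |r| + 1)` with `|r|` rotations
(lemma by induction on `r`'s size, generalizing `a`: `node A (node b c) → node (node A b) c` is one
rotation, then treat `node A b` (`|b|` rotations, result a left comb) and then `c` (`|c|`
rotations)).  The triangles at `0` are the root triangle and those of `l` at `0`, so
`size - fan t 0 = |l| + |r| + 1 - (1 + fan l 0)`.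
(B) `v = size+1`: mirror image.
(C) `1 ≤ v ≤ size`, by induction on `t = node l r`, `m = |l|+1` the root key:
 `v = m`: rotate `l` to `rcomb`, `r` to `lcomb` by (B), (A); all triangles at `v`: the root, those of `l`
 at its right end, those of `r` at its left end.
 `v < m`: rotate `l` to `fanTree |l| v = node (rcomb (v-1)) (lcomb (|l|-v))` (induction), one rotation to
 `node (rcomb (v-1)) (node (lcomb ..) r)`, then `|r|` rotations to make the right part a left comb.
 Total `(|l| - fan l v) + 1 + |r| = size - fan t v` (the root triangle and the triangles of `r` do not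
 contain `v`).
 `v > m`: mirror image.
It may be convenient to prove everything for triangle sets at an arbitrary offset `i`. -/
theorem path_fan (t : BT) (v : ℕ) (hv : v ≤ t.size + 1) :
    Path (t.size - fan t v) t (fanTree t.size v) := by
  have := TF_main t 0 v hv
  rw [zero_add] at this
  exact this

end RTD
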