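import Pool.Agent.RTD.RS5
import Pool.Agent.RTD.TF

/-! RTD row GR: the algorithm always has a run. -/

namespace RTD

private theorem GR_parts {S T : BT} (h : T.size = S.size)
    (ih : ∀ m < S.size, ∀ A B : BT, B.size = A.size → A.size = m → ∃ c, Greedy A B c)
    {x z : ℕ} (hS : (x, z) ∈ S.cl 0) (hT : (x, z) ∈ T.cl 0) (hne : (x, z) ≠ (0, S.size + 1)) :
    (∃ c, Greedy (S.inn x z) (T.inn x z) c) ∧ (∃ c, Greedy (S.out x z) (T.out x z) c) := by
  obtain ⟨a1, a2, a3, a4⟩ := size_parts S x z hS hne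
  obtain ⟨b1, b2, b3, b4⟩ := size_parts T x z hT (by rw [h]; exact hne)
  exact ⟨ih _ (by omega : (S.inn x z).size < S.size) (S.inn x z) (T.inn x z) (by omega) rfl,
    ih _ (by omega : (S.out x z).size < S.size) (S.out x z) (T.out x z) (by omega) rfl⟩

/-- PROOF: strong induction on `S.size`.  `S.size ≤ 1`: `small`.  If there is a common clade
`(x,z) ≠ (0,size+1)`: `split` with the induction hypothesis for inside and outside
(`size_parts`: both parts are smaller, and the sizes of the parts of `S` and `T` agree).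
Otherwise, if there is a rotation `S → S'` and a common clade `(x,z) ≠ (0,size+1)` of `S'` and `T`
(then it is not a clade of `S`): `rotL`; the same for `T`: `rotR` (`rot_size`).  Otherwise
`Reduced S T`, choose `v ≤ size+1` with the largest `fan S v + fan T v`
(`Finset.exists_max_image`). -/
theorem greedy_exists (S T : BT) (h : T.size = S.size) : ∃ c, Greedy S T c := by
  induction hn : S.size using Nat.strong_induction_on generalizing S T with
  | _ n ih =>
    subst hn
    by_cases h1 : S.size ≤ 1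
    · exact ⟨0, Greedy.small S T h1⟩
    by_cases hA : ∃ x z, (x, z) ∈ S.cl 0 ∧ (x, z) ∈ T.cl 0 ∧ (x, z) ≠ (0, S.size + 1)
    · obtain ⟨x, z, hS, hT, hne⟩ := hA
      obtain ⟨⟨c, hc⟩, ⟨c', hc'⟩⟩ := GR_parts h ih hS hT hne
      exact ⟨_, Greedy.split S T x z c c' hS hT hne hc hc'⟩
    push Not at hA
    by_cases hB : ∃ S', Rot S S' ∧ ∃ x z, (x, z) ∈ S'.cl 0 ∧ (x, z) ∈ T.cl 0 ∧
        (x, z) ≠ (0, S.size + 1)
    · obtain ⟨S', hr, x, z, hS, hT, hne⟩ := hB
      have hs := rot_size hr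
      obtain ⟨⟨c, hc⟩, ⟨c', hc'⟩⟩ := GR_parts (S := S') (T := T) (by rw [hs]; exact h)
        (by rw [hs]; exact ih) hS hT (by rw [hs]; exact hne)
      exact ⟨_, Greedy.rotL S S' T x z c c' hr (fun h2 => hne (hA x z h2 hT)) hS hT hc hc'⟩
    push Not at hB
    by_cases hC : ∃ T', Rot T T' ∧ ∃ x z, (x, z) ∈ S.cl 0 ∧ (x, z) ∈ T'.cl 0 ∧
        (x, z) ≠ (0, S.size + 1)
    · obtain ⟨T', hr, x, z, hS, hT, hne⟩ := hC
      have hs := rot_size hr
      obtain ⟨⟨c, hc⟩, ⟨c', hc'⟩⟩ := GR_parts (S := S) (T := T') (by rw [hs]; exact h) ih hS hT hne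
      exact ⟨_, Greedy.rotR S T T' x z c c' hr (fun h2 => hne (hA x z hS h2)) hT hS hc hc'⟩
    push Not at hC
    obtain ⟨v, hv, hmax⟩ := Finset.exists_max_image (Finset.range (S.size + 2))
      (fun v => fan S v + fan T v) ⟨0, by simp⟩
    refine ⟨_, Greedy.base S T v (by omega) ⟨hA, fun S' hr x z k1 k2 => hB S' hr x z k1 k2,
      fun T' hr x z k1 k2 => hC T' hr x z k1 k2⟩ ?_ ?_⟩
    · have := Finset.mem_range.1 hv
      omega
    · intro v' hv'
      exact hmax v' (Finset.mem_range.2 (by omega))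

end RTD
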