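import Pool.Agent.RTD.RS1

/-! RTD row RS2: a rotation changes at most one of the inside and the outside. -/

namespace RTD

private theorem RS2_abc (L : ℕ → Bool) (a b c : BT) (i : ℕ)
    (h : a.restr L i = none ∨ b.restr L (i + a.size + 1) = none ∨
      c.restr L (i + a.size + 1 + b.size + 1) = none) :
    (BT.node (.node a b) c).restr L i = (BT.node a (.node b c)).restr L i := by
  have e : i + (a.size + b.size + 1) + 1 = i + a.size + 1 + b.size + 1 := by omega
  simp only [BT.restr, BT.size, e]
  rcases h with h | h | h
  · rw [h]
    rcases b.restr L (i + a.size + 1) with _ | b' <;>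
      rcases c.restr L (i + a.size + 1 + b.size + 1) with _ | c' <;> rfl
  · rw [h]
    rcases a.restr L i with _ | b' <;>
      rcases c.restr L (i + a.size + 1 + b.size + 1) with _ | c' <;> rfl
  · rw [h]
    rcases a.restr L i with _ | b' <;>
      rcases b.restr L (i + a.size + 1) with _ | c' <;> rfl

private theorem RS2_some (L : ℕ → Bool) (t : BT) (i : ℕ) (h : t.restr L i ≠ none) :
    ∃ g, i ≤ g ∧ g ≤ i + t.size ∧ L g = true := by
  by_contra hc
  push Not at hc
  exact h ((restr_none L t i).2 fun g h1 h2 => Bool.eq_false_iff.2 (hc g h1 h2))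

private theorem RS2_main (a b c : BT) (x z i : ℕ) :
    (BT.node (.node a b) c).restr (Lin x z) i = (BT.node a (.node b c)).restr (Lin x z) i ∨
    (BT.node (.node a b) c).restr (Lout x z) i = (BT.node a (.node b c)).restr (Lout x z) i := by
  by_cases ha : a.restr (Lin x z) i = none
  · exact Or.inl (RS2_abc _ a b c i (Or.inl ha))
  by_cases hc : c.restr (Lin x z) (i + a.size + 1 + b.size + 1) = none
  · exact Or.inl (RS2_abc _ a b c i (Or.inr (Or.inr hc)))
  right
  apply RS2_abc
  right; left
  obtain ⟨g1, h1, h2, h3⟩ := RS2_some _ _ _ ha
  obtain ⟨g2, k1, k2, k3⟩ := RS2_some _ _ _ hc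
  rw [restr_none]
  intro g hg hg'
  simp only [Lin, decide_eq_true_eq] at h3 k3
  simp only [Lout, decide_eq_false_iff_not, not_not]
  omega

/-- PROOF: induction on `h`, generalizing `i`.  `right a b c` (and `left a b c`): if the restriction
of one of `a`, `b`, `c` to `Lin x z` is `none` then the two `Lin` restrictions are equal.  Otherwise by
`restr_none` there are positions `g₁` of `a` and `g₂` of `c` with `x ≤ g₁ < z`, `x ≤ g₂ < z`; every
position `g` of `b` has `g₁ < g < g₂`, so `x ≤ g` and `g + 1 < z`, so `Lout x z g = false`, so the
`Lout` restriction of `b` is `none` and the two `Lout` restrictions are equal.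
`inl`, `inr`: from the induction hypothesis (`rot_size`). -/
theorem rot_inn_out {t t' : BT} (h : Rot t t') (x z i : ℕ) :
    t.restr (Lin x z) i = t'.restr (Lin x z) i ∨ t.restr (Lout x z) i = t'.restr (Lout x z) i := by
  induction h generalizing i with
  | right a b c => exact RS2_main a b c x z i
  | left a b c =>
    rcases RS2_main a b c x z i with h | h
    · exact Or.inl h.symm
    · exact Or.inr h.symm
  | @inl l l' r h ih =>
    have hs := rot_size h
    rcases ih i with h1 | h1
    · left
      simp only [BT.restr, h1, hs]
    · right
      simp only [BT.restr, h1, hs]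
  | @inr l r r' h ih =>
    rcases ih (i + l.size + 1) with h1 | h1
    · left
      simp only [BT.restr, h1]
    · right
      simp only [BT.restr, h1]

/-- all clades of `t` at offset `i`: PROOF: induction, `omega`. -/
theorem cl_bound (t : BT) (i x z : ℕ) (h : (x, z) ∈ t.cl i) :
    i ≤ x ∧ x + 2 ≤ z ∧ z ≤ i + t.size + 1 := by
  induction t generalizing i with
  | nil => simp [BT.cl] at h
  | node l r ihl ihr =>
    simp only [BT.cl, Finset.mem_insert, Finset.mem_union, Prod.mk.injEq] at h
    simp only [BT.size]
    rcases h with ⟨rfl, rfl⟩ | h | h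
    · omega
    · have := ihl i h
      omega
    · have := ihr _ h
      omega

/-- A rotation that creates the clade `(x, z)` changes neither the inside nor the outside.
PROOF: induction on `h`, generalizing `i`.  `right a b c`, `m1 = i+|a|+1`, `m3 = i+|a|+|b|+|c|+3`:
the only clade of `t'` that is not in `t` is `(m1, m3)` (the root clades are equal, and the clades of
`a`, `b`, `c` are in both), so `x = m1`, `z = m3`.  `Lin`: all positions of `a` are `< x`, so `a`
restricts to `none` and both sides are equal.  `Lout`: every position `g` of `b` has `x ≤ g`,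
`g + 1 < z`, so `b` restricts to `none`, and both sides are equal.
`left a b c`: `(x, z) = (i, m2)`, `m2 = i+|a|+|b|+2`; `Lin`: `c` restricts to `none`; `Lout`: `a`
restricts to `none`.
`inl r h`: `(x,z) ∈ l'.cl i`, `∉ l.cl i` (root clades equal as `|l| = |l'|`, `r.cl` the same), induction
hypothesis.  `inr` the same. -/
theorem rot_create {t t' : BT} (h : Rot t t') (x z i : ℕ) (h1 : (x, z) ∉ t.cl i)
    (h2 : (x, z) ∈ t'.cl i) :
    t.restr (Lin x z) i = t'.restr (Lin x z) i ∧
      t.restr (Lout x z) i = t'.restr (Lout x z) i := by
  induction h generalizing i with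
  | right a b c =>
    have e : i + (a.size + b.size + 1) + 1 = i + a.size + 1 + b.size + 1 := by omega
    simp only [BT.cl, BT.size, Finset.mem_insert, Finset.mem_union, Prod.mk.injEq, e] at h1 h2
    have hxz : x = i + a.size + 1 ∧ z = i + a.size + 1 + b.size + c.size + 2 := by
      push Not at h1
      rcases h2 with h2 | h2 | h2 | h2 | h2
      · exfalso
        apply h1.1 h2.1
        omega
      · exact absurd h2 h1.2.1.2.1
      · exact h2
      · exact absurd h2 h1.2.1.2.2
      · exact absurd h2 h1.2.2
    obtain ⟨rfl, rfl⟩ := hxz
    constructor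
    · apply RS2_abc
      left
      rw [restr_none]
      intro g hg hg'
      simp only [Lin, decide_eq_false_iff_not]
      omega
    · apply RS2_abc
      right; left
      rw [restr_none]
      intro g hg hg'
      simp only [Lout, decide_eq_false_iff_not, not_not]
      omega
  | left a b c =>
    have e : i + (a.size + b.size + 1) + 1 = i + a.size + 1 + b.size + 1 := by omega
    simp only [BT.cl, BT.size, Finset.mem_insert, Finset.mem_union, Prod.mk.injEq, e] at h1 h2
    have hxz : x = i ∧ z = i + a.size + b.size + 2 := by
      push Not at h1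
      rcases h2 with h2 | (h2 | h2 | h2) | h2
      · exfalso
        apply h1.1 h2.1
        omega
      · exact h2
      · exact absurd h2 h1.2.1
      · exact absurd h2 h1.2.2.2.1
      · exact absurd h2 h1.2.2.2.2
    obtain ⟨rfl, rfl⟩ := hxz
    constructor
    · symm
      apply RS2_abc
      right; right
      rw [restr_none]
      intro g hg hg'
      simp only [Lin, decide_eq_false_iff_not]
      omega
    · symm
      apply RS2_abc
      left
      rw [restr_none]
      intro g hg hg'
      simp only [Lout, decide_eq_false_iff_not, not_not]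
      omega
  | @inl l l' r h ih =>
    have hs := rot_size h
    simp only [BT.cl, Finset.mem_insert, Finset.mem_union, Prod.mk.injEq] at h1 h2
    rw [hs] at h2
    push Not at h1
    have h3 : (x, z) ∈ l'.cl i := by
      rcases h2 with h2 | h2 | h2
      · exact absurd h2.2 (h1.1 h2.1)
      · exact h2
      · exact absurd h2 h1.2.2
    obtain ⟨k1, k2⟩ := ih i h1.2.1 h3
    constructor
    · simp only [BT.restr, k1, hs]
    · simp only [BT.restr, k2, hs]
  | @inr l r r' h ih =>
    have hs := rot_size h
    simp only [BT.cl, Finset.mem_insert, Finset.mem_union, Prod.mk.injEq] at h1 h2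
    rw [hs] at h2
    push Not at h1
    have h3 : (x, z) ∈ r'.cl (i + l.size + 1) := by
      rcases h2 with h2 | h2 | h2
      · exact absurd h2.2 (h1.1 h2.1)
      · exact absurd h2 h1.2.1
      · exact h2
    obtain ⟨k1, k2⟩ := ih _ h1.2.2 h3
    constructor
    · simp only [BT.restr, k1]
    · simp only [BT.restr, k2]

end RTD
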