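import Pool.Agent.RTD.PA
import Pool.Agent.RTD.RS2

/-! RTD row RS3: splitting of rotation sequences. -/

namespace RTD

private theorem RS3_step {S S' : BT} (h : Rot S S') (L : ℕ → Bool) :
    (S.restr L 0).getD .nil = (S'.restr L 0).getD .nil ∨
      Rot ((S.restr L 0).getD .nil) ((S'.restr L 0).getD .nil) := by
  rcases rot_restr L h 0 with h1 | ⟨a, b, h1, h2, h3⟩
  · left
    rw [h1]
  · right
    rw [h1, h2]
    exact h3

private theorem RS3_one {S S' : BT} (h : Rot S S') (x z : ℕ) {n1 n2 : ℕ} {A B : BT}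
    (e1 : Path n1 (S'.inn x z) A) (e2 : Path n2 (S'.out x z) B) :
    ∃ m1 m2, m1 + m2 ≤ n1 + n2 + 1 ∧ Path m1 (S.inn x z) A ∧ Path m2 (S.out x z) B := by
  rcases rot_inn_out h x z 0 with h1 | h1
  · have h1' : S.inn x z = S'.inn x z := by unfold BT.inn; rw [h1]
    rcases RS3_step h (Lout x z) with h2 | h2
    · have h2' : S.out x z = S'.out x z := h2
      exact ⟨n1, n2, by omega, by rw [h1']; exact e1, by rw [h2']; exact e2⟩
    · have h2' : Rot (S.out x z) (S'.out x z) := h2
      exact ⟨n1, 1 + n2, by omega, by rw [h1']; exact e1, (Path.one h2').trans e2⟩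
  · have h1' : S.out x z = S'.out x z := by unfold BT.out; rw [h1]
    rcases RS3_step h (Lin x z) with h2 | h2
    · have h2' : S.inn x z = S'.inn x z := h2
      exact ⟨n1, n2, by omega, by rw [h2']; exact e1, by rw [h1']; exact e2⟩
    · have h2' : Rot (S.inn x z) (S'.inn x z) := h2
      exact ⟨1 + n1, n2, by omega, (Path.one h2').trans e1, by rw [h1']; exact e2⟩

/-- PROOF: induction on `n`, generalizing `S`.  First step `Rot S S'`: by `rot_restr` (with offset
`0`), `S.inn x z = S'.inn x z` or `Rot (S.inn x z) (S'.inn x z)`; the same for `out`; by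
`rot_inn_out` at least one of them is an equality. -/
theorem path_split {n : ℕ} {S T : BT} (h : Path n S T) (x z : ℕ) :
    ∃ n1 n2, n1 + n2 ≤ n ∧ Path n1 (S.inn x z) (T.inn x z) ∧ Path n2 (S.out x z) (T.out x z) := by
  induction n generalizing S with
  | zero =>
    have h0 := Path.zero_inv h
    subst h0
    exact ⟨0, 0, le_rfl, Path.refl _, Path.refl _⟩
  | succ n ih =>
    obtain ⟨S', h1, h2⟩ := Path.cons_inv h
    obtain ⟨n1, n2, h3, e1, e2⟩ := ih h2
    obtain ⟨m1, m2, h4, f1, f2⟩ := RS3_one h1 x z e1 e2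
    exact ⟨m1, m2, by omega, f1, f2⟩

/-- PROOF: induction on `n`, generalizing `S`.  `n = 0` is impossible.  First step `Rot S S'`: if
`(x,z) ∈ S'.cl 0` then by `rot_create` inside and outside do not change, use `path_split` for
`Path n S' T`.  Otherwise use the induction hypothesis for `S'` and the first step as in
`path_split`. -/
theorem path_split' {n : ℕ} {S T : BT} (h : Path n S T) (x z : ℕ) (hS : (x, z) ∉ S.cl 0)
    (hT : (x, z) ∈ T.cl 0) :
    ∃ n1 n2, n1 + n2 + 1 ≤ n ∧ Path n1 (S.inn x z) (T.inn x z) ∧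
      Path n2 (S.out x z) (T.out x z) := by
  induction n generalizing S with
  | zero =>
    have h0 := Path.zero_inv h
    subst h0
    exact absurd hT hS
  | succ n ih =>
    obtain ⟨S', h1, h2⟩ := Path.cons_inv h
    by_cases hS' : (x, z) ∈ S'.cl 0
    · obtain ⟨h5, h6⟩ := rot_create h1 x z 0 hS hS'
      obtain ⟨n1, n2, h3, e1, e2⟩ := path_split h2 x z
      have h5' : S.inn x z = S'.inn x z := by unfold BT.inn; rw [h5]
      have h6' : S.out x z = S'.out x z := by unfold BT.out; rw [h6]
      exact ⟨n1, n2, by omega, by rw [h5']; exact e1, by rw [h6']; exact e2⟩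
    · obtain ⟨n1, n2, h3, e1, e2⟩ := ih h2 hS'
      obtain ⟨m1, m2, h4, f1, f2⟩ := RS3_one h1 x z e1 e2
      exact ⟨m1, m2, by omega, f1, f2⟩

end RTD
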