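import Pool.Agent.RTD.RD
import Pool.Agent.RTD.RS3
import Pool.Agent.RTD.FA
import Pool.Agent.RTD.FR
import Pool.Agent.RTD.GR

/-! RTD row AP: the approximation guarantee. -/

namespace RTD

theorem AP_small_eq (S T : BT) (h1 : S.size ≤ 1) (h2 : T.size = S.size) : S = T := by
  have h0 : ∀ t : BT, t.size = 0 → t = BT.nil := by
    intro t ht
    cases t with
    | nil => rfl
    | node l r => simp [BT.size] at ht
  cases S with
  | nil =>
    cases T with
    | nil => rfl
    | node l r => simp [BT.size] at h2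
  | node l r =>
    simp only [BT.size] at h1 h2
    have a : l.size = 0 := by omega
    have b : r.size = 0 := by omega
    rw [h0 l a, h0 r b]
    cases T with
    | nil => simp [BT.size] at h2
    | node l' r' =>
      simp only [BT.size] at h2
      have a' : l'.size = 0 := by omega
      have b' : r'.size = 0 := by omega
      rw [h0 l' a', h0 r' b']

theorem AP_root_cl {S S' : BT} (h : Rot S S') : (0, S.size + 1) ∈ S.cl 0 := by
  have : ∀ l r : BT, (0, (BT.node l r).size + 1) ∈ (BT.node l r).cl 0 := by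
    intro l r
    simp only [BT.cl, BT.size, Finset.mem_insert]
    left
    simp
  cases h <;> exact this _ _

theorem AP_ne {S S' : BT} (h : Rot S S') {x z : ℕ} (h1 : (x, z) ∉ S.cl 0) :
    (x, z) ≠ (0, S.size + 1) := by
  intro h2
  rw [h2] at h1
  exact h1 (AP_root_cl h)

theorem AP_create {S S' : BT} (h : Rot S S') {x z : ℕ} (h1 : (x, z) ∉ S.cl 0)
    (h2 : (x, z) ∈ S'.cl 0) : S.inn x z = S'.inn x z ∧ S.out x z = S'.out x z := by
  obtain ⟨a, b⟩ := rot_create h x z 0 h1 h2
  unfold BT.inn BT.out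
  rw [a, b]
  exact ⟨rfl, rfl⟩

/-- The algorithm really gives a rotation sequence.
PROOF: induction on `Greedy`.  `small`: sizes `≤ 1`, `S = T`.  `split`: `path_join` (the sizes of the
parts agree by `size_parts`).  `rotL`: `Path.one`, `path_join` for `S'`, `Path.trans`.  `rotR`: the same
and `Rot.symm`, `Path.symm`.  `base`: `path_fan` for `S` and `T`, `Path.symm`, `Path.trans`. -/
theorem greedy_path (S T : BT) (c : ℕ) (h : Greedy S T c) (hs : T.size = S.size) :
    Path c S T := by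
  induction h with
  | small S T h1 =>
    rw [AP_small_eq S T h1 hs]
    exact Path.refl T
  | split S T x z c c' h1 h2 h3 g1 g2 ih1 ih2 =>
    obtain ⟨a1, a2, a3, a4⟩ := size_parts S x z h1 h3
    obtain ⟨b1, b2, b3, b4⟩ := size_parts T x z h2 (by rw [hs]; exact h3)
    exact path_join x z h1 h2 (ih1 (by omega)) (ih2 (by omega))
  | rotL S S' T x z c c' hr h1 h2 h3 g1 g2 ih1 ih2 =>
    have hne := AP_ne hr h1
    have hsz := rot_size hr
    obtain ⟨a1, a2, a3, a4⟩ := size_parts S' x z h2 (by rw [hsz]; exact hne)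
    obtain ⟨b1, b2, b3, b4⟩ := size_parts T x z h3 (by rw [hs]; exact hne)
    have := path_join x z h2 h3 (ih1 (by omega)) (ih2 (by omega))
    rw [add_assoc]
    exact (Path.one hr).trans this
  | rotR S T T' x z c c' hr h1 h2 h3 g1 g2 ih1 ih2 =>
    have hne := AP_ne hr h1
    have hsz := rot_size hr
    obtain ⟨a1, a2, a3, a4⟩ := size_parts S x z h3 (by rw [← hs]; exact hne)
    obtain ⟨b1, b2, b3, b4⟩ := size_parts T' x z h2 (by rw [hsz]; exact hne)
    have := path_join x z h3 h2 (ih1 (by omega)) (ih2 (by omega))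
    rw [add_assoc, add_comm 1]
    exact this.trans (Path.one hr.symm)
  | base S T v h1 h2 h3 h4 =>
    have a := path_fan S v h3
    have b := path_fan T v (by rw [hs]; exact h3)
    have b' := b.symm
    have e : fanTree T.size v = fanTree S.size v := by rw [hs]
    rw [e] at b'
    exact a.trans b'

theorem AP_fan_inn_le {S S' : BT} (h : Rot S S') {x z : ℕ} (h1 : (x, z) ∉ S.cl 0)
    (h2 : (x, z) ∈ S'.cl 0) (v : ℕ) : fan (S'.inn x z) v ≤ fan S (x + v) := by
  have hne := AP_ne h h1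
  have hsz := rot_size h
  have a := fan_inn S' x z v h2 (by rw [hsz]; exact hne)
  have b := fan_rot h x z (x + v) h1 h2
  obtain ⟨c1, c2, c3⟩ := cl_bound S' 0 x z h2
  split_ifs at a b with h5 h6 h7
  · omega
  · omega
  · exfalso; omega
  · omega

theorem AP_fan_out_le {S S' : BT} (h : Rot S S') {x z : ℕ} (h1 : (x, z) ∉ S.cl 0)
    (h2 : (x, z) ∈ S'.cl 0) (v : ℕ) :
    fan (S'.out x z) v ≤ fan S (if v ≤ x then v else v + (z - x - 1)) := by
  have a := fan_out S' x z v h2
  have b := fan_rot h x z (if v ≤ x then v else v + (z - x - 1)) h1 h2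
  obtain ⟨c1, c2, c3⟩ := cl_bound S' 0 x z h2
  by_cases hv : v ≤ x
  · simp only [hv, if_true] at a b ⊢
    split_ifs at a b with h5 h6 h7
    · omega
    · omega
    · exfalso; omega
    · omega
  · simp only [hv, if_false] at a b ⊢
    split_ifs at a b with h5 h6 h7
    · omega
    · omega
    · exfalso; omega
    · omega

/-- bounded fans: every rotation sequence has length at least `(4D+2)/(8D+3)` times the cost.
PROOF: induction on `Greedy`, generalizing `n`.
* `small`: `c = 0`.
* `split`: `path_split` gives `n1 + n2 ≤ n`; the fans of the parts are `≤ D` (`fan_inn`, `fan_out`); add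
  the two inequalities.
* `rotL`: `path_split'` for the path from `S` to `T` gives `n1 + n2 + 1 ≤ n` with
  `S.inn x z = S'.inn x z`, `S.out x z = S'.out x z` (`rot_create`); the fans of `S'.inn x z` are `≤ D`:
  `fan_inn` for `S'` and `fan_rot`: `fan (S'.inn x z) v + [v = 0 ∨ v = z-x] ≤ fan S' (x+v) ≤
  fan S (x+v) + [x + v = x ∨ x + v = z]`; the same for `fan_out`; `(x,z) ≠ (0,size+1)` because the
  root clade is a clade of `S` (`S.size ≥ 1` since it has a rotation).  `(4D+2)(1+c+c') ≤ (8D+3) (1 + n1 + n2)`.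
* `rotR`: the same for the reversed path.
* `base`: `c ≤ 2 q - 2` (`fan_pos`), `fan_bound`: `n + 1 = q + w`, `q + 1 + 2D ≤ (8D+3) w`, so
  `(4D+2)(2q-2) = (8D+4)(q-1) ≤ (8D+3)(q-1) + (8D+3) w = (8D+3) n`. -/
theorem greedy_bounded (S T : BT) (c D : ℕ) (h : Greedy S T c) (hs : T.size = S.size)
    (hS : ∀ v, fan S v ≤ D) (hT : ∀ v, fan T v ≤ D) (n : ℕ) (hp : Path n S T) :
    (4 * D + 2) * c ≤ (8 * D + 3) * n := by
  induction h generalizing n with
  | small S T h1 => simp
  | split S T x z c c' h1 h2 h3 g1 g2 ih1 ih2 =>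
    have h3' : (x, z) ≠ (0, T.size + 1) := by rw [hs]; exact h3
    obtain ⟨a1, a2, a3, a4⟩ := size_parts S x z h1 h3
    obtain ⟨b1, b2, b3, b4⟩ := size_parts T x z h2 h3'
    obtain ⟨n1, n2, hn, p1, p2⟩ := path_split hp x z
    have i1 := ih1 (by omega) (fun v => by have := fan_inn S x z v h1 h3; have := hS (x + v); omega)
      (fun v => by have := fan_inn T x z v h2 h3'; have := hT (x + v); omega) n1 p1
    have i2 := ih2 (by omega)
      (fun v => by
        have := fan_out S x z v h1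
        have := hS (if v ≤ x then v else v + (z - x - 1)); omega)
      (fun v => by
        have := fan_out T x z v h2
        have := hT (if v ≤ x then v else v + (z - x - 1)); omega) n2 p2
    calc (4 * D + 2) * (c + c') = (4 * D + 2) * c + (4 * D + 2) * c' := by ring
      _ ≤ (8 * D + 3) * n1 + (8 * D + 3) * n2 := add_le_add i1 i2
      _ = (8 * D + 3) * (n1 + n2) := by ring
      _ ≤ (8 * D + 3) * n := Nat.mul_le_mul_left _ hn
  | rotL S S' T x z c c' hr h1 h2 h3 g1 g2 ih1 ih2 =>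
    have hne := AP_ne hr h1
    have hsz := rot_size hr
    have hne' : (x, z) ≠ (0, T.size + 1) := by rw [hs]; exact hne
    obtain ⟨a1, a2, a3, a4⟩ := size_parts S' x z h2 (by rw [hsz]; exact hne)
    obtain ⟨b1, b2, b3, b4⟩ := size_parts T x z h3 hne'
    obtain ⟨n1, n2, hn, p1, p2⟩ := path_split' hp x z h1 h3
    obtain ⟨e1, e2⟩ := AP_create hr h1 h2
    rw [e1] at p1
    rw [e2] at p2
    have i1 := ih1 (by omega) (fun v => (AP_fan_inn_le hr h1 h2 v).trans (hS _))
      (fun v => by have := fan_inn T x z v h3 hne'; have := hT (x + v); omega) n1 p1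
    have i2 := ih2 (by omega) (fun v => (AP_fan_out_le hr h1 h2 v).trans (hS _))
      (fun v => by
        have := fan_out T x z v h3
        have := hT (if v ≤ x then v else v + (z - x - 1)); omega) n2 p2
    calc (4 * D + 2) * (1 + c + c') = (4 * D + 2) + (4 * D + 2) * c + (4 * D + 2) * c' := by ring
      _ ≤ (8 * D + 3) + (8 * D + 3) * n1 + (8 * D + 3) * n2 :=
        add_le_add (add_le_add (by omega) i1) i2
      _ = (8 * D + 3) * (n1 + n2 + 1) := by ring
      _ ≤ (8 * D + 3) * n := Nat.mul_le_mul_left _ hn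
  | rotR S T T' x z c c' hr h1 h2 h3 g1 g2 ih1 ih2 =>
    have hne := AP_ne hr h1
    have hsz := rot_size hr
    have hne' : (x, z) ≠ (0, S.size + 1) := by rw [← hs]; exact hne
    obtain ⟨a1, a2, a3, a4⟩ := size_parts S x z h3 hne'
    obtain ⟨b1, b2, b3, b4⟩ := size_parts T' x z h2 (by rw [hsz]; exact hne)
    obtain ⟨n1, n2, hn, p1, p2⟩ := path_split' hp.symm x z h1 h3
    obtain ⟨e1, e2⟩ := AP_create hr h1 h2
    rw [e1] at p1
    rw [e2] at p2
    have i1 := ih1 (by omega)
      (fun v => by have := fan_inn S x z v h3 hne'; have := hS (x + v); omega)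
      (fun v => (AP_fan_inn_le hr h1 h2 v).trans (hT _)) n1 p1.symm
    have i2 := ih2 (by omega)
      (fun v => by
        have := fan_out S x z v h3
        have := hS (if v ≤ x then v else v + (z - x - 1)); omega)
      (fun v => (AP_fan_out_le hr h1 h2 v).trans (hT _)) n2 p2.symm
    calc (4 * D + 2) * (1 + c + c') = (4 * D + 2) + (4 * D + 2) * c + (4 * D + 2) * c' := by ring
      _ ≤ (8 * D + 3) + (8 * D + 3) * n1 + (8 * D + 3) * n2 :=
        add_le_add (add_le_add (by omega) i1) i2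
      _ = (8 * D + 3) * (n1 + n2 + 1) := by ring
      _ ≤ (8 * D + 3) * n := Nat.mul_le_mul_left _ hn
  | base S T v h1 h2 h3 h4 =>
    obtain ⟨w, hw1, hw2⟩ := fan_bound S T n D h1 hs h2 hp hS hT
    have f1 := fan_pos S (by omega) v h3
    have f2 := fan_pos T (by omega) v (by rw [hs]; exact h3)
    rw [hs]
    obtain ⟨q, hq⟩ : ∃ q, S.size = q + 1 := ⟨S.size - 1, by omega⟩
    rw [hq] at hw1 hw2 ⊢
    have hn : n = q + w := by omega
    have hc : (q + 1 - fan S v) + (q + 1 - fan T v) ≤ 2 * q := by omega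
    calc (4 * D + 2) * ((q + 1 - fan S v) + (q + 1 - fan T v)) ≤ (4 * D + 2) * (2 * q) :=
          Nat.mul_le_mul_left _ hc
      _ = (8 * D + 3) * q + q := by ring
      _ ≤ (8 * D + 3) * q + (8 * D + 3) * w := by omega
      _ = (8 * D + 3) * n := by rw [hn]; ring

theorem AP_fan_zero (t : BT) (v : ℕ) (hv : t.size + 1 < v) : fan t v = 0 := by
  unfold fan
  rw [Finset.card_eq_zero, Finset.filter_eq_empty_iff]
  intro f hf hvf
  have := (tri_mem t 0 f hf).2 v hvf
  omega

theorem AP_arith (s q w M n c : ℕ) (hs1 : 1 ≤ s) (hq : q + 1 ≤ s ^ 2) (hn : n = q + w)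
    (hw : q + 1 + 1 + 2 * M ≤ (8 * M + 3) * w) (hc : c + M + 1 ≤ 2 * (q + 1)) (hM : 1 ≤ M) :
    4 * s * c ≤ (8 * s - 1) * n := by
  obtain ⟨s, rfl⟩ : ∃ s', s = s' + 1 := ⟨s - 1, by omega⟩
  have e : 8 * (s + 1) - 1 = 8 * s + 7 := by omega
  rw [e, hn]
  have hw1 : 1 ≤ w := by
    rcases Nat.eq_zero_or_pos w with h | h
    · subst h; omega
    · exact h
  rcases Nat.lt_or_ge M (s + 1) with h | h
  · have h1 : (8 * M + 3) * w ≤ (8 * s + 7) * w := Nat.mul_le_mul_right _ (by omega)
    have h2 : 4 * (s + 1) * c ≤ 4 * (s + 1) * (2 * q) := Nat.mul_le_mul_left _ (by omega)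
    calc 4 * (s + 1) * c ≤ 4 * (s + 1) * (2 * q) := h2
      _ = (8 * s + 7) * q + q := by ring
      _ ≤ (8 * s + 7) * q + (8 * s + 7) * w := by omega
      _ = (8 * s + 7) * (q + w) := by ring
  · have h2 : 4 * (s + 1) * (c + s) ≤ 4 * (s + 1) * (2 * q) := Nat.mul_le_mul_left _ (by omega)
    have h3 : (8 * s + 7) * (q + 1) ≤ (8 * s + 7) * (q + w) := Nat.mul_le_mul_left _ (by omega)
    nlinarith [h2, h3, hq]

/-- all pairs: PROOF: induction on `Greedy`, generalizing `n`; all steps as before (sizes of the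
parts are at most `S.size ≤ s^2`).  `base`: `q = S.size`, let `M` be the maximum of all `fan S v`,
`fan T v` (`M ≥ 1`); `c ≤ 2q - M - 1` (the maximizing `v` is at least as good as the vertex of the fan
`M`, whose fan in the other tree is `≥ 1`, `fan_pos`; a vertex with `fan ≥ 1` is `≤ q+1`), and by
`fan_bound` with `D = M`: `n + 1 = q + w`, `q + 1 + 2M ≤ (8M+3) w`.
If `M ≥ s`: `4 s c ≤ 4 s (2q - s - 1) ≤ (8 s - 1)(q - 1) ≤ (8s-1) n` because
`(8s-1)(q-1) - 4s(2q-s-1) = 4s^2 - 4s - q + 1 ≥ 3 s^2 - 4 s + 1 = (3s-1)(s-1) ≥ 0`.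
If `M ≤ s - 1`: `4 s c ≤ 8 s (q-1) = (8s-1)(q-1) + (q-1)` and
`q - 1 ≤ (8M+3) w ≤ (8s-1) w`, so `4 s c ≤ (8s-1)(q-1+w) = (8s-1) n`. -/
theorem greedy_all (S T : BT) (c s : ℕ) (h : Greedy S T c) (hs : T.size = S.size)
    (hs1 : 1 ≤ s) (hq : S.size ≤ s ^ 2) (n : ℕ) (hp : Path n S T) :
    4 * s * c ≤ (8 * s - 1) * n := by
  induction h generalizing n with
  | small S T h1 => simp
  | split S T x z c c' h1 h2 h3 g1 g2 ih1 ih2 =>
    have h3' : (x, z) ≠ (0, T.size + 1) := by rw [hs]; exact h3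
    obtain ⟨a1, a2, a3, a4⟩ := size_parts S x z h1 h3
    obtain ⟨b1, b2, b3, b4⟩ := size_parts T x z h2 h3'
    obtain ⟨n1, n2, hn, p1, p2⟩ := path_split hp x z
    have i1 := ih1 (by omega) (by omega) n1 p1
    have i2 := ih2 (by omega) (by omega) n2 p2
    calc 4 * s * (c + c') = 4 * s * c + 4 * s * c' := by ring
      _ ≤ (8 * s - 1) * n1 + (8 * s - 1) * n2 := add_le_add i1 i2
      _ = (8 * s - 1) * (n1 + n2) := by ring
      _ ≤ (8 * s - 1) * n := Nat.mul_le_mul_left _ hn
  | rotL S S' T x z c c' hr h1 h2 h3 g1 g2 ih1 ih2 =>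
    have hne := AP_ne hr h1
    have hsz := rot_size hr
    have hne' : (x, z) ≠ (0, T.size + 1) := by rw [hs]; exact hne
    obtain ⟨a1, a2, a3, a4⟩ := size_parts S' x z h2 (by rw [hsz]; exact hne)
    obtain ⟨b1, b2, b3, b4⟩ := size_parts T x z h3 hne'
    obtain ⟨n1, n2, hn, p1, p2⟩ := path_split' hp x z h1 h3
    obtain ⟨e1, e2⟩ := AP_create hr h1 h2
    rw [e1] at p1
    rw [e2] at p2
    have i1 := ih1 (by omega) (by omega) n1 p1
    have i2 := ih2 (by omega) (by omega) n2 p2
    calc 4 * s * (1 + c + c') = 4 * s + 4 * s * c + 4 * s * c' := by ring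
      _ ≤ (8 * s - 1) + (8 * s - 1) * n1 + (8 * s - 1) * n2 :=
        add_le_add (add_le_add (by omega) i1) i2
      _ = (8 * s - 1) * (n1 + n2 + 1) := by ring
      _ ≤ (8 * s - 1) * n := Nat.mul_le_mul_left _ hn
  | rotR S T T' x z c c' hr h1 h2 h3 g1 g2 ih1 ih2 =>
    have hne := AP_ne hr h1
    have hsz := rot_size hr
    have hne' : (x, z) ≠ (0, S.size + 1) := by rw [← hs]; exact hne
    obtain ⟨a1, a2, a3, a4⟩ := size_parts S x z h3 hne'
    obtain ⟨b1, b2, b3, b4⟩ := size_parts T' x z h2 (by rw [hsz]; exact hne)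
    obtain ⟨n1, n2, hn, p1, p2⟩ := path_split' hp.symm x z h1 h3
    obtain ⟨e1, e2⟩ := AP_create hr h1 h2
    rw [e1] at p1
    rw [e2] at p2
    have i1 := ih1 (by omega) (by omega) n1 p1.symm
    have i2 := ih2 (by omega) (by omega) n2 p2.symm
    calc 4 * s * (1 + c + c') = 4 * s + 4 * s * c + 4 * s * c' := by ring
      _ ≤ (8 * s - 1) + (8 * s - 1) * n1 + (8 * s - 1) * n2 :=
        add_le_add (add_le_add (by omega) i1) i2
      _ = (8 * s - 1) * (n1 + n2 + 1) := by ring
      _ ≤ (8 * s - 1) * n := Nat.mul_le_mul_left _ hn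
  | base S T v h1 h2 h3 h4 =>
    obtain ⟨v0, hv0, hmax⟩ := Finset.exists_max_image (Finset.range (S.size + 2))
      (fun v => max (fan S v) (fan T v)) ⟨0, by simp⟩
    rw [Finset.mem_range] at hv0
    have hSM : ∀ v, fan S v ≤ max (fan S v0) (fan T v0) := by
      intro v
      by_cases hv : v < S.size + 2
      · exact (le_max_left _ _).trans (hmax v (by rw [Finset.mem_range]; exact hv))
      · rw [AP_fan_zero S v (by omega)]
        exact Nat.zero_le _
    have hTM : ∀ v, fan T v ≤ max (fan S v0) (fan T v0) := by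
      intro v
      by_cases hv : v < S.size + 2
      · exact (le_max_right _ _).trans (hmax v (by rw [Finset.mem_range]; exact hv))
      · rw [AP_fan_zero T v (by omega)]
        exact Nat.zero_le _
    obtain ⟨w, hw1, hw2⟩ := fan_bound S T n _ h1 hs h2 hp hSM hTM
    have f1 := fan_pos S (by omega) v0 (by omega)
    have f2 := fan_pos T (by omega) v0 (by omega)
    have f3 := h4 v0 (by omega)
    have f4 := fan_le_size S v
    have f5 := fan_le_size T v
    rw [hs] at f5 ⊢
    obtain ⟨q, hq'⟩ : ∃ q, S.size = q + 1 := ⟨S.size - 1, by omega⟩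
    rw [hq'] at hw1 hw2 hq f4 f5 ⊢
    generalize hM : max (fan S v0) (fan T v0) = M at hw1 hw2
    have hM1 : M + 1 ≤ fan S v0 + fan T v0 := by
      rcases max_cases (fan S v0) (fan T v0) with ⟨h, _⟩ | ⟨h, _⟩ <;> omega
    have hM2 : 1 ≤ M := by
      rw [← hM]
      exact f1.trans (le_max_left _ _)
    apply AP_arith s q w M n _ hs1 hq (by omega) hw2 (by omega) hM2

end RTD
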