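import Pool.Agent.RTD.BT1

/-! RTD row BT3: a tree with `q` nodes has at least `q - 1` diagonals; a triangle has an edge which
is not a side. -/

namespace RTD

/-- the spans (outer edges of the subtrees) -/
def BT3_spn : BT → ℕ → Finset (Finset ℕ)
  | .nil, _ => ∅
  | .node l r, i =>
      insert {i, i + l.size + r.size + 2} (BT3_spn l i ∪ BT3_spn r (i + l.size + 1))

theorem BT3_shape (t : BT) (i : ℕ) (e : Finset ℕ) (he : e ∈ BT3_spn t i) :
    ∃ x y, e = {x, y} ∧ i ≤ x ∧ x + 2 ≤ y ∧ y ≤ i + t.size + 1 := by
  induction t generalizing i with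
  | nil => simp [BT3_spn] at he
  | node l r ihl ihr =>
    simp only [BT3_spn, Finset.mem_insert, Finset.mem_union] at he
    simp only [BT.size]
    rcases he with rfl | he | he
    · exact ⟨_, _, rfl, by omega, by omega, by omega⟩
    · obtain ⟨x, y, h, h1, h2, h3⟩ := ihl i he
      exact ⟨x, y, h, by omega, by omega, by omega⟩
    · obtain ⟨x, y, h, h1, h2, h3⟩ := ihr _ he
      exact ⟨x, y, h, by omega, by omega, by omega⟩

theorem BT3_edg (t : BT) (i : ℕ) : BT3_spn t i ⊆ edg (t.tri i) := by
  induction t generalizing i with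
  | nil => simp [BT3_spn]
  | node l r ihl ihr =>
    intro e he
    simp only [BT3_spn, Finset.mem_insert, Finset.mem_union] at he
    simp only [edg, Finset.mem_biUnion, Finset.mem_powersetCard, BT.tri, Finset.mem_insert,
      Finset.mem_union] at ihl ihr ⊢
    rcases he with rfl | he | he
    · refine ⟨_, Or.inl rfl, ?_, ?_⟩
      · intro v hv
        simp only [Finset.mem_insert, Finset.mem_singleton] at hv ⊢
        tauto
      · exact Finset.card_pair (by omega)
    · have := ihl i he
      simp only [edg, Finset.mem_biUnion, Finset.mem_powersetCard] at this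
      obtain ⟨f, hf, h⟩ := this
      exact ⟨f, Or.inr (Or.inl hf), h⟩
    · have := ihr (i + l.size + 1) he
      simp only [edg, Finset.mem_biUnion, Finset.mem_powersetCard] at this
      obtain ⟨f, hf, h⟩ := this
      exact ⟨f, Or.inr (Or.inr hf), h⟩

theorem BT3_card (t : BT) (i : ℕ) : (BT3_spn t i).card = t.size := by
  induction t generalizing i with
  | nil => simp [BT3_spn, BT.size]
  | node l r ihl ihr =>
    simp only [BT3_spn, BT.size]
    rw [Finset.card_insert_of_notMem, Finset.card_union_of_disjoint, ihl, ihr]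
    · rw [Finset.disjoint_left]
      intro e he he'
      obtain ⟨x, y, rfl, h1, h2, h3⟩ := BT3_shape l i e he
      obtain ⟨x', y', h, h1', h2', h3'⟩ := BT3_shape r _ _ he'
      have hx : x ∈ ({x', y'} : Finset ℕ) := by rw [← h]; simp
      simp only [Finset.mem_insert, Finset.mem_singleton] at hx
      omega
    · rw [Finset.mem_union, not_or]
      constructor
      · intro h
        obtain ⟨x, y, h, h1, h2, h3⟩ := BT3_shape l i _ h
        have hx : i + l.size + r.size + 2 ∈ ({x, y} : Finset ℕ) := by rw [← h]; simp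
        simp only [Finset.mem_insert, Finset.mem_singleton] at hx
        omega
      · intro h
        obtain ⟨x, y, h, h1, h2, h3⟩ := BT3_shape r _ _ h
        have hx : i ∈ ({x, y} : Finset ℕ) := by rw [← h]; simp
        simp only [Finset.mem_insert, Finset.mem_singleton] at hx
        omega

/-- number of diagonals.
PROOF: let `spn : BT → ℕ → Finset (Finset ℕ)` be `spn nil i = ∅`,
`spn (node l r) i = insert {i, i+|l|+|r|+2} (spn l i ∪ spn r (i+|l|+1))`.  By induction
(generalizing `i`): every `e ∈ spn t i` is `{x, y}` with `i ≤ x`, `x + 2 ≤ y`, `y ≤ i+size+1`;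
`spn t i ⊆ edg (t.tri i)`; `(spn t i).card = t.size`
(disjointness: the root span has both ends `i` and `i+size+1`; a span of `l` has all elements
`≤ i+|l|+1`, one of `r` has all elements `≥ i+|l|+1`).  An element of `spn t 0` different from
`{0, size+1}` is not in `sds t.size` (it is not of the form `{k,k+1}` because `x + 2 ≤ y`). So
`(spn t 0).erase {0, size+1}` is contained in the set on the right, and has card `≥ size - 1`. -/
theorem tri_diag (t : BT) :
    t.size ≤ ((edg (t.tri 0)).filter (fun e => e ∉ sds t.size)).card + 1 := by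
  have h1 : ((BT3_spn t 0).erase {0, t.size + 1}) ⊆
      (edg (t.tri 0)).filter (fun e => e ∉ sds t.size) := by
    intro e he
    rw [Finset.mem_erase] at he
    rw [Finset.mem_filter]
    refine ⟨BT3_edg t 0 he.2, ?_⟩
    intro hs
    simp only [sds, Finset.mem_insert, Finset.mem_image, Finset.mem_range] at hs
    rcases hs with hs | ⟨k, _, hs⟩
    · exact he.1 hs
    · obtain ⟨x, y, h, h1, h2, h3⟩ := BT3_shape t 0 e he.2
      rw [h] at hs
      have hx : x ∈ ({k, k + 1} : Finset ℕ) := by rw [hs]; simp
      have hy : y ∈ ({k, k + 1} : Finset ℕ) := by rw [hs]; simp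
      simp only [Finset.mem_insert, Finset.mem_singleton] at hx hy
      omega
  have h2 := Finset.card_le_card h1
  have h3 := Finset.pred_card_le_card_erase (s := BT3_spn t 0) (a := {0, t.size + 1})
  rw [BT3_card] at h3
  omega

/-- number of sides.
PROOF: `k ↦ {k,k+1}` is injective, and `{0,q+1}` is not of this form for `q ≥ 1`. -/
theorem sds_card (q : ℕ) (hq : 1 ≤ q) : (sds q).card = q + 2 := by
  unfold sds
  rw [Finset.card_insert_of_notMem, Finset.card_image_of_injective, Finset.card_range]
  · intro k j h
    have h' : ({k, k + 1} : Finset ℕ) = {j, j + 1} := h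
    have h1 : k ∈ ({j, j + 1} : Finset ℕ) := by rw [← h']; simp
    have h2 : j ∈ ({k, k + 1} : Finset ℕ) := by rw [h']; simp
    simp only [Finset.mem_insert, Finset.mem_singleton] at h1 h2
    omega
  · intro h
    simp only [Finset.mem_image, Finset.mem_range] at h
    obtain ⟨k, hk, h⟩ := h
    have h1 : 0 ∈ ({k, k + 1} : Finset ℕ) := by rw [h]; simp
    have h2 : q + 1 ∈ ({k, k + 1} : Finset ℕ) := by rw [h]; simp
    simp only [Finset.mem_insert, Finset.mem_singleton] at h1 h2
    omega

/-- for `q ≥ 2` a set of three numbers has a 2-subset which is not a side: if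
`x < y < z` then `{x,y}, {y,z}, {x,z}` all sides forces `y = x+1`, `z = y+1`, and `{x,z}` is a side
only for `x = 0`, `z = q+1`, i.e. `q = 1`. -/
theorem exists_not_side (q : ℕ) (hq : 2 ≤ q) (f : Finset ℕ) (hf : f.card = 3) :
    ∃ e, e.card = 2 ∧ e ⊆ f ∧ e ∉ sds q := by
  by_contra hc
  push Not at hc
  have H : ∀ u ∈ f, ∀ v ∈ f, u < v → v = u + 1 ∨ (u = 0 ∧ v = q + 1) := by
    intro u hu v hv huv
    have h := hc {u, v} (Finset.card_pair (by omega)) (by
      intro w hw
      simp only [Finset.mem_insert, Finset.mem_singleton] at hw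
      rcases hw with rfl | rfl <;> assumption)
    simp only [sds, Finset.mem_insert, Finset.mem_image, Finset.mem_range] at h
    rcases h with h | ⟨k, _, h⟩
    · right
      have h1 : u ∈ ({0, q + 1} : Finset ℕ) := by rw [← h]; simp
      have h2 : v ∈ ({0, q + 1} : Finset ℕ) := by rw [← h]; simp
      simp only [Finset.mem_insert, Finset.mem_singleton] at h1 h2
      omega
    · left
      have h1 : u ∈ ({k, k + 1} : Finset ℕ) := by rw [h]; simp
      have h2 : v ∈ ({k, k + 1} : Finset ℕ) := by rw [h]; simp
      simp only [Finset.mem_insert, Finset.mem_singleton] at h1 h2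
      omega
  obtain ⟨a, b, c, hab, hac, hbc, rfl⟩ := Finset.card_eq_three.mp hf
  have ha : a ∈ ({a, b, c} : Finset ℕ) := by simp
  have hb : b ∈ ({a, b, c} : Finset ℕ) := by simp
  have hc' : c ∈ ({a, b, c} : Finset ℕ) := by simp
  have h1 := H a ha b hb
  have h2 := H b hb a ha
  have h3 := H a ha c hc'
  have h4 := H c hc' a ha
  have h5 := H b hb c hc'
  have h6 := H c hc' b hb
  omega

end RTD
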