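import Pool.Agent.RTD.BT1

/-! RTD row BT4: a rotation is a flip. -/

namespace RTD

/-- a rotation does not change the number of nodes -/
theorem rot_size {t t' : BT} (h : Rot t t') : t'.size = t.size := by
  induction h with
  | right a b c => simp only [BT.size]; omega
  | left a b c => simp only [BT.size]; omega
  | inl r h ih => simp only [BT.size, ih]
  | inr l h ih => simp only [BT.size, ih]

private lemma BT4_sdiff (T1 T2 T3 T4 : Finset ℕ) (R : Finset (Finset ℕ)) (h1 : T1 ∉ R)
    (h2 : T2 ∉ R) (h13 : T1 ≠ T3) (h14 : T1 ≠ T4) (h23 : T2 ≠ T3)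
    (h24 : T2 ≠ T4) : insert T1 (insert T2 R) \ insert T3 (insert T4 R) = {T1, T2} := by
  ext x
  simp only [Finset.mem_sdiff, Finset.mem_insert, Finset.mem_singleton]
  constructor
  · tauto
  · rintro (rfl | rfl) <;> tauto

private lemma BT4_ne {A B : Finset ℕ} (x : ℕ) (h : x ∈ B) (h' : x ∉ A) : A ≠ B := by
  rintro rfl; exact h' h

private lemma BT4_base (i m1 m2 m3 : ℕ) (h1 : i < m1) (h2 : m1 < m2) (h3 : m2 < m3)
    (R A B : Finset (Finset ℕ)) (hR : ∀ f ∈ R, (∀ v ∈ f, i ≤ v ∧ v ≤ m1) ∨
      (∀ v ∈ f, m1 ≤ v ∧ v ≤ m2) ∨ (∀ v ∈ f, m2 ≤ v ∧ v ≤ m3))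
    (hA : A = insert {i, m1, m2} (insert {i, m2, m3} R))
    (hB : B = insert {i, m1, m3} (insert {m1, m2, m3} R)) :
    Flip A B ∧ Flip B A := by
  have n1 : ({i, m1, m2} : Finset ℕ) ∉ R := by
    intro h
    rcases hR _ h with h | h | h
    · have := h m2 (by simp); omega
    · have := h i (by simp); omega
    · have := h i (by simp); omega
  have n2 : ({i, m2, m3} : Finset ℕ) ∉ R := by
    intro h
    rcases hR _ h with h | h | h
    · have := h m2 (by simp); omega
    · have := h i (by simp); omega
    · have := h i (by simp); omega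
  have n3 : ({i, m1, m3} : Finset ℕ) ∉ R := by
    intro h
    rcases hR _ h with h | h | h
    · have := h m3 (by simp); omega
    · have := h i (by simp); omega
    · have := h i (by simp); omega
  have n4 : ({m1, m2, m3} : Finset ℕ) ∉ R := by
    intro h
    rcases hR _ h with h | h | h
    · have := h m3 (by simp); omega
    · have := h m3 (by simp); omega
    · have := h m1 (by simp); omega
  have e13 : ({i, m1, m2} : Finset ℕ) ≠ {i, m1, m3} :=
    BT4_ne m3 (by simp) (by simp; omega)
  have e14 : ({i, m1, m2} : Finset ℕ) ≠ {m1, m2, m3} :=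
    BT4_ne m3 (by simp) (by simp; omega)
  have e23 : ({i, m2, m3} : Finset ℕ) ≠ {i, m1, m3} :=
    BT4_ne m1 (by simp) (by simp; omega)
  have e24 : ({i, m2, m3} : Finset ℕ) ≠ {m1, m2, m3} :=
    BT4_ne m1 (by simp) (by simp; omega)
  have dAB : A \ B = {{i, m1, m2}, {i, m2, m3}} := by
    rw [hA, hB]; exact BT4_sdiff _ _ _ _ _ n1 n2 e13 e14 e23 e24
  have dBA : B \ A = {{i, m1, m3}, {m1, m2, m3}} := by
    rw [hA, hB]; exact BT4_sdiff _ _ _ _ _ n3 n4 e13.symm e23.symm e14.symm e24.symm
  constructor
  · exact ⟨i, m1, m2, m3, by omega, by omega, by omega, by omega, by omega, by omega, dAB, dBA⟩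
  · refine ⟨m1, m2, m3, i, by omega, by omega, by omega, by omega, by omega, by omega, ?_, ?_⟩
    · rw [dBA]
      have : ({i, m1, m3} : Finset ℕ) = {m1, m3, i} := by ext x; simp; tauto
      rw [this, Finset.pair_comm]
    · rw [dAB]
      have e1 : ({i, m1, m2} : Finset ℕ) = {m1, m2, i} := by ext x; simp; tauto
      have e2 : ({i, m2, m3} : Finset ℕ) = {m2, m3, i} := by ext x; simp; tauto
      rw [e1, e2]

private lemma BT4_R (a b c : BT) (i : ℕ) :
    ∀ f ∈ a.tri i ∪ (b.tri (i + a.size + 1) ∪ c.tri (i + a.size + 1 + b.size + 1)),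
      (∀ v ∈ f, i ≤ v ∧ v ≤ i + a.size + 1) ∨
      (∀ v ∈ f, i + a.size + 1 ≤ v ∧ v ≤ i + a.size + 1 + b.size + 1) ∨
      (∀ v ∈ f, i + a.size + 1 + b.size + 1 ≤ v ∧
        v ≤ i + a.size + 1 + b.size + 1 + c.size + 1) := by
  intro f hf
  simp only [Finset.mem_union] at hf
  rcases hf with hf | hf | hf
  · exact Or.inl (tri_mem a _ f hf).2
  · exact Or.inr (Or.inl (tri_mem b _ f hf).2)
  · exact Or.inr (Or.inr (tri_mem c _ f hf).2)

private lemma BT4_both (a b c : BT) (i : ℕ) :
    Flip ((BT.node (.node a b) c).tri i) ((BT.node a (.node b c)).tri i) ∧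
    Flip ((BT.node a (.node b c)).tri i) ((BT.node (.node a b) c).tri i) := by
  refine BT4_base i (i + a.size + 1) (i + a.size + 1 + b.size + 1)
    (i + a.size + 1 + b.size + 1 + c.size + 1) (by omega) (by omega) (by omega) _ _ _
    (BT4_R a b c i) ?_ ?_
  · simp only [BT.tri, BT.size]
    have e1 : i + (a.size + b.size + 1) + 1 = i + a.size + 1 + b.size + 1 := by omega
    have e2 : i + (a.size + b.size + 1) + c.size + 2 = i + a.size + 1 + b.size + 1 + c.size + 1 := by
      omega
    have e3 : i + a.size + b.size + 2 = i + a.size + 1 + b.size + 1 := by omega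
    rw [e1, e2, e3]
    ext x
    simp only [Finset.mem_insert, Finset.mem_union]
    tauto
  · simp only [BT.tri, BT.size]
    have e1 : i + a.size + (b.size + c.size + 1) + 2 =
        i + a.size + 1 + b.size + 1 + c.size + 1 := by omega
    have e2 : i + a.size + 1 + b.size + c.size + 2 =
        i + a.size + 1 + b.size + 1 + c.size + 1 := by omega
    rw [e1, e2]
    ext x
    simp only [Finset.mem_insert, Finset.mem_union]
    tauto

private lemma BT4_disj (l r : BT) (i : ℕ) (f : Finset ℕ) (hl : f ∈ l.tri i)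
    (hr : f ∈ r.tri (i + l.size + 1)) : False := by
  have h1 := tri_mem l i f hl
  have h2 := tri_mem r _ f hr
  have : f ⊆ {i + l.size + 1} := by
    intro v hv
    have := h1.2 v hv
    have := h2.2 v hv
    simp; omega
  have := Finset.card_le_card this
  rw [h1.1] at this
  simp at this

private lemma BT4_ext {A A' B B' : Finset (Finset ℕ)} (h : Flip A A') (h1 : A \ A' = B \ B')
    (h2 : A' \ A = B' \ B) : Flip B B' := by
  obtain ⟨x, y, z, w, a1, a2, a3, a4, a5, a6, a7, a8⟩ := h
  exact ⟨x, y, z, w, a1, a2, a3, a4, a5, a6, h1 ▸ a7, h2 ▸ a8⟩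

/-- a rotation is a flip of the triangulation.
PROOF: induction on `h`, generalizing `i`.
* `right a b c`: put `m1 = i+|a|+1`, `m2 = m1+|b|+1`, `m3 = m2+|c|+1`.
  `t.tri i = {{i,m2,m3}, {i,m1,m2}} ∪ R`, `t'.tri i = {{i,m1,m3}, {m1,m2,m3}} ∪ R` with
  `R = a.tri i ∪ b.tri m1 ∪ c.tri m2`.  None of the four triangles is in `R` (`tri_mem`: elements of
  `a.tri i` live in `[i,m1]`, of `b.tri m1` in `[m1,m2]`, of `c.tri m2` in `[m2,m3]`), and the four
  triangles are different.  Take `x = i, y = m1, z = m2, w = m3`.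
* `left a b c`: the same with the roles exchanged: `x = m1, y = m2, z = m3, w = i`.
* `inl r h`: `(node l r).tri i \ (node l' r).tri i = l.tri i \ l'.tri i`, because `|l| = |l'|` and a
  triangle of `l.tri i` is neither in `r.tri (i+|l|+1)` nor the root triangle (`tri_mem`).
* `inr l h`: the same. -/
theorem rot_flip {t t' : BT} (h : Rot t t') (i : ℕ) : Flip (t.tri i) (t'.tri i) := by
  induction h generalizing i with
  | right a b c => exact (BT4_both a b c i).1
  | left a b c => exact (BT4_both a b c i).2
  | @inl l l' r h ih =>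
    have hs := rot_size h
    refine BT4_ext (ih i) ?_ ?_
    · simp only [BT.tri, hs]
      ext x
      simp only [Finset.mem_sdiff, Finset.mem_insert, Finset.mem_union]
      constructor
      · rintro ⟨hx, hx'⟩
        refine ⟨Or.inr (Or.inl hx), ?_⟩
        rintro (rfl | h | h)
        · have := (tri_mem l i _ hx).2 (i + l.size + r.size + 2) (by simp)
          omega
        · exact hx' h
        · exact BT4_disj l r i x hx h
      · tauto
    · simp only [BT.tri, hs]
      ext x
      simp only [Finset.mem_sdiff, Finset.mem_insert, Finset.mem_union]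
      constructor
      · rintro ⟨hx, hx'⟩
        refine ⟨Or.inr (Or.inl hx), ?_⟩
        rintro (rfl | h | h)
        · have := (tri_mem l' i _ hx).2 (i + l.size + r.size + 2) (by simp)
          omega
        · exact hx' h
        · exact BT4_disj l' r i x hx (by rw [hs]; exact h)
      · tauto
  | @inr l r r' h ih =>
    have hs := rot_size h
    refine BT4_ext (ih (i + l.size + 1)) ?_ ?_
    · simp only [BT.tri, hs]
      ext x
      simp only [Finset.mem_sdiff, Finset.mem_insert, Finset.mem_union]
      constructor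
      · rintro ⟨hx, hx'⟩
        refine ⟨Or.inr (Or.inr hx), ?_⟩
        rintro (rfl | h | h)
        · have := (tri_mem r _ _ hx).2 i (by simp)
          omega
        · exact BT4_disj l r i x h hx
        · exact hx' h
      · tauto
    · simp only [BT.tri, hs]
      ext x
      simp only [Finset.mem_sdiff, Finset.mem_insert, Finset.mem_union]
      constructor
      · rintro ⟨hx, hx'⟩
        refine ⟨Or.inr (Or.inr hx), ?_⟩
        rintro (rfl | h | h)
        · have := (tri_mem r' _ _ hx).2 i (by simp)
          omega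
        · exact BT4_disj l r' i x h hx
        · exact hx' h
      · tauto

end RTD
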