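import Pool.Agent.RTD.TY

/-! RTD row LK: two linked direct steps. -/

namespace RTD

open Finset

variable {q n : ℕ} {F : ℕ → Finset (Finset ℕ)} {Sd : Finset (Finset ℕ)}

/-- two different triangles of one triangulation do not share a side -/
theorem not_side_of_two (hc : Cfg q n F Sd) {i : ℕ} (hi : i ≤ n) {f g e : Finset ℕ}
    (hf : f ∈ F i) (hg : g ∈ F i) (hfg : f ≠ g) (h1 : e ⊆ f) (h2 : e ⊆ g) : e ∉ Sd :=
  fun h => hfg (hc.side i hi e h f hf g hg h1 h2)

private theorem LK_edg {A : Finset (Finset ℕ)} {f : Finset ℕ} (hf : f ∈ A) {u v : ℕ} (huv : u ≠ v)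
    (hu : u ∈ f) (hv : v ∈ f) : ({u, v} : Finset ℕ) ∈ edg A := by
  refine Finset.mem_biUnion.2 ⟨f, hf, Finset.mem_powersetCard.2 ⟨?_, Finset.card_pair huv⟩⟩
  intro x hx
  rcases Finset.mem_insert.1 hx with h | h
  · exact h ▸ hu
  · exact (Finset.mem_singleton.1 h) ▸ hv

private theorem LK_orig {i : ℕ} {f : Finset ℕ} (h : f ∈ orig F i) : f ∈ F 0 :=
  by simp only [orig, Finset.mem_filter] at h; exact h.2 0 (Nat.zero_le i)

private theorem LK_fin {i : ℕ} (hi : i < n) {f : Finset ℕ} (h : f ∈ fin F n i) : f ∈ F n :=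
  by simp only [fin, Finset.mem_filter] at h; exact h.2 n hi le_rfl

/-- Let `i < j` be direct steps with the data `(p,p',a,b)` and `(r,r',c,d)`, and let the
non-original triangle `{r',c,d}` of step `j` be the non-final new triangle `{p,a,b}` of step `i`.
PROOF.  Facts: `{p,p',a} ∈ F 0` and `{r,r',c} ∈ F 0` (orig), `{p,p',b} ∈ F n`, `{r,r',d} ∈ F n`
(fin).  `{r',c,d}` is a permutation of `{p,a,b}` (all distinct): six cases.
1. `c = a, d = b` : second alternative.
2. `c = p, d = b, r' = a`: third alternative: `{a,b} = {r',d} ⊆ {r,r',d} ∈ F n`,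
   `{c,d} = {p,b} ⊆ {p,p',b} ∈ F n`.
3. `c = a, d = p, r' = b`: the edge `{b,a} = {r',c}` lies in the two different triangles
   `{r,r',c}`, `{r',c,d}` of `F j`, so it is not in `Sd` (`not_side_of_two`); it is in `edg (F 0)`,
   so by `hc.com` not in `edg (F n)`.  `{c,d} = {a,p} ∈ edg (F 0)`; if it is in `Sd`: first
   alternative; otherwise it is not in `edg (F n)` (`hc.com`): fourth alternative.
4. `c = b, d = p, r' = a`: `{a,p} = {r',d} ∈ edg (F n)` and `{a,p} ∈ edg (F 0)`, so `{a,p} ∈ Sd`: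
   first alternative.
5. `c = b, d = a, r' = p` and 6. `c = p, d = a, r' = b`: `{p,b} = {r',c} ∈ edg (F 0)` and
   `{p,b} ∈ edg (F n)`, so `{p,b} ∈ Sd`; but `{p,b}` lies in the two different triangles
   `{p,p',b}`, `{p,a,b}` of `F (i+1)`: contradiction with `not_side_of_two`. -/
theorem link (hc : Cfg q n F Sd) {i j : ℕ} (hi : i < n) (hj : j < n) {p p' a b r r' c d : ℕ}
    (h1 : WData F n i Sd p p' a b) (h2 : WData F n j Sd r r' c d)
    (hX : ({r', c, d} : Finset ℕ) = {p, a, b}) :
    ({p, a} : Finset ℕ) ∈ Sd ∨ (c = a ∧ d = b) ∨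
    (d = b ∧ ({a, b} : Finset ℕ) ∈ edg (F n) ∧ ({c, d} : Finset ℕ) ∈ edg (F n)) ∨
    (c = a ∧ ({a, b} : Finset ℕ) ∈ edg (F 0) ∧ ({a, b} : Finset ℕ) ∉ edg (F n) ∧
      ({c, d} : Finset ℕ) ∈ edg (F 0) ∧ ({c, d} : Finset ℕ) ∉ edg (F n)) := by
  obtain ⟨hpp', hpa, hpb, hp'a, hp'b, hab, hSd, ho, hf, hd1, hd2⟩ := h1
  obtain ⟨hrr', hrc, hrd, hr'c, hr'd, hcd, hSd', ho', hf', hd1', hd2'⟩ := h2
  have A1 : ({p, p', a} : Finset ℕ) ∈ F 0 := LK_orig (i := i) (by rw [ho]; simp)
  have A2 : ({p, p', b} : Finset ℕ) ∈ F n := LK_fin hi (by rw [hf]; simp)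
  have B1 : ({r, r', c} : Finset ℕ) ∈ F 0 := LK_orig (i := j) (by rw [ho']; simp)
  have B2 : ({r, r', d} : Finset ℕ) ∈ F n := LK_fin hj (by rw [hf']; simp)
  have key : ({p, b} : Finset ℕ) ∉ Sd := by
    have e1 : ({p, p', b} : Finset ℕ) ∈ F (i + 1) := by
      have : ({p, p', b} : Finset ℕ) ∈ F (i + 1) \ F i := by rw [hd2]; simp
      exact (Finset.mem_sdiff.1 this).1
    have e2 : ({p, a, b} : Finset ℕ) ∈ F (i + 1) := by
      have : ({p, a, b} : Finset ℕ) ∈ F (i + 1) \ F i := by rw [hd2]; simp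
      exact (Finset.mem_sdiff.1 this).1
    refine not_side_of_two hc (i := i + 1) hi e1 e2 ?_ ?_ ?_
    · intro h
      have : p' ∈ ({p, a, b} : Finset ℕ) := by rw [← h]; simp
      simp only [Finset.mem_insert, Finset.mem_singleton] at this
      rcases this with h | h | h
      · exact hpp' h.symm
      · exact hp'a h
      · exact hp'b h
    · intro x hx
      simp only [Finset.mem_insert, Finset.mem_singleton] at hx ⊢
      tauto
    · intro x hx
      simp only [Finset.mem_insert, Finset.mem_singleton] at hx ⊢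
      tauto
  have mr : r' ∈ ({p, a, b} : Finset ℕ) := by rw [← hX]; simp
  have mc : c ∈ ({p, a, b} : Finset ℕ) := by rw [← hX]; simp
  have md : d ∈ ({p, a, b} : Finset ℕ) := by rw [← hX]; simp
  simp only [Finset.mem_insert, Finset.mem_singleton] at mr mc md
  -- contradiction in the cases 5, 6
  have bad : ({p, b} : Finset ℕ) ∈ edg (F 0) → False := fun h =>
    key (hc.com _ h (LK_edg A2 hpb (by simp) (by simp)))
  rcases mr with hr | hr | hr <;> rcases mc with hcc | hcc | hcc <;>
    rcases md with hdd | hdd | hdd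
  all_goals first
    | exact absurd (hr.trans hcc.symm) hr'c
    | exact absurd (hr.trans hdd.symm) hr'd
    | exact absurd (hcc.trans hdd.symm) hcd
    | skip
  · -- r' = p, c = a, d = b
    exact Or.inr (Or.inl ⟨hcc, hdd⟩)
  · -- r' = p, c = b, d = a
    exfalso
    apply bad
    have := LK_edg B1 hr'c (by simp) (by simp)
    rwa [hr, hcc] at this
  · -- r' = a, c = p, d = b
    refine Or.inr (Or.inr (Or.inl ⟨hdd, ?_, ?_⟩))
    · have := LK_edg B2 hr'd (by simp) (by simp)
      rwa [hr, hdd] at this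
    · rw [hcc, hdd]
      exact LK_edg A2 hpb (by simp) (by simp)
  · -- r' = a, c = b, d = p
    left
    have e1 := LK_edg B2 hr'd (by simp) (by simp)
    rw [hr, hdd, Finset.pair_comm] at e1
    exact hc.com _ (LK_edg A1 hpa (by simp) (by simp)) e1
  · -- r' = b, c = p, d = a
    exfalso
    apply bad
    have := LK_edg B1 hr'c (by simp) (by simp)
    rw [hr, hcc, Finset.pair_comm] at this
    exact this
  · -- r' = b, c = a, d = p
    by_cases hs : ({p, a} : Finset ℕ) ∈ Sd
    · exact Or.inl hs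
    · have f1 : ({r, r', c} : Finset ℕ) ∈ F j := by
        have : ({r, r', c} : Finset ℕ) ∈ F j \ F (j + 1) := by rw [hd1']; simp
        exact (Finset.mem_sdiff.1 this).1
      have f2 : ({r', c, d} : Finset ℕ) ∈ F j := by
        have : ({r', c, d} : Finset ℕ) ∈ F j \ F (j + 1) := by rw [hd1']; simp
        exact (Finset.mem_sdiff.1 this).1
      have f3 : ({r', c} : Finset ℕ) ∉ Sd := by
        refine not_side_of_two hc (i := j) hj.le f1 f2 ?_ ?_ ?_
        · intro h
          have : r ∈ ({r', c, d} : Finset ℕ) := by rw [← h]; simp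
          simp only [Finset.mem_insert, Finset.mem_singleton] at this
          rcases this with h | h | h
          · exact hrr' h
          · exact hrc h
          · exact hrd h
        · intro x hx
          simp only [Finset.mem_insert, Finset.mem_singleton] at hx ⊢
          tauto
        · intro x hx
          simp only [Finset.mem_insert, Finset.mem_singleton] at hx ⊢
          tauto
      have g1 : ({r', c} : Finset ℕ) ∈ edg (F 0) := LK_edg B1 hr'c (by simp) (by simp)
      have g2 : ({r', c} : Finset ℕ) ∉ edg (F n) := fun h => f3 (hc.com _ g1 h)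
      have hba : ({r', c} : Finset ℕ) = {a, b} := by rw [hr, hcc, Finset.pair_comm]
      have hcd' : ({c, d} : Finset ℕ) = {p, a} := by rw [hcc, hdd, Finset.pair_comm]
      have g3 : ({p, a} : Finset ℕ) ∈ edg (F 0) := LK_edg A1 hpa (by simp) (by simp)
      refine Or.inr (Or.inr (Or.inr ⟨hcc, ?_, ?_, ?_, ?_⟩))
      · rw [← hba]; exact g1
      · rw [← hba]; exact g2
      · rw [hcd']; exact g3
      · rw [hcd']; exact fun h => hs (hc.com _ g3 h)

end RTD
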