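import Pool.Agent.RTD.Defs

/-! RTD row SI: counting sides. -/

namespace RTD

open Finset

variable {q n : ℕ} {F : ℕ → Finset (Finset ℕ)} {Sd : Finset (Finset ℕ)}

private lemma SI_orig {F : ℕ → Finset (Finset ℕ)} {i : ℕ} {f : Finset ℕ} (hf : f ∈ orig F i) :
    f ∈ F 0 ∧ f ∉ F (i + 1) ∧ ∀ j ≤ i, f ∈ F j := by
  unfold orig at hf
  rw [mem_filter, mem_sdiff] at hf
  exact ⟨hf.2 0 (Nat.zero_le _), hf.1.2, hf.2⟩

/-- PROOF: let `I` be the filtered set.  The map `i ↦ {p i, p' i}` on `W` and the map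
`i ↦ {p i, a i}` on `I` go to `Sd` (`Sd.card = q+2`).  Both sides are contained in
`f_i := {p i, p' i, a i}`, the only element of `orig F i`, in particular `f_i ∈ F 0`.  If two of
these sides, of the indices `i` and `j`, are equal then `f_i = f_j` by `hc.side 0`; if `i < j` this is
a contradiction: `f_i ∉ F (i+1)` but `f_j ∈ F (i+1)` as `i+1 ≤ j` (`orig`).  So `i = j`.  Finally
`{p i, p' i} ≠ {p i, a i}` as `p' i ≠ a i`.  So the two images are disjoint and both maps are
injective. -/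
theorem sides_count (hc : Cfg q n F Sd) (p p' a b : ℕ → ℕ)
    (hd : ∀ i ∈ W F n, WData F n i Sd (p i) (p' i) (a i) (b i)) :
    (W F n).card + ((W F n).filter (fun i => ({p i, a i} : Finset ℕ) ∈ Sd)).card ≤ q + 2 := by
  classical
  -- the original triangle of step `i`
  have horig : ∀ i ∈ W F n, ({p i, p' i, a i} : Finset ℕ) ∈ orig F i := by
    intro i hi
    obtain ⟨-, -, -, -, -, -, -, h, -⟩ := hd i hi
    rw [h]; exact mem_singleton_self _
  have hinj : ∀ i ∈ W F n, ∀ j ∈ W F n,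
      ({p i, p' i, a i} : Finset ℕ) = {p j, p' j, a j} → i = j := by
    intro i hi j hj h
    have hi' := SI_orig (horig i hi)
    have hj' := SI_orig (horig j hj)
    rcases lt_trichotomy i j with h1 | h1 | h1
    · exact absurd (h ▸ hj'.2.2 (i + 1) h1) hi'.2.1
    · exact h1
    · exact absurd (h ▸ hi'.2.2 (j + 1) h1) hj'.2.1
  -- two sides
  have key : ∀ i ∈ W F n, ∀ j ∈ W F n, ∀ σ ∈ Sd, σ ⊆ ({p i, p' i, a i} : Finset ℕ) →
      σ ⊆ ({p j, p' j, a j} : Finset ℕ) → i = j := by
    intro i hi j hj σ hσ h1 h2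
    exact hinj i hi j hj (hc.side 0 (Nat.zero_le _) σ hσ _ (SI_orig (horig i hi)).1 _
      (SI_orig (horig j hj)).1 h1 h2)
  have s1 : ∀ i, ({p i, p' i} : Finset ℕ) ⊆ {p i, p' i, a i} := by
    intro i v hv; simp at hv ⊢; tauto
  have s2 : ∀ i, ({p i, a i} : Finset ℕ) ⊆ {p i, p' i, a i} := by
    intro i v hv; simp at hv ⊢; tauto
  set I := (W F n).filter (fun i => ({p i, a i} : Finset ℕ) ∈ Sd) with hI
  have m1 : ∀ i ∈ W F n, ({p i, p' i} : Finset ℕ) ∈ Sd := by
    intro i hi
    obtain ⟨-, -, -, -, -, -, h, -⟩ := hd i hi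
    exact h
  have m2 : ∀ i ∈ I, i ∈ W F n ∧ ({p i, a i} : Finset ℕ) ∈ Sd := by
    intro i hi; exact mem_filter.mp hi
  have c1 : ((W F n).image (fun i => ({p i, p' i} : Finset ℕ))).card = (W F n).card := by
    apply card_image_of_injOn
    intro i hi j hj h
    simp only at h
    refine key i hi j hj _ (m1 i hi) (s1 i) ?_
    rw [h]; exact s1 j
  have c2 : (I.image (fun i => ({p i, a i} : Finset ℕ))).card = I.card := by
    apply card_image_of_injOn
    intro i hi j hj h
    simp only at h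
    refine key i (m2 i hi).1 j (m2 j hj).1 _ (m2 i hi).2 (s2 i) ?_
    rw [h]; exact s2 j
  have hdis : Disjoint ((W F n).image (fun i => ({p i, p' i} : Finset ℕ)))
      (I.image (fun i => ({p i, a i} : Finset ℕ))) := by
    rw [Finset.disjoint_left]
    intro σ h1 h2
    obtain ⟨i, hi, rfl⟩ := mem_image.mp h1
    obtain ⟨j, hj, h⟩ := mem_image.mp h2
    have hij : i = j := by
      refine key i hi j (m2 j hj).1 _ (m1 i hi) (s1 i) ?_
      rw [← h]; exact s2 j
    subst hij
    obtain ⟨-, h4, -, h5, -⟩ := hd i hi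
    have : p' i ∈ ({p i, a i} : Finset ℕ) := by rw [h]; simp
    simp only [mem_insert, mem_singleton] at this
    rcases this with h6 | h6
    · obtain ⟨h7, -⟩ := hd i hi
      exact h7 h6.symm
    · exact h5 h6
  rw [← c1, ← c2, ← card_union_of_disjoint hdis, ← hc.sd]
  apply card_le_card
  intro σ hσ
  rcases mem_union.mp hσ with h | h
  · obtain ⟨i, hi, rfl⟩ := mem_image.mp h
    exact m1 i hi
  · obtain ⟨i, hi, rfl⟩ := mem_image.mp h
    exact (m2 i hi).2

end RTD
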