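import Pool.Agent.RTD.TY

/-! RTD row WN: the shape of a direct step. -/

namespace RTD

open Finset

variable {q n : ℕ} {F : ℕ → Finset (Finset ℕ)} {Sd : Finset (Finset ℕ)}

private lemma WN_orig {F : ℕ → Finset (Finset ℕ)} {i : ℕ} {f : Finset ℕ} (hf : f ∈ orig F i) :
    f ∈ F i \ F (i + 1) ∧ f ∈ F 0 := by
  unfold orig at hf
  rw [mem_filter] at hf
  exact ⟨hf.1, hf.2 0 (Nat.zero_le _)⟩

private lemma WN_fin {F : ℕ → Finset (Finset ℕ)} {i n : ℕ} (hi : i < n) {f : Finset ℕ}
    (hf : f ∈ fin F n i) : f ∈ F (i + 1) \ F i ∧ f ∈ F n := by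
  classical
  unfold fin at hf
  have h := mem_filter.mp hf
  exact ⟨h.1, h.2 n hi le_rfl⟩

private lemma WN_edg {A : Finset (Finset ℕ)} {f : Finset ℕ} {u v : ℕ} (hf : f ∈ A) (huv : u ≠ v)
    (hu : u ∈ f) (hv : v ∈ f) : ({u, v} : Finset ℕ) ∈ edg A := by
  unfold edg
  rw [mem_biUnion]
  refine ⟨f, hf, ?_⟩
  rw [mem_powersetCard]
  refine ⟨?_, card_pair huv⟩
  intro w hw
  simp only [mem_insert, mem_singleton] at hw
  rcases hw with rfl | rfl
  · exact hu
  · exact hv

/-- one case, in normal form -/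
private lemma WN_case (hc : Cfg q n F Sd) {i p p' a b : ℕ} (hin : i < n)
    (h1 : p ≠ p') (h2 : p ≠ a) (h3 : p ≠ b) (h4 : p' ≠ a) (h5 : p' ≠ b) (h6 : a ≠ b)
    (ho : orig F i = {{p, p', a}}) (hf : fin F n i = {{p, p', b}})
    (hA : F i \ F (i + 1) = {{p, p', a}, {p', a, b}})
    (hB : F (i + 1) \ F i = {{p, p', b}, {p, a, b}}) : WData F n i Sd p p' a b := by
  refine ⟨h1, h2, h3, h4, h5, h6, ?_, ho, hf, hA, hB⟩
  have o1 : ({p, p', a} : Finset ℕ) ∈ F 0 := (WN_orig (by rw [ho]; exact mem_singleton_self _)).2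
  have f1 : ({p, p', b} : Finset ℕ) ∈ F n :=
    (WN_fin hin (by rw [hf]; exact mem_singleton_self _)).2
  exact hc.com _ (WN_edg o1 h1 (by simp) (by simp)) (WN_edg f1 h1 (by simp) (by simp))

/-- PROOF: let `x y z w` be from `hc.flip i`.  `orig F i` is a one-element subset of
`{{x,y,z},{x,z,w}}`, `fin F n i` is a one-element subset of `{{x,y,w},{y,z,w}}`.  Four cases:
* orig `{x,y,z}`, fin `{x,y,w}`: `p = y, p' = x, a = z, b = w`;
* orig `{x,y,z}`, fin `{y,z,w}`: `p = y, p' = z, a = x, b = w`;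
* orig `{x,z,w}`, fin `{x,y,w}`: `p = w, p' = x, a = z, b = y`;
* orig `{x,z,w}`, fin `{y,z,w}`: `p = w, p' = z, a = x, b = y`.
(equality of finsets of numbers: `ext v; simp; tauto`, or `Finset.pair_comm`, `Finset.insert_comm`).
`{p,p'}` is contained in the original triangle (in `F 0`) and in the final one (in `F n`), so it is
in `edg (F 0)` and in `edg (F n)`, hence in `Sd` by `hc.com`. -/
theorem wnode (hc : Cfg q n F Sd) {i : ℕ} (hi : i ∈ W F n) :
    ∃ p p' a b : ℕ, WData F n i Sd p p' a b := by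
  classical
  unfold W at hi
  rw [mem_filter, mem_range] at hi
  obtain ⟨hin, ho1, hf1⟩ := hi
  obtain ⟨x, y, z, w, hxy, hxz, hxw, hyz, hyw, hzw, hA, hB⟩ := hc.flip i hin
  obtain ⟨o, ho⟩ := card_eq_one.mp ho1
  obtain ⟨f, hf⟩ := card_eq_one.mp hf1
  have ho2 := (WN_orig (F := F) (i := i) (f := o) (by rw [ho]; exact mem_singleton_self _)).1
  have hf2 := (WN_fin (F := F) (f := f) hin (by rw [hf]; exact mem_singleton_self _)).1
  rw [hA, mem_insert, mem_singleton] at ho2
  rw [hB, mem_insert, mem_singleton] at hf2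
  rcases ho2 with rfl | rfl
  · rcases hf2 with rfl | rfl
    · refine ⟨y, x, z, w, WN_case hc hin hxy.symm hyz hyw hxz hxw hzw ?_ ?_ ?_ ?_⟩
      · rw [ho]; congr 1; ext v; simp; tauto
      · rw [hf]; congr 1; ext v; simp; tauto
      · rw [hA]
        have e1 : ({x, y, z} : Finset ℕ) = {y, x, z} := by ext v; simp; tauto
        rw [e1]
      · rw [hB]
        have e1 : ({x, y, w} : Finset ℕ) = {y, x, w} := by ext v; simp; tauto
        rw [e1]
    · refine ⟨y, z, x, w, WN_case hc hin hyz hxy.symm hyw hxz.symm hzw hxw ?_ ?_ ?_ ?_⟩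
      · rw [ho]; congr 1; ext v; simp; tauto
      · rw [hf]
      · rw [hA]
        have e1 : ({x, y, z} : Finset ℕ) = {y, z, x} := by ext v; simp; tauto
        have e2 : ({x, z, w} : Finset ℕ) = {z, x, w} := by ext v; simp; tauto
        rw [e1, e2]
      · rw [hB]
        have e1 : ({x, y, w} : Finset ℕ) = {y, x, w} := by ext v; simp; tauto
        rw [e1, Finset.pair_comm]
  · rcases hf2 with rfl | rfl
    · refine ⟨w, x, z, y, WN_case hc hin hxw.symm hzw.symm hyw.symm hxz hxy hyz.symm ?_ ?_ ?_ ?_⟩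
      · rw [ho]; congr 1; ext v; simp; tauto
      · rw [hf]; congr 1; ext v; simp; tauto
      · rw [hA]
        have e1 : ({x, y, z} : Finset ℕ) = {x, z, y} := by ext v; simp; tauto
        have e2 : ({x, z, w} : Finset ℕ) = {w, x, z} := by ext v; simp; tauto
        rw [e1, e2, Finset.pair_comm]
      · rw [hB]
        have e1 : ({x, y, w} : Finset ℕ) = {w, x, y} := by ext v; simp; tauto
        have e2 : ({y, z, w} : Finset ℕ) = {w, z, y} := by ext v; simp; tauto
        rw [e1, e2]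
    · refine ⟨w, z, x, y, WN_case hc hin hzw.symm hxw.symm hyw.symm hxz.symm hyz.symm hxy
        ?_ ?_ ?_ ?_⟩
      · rw [ho]; congr 1; ext v; simp; tauto
      · rw [hf]; congr 1; ext v; simp; tauto
      · rw [hA]
        have e1 : ({x, y, z} : Finset ℕ) = {z, x, y} := by ext v; simp; tauto
        have e2 : ({x, z, w} : Finset ℕ) = {w, z, x} := by ext v; simp; tauto
        rw [e1, e2, Finset.pair_comm]
      · rw [hB]
        have e1 : ({x, y, w} : Finset ℕ) = {w, x, y} := by ext v; simp; tauto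
        have e2 : ({y, z, w} : Finset ℕ) = {w, z, y} := by ext v; simp; tauto
        rw [e1, e2, Finset.pair_comm]

end RTD
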