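import Pool.Agent.RTD.SU
import Pool.Agent.RTD.WN

/-! RTD row ST: the number of chain starts. -/

namespace RTD

open Finset

variable {q n : ℕ} {F : ℕ → Finset (Finset ℕ)} {Sd : Finset (Finset ℕ)}

private theorem ST_fin_sub (i : ℕ) : fin F n i ⊆ F (i + 1) \ F i := by
  intro f hf
  simp only [fin, Finset.mem_filter] at hf
  exact hf.1

private theorem ST_key (hc : Cfg q n F Sd) (j : ℕ) : ∃ (i : ℕ) (X : Finset ℕ), j ∈ W F n →
    (X ∈ F j \ F (j + 1) ∧ X ∉ orig F j ∧ i < j ∧ X ∈ F (i + 1) \ F i ∧ X ∉ fin F n i ∧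
      ∀ k, i < k → k ≤ j → X ∈ F k) := by
  by_cases hj : j ∈ W F n
  · have hj' := hj
    simp only [W, Finset.mem_filter, Finset.mem_range] at hj'
    obtain ⟨hjn, ho, _⟩ := hj'
    have h2 := (card_diff hc hjn).1
    obtain ⟨X, hX, hXo⟩ : ∃ X ∈ F j \ F (j + 1), X ∉ orig F j :=
      Finset.exists_mem_notMem_of_card_lt_card (by omega)
    have hXj := (Finset.mem_sdiff.1 hX).1
    have hXj1 := (Finset.mem_sdiff.1 hX).2
    have hne : ¬ ∀ k ≤ j, X ∈ F k := by
      intro h
      apply hXo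
      simp only [orig, Finset.mem_filter]
      exact ⟨hX, h⟩
    obtain ⟨i, hij, h1, h3⟩ := exists_pred F j X hXj hne
    refine ⟨i, X, fun _ => ⟨hX, hXo, hij, h1, ?_, h3⟩⟩
    intro h
    simp only [fin, Finset.mem_filter] at h
    exact hXj1 (h.2 (j + 1) (by omega) (by omega))
  · exact ⟨0, ∅, fun h => absurd h hj⟩

/-- PROOF.  For `j ∈ W F n` the set `F j \ F (j+1)` has two elements and `orig F j` one, so there is
`X ∈ F j \ F (j+1)`, `X ∉ orig F j`, and `exists_pred` gives `i < j`; define `pd j = i`, `Xf j = X`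
by choice.  (`pd`, `Xf` arbitrary outside `W`.)  `Xf j ∉ fin F n (pd j)` because `Xf j ∉ F (j+1)`
and `pd j < j + 1 ≤ n`.
The pair `(pd j, Xf j)` determines `j`: if `j < j'` have the same pair then `X ∈ F (j+1)` because
`pd j' < j+1 ≤ j'`, contradiction.
(a) Second claim: if `pd j = pd j' = i ∈ W F n` then `Xf j`, `Xf j'` are both in
`(F (i+1) \ F i) \ fin F n i`, which has card `2 - 1 = 1`, so `Xf j = Xf j'`, `j = j'`.
(b) Third claim: `j ↦ ⟨pd j, Xf j⟩` is an injection of `{j ∈ W : pd j ∉ W}` into the sigma set of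
all `(i, X)` with `i ∈ range n \ W`, `X ∈ (F (i+1) \ F i) \ fin F n i`.  Its size is
`∑ i ∈ range n \ W, (2 - (fin F n i).card)`, and
`∑ i ∈ range n, (2 - (fin F n i).card) = 2 n - q` (`sum_fin`, `hc.cn`, `card_le_two`), and for
`i ∈ W` the summand is `1`. -/
theorem starts (hc : Cfg q n F Sd) :
    ∃ (pd : ℕ → ℕ) (Xf : ℕ → Finset ℕ),
      (∀ j ∈ W F n, Xf j ∈ F j \ F (j + 1) ∧ Xf j ∉ orig F j ∧ pd j < j ∧
        Xf j ∈ F (pd j + 1) \ F (pd j) ∧ Xf j ∉ fin F n (pd j)) ∧
      (∀ j ∈ W F n, ∀ j' ∈ W F n, pd j = pd j' → pd j ∈ W F n → j = j') ∧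
      ((W F n).filter (fun j => pd j ∉ W F n)).card + (W F n).card + q ≤ 2 * n := by
  choose pd Xf hpd using ST_key (F := F) (n := n) hc
  have lt1 : ∀ j ∈ W F n, ∀ j' ∈ W F n, j < j' → pd j = pd j' → Xf j ≠ Xf j' := by
    intro j hj j' hj' hlt hp hX
    have a1 := hpd j hj
    have a2 := hpd j' hj'
    have : Xf j ∈ F (j + 1) := by
      rw [hX]
      exact a2.2.2.2.2.2 (j + 1) (by have := a1.2.2.1; omega) (by omega)
    exact (Finset.mem_sdiff.1 a1.1).2 this
  have uniq : ∀ j ∈ W F n, ∀ j' ∈ W F n, pd j = pd j' → Xf j = Xf j' → j = j' := by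
    intro j hj j' hj' hp hX
    rcases lt_trichotomy j j' with h | h | h
    · exact absurd hX (lt1 j hj j' hj' h hp)
    · exact h
    · exact absurd hX.symm (lt1 j' hj' j hj h hp.symm)
  have cardA : ∀ i ∈ range n, ((F (i + 1) \ F i) \ fin F n i).card + (fin F n i).card = 2 := by
    intro i hi
    have h1 := (card_diff hc (Finset.mem_range.1 hi)).2
    have h2 := Finset.card_sdiff_add_card_eq_card (ST_fin_sub (F := F) (n := n) i)
    omega
  have Wsub : W F n ⊆ range n := by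
    intro i hi
    simp only [W, Finset.mem_filter] at hi
    exact hi.1
  have Wfin : ∀ i ∈ W F n, (fin F n i).card = 1 := by
    intro i hi
    simp only [W, Finset.mem_filter] at hi
    exact hi.2.2
  have cardW : ∀ i ∈ W F n, ((F (i + 1) \ F i) \ fin F n i).card = 1 := by
    intro i hi
    have h1 := cardA i (Wsub hi)
    have h2 := Wfin i hi
    omega
  refine ⟨pd, Xf, ?_, ?_, ?_⟩
  · intro j hj
    have a := hpd j hj
    exact ⟨a.1, a.2.1, a.2.2.1, a.2.2.2.1, a.2.2.2.2.1⟩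
  · intro j hj j' hj' hp hW
    refine uniq j hj j' hj' hp ?_
    have h1 := (cardW _ hW).le
    refine Finset.card_le_one.1 h1 _ ?_ _ ?_
    · exact Finset.mem_sdiff.2 ⟨(hpd j hj).2.2.2.1, (hpd j hj).2.2.2.2.1⟩
    · rw [hp]
      exact Finset.mem_sdiff.2 ⟨(hpd j' hj').2.2.2.1, (hpd j' hj').2.2.2.2.1⟩
  · have hsum : ∑ i ∈ range n, ((F (i + 1) \ F i) \ fin F n i).card + q = 2 * n := by
      have e1 : ∑ i ∈ range n, (((F (i + 1) \ F i) \ fin F n i).card + (fin F n i).card)
          = ∑ i ∈ range n, 2 := Finset.sum_congr rfl cardA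
      rw [Finset.sum_add_distrib, sum_fin F n hc.disj, hc.cn, Finset.sum_const,
        Finset.card_range, smul_eq_mul] at e1
      omega
    have hsplit : ∑ i ∈ range n \ W F n, ((F (i + 1) \ F i) \ fin F n i).card +
        ∑ i ∈ W F n, ((F (i + 1) \ F i) \ fin F n i).card =
        ∑ i ∈ range n, ((F (i + 1) \ F i) \ fin F n i).card :=
      Finset.sum_sdiff Wsub
    have hW1 : ∑ i ∈ W F n, ((F (i + 1) \ F i) \ fin F n i).card = (W F n).card := by
      rw [Finset.sum_congr rfl cardW]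
      simp
    have hinj : ((W F n).filter (fun j => pd j ∉ W F n)).card ≤
        ∑ i ∈ range n \ W F n, ((F (i + 1) \ F i) \ fin F n i).card := by
      rw [← Finset.card_sigma]
      refine Finset.card_le_card_of_injOn (fun j => (⟨pd j, Xf j⟩ : Σ _ : ℕ, Finset ℕ)) ?_ ?_
      · intro j hj
        have hj1 := (Finset.mem_filter.1 (Finset.mem_coe.1 hj))
        have a := hpd j hj1.1
        have hjn := Finset.mem_range.1 (Wsub hj1.1)
        refine Finset.mem_coe.2 (Finset.mem_sigma.2 ⟨?_, ?_⟩)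
        · refine Finset.mem_sdiff.2 ⟨Finset.mem_range.2 ?_, hj1.2⟩
          have := a.2.2.1
          show pd j < n
          omega
        · exact Finset.mem_sdiff.2 ⟨a.2.2.2.1, a.2.2.2.2.1⟩
      · intro j hj j' hj' h
        have hj1 := (Finset.mem_filter.1 (Finset.mem_coe.1 hj)).1
        have hj1' := (Finset.mem_filter.1 (Finset.mem_coe.1 hj')).1
        simp only [Sigma.mk.injEq, heq_eq_eq] at h
        exact uniq j hj1 j' hj1' h.1 h.2
    omega

end RTD
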