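import Pool.Agent.RTD.NW
import Pool.Agent.RTD.LK
import Pool.Agent.RTD.ST
import Pool.Agent.RTD.SI

/-! RTD row CV: the fan cover theorem, abstract form. -/

namespace RTD

open Finset

variable {q n : ℕ} {F : ℕ → Finset (Finset ℕ)} {Sd : Finset (Finset ℕ)}

private theorem CV_ltn {i : ℕ} (hi : i ∈ W F n) : i < n := by
  simp only [W, mem_filter, mem_range] at hi
  exact hi.1

private theorem CV_orig {i : ℕ} {f : Finset ℕ} (h : f ∈ orig F i) :
    f ∈ F i ∧ f ∉ F (i + 1) ∧ ∀ k ≤ i, f ∈ F k := by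
  simp only [orig, mem_filter, mem_sdiff] at h
  exact ⟨h.1.1, h.1.2, h.2⟩

private theorem CV_fin {i : ℕ} {f : Finset ℕ} (h : f ∈ fin F n i) :
    f ∈ F (i + 1) ∧ f ∉ F i ∧ ∀ k, i < k → k ≤ n → f ∈ F k := by
  simp only [fin, mem_filter, mem_sdiff] at h
  exact ⟨h.1.1, h.1.2, h.2⟩

private theorem CV_orig_inj {i j : ℕ} {f : Finset ℕ} (h : f ∈ orig F i) (h' : f ∈ orig F j) :
    i = j := by
  obtain ⟨_, h1, h2⟩ := CV_orig h
  obtain ⟨_, h1', h2'⟩ := CV_orig h'
  rcases lt_trichotomy i j with hij | hij | hij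
  · exact absurd (h2' (i + 1) hij) h1
  · exact hij
  · exact absurd (h2 (j + 1) hij) h1'

private theorem CV_fin_inj {i j : ℕ} {f : Finset ℕ} (hi : i < n) (hj : j < n)
    (h : f ∈ fin F n i) (h' : f ∈ fin F n j) : i = j := by
  obtain ⟨_, h1, h2⟩ := CV_fin h
  obtain ⟨_, h1', h2'⟩ := CV_fin h'
  rcases lt_trichotomy i j with hij | hij | hij
  · exact absurd (h2 j hij hj.le) h1'
  · exact hij
  · exact absurd (h2' i hij hi.le) h1

/-- the label of a direct step -/
private def CV_lab (F : ℕ → Finset (Finset ℕ)) (n : ℕ) (a b : ℕ → ℕ) (i : ℕ) : Bool × ℕ :=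
  if ({a i, b i} : Finset ℕ) ∈ edg (F 0) ∧ ({a i, b i} : Finset ℕ) ∉ edg (F n) then (false, a i)
  else (true, b i)

private theorem CV_lab_false {a b : ℕ → ℕ} {i v : ℕ} (h : CV_lab F n a b i = (false, v)) :
    a i = v := by
  unfold CV_lab at h
  split_ifs at h with hc
  · exact (Prod.ext_iff.1 h).2
  · exact absurd (Prod.ext_iff.1 h).1 (by simp)

private theorem CV_lab_true {a b : ℕ → ℕ} {i v : ℕ} (h : CV_lab F n a b i = (true, v)) :
    b i = v := by
  unfold CV_lab at h
  split_ifs at h with hc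
  · exact absurd (Prod.ext_iff.1 h).1 (by simp)
  · exact (Prod.ext_iff.1 h).2

/-- linked direct steps have the same label, up to the exceptional steps -/
private theorem CV_claim (hc : Cfg q n F Sd) (p p' a b : ℕ → ℕ)
    (hd : ∀ i ∈ W F n, WData F n i Sd (p i) (p' i) (a i) (b i)) {i j : ℕ} (hi : i ∈ W F n)
    (hj : j ∈ W F n) {X : Finset ℕ} (h1 : X ∈ F j \ F (j + 1)) (h2 : X ∉ orig F j)
    (h3 : X ∈ F (i + 1) \ F i) (h4 : X ∉ fin F n i) :
    CV_lab F n a b i = CV_lab F n a b j ∨ ({p i, a i} : Finset ℕ) ∈ Sd := by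
  have hwi := hd i hi
  have hwj := hd j hj
  obtain ⟨_, _, _, _, _, _, _, _, hfi, _, hnew⟩ := hd i hi
  obtain ⟨_, _, _, _, _, _, _, hoj, _, hold, _⟩ := hd j hj
  rw [hnew] at h3
  rw [hfi] at h4
  rw [hold] at h1
  rw [hoj] at h2
  have e1 : X = {p i, a i, b i} := by
    rcases mem_insert.1 h3 with h | h
    · exact absurd (mem_singleton.2 h) h4
    · exact mem_singleton.1 h
  have e2 : X = {p' j, a j, b j} := by
    rcases mem_insert.1 h1 with h | h
    · exact absurd (mem_singleton.2 h) h2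
    · exact mem_singleton.1 h
  rcases link hc (CV_ltn hi) (CV_ltn hj) hwi hwj (e2.symm.trans e1) with h | h | h | h
  · exact Or.inr h
  · left
    unfold CV_lab
    rw [h.1, h.2]
  · left
    have n1 : ¬ (({a i, b i} : Finset ℕ) ∈ edg (F 0) ∧ ({a i, b i} : Finset ℕ) ∉ edg (F n)) :=
      fun hh => hh.2 h.2.1
    have n2 : ¬ (({a j, b j} : Finset ℕ) ∈ edg (F 0) ∧ ({a j, b j} : Finset ℕ) ∉ edg (F n)) :=
      fun hh => hh.2 h.2.2
    unfold CV_lab
    rw [if_neg n1, if_neg n2, h.1]
  · left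
    have n1 : (({a i, b i} : Finset ℕ) ∈ edg (F 0) ∧ ({a i, b i} : Finset ℕ) ∉ edg (F n)) :=
      ⟨h.2.1, h.2.2.1⟩
    have n2 : (({a j, b j} : Finset ℕ) ∈ edg (F 0) ∧ ({a j, b j} : Finset ℕ) ∉ edg (F n)) :=
      ⟨h.2.2.2.1, h.2.2.2.2⟩
    unfold CV_lab
    rw [if_pos n1, if_pos n2, h.1]

/-- the number of labels -/
private theorem CV_labels (hc : Cfg q n F Sd) (p p' a b : ℕ → ℕ)
    (hd : ∀ i ∈ W F n, WData F n i Sd (p i) (p' i) (a i) (b i)) :
    ((W F n).image (CV_lab F n a b)).card + 2 * (W F n).card ≤ 2 * n + 2 := by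
  obtain ⟨pd, Xf, hX, hinj, hst⟩ := starts hc
  have hsi := sides_count hc p p' a b hd
  -- minimal elements of the classes
  set M : Finset ℕ := (W F n).filter
    (fun j => ∀ i ∈ W F n, CV_lab F n a b i = CV_lab F n a b j → j ≤ i) with hM
  have hsub : (W F n).image (CV_lab F n a b) ⊆ M.image (CV_lab F n a b) := by
    intro l hl
    obtain ⟨j, hj, rfl⟩ := mem_image.1 hl
    have hne : ((W F n).filter (fun i => CV_lab F n a b i = CV_lab F n a b j)).Nonempty :=
      ⟨j, mem_filter.2 ⟨hj, rfl⟩⟩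
    set m := ((W F n).filter (fun i => CV_lab F n a b i = CV_lab F n a b j)).min' hne with hm
    have hmm := Finset.min'_mem _ hne
    rw [← hm] at hmm
    obtain ⟨hmW, hml⟩ := mem_filter.1 hmm
    refine mem_image.2 ⟨m, mem_filter.2 ⟨hmW, ?_⟩, hml⟩
    intro i hi hil
    exact Finset.min'_le _ _ (mem_filter.2 ⟨hi, hil.trans hml⟩)
  have h1 : ((W F n).image (CV_lab F n a b)).card ≤ M.card :=
    (card_le_card hsub).trans card_image_le
  have h2 : M.card = (M.filter (fun j => pd j ∉ W F n)).card +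
      (M.filter (fun j => ¬ pd j ∉ W F n)).card :=
    (Finset.card_filter_add_card_filter_not (s := M) (fun j => pd j ∉ W F n)).symm
  have h3 : (M.filter (fun j => pd j ∉ W F n)).card ≤
      ((W F n).filter (fun j => pd j ∉ W F n)).card := by
    apply card_le_card
    intro j hj
    obtain ⟨hj1, hj2⟩ := mem_filter.1 hj
    exact mem_filter.2 ⟨(mem_filter.1 hj1).1, hj2⟩
  have h4 : (M.filter (fun j => ¬ pd j ∉ W F n)).card ≤
      ((W F n).filter (fun i => ({p i, a i} : Finset ℕ) ∈ Sd)).card := by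
    apply card_le_card_of_injOn pd
    · intro j hj
      obtain ⟨hj1, hj2⟩ := mem_filter.1 (mem_coe.1 hj)
      obtain ⟨hjW, hjm⟩ := mem_filter.1 hj1
      have hpW : pd j ∈ W F n := not_not.1 hj2
      obtain ⟨x1, x2, x3, x4, x5⟩ := hX j hjW
      refine mem_coe.2 (mem_filter.2 ⟨hpW, ?_⟩)
      rcases CV_claim hc p p' a b hd hpW hjW x1 x2 x4 x5 with h | h
      · exact absurd (hjm (pd j) hpW h) (not_le.2 x3)
      · exact h
    · intro j hj j' hj' e
      obtain ⟨hj1, hj2⟩ := mem_filter.1 (mem_coe.1 hj)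
      obtain ⟨hj1', hj2'⟩ := mem_filter.1 (mem_coe.1 hj')
      exact hinj j (mem_filter.1 hj1).1 j' (mem_filter.1 hj1').1 e (not_not.1 hj2)
  omega

/-- PROOF.  If `W F n = ∅` take `A = B = ∅`: `W_card` gives `q+1 ≤ 3w`, so `w ≥ 1`.
Otherwise choose `p p' a b : ℕ → ℕ` with `WData` for all `i ∈ W` (`choose` from `wnode`), and
`pd, Xf` from `starts`.
Label `lab i : Bool × ℕ := if {a i, b i} ∈ edg (F 0) ∧ {a i, b i} ∉ edg (F n) then (false, a i) else
(true, b i)`.
CLAIM: if `i, j ∈ W`, `pd j = i` then `lab i = lab j` or `{p i, a i} ∈ Sd`.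
Indeed `Xf j ∈ F j \ F (j+1) = {{r,r',c},{r',c,d}}`, `Xf j ∉ orig F j = {{r,r',c}}`, so
`Xf j = {r',c,d}`; `Xf j ∈ F (i+1) \ F i = {{p,p',b},{p,a,b}}`, not in `fin F n i = {{p,p',b}}`, so
`Xf j = {p,a,b}`; apply `link` and go through the alternatives.
Let `Λ = (W F n).image lab`.  For `λ ∈ Λ` let `jm λ` be the least `j ∈ W` with `lab j = λ`.  `jm` is
injective (as `lab (jm λ) = λ`).  If `pd (jm λ) ∈ W` then `lab (pd (jm λ)) ≠ λ` (as `pd j < j`), so by
the claim `pd (jm λ) ∈ I := {i ∈ W : {p i, a i} ∈ Sd}`, and `λ ↦ pd (jm λ)` is injective on these `λ`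
(second part of `starts`).  So `|Λ| ≤ |{j ∈ W : pd j ∉ W}| + |I| ≤ (2n - q - |W|) + (q + 2 - |W|)`
(`starts`, `sides_count`) `= 2n + 2 - 2|W| ≤ 2n+2 - 2(q+1-3w) = 8w - 2` (`W_card`).
`A` = all `v` with `(false, v) ∈ Λ`, `B` = all `v` with `(true, v) ∈ Λ` (images of filters):
`|A| + |B| = |Λ|`.  Finally `|W| ≤ ∑_{v ∈ A} #{f ∈ F 0 : v ∈ f} + ∑_{v ∈ B} #{f ∈ F n : v ∈ f}`:
`|W| = ∑_{λ ∈ Λ} #{i ∈ W : lab i = λ}` (`card_eq_sum_card_image` or `card_eq_sum_card_fiberwise`), and
for `λ = (false, v)` the map `i ↦ {p i, p' i, a i}` is injective on the class (an original triangle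
disappears only once) into `{f ∈ F 0 : v ∈ f}`, for `λ = (true, v)` the map `i ↦ {p i, p' i, b i}` is
injective into `{f ∈ F n : v ∈ f}` (a final triangle appears only once).  Then `W_card`. -/
theorem cover (hc : Cfg q n F Sd) (w : ℕ) (hw : n + 1 = q + w) :
    ∃ A B : Finset ℕ, A.card + B.card + 2 ≤ 8 * w ∧
      q + 1 ≤ 3 * w + ∑ v ∈ A, ((F 0).filter (fun f => v ∈ f)).card +
        ∑ v ∈ B, ((F n).filter (fun f => v ∈ f)).card := by
  have hex : ∀ i : ℕ, ∃ p p' a b : ℕ, i ∈ W F n → WData F n i Sd p p' a b := by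
    intro i
    by_cases hi : i ∈ W F n
    · obtain ⟨p, p', a, b, h⟩ := wnode hc hi
      exact ⟨p, p', a, b, fun _ => h⟩
    · exact ⟨0, 0, 0, 0, fun h => absurd h hi⟩
  choose p p' a b hd using hex
  have hlab := CV_labels hc p p' a b hd
  have hWc := W_card hc w hw
  set L : Finset (Bool × ℕ) := (W F n).image (CV_lab F n a b) with hL
  refine ⟨(L.filter (fun l => l.1 = false)).image Prod.snd,
    (L.filter (fun l => ¬ l.1 = false)).image Prod.snd, ?_, ?_⟩
  · have h1 : ((L.filter (fun l => l.1 = false)).image Prod.snd).card ≤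
        (L.filter (fun l => l.1 = false)).card := card_image_le
    have h2 : ((L.filter (fun l => ¬ l.1 = false)).image Prod.snd).card ≤
        (L.filter (fun l => ¬ l.1 = false)).card := card_image_le
    have h3 : (L.filter (fun l => l.1 = false)).card + (L.filter (fun l => ¬ l.1 = false)).card =
        L.card := Finset.card_filter_add_card_filter_not (s := L) (fun l => l.1 = false)
    omega
  · have k0 : (W F n).card = ((W F n).filter (fun i => (CV_lab F n a b i).1 = false)).card +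
        ((W F n).filter (fun i => ¬ (CV_lab F n a b i).1 = false)).card :=
      (Finset.card_filter_add_card_filter_not (s := W F n)
        (fun i => (CV_lab F n a b i).1 = false)).symm
    have k1 : ((W F n).filter (fun i => (CV_lab F n a b i).1 = false)).card ≤
        ∑ v ∈ (L.filter (fun l => l.1 = false)).image Prod.snd,
          ((F 0).filter (fun f => v ∈ f)).card := by
      have hmap : ∀ i ∈ (W F n).filter (fun i => (CV_lab F n a b i).1 = false),
          a i ∈ (L.filter (fun l => l.1 = false)).image Prod.snd := by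
        intro i hi
        obtain ⟨hiW, hif⟩ := mem_filter.1 hi
        have e : CV_lab F n a b i = (false, (CV_lab F n a b i).2) := Prod.ext hif rfl
        rw [CV_lab_false e]
        exact mem_image.2 ⟨CV_lab F n a b i, mem_filter.2 ⟨mem_image_of_mem _ hiW, hif⟩, rfl⟩
      rw [card_eq_sum_card_fiberwise hmap]
      apply Finset.sum_le_sum
      intro v _
      apply card_le_card_of_injOn (fun i => ({p i, p' i, a i} : Finset ℕ))
      · intro i hi
        obtain ⟨hi1, hi2⟩ := mem_filter.1 (mem_coe.1 hi)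
        have hiW := (mem_filter.1 hi1).1
        obtain ⟨_, _, _, _, _, _, _, ho, _, _, _⟩ := hd i hiW
        have hmem : ({p i, p' i, a i} : Finset ℕ) ∈ orig F i := by
          rw [ho]; exact mem_singleton_self _
        refine mem_coe.2 (mem_filter.2 ⟨(CV_orig hmem).2.2 0 (Nat.zero_le _), ?_⟩)
        rw [← hi2]
        simp
      · intro i hi j hj e
        have hiW := (mem_filter.1 (mem_filter.1 (mem_coe.1 hi)).1).1
        have hjW := (mem_filter.1 (mem_filter.1 (mem_coe.1 hj)).1).1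
        obtain ⟨_, _, _, _, _, _, _, ho, _, _, _⟩ := hd i hiW
        obtain ⟨_, _, _, _, _, _, _, ho', _, _, _⟩ := hd j hjW
        have e' : ({p i, p' i, a i} : Finset ℕ) = {p j, p' j, a j} := e
        have m1 : ({p i, p' i, a i} : Finset ℕ) ∈ orig F i := by
          rw [ho]; exact mem_singleton_self _
        have m2 : ({p i, p' i, a i} : Finset ℕ) ∈ orig F j := by
          rw [ho', e']; exact mem_singleton_self _
        exact CV_orig_inj m1 m2
    have k2 : ((W F n).filter (fun i => ¬ (CV_lab F n a b i).1 = false)).card ≤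
        ∑ v ∈ (L.filter (fun l => ¬ l.1 = false)).image Prod.snd,
          ((F n).filter (fun f => v ∈ f)).card := by
      have hmap : ∀ i ∈ (W F n).filter (fun i => ¬ (CV_lab F n a b i).1 = false),
          b i ∈ (L.filter (fun l => ¬ l.1 = false)).image Prod.snd := by
        intro i hi
        obtain ⟨hiW, hif⟩ := mem_filter.1 hi
        have e : CV_lab F n a b i = (true, (CV_lab F n a b i).2) :=
          Prod.ext (Bool.eq_true_of_not_eq_false hif) rfl
        rw [CV_lab_true e]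
        exact mem_image.2 ⟨CV_lab F n a b i, mem_filter.2 ⟨mem_image_of_mem _ hiW, hif⟩, rfl⟩
      rw [card_eq_sum_card_fiberwise hmap]
      apply Finset.sum_le_sum
      intro v _
      apply card_le_card_of_injOn (fun i => ({p i, p' i, b i} : Finset ℕ))
      · intro i hi
        obtain ⟨hi1, hi2⟩ := mem_filter.1 (mem_coe.1 hi)
        have hiW := (mem_filter.1 hi1).1
        obtain ⟨_, _, _, _, _, _, _, _, ho, _, _⟩ := hd i hiW
        have hmem : ({p i, p' i, b i} : Finset ℕ) ∈ fin F n i := by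
          rw [ho]; exact mem_singleton_self _
        refine mem_coe.2 (mem_filter.2 ⟨(CV_fin hmem).2.2 n (CV_ltn hiW) le_rfl, ?_⟩)
        rw [← hi2]
        simp
      · intro i hi j hj e
        have hiW := (mem_filter.1 (mem_filter.1 (mem_coe.1 hi)).1).1
        have hjW := (mem_filter.1 (mem_filter.1 (mem_coe.1 hj)).1).1
        obtain ⟨_, _, _, _, _, _, _, _, ho, _, _⟩ := hd i hiW
        obtain ⟨_, _, _, _, _, _, _, _, ho', _, _⟩ := hd j hjW
        have e' : ({p i, p' i, b i} : Finset ℕ) = {p j, p' j, b j} := e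
        have m1 : ({p i, p' i, b i} : Finset ℕ) ∈ fin F n i := by
          rw [ho]; exact mem_singleton_self _
        have m2 : ({p i, p' i, b i} : Finset ℕ) ∈ fin F n j := by
          rw [ho', e']; exact mem_singleton_self _
        exact CV_fin_inj (CV_ltn hiW) (CV_ltn hjW) m1 m2
    omega

end RTD
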