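import Pool.Agent.RTD.BT2
import Pool.Agent.RTD.BT3
import Pool.Agent.RTD.BT4
import Pool.Agent.RTD.CV

/-! RTD row BR: the fan cover theorem for trees, in terms of triangles. -/

namespace RTD

open Finset

/-- PROOF: `Path n S T` gives `t`; all `t i` (`i ≤ n`) have size `q` (`rot_size`).  Apply `cover` to
`F i = (t i).tri 0`, `Sd = sds q`; the fields of `Cfg`: `sds_card`, `rot_flip`, `tri_card`, `tri_sds`,
`disj`: a common triangle `f` has an edge `e ∉ sds q` (`exists_not_side`, `tri_mem`), which is in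
`edg` of both, contradicting `h0`; `tri_diag`; `h0`, `h1`, `h2`.
`q ≤ n + 1` follows from `src_le`. -/
theorem fan_cover_tri (S T : BT) (q n : ℕ) (hq : 2 ≤ q) (hS : S.size = q) (hT : T.size = q)
    (hp : Path n S T)
    (h0 : ∀ e, e ∈ edg (S.tri 0) → e ∈ edg (T.tri 0) → e ∈ sds q)
    (h1 : ∀ f ∈ S.tri 0, ∀ g ∈ S.tri 0, (f ∩ g).card = 2 → (f ∪ g) \ (f ∩ g) ∉ edg (T.tri 0))
    (h2 : ∀ f ∈ T.tri 0, ∀ g ∈ T.tri 0, (f ∩ g).card = 2 → (f ∪ g) \ (f ∩ g) ∉ edg (S.tri 0)) :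
    ∃ w : ℕ, n + 1 = q + w ∧ ∃ A B : Finset ℕ, A.card + B.card + 2 ≤ 8 * w ∧
      q + 1 ≤ 3 * w + ∑ v ∈ A, ((S.tri 0).filter (fun f => v ∈ f)).card +
        ∑ v ∈ B, ((T.tri 0).filter (fun f => v ∈ f)).card := by
  obtain ⟨t, ht0, htn, htr⟩ := hp
  have hsize : ∀ i ≤ n, (t i).size = q := by
    intro i
    induction i with
    | zero => intro _; rw [ht0, hS]
    | succ i ih =>
      intro hi
      rw [rot_size (htr i (by omega)), ih (by omega)]
  have hc : Cfg q n (fun i => (t i).tri 0) (sds q) := by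
    refine ⟨sds_card q (by omega), fun i hi => rot_flip (htr i hi) 0, ?_, ?_, ?_, ?_, ?_, ?_, ?_,
      ?_, ?_⟩
    · show ((t 0).tri 0).card = q
      rw [tri_card, ht0, hS]
    · show ((t n).tri 0).card = q
      rw [tri_card, htn, hT]
    · intro i hi σ hσ f hf g hg h3 h4
      have h5 := hsize i hi
      refine tri_sds (t i) σ ?_ f g hf hg h3 h4
      rw [h5]; exact hσ
    · intro f hf hf'
      have hf1 : f ∈ S.tri 0 := by rw [← ht0]; exact hf
      have hf2 : f ∈ T.tri 0 := by rw [← htn]; exact hf'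
      obtain ⟨e, he, hef, hes⟩ := exists_not_side q hq f (tri_mem S 0 f hf1).1
      apply hes
      apply h0
      · unfold edg
        rw [mem_biUnion]
        exact ⟨f, hf1, mem_powersetCard.mpr ⟨hef, he⟩⟩
      · unfold edg
        rw [mem_biUnion]
        exact ⟨f, hf2, mem_powersetCard.mpr ⟨hef, he⟩⟩
    · have h3 := tri_diag S
      rw [hS] at h3
      show q ≤ ((edg ((t 0).tri 0)).filter (fun e => e ∉ sds q)).card + 1
      rw [ht0]; exact h3
    · have h3 := tri_diag T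
      rw [hT] at h3
      show q ≤ ((edg ((t n).tri 0)).filter (fun e => e ∉ sds q)).card + 1
      rw [htn]; exact h3
    · show ∀ e, e ∈ edg ((t 0).tri 0) → e ∈ edg ((t n).tri 0) → e ∈ sds q
      rw [ht0, htn]; exact h0
    · show ∀ f ∈ (t 0).tri 0, ∀ g ∈ (t 0).tri 0, (f ∩ g).card = 2 →
        (f ∪ g) \ (f ∩ g) ∉ edg ((t n).tri 0)
      rw [ht0, htn]; exact h1
    · show ∀ f ∈ (t n).tri 0, ∀ g ∈ (t n).tri 0, (f ∩ g).card = 2 →
        (f ∪ g) \ (f ∩ g) ∉ edg ((t 0).tri 0)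
      rw [ht0, htn]; exact h2
  have h3 := src_le hc
  have h4 : q ≤ n + 1 := by omega
  refine ⟨n + 1 - q, by omega, ?_⟩
  obtain ⟨A, B, h5, h6⟩ := cover hc (n + 1 - q) (by omega)
  refine ⟨A, B, h5, ?_⟩
  simp only [ht0, htn] at h6
  exact h6

end RTD
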