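import Pool.Agent.RTD.BT1

/-! RTD row BT2: a side of the polygon lies in at most one triangle. -/

namespace RTD

/-- only the root triangle contains both ends `i` and `i+size+1`.
PROOF: cases on `t`.  A triangle of `l.tri i` has all elements `≤ i+|l|+1`, a triangle of
`r.tri (i+|l|+1)` has all elements `≥ i+|l|+1` (`tri_mem`), so both `f` and `g` are the root
triangle. -/
theorem tri_root (t : BT) (i : ℕ) (f g : Finset ℕ) (hf : f ∈ t.tri i) (hg : g ∈ t.tri i)
    (h1 : {i, i + t.size + 1} ⊆ f) (h2 : {i, i + t.size + 1} ⊆ g) : f = g := by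
  cases t with
  | nil => simp [BT.tri] at hf
  | node l r =>
    have key : ∀ f ∈ (BT.node l r).tri i, {i, i + (BT.node l r).size + 1} ⊆ f →
        f = {i, i + l.size + 1, i + l.size + r.size + 2} := by
      intro f hf h
      simp only [BT.tri, Finset.mem_insert, Finset.mem_union] at hf
      rcases hf with hf | hf | hf
      · exact hf
      · exfalso
        have := (tri_mem l i f hf).2 _ (h (by simp : i + (BT.node l r).size + 1 ∈ _))
        simp only [BT.size] at this
        omega
      · exfalso
        have := (tri_mem r _ f hf).2 _ (h (by simp : i ∈ _))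
        omega
    rw [key f hf h1, key g hg h2]

/-- a side `{k,k+1}` with `i ≤ k ≤ i+size` lies in at most one triangle.
PROOF: induction on `t`, generalizing `i`.  For `node l r` put `m = i+|l|+1`, `z = i+|l|+|r|+2`.
By `tri_mem` a triangle of `l.tri i` that contains `k, k+1` needs `k+1 ≤ m`, one of `r.tri m` needs
`m ≤ k`, so not both kinds occur.  The root triangle `{i,m,z}` contains `k` and `k+1` only if
(`k = i`, `k+1 = m`, i.e. `l.size = 0`, so `l = nil` and `l.tri i = ∅`) or (`k = m`, `k+1 = z`, i.e.
`r = nil`).  In the first case no triangle of `r.tri m` contains `k = i < m`, etc. -/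
theorem tri_side (t : BT) (i k : ℕ) (hk : i ≤ k) (hk' : k ≤ i + t.size) (f g : Finset ℕ)
    (hf : f ∈ t.tri i) (hg : g ∈ t.tri i) (h1 : {k, k + 1} ⊆ f) (h2 : {k, k + 1} ⊆ g) : f = g := by
  induction t generalizing i with
  | nil => simp [BT.tri] at hf
  | node l r ihl ihr =>
    -- position of `k` determines the kind of the triangle
    have L : ∀ f, f ∈ l.tri i → {k, k + 1} ⊆ f → k + 1 ≤ i + l.size + 1 ∧ 1 ≤ l.size := by
      intro f hf h
      have := (tri_mem l i f hf).2 _ (h (by simp : k + 1 ∈ _))
      refine ⟨this.2, ?_⟩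
      rw [← tri_card l i]
      exact Finset.card_pos.mpr ⟨f, hf⟩
    have R : ∀ f, f ∈ r.tri (i + l.size + 1) → {k, k + 1} ⊆ f → i + l.size + 1 ≤ k ∧ 1 ≤ r.size := by
      intro f hf h
      have := (tri_mem r _ f hf).2 _ (h (by simp : k ∈ _))
      refine ⟨this.1, ?_⟩
      rw [← tri_card r (i + l.size + 1)]
      exact Finset.card_pos.mpr ⟨f, hf⟩
    have M : ({k, k + 1} : Finset ℕ) ⊆ {i, i + l.size + 1, i + l.size + r.size + 2} →
        (k = i ∧ l.size = 0) ∨ (k = i + l.size + 1 ∧ r.size = 0) := by
      intro h
      have a1 := h (by simp : k ∈ _)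
      have a2 := h (by simp : k + 1 ∈ _)
      simp only [Finset.mem_insert, Finset.mem_singleton] at a1 a2
      omega
    simp only [BT.tri, Finset.mem_insert, Finset.mem_union] at hf hg
    rcases hf with rfl | hf | hf <;> rcases hg with rfl | hg | hg
    · rfl
    · have := M h1
      have := L g hg h2
      omega
    · have := M h1
      have := R g hg h2
      omega
    · have := M h2
      have := L f hf h1
      omega
    · have := L f hf h1
      exact ihl i hk (by omega) hf hg
    · have := L f hf h1
      have := R g hg h2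
      omega
    · have := M h2
      have := R f hf h1
      omega
    · have := R f hf h1
      have := L g hg h2
      omega
    · have := R f hf h1
      refine ihr _ this.1 ?_ hf hg
      simp only [BT.size] at hk'
      omega

/-- a side lies in at most one triangle -/
theorem tri_sds (t : BT) (σ : Finset ℕ) (hσ : σ ∈ sds t.size) (f g : Finset ℕ)
    (hf : f ∈ t.tri 0) (hg : g ∈ t.tri 0) (h1 : σ ⊆ f) (h2 : σ ⊆ g) : f = g := by
  simp only [sds, Finset.mem_insert, Finset.mem_image, Finset.mem_range] at hσ
  rcases hσ with rfl | ⟨k, hk, rfl⟩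
  · refine tri_root t 0 f g hf hg ?_ ?_
    · rw [zero_add]; exact h1
    · rw [zero_add]; exact h2
  · exact tri_side t 0 k (Nat.zero_le _) (by omega) f g hf hg h1 h2

end RTD
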