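import Pool.Agent.RTD.D2

/-!
Project RTD, third batch: the kernel above the trivial lower bound.
-/

namespace RTD

/-- delete the position `g` (contract the side `{g, g+1}` of the polygon) -/
def BT.del (t : BT) (g : ℕ) : BT := (t.restr (fun h => decide (h ≠ g)) 0).getD .nil

/-- renumbering of the vertices when `g` and `g+1` are identified -/
def pc (g v : ℕ) : ℕ := if v ≤ g then v else v - 1

/-- a strip: a chain of nodes each of which has an empty left (`true`) or an empty right (`false`)
subtree; `X` is the subtree at the end -/
def strip : List Bool → BT → BT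
  | [], X => X
  | true :: σ, X => .node .nil (strip σ X)
  | false :: σ, X => .node (strip σ X) .nil

/-- the positions of the empty subtrees of the strip, if the first position of the whole subtree
is `x` -/
def stripPos : List Bool → BT → ℕ → List ℕ
  | [], _, _ => []
  | true :: σ, X, x => x :: stripPos σ X (x + 1)
  | false :: σ, X, x => (x + X.size + σ.length + 1) :: stripPos σ X x

/-- the position of the outermost leaf of the strip `l :: σ` -/
def outer (l : Bool) (σ : List Bool) (X : BT) (x : ℕ) : ℕ :=
  if l then x else x + X.size + σ.length + 1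

/-- delete all leaves of the strip (one after the other, from the outside) in another tree `T` -/
def dT : List Bool → BT → ℕ → BT → BT
  | [], _, _, T => T
  | l :: σ, X, x, T => dT σ X x (T.del (outer l σ X x))

/-- re-rooting of the triangulation: the vertex `v` becomes `v - 1`, the vertex `0` becomes the
last one -/
def BT.shGo : BT → BT → BT
  | .nil, acc => acc
  | .node l r, acc => l.shGo (.node r acc)

def BT.sh (t : BT) : BT := t.shGo .nil

/-- the renumbering of the vertices of the `(q+2)`-gon by `sh` -/
def rho (q v : ℕ) : ℕ := if v = 0 then q + 1 else v - 1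

/-- no common diagonal -/
def NCe (S T : BT) : Prop := ∀ e, e ∈ edg (S.tri 0) → e ∈ edg (T.tri 0) → e ∈ sds S.size

/-- no common diagonal, and no flip of one of the triangulations creates a common diagonal -/
def RedF (S T : BT) : Prop :=
  NCe S T ∧
  (∀ f ∈ S.tri 0, ∀ g ∈ S.tri 0, (f ∩ g).card = 2 → (f ∪ g) \ (f ∩ g) ∉ edg (T.tri 0)) ∧
  (∀ f ∈ T.tri 0, ∀ g ∈ T.tri 0, (f ∩ g).card = 2 → (f ∪ g) \ (f ∩ g) ∉ edg (S.tri 0))

/-- the rotation distance of `S` and `T` is at most `(size - 1) + j` -/
def Exc (j : ℕ) (S T : BT) : Prop := ∃ n, Path n S T ∧ n + 1 ≤ S.size + j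

/-- One shrinking step.  `cut`: `S` contains a strip with at least `k+3` triangles such that for
every position `p` of the strip `T` has the triangle `{0, p, p+1}` (the sides of the strip see the
vertex `0` in `T`); the outermost side of the strip is contracted in both trees.
`swap`, `shift`: the same with the roles of `S` and `T` exchanged, and with any other vertex in
the place of `0`. -/
inductive Shrink (k : ℕ) : BT → BT → BT → BT → Prop
  | cut (C X T : BT) (x : ℕ) (l : Bool) (σ : List Bool) :
      1 ≤ x → x ≤ C.size → k + 2 ≤ σ.length →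
      (∀ p ∈ stripPos (l :: σ) X x, ({0, p, p + 1} : Finset ℕ) ∈ T.tri 0) →
      Shrink k (C.plug (strip (l :: σ) X) x 0) T (C.plug (strip σ X) x 0)
        (T.del (outer l σ X x))
  | swap (S T S' T' : BT) : Shrink k T S T' S' → Shrink k S T S' T'
  | shift (S T S' T' : BT) : Shrink k S.sh T.sh S' T' → Shrink k S T S' T'

/-- rotation sequences all of whose trees have the property `Q` -/
def PathP (Q : BT → Prop) (n : ℕ) (S T : BT) : Prop :=
  ∃ t : ℕ → BT, t 0 = S ∧ t n = T ∧ (∀ i < n, Rot (t i) (t (i + 1))) ∧ ∀ i ≤ n, Q (t i)

/-- a strip in terms of triangles: a list of pairs (triangle of `A`, side of it), consecutive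
triangles share an edge, the vertex `b` is in none of the triangles, and `b` together with each of
the sides is a triangle of `B` -/
structure FS (A B : Finset (Finset ℕ)) (Sd : Finset (Finset ℕ)) (b : ℕ)
    (l : List (Finset ℕ × Finset ℕ)) : Prop where
  mem : ∀ p ∈ l, p.1 ∈ A ∧ p.2 ∈ Sd ∧ p.2 ⊆ p.1 ∧ b ∉ p.1 ∧ insert b p.2 ∈ B
  nd : (l.map Prod.fst).Nodup
  ch : ∀ i (h : i + 1 < l.length), ((l[i]'(by omega)).1 ∩ (l[i + 1]).1).card = 2

end RTD
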