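import Pool.Agent.RTD.CV
import Pool.Agent.RTD.D3

/-! RTD row CH: the direct steps form few chains, and every chain is a strip. -/

namespace RTD

open Finset

variable {q n : ℕ} {F : ℕ → Finset (Finset ℕ)} {Sd : Finset (Finset ℕ)}

private theorem CH_ltn {i : ℕ} (hi : i ∈ W F n) : i < n := by
  simp only [W, mem_filter, mem_range] at hi
  exact hi.1

private theorem CH_orig {i : ℕ} {f : Finset ℕ} (h : f ∈ orig F i) :
    f ∈ F i ∧ f ∉ F (i + 1) ∧ ∀ k ≤ i, f ∈ F k := by
  simp only [orig, mem_filter, mem_sdiff] at h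
  exact ⟨h.1.1, h.1.2, h.2⟩

private theorem CH_fin {i : ℕ} {f : Finset ℕ} (h : f ∈ fin F n i) :
    f ∈ F (i + 1) ∧ f ∉ F i ∧ ∀ k, i < k → k ≤ n → f ∈ F k := by
  simp only [fin, mem_filter, mem_sdiff] at h
  exact ⟨h.1.1, h.1.2, h.2⟩

private theorem CH_orig_inj {i j : ℕ} {f : Finset ℕ} (h : f ∈ orig F i) (h' : f ∈ orig F j) :
    i = j := by
  obtain ⟨_, h1, h2⟩ := CH_orig h
  obtain ⟨_, h1', h2'⟩ := CH_orig h'
  rcases lt_trichotomy i j with hij | hij | hij
  · exact absurd (h2' (i + 1) hij) h1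
  · exact hij
  · exact absurd (h2 (j + 1) hij) h1'

private theorem CH_fin_inj {i j : ℕ} {f : Finset ℕ} (hi : i < n) (hj : j < n)
    (h : f ∈ fin F n i) (h' : f ∈ fin F n j) : i = j := by
  obtain ⟨_, h1, h2⟩ := CH_fin h
  obtain ⟨_, h1', h2'⟩ := CH_fin h'
  rcases lt_trichotomy i j with hij | hij | hij
  · exact absurd (h2 j hij hj.le) h1'
  · exact hij
  · exact absurd (h2' i hij hi.le) h1

/-- the label of a direct step -/
private def CH_lab (F : ℕ → Finset (Finset ℕ)) (n : ℕ) (a b : ℕ → ℕ) (i : ℕ) : Bool × ℕ :=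
  if ({a i, b i} : Finset ℕ) ∈ edg (F 0) ∧ ({a i, b i} : Finset ℕ) ∉ edg (F n) then (false, a i)
  else (true, b i)

private theorem CH_lab_false {a b : ℕ → ℕ} {i v : ℕ} (h : CH_lab F n a b i = (false, v)) :
    a i = v := by
  unfold CH_lab at h
  split_ifs at h with hc
  · exact (Prod.ext_iff.1 h).2
  · exact absurd (Prod.ext_iff.1 h).1 (by simp)

private theorem CH_lab_true {a b : ℕ → ℕ} {i v : ℕ} (h : CH_lab F n a b i = (true, v)) :
    b i = v := by
  unfold CH_lab at h
  split_ifs at h with hc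
  · exact absurd (Prod.ext_iff.1 h).1 (by simp)
  · exact (Prod.ext_iff.1 h).2

/-- the relation between consecutive direct steps of a chain -/
private def CH_R (F : ℕ → Finset (Finset ℕ)) (n : ℕ) (p p' a b : ℕ → ℕ) (j i : ℕ) : Prop :=
  ((CH_lab F n a b i).1 = true → ({p i, a i} : Finset ℕ) ⊆ {p j, p' j, a j}) ∧
    ((CH_lab F n a b i).1 = false → ({p i, b i} : Finset ℕ) ⊆ {p j, p' j, b j})

/-- linked direct steps have the same label, up to the exceptional steps -/
private theorem CH_claim (hc : Cfg q n F Sd) (p p' a b : ℕ → ℕ)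
    (hd : ∀ i ∈ W F n, WData F n i Sd (p i) (p' i) (a i) (b i)) {i j : ℕ} (hi : i ∈ W F n)
    (hj : j ∈ W F n) {X : Finset ℕ} (h1 : X ∈ F j \ F (j + 1)) (h2 : X ∉ orig F j)
    (h3 : X ∈ F (i + 1) \ F i) (h4 : X ∉ fin F n i) (hs : ({p i, a i} : Finset ℕ) ∉ Sd) :
    CH_lab F n a b i = CH_lab F n a b j ∧ CH_R F n p p' a b j i := by
  have hwi := hd i hi
  have hwj := hd j hj
  obtain ⟨d1, d2, d3, d4, d5, d6, _, _, hfi, _, hnew⟩ := hd i hi
  obtain ⟨g1, g2, g3, g4, g5, g6, _, hoj, _, hold, _⟩ := hd j hj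
  rw [hnew] at h3
  rw [hfi] at h4
  rw [hold] at h1
  rw [hoj] at h2
  have e1 : X = {p i, a i, b i} := by
    rcases mem_insert.1 h3 with h | h
    · exact absurd (mem_singleton.2 h) h4
    · exact mem_singleton.1 h
  have e2 : X = {p' j, a j, b j} := by
    rcases mem_insert.1 h1 with h | h
    · exact absurd (mem_singleton.2 h) h2
    · exact mem_singleton.1 h
  have e3 : ({p i, a i, b i} : Finset ℕ) = {p' j, a j, b j} := e1.symm.trans e2
  have m1 : p i ∈ ({p' j, a j, b j} : Finset ℕ) := by rw [← e3]; simp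
  have m2 : a i ∈ ({p' j, a j, b j} : Finset ℕ) := by rw [← e3]; simp
  have m3 : b i ∈ ({p' j, a j, b j} : Finset ℕ) := by rw [← e3]; simp
  simp only [mem_insert, mem_singleton] at m1 m2 m3
  have sub : ∀ u v x y z : ℕ, (u = x ∨ u = y ∨ u = z) → (v = x ∨ v = y ∨ v = z) →
      ({u, v} : Finset ℕ) ⊆ {x, y, z} := by
    intro u v x y z h h' t ht
    simp only [mem_insert, mem_singleton] at ht ⊢
    omega
  rcases link hc (CH_ltn hi) (CH_ltn hj) hwi hwj (e2.symm.trans e1) with h | h | h | h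
  · exact absurd h hs
  · refine ⟨?_, fun _ => sub _ _ _ _ _ (by omega) (by omega), fun _ => sub _ _ _ _ _ (by omega) (by omega)⟩
    unfold CH_lab
    rw [h.1, h.2]
  · have n1 : ¬ (({a i, b i} : Finset ℕ) ∈ edg (F 0) ∧ ({a i, b i} : Finset ℕ) ∉ edg (F n)) :=
      fun hh => hh.2 h.2.1
    have n2 : ¬ (({a j, b j} : Finset ℕ) ∈ edg (F 0) ∧ ({a j, b j} : Finset ℕ) ∉ edg (F n)) :=
      fun hh => hh.2 h.2.2
    have hb := h.1
    have l1 : CH_lab F n a b i = (true, b i) := by
      unfold CH_lab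
      rw [if_neg n1]
    refine ⟨?_, fun _ => sub _ _ _ _ _ (by omega) (by omega), fun hh => ?_⟩
    · rw [l1]
      unfold CH_lab
      rw [if_neg n2, hb]
    · rw [l1] at hh
      exact absurd hh (by simp)
  · have n1 : (({a i, b i} : Finset ℕ) ∈ edg (F 0) ∧ ({a i, b i} : Finset ℕ) ∉ edg (F n)) :=
      ⟨h.2.1, h.2.2.1⟩
    have n2 : (({a j, b j} : Finset ℕ) ∈ edg (F 0) ∧ ({a j, b j} : Finset ℕ) ∉ edg (F n)) :=
      ⟨h.2.2.2.1, h.2.2.2.2⟩
    have ha := h.1
    have l1 : CH_lab F n a b i = (false, a i) := by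
      unfold CH_lab
      rw [if_pos n1]
    refine ⟨?_, fun hh => ?_, fun _ => sub _ _ _ _ _ (by omega) (by omega)⟩
    · rw [l1]
      unfold CH_lab
      rw [if_pos n2, ha]
    · rw [l1] at hh
      exact absurd hh (by simp)

private theorem CH_two {f g e : Finset ℕ} (hf : f.card = 3) (hg : g.card = 3) (he : e.card = 2)
    (h1 : e ⊆ f) (h2 : e ⊆ g) (hne : f ≠ g) : (f ∩ g).card = 2 := by
  have h3 : 2 ≤ (f ∩ g).card := by
    rw [← he]
    exact card_le_card (subset_inter h1 h2)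
  have h4 : (f ∩ g).card ≤ 3 := by
    rw [← hf]
    exact card_le_card inter_subset_left
  by_contra h5
  have h6 : (f ∩ g).card = 3 := by omega
  have h7 : f ∩ g = f := eq_of_subset_of_card_le inter_subset_left (by omega)
  have h8 : f ∩ g = g := eq_of_subset_of_card_le inter_subset_right (by omega)
  exact hne (h7.symm.trans h8)

private theorem CH_card3 {x y z : ℕ} (h1 : x ≠ y) (h2 : x ≠ z) (h3 : y ≠ z) :
    ({x, y, z} : Finset ℕ).card = 3 :=
  card_eq_three.2 ⟨x, y, z, h1, h2, h3, rfl⟩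

private theorem CH_fs_true (p p' a b : ℕ → ℕ)
    (hd : ∀ i ∈ W F n, WData F n i Sd (p i) (p' i) (a i) (b i)) (v : ℕ) (idx : List ℕ)
    (hmem : ∀ i ∈ idx, i ∈ W F n ∧ CH_lab F n a b i = (true, v))
    (hpw : idx.Pairwise (· > ·))
    (hR : ∀ i (h : i + 1 < idx.length), CH_R F n p p' a b (idx[i]'(by omega)) (idx[i + 1])) :
    FS (F 0) (F n) Sd v
      (idx.map fun i => (({p i, p' i, a i} : Finset ℕ), ({p i, p' i} : Finset ℕ))) := by
  have hnd : idx.Nodup := hpw.imp fun h => h.ne'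
  have hinj : ∀ i ∈ idx, ∀ j ∈ idx, ({p i, p' i, a i} : Finset ℕ) = {p j, p' j, a j} → i = j := by
    intro i hi j hj e
    obtain ⟨_, _, _, _, _, _, _, ho, _, _, _⟩ := hd i (hmem i hi).1
    obtain ⟨_, _, _, _, _, _, _, ho', _, _, _⟩ := hd j (hmem j hj).1
    exact CH_orig_inj (F := F) (by rw [ho]; exact mem_singleton_self _)
      (by rw [ho', e]; exact mem_singleton_self _)
  refine ⟨?_, ?_, ?_⟩
  · intro pr hpr
    obtain ⟨i, hi, rfl⟩ := List.mem_map.1 hpr
    obtain ⟨hiW, hil⟩ := hmem i hi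
    obtain ⟨d1, d2, d3, d4, d5, d6, d7, ho, hf, _, _⟩ := hd i hiW
    have hb := CH_lab_true hil
    have m1 : ({p i, p' i, a i} : Finset ℕ) ∈ orig F i := by rw [ho]; exact mem_singleton_self _
    have m2 : ({p i, p' i, b i} : Finset ℕ) ∈ fin F n i := by rw [hf]; exact mem_singleton_self _
    refine ⟨(CH_orig m1).2.2 0 (Nat.zero_le _), d7, ?_, ?_, ?_⟩
    · intro t ht
      simp only [mem_insert, mem_singleton] at ht ⊢
      omega
    · simp only [mem_insert, mem_singleton]
      omega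
    · have e : insert v ({p i, p' i} : Finset ℕ) = {p i, p' i, b i} := by
        ext t
        simp only [mem_insert, mem_singleton]
        omega
      show insert v ({p i, p' i} : Finset ℕ) ∈ F n
      rw [e]
      exact (CH_fin m2).2.2 n (CH_ltn hiW) le_rfl
  · rw [List.map_map]
    exact List.Nodup.map_on (fun i hi j hj e => hinj i hi j hj e) hnd
  · intro i h
    have h' : i + 1 < idx.length := by
      rw [List.length_map] at h
      exact h
    simp only [List.getElem_map]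
    have hi1 := hmem _ (List.getElem_mem (show i < idx.length by omega))
    have hi2 := hmem _ (List.getElem_mem h')
    obtain ⟨d1, d2, d3, d4, d5, d6, _⟩ := hd _ hi1.1
    obtain ⟨g1, g2, g3, g4, g5, g6, _⟩ := hd _ hi2.1
    refine CH_two (CH_card3 d1 d2 d4) (CH_card3 g1 g2 g4) (card_pair g2)
      ((hR i h').1 (by rw [hi2.2])) ?_ ?_
    · intro t ht
      simp only [mem_insert, mem_singleton] at ht ⊢
      omega
    · intro e
      have h5 := hinj _ (List.getElem_mem (show i < idx.length by omega)) _ (List.getElem_mem h') e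
      have h6 := (List.Nodup.getElem_inj_iff hnd).1 h5
      omega

private theorem CH_fs_false (p p' a b : ℕ → ℕ)
    (hd : ∀ i ∈ W F n, WData F n i Sd (p i) (p' i) (a i) (b i)) (v : ℕ) (idx : List ℕ)
    (hmem : ∀ i ∈ idx, i ∈ W F n ∧ CH_lab F n a b i = (false, v))
    (hpw : idx.Pairwise (· > ·))
    (hR : ∀ i (h : i + 1 < idx.length), CH_R F n p p' a b (idx[i]'(by omega)) (idx[i + 1])) :
    FS (F n) (F 0) Sd v
      (idx.map fun i => (({p i, p' i, b i} : Finset ℕ), ({p i, p' i} : Finset ℕ))) := by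
  have hnd : idx.Nodup := hpw.imp fun h => h.ne'
  have hinj : ∀ i ∈ idx, ∀ j ∈ idx, ({p i, p' i, b i} : Finset ℕ) = {p j, p' j, b j} → i = j := by
    intro i hi j hj e
    obtain ⟨_, _, _, _, _, _, _, _, ho, _, _⟩ := hd i (hmem i hi).1
    obtain ⟨_, _, _, _, _, _, _, _, ho', _, _⟩ := hd j (hmem j hj).1
    exact CH_fin_inj (F := F) (CH_ltn (hmem i hi).1) (CH_ltn (hmem j hj).1)
      (by rw [ho]; exact mem_singleton_self _) (by rw [ho', e]; exact mem_singleton_self _)
  refine ⟨?_, ?_, ?_⟩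
  · intro pr hpr
    obtain ⟨i, hi, rfl⟩ := List.mem_map.1 hpr
    obtain ⟨hiW, hil⟩ := hmem i hi
    obtain ⟨d1, d2, d3, d4, d5, d6, d7, ho, hf, _, _⟩ := hd i hiW
    have hb := CH_lab_false hil
    have m1 : ({p i, p' i, a i} : Finset ℕ) ∈ orig F i := by rw [ho]; exact mem_singleton_self _
    have m2 : ({p i, p' i, b i} : Finset ℕ) ∈ fin F n i := by rw [hf]; exact mem_singleton_self _
    refine ⟨(CH_fin m2).2.2 n (CH_ltn hiW) le_rfl, d7, ?_, ?_, ?_⟩
    · intro t ht
      simp only [mem_insert, mem_singleton] at ht ⊢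
      omega
    · simp only [mem_insert, mem_singleton]
      omega
    · have e : insert v ({p i, p' i} : Finset ℕ) = {p i, p' i, a i} := by
        ext t
        simp only [mem_insert, mem_singleton]
        omega
      show insert v ({p i, p' i} : Finset ℕ) ∈ F 0
      rw [e]
      exact (CH_orig m1).2.2 0 (Nat.zero_le _)
  · rw [List.map_map]
    exact List.Nodup.map_on (fun i hi j hj e => hinj i hi j hj e) hnd
  · intro i h
    have h' : i + 1 < idx.length := by
      rw [List.length_map] at h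
      exact h
    simp only [List.getElem_map]
    have hi1 := hmem _ (List.getElem_mem (show i < idx.length by omega))
    have hi2 := hmem _ (List.getElem_mem h')
    obtain ⟨d1, d2, d3, d4, d5, d6, _⟩ := hd _ hi1.1
    obtain ⟨g1, g2, g3, g4, g5, g6, _⟩ := hd _ hi2.1
    refine CH_two (CH_card3 d1 d3 d5) (CH_card3 g1 g3 g5) (card_pair g3)
      ((hR i h').2 (by rw [hi2.2])) ?_ ?_
    · intro t ht
      simp only [mem_insert, mem_singleton] at ht ⊢
      omega
    · intro e
      have h5 := hinj _ (List.getElem_mem (show i < idx.length by omega)) _ (List.getElem_mem h') e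
      have h6 := (List.Nodup.getElem_inj_iff hnd).1 h5
      omega

/-- the chains -/
private theorem CH_chain (hc : Cfg q n F Sd) (p p' a b : ℕ → ℕ)
    (hd : ∀ i ∈ W F n, WData F n i Sd (p i) (p' i) (a i) (b i)) (pd : ℕ → ℕ) (Xf : ℕ → Finset ℕ)
    (hX : ∀ j ∈ W F n, Xf j ∈ F j \ F (j + 1) ∧ Xf j ∉ orig F j ∧ pd j < j ∧
        Xf j ∈ F (pd j + 1) \ F (pd j) ∧ Xf j ∉ fin F n (pd j))
    (L : ℕ → Finset ℕ) (hL0 : ∀ j ∈ L 0, j ∈ W F n)
    (hL : ∀ m, ∀ j ∈ L (m + 1), j ∈ W F n ∧ pd j ∈ W F n ∧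
      ({p (pd j), a (pd j)} : Finset ℕ) ∉ Sd ∧ pd j ∈ L m) :
    ∀ m, ∀ j ∈ L m, ∃ idx : List ℕ, idx.length = m + 1 ∧ (∃ t, idx = j :: t) ∧
      (∀ i ∈ idx, i ∈ W F n ∧ CH_lab F n a b i = CH_lab F n a b j) ∧ idx.Pairwise (· > ·) ∧
      ∀ i (h : i + 1 < idx.length), CH_R F n p p' a b (idx[i]'(by omega)) (idx[i + 1]) := by
  intro m
  induction m with
  | zero =>
    intro j hj
    refine ⟨[j], rfl, ⟨[], rfl⟩, ?_, List.pairwise_singleton _ _, ?_⟩
    · intro i hi
      rw [List.mem_singleton] at hi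
      rw [hi]
      exact ⟨hL0 j hj, rfl⟩
    · intro i h
      rw [List.length_singleton] at h
      omega
  | succ m ih =>
    intro j hj
    obtain ⟨hjW, hpW, hs, hpL⟩ := hL m j hj
    obtain ⟨idx, hlen, ⟨t, ht⟩, hmem, hpw, hR⟩ := ih (pd j) hpL
    obtain ⟨x1, x2, x3, x4, x5⟩ := hX j hjW
    obtain ⟨c1, c2⟩ := CH_claim hc p p' a b hd hpW hjW x1 x2 x4 x5 hs
    refine ⟨j :: idx, by rw [List.length_cons, hlen], ⟨idx, rfl⟩, ?_, ?_, ?_⟩
    · intro i hi
      rcases List.mem_cons.1 hi with h | h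
      · rw [h]
        exact ⟨hjW, rfl⟩
      · exact ⟨(hmem i h).1, (hmem i h).2.trans c1⟩
    · rw [List.pairwise_cons]
      refine ⟨?_, hpw⟩
      intro i hi
      rw [ht] at hi hpw
      rw [List.pairwise_cons] at hpw
      rcases List.mem_cons.1 hi with h | h
      · rw [h]
        exact x3
      · exact lt_trans (hpw.1 i h) x3
    · intro i h
      cases i with
      | zero =>
        have e : idx[0]'(by omega) = pd j := by
          simp only [ht, List.getElem_cons_zero]
        show CH_R F n p p' a b j (idx[0]'(by omega))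
        rw [e]
        exact c2
      | succ i =>
        exact hR i (by rw [List.length_cons] at h; omega)

/-- PROOF (see the proof of `cover` in row CV; its private lemmas can be copied).
Choose `p p' a b : ℕ → ℕ` with `WData` for all `i ∈ W F n` (`wnode`) and `pd, Xf` from `starts`.
Put `f₀ i = {p i, p' i, a i}` (`orig F i = {f₀ i}`, so `f₀ i ∈ F 0`), `f₁ i = {p i, p' i, b i}`
(`fin F n i = {f₁ i}`, so `f₁ i ∈ F n`); `f₀` and `f₁` are injective on `W` (an original triangle
disappears only once, a final one appears only once).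
Label `lab i := if {a i, b i} ∈ edg (F 0) ∧ {a i, b i} ∉ edg (F n) then (false, a i) else (true, b i)`.
CLAIM: let `i, j ∈ W`, `pd j = i`, `{p i, a i} ∉ Sd`.  Then `lab i = lab j`, and
`{p i, a i} ⊆ f₀ j` if the label is `(true, _)`, `{p i, b i} ⊆ f₁ j` if it is `(false, _)`.
Proof: as in row CV `Xf j = {p' j, a j, b j} = {p i, a i, b i}`; apply `link` (with `r' = p' j`,
`c = a j`, `d = b j`): (2) `c = a i, d = b i`: the labels are equal and `r' = p i`, both inclusions
hold.  (3) `d = b i`, both pairs in `edg (F n)`: both labels are `(true, b i)`, and `{r', c} = {p i, a i}`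
as sets.  (4) `c = a i`, both labels are `(false, a i)`, and `{r', d} = {p i, b i}`.
Call `j ∈ W` a head if `pd j ∉ W` or `{p (pd j), a (pd j)} ∈ Sd`.  Let `L 0` be the set of heads,
`L (m+1)` the set of the `j ∈ W`, not heads, with `pd j ∈ L m`.
(a) by strong induction on `j` (`pd j < j`) every `j ∈ W` is in some `L m`.
(b) for `j ∈ L m` there is a list `l` of length `m + 1`, the list of the pairs `(f₀ i, {p i, p' i})` if
`lab j = (true, v)`, `(f₁ i, {p i, p' i})` if `lab j = (false, v)`, for `i = j, pd j, pd (pd j), ...`, with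
`FS (F 0) (F n) Sd v l` resp. `FS (F n) (F 0) Sd v l` (induction on `m`; all `i` in the list are `≤ j` and
have the same label as `j`; consecutive triangles are different and share two elements by the
claim, so the intersection has exactly two elements; `insert (b i) {p i, p' i} = f₁ i`).
So `m + 1 ≤ lam`.
(c) `|L (m+1)| ≤ |L m|` because `pd` is injective on `L (m+1)` (second part of `starts`).
So `|W| ≤ lam * |L 0|`.
(d) `|L 0| ≤ |{j ∈ W : pd j ∉ W}| + |{i ∈ W : {p i, a i} ∈ Sd}| ≤ (2n - q - |W|) + (q + 2 - |W|)`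
(`starts`, `sides_count`; `pd` is injective on the heads with `pd j ∈ W`), so
`|L 0| + 2 |W| ≤ 2n + 2`, and with `W_card` (`q + 1 ≤ |W| + 3w`) `|L 0| + 2 ≤ 8 w`.
So `|W| + 2 lam ≤ lam * (8 w)` and `q + 1 ≤ |W| + 3 w`. -/
theorem chain_bound (hc : Cfg q n F Sd) (w lam : ℕ) (hw : n + 1 = q + w)
    (h1 : ∀ b l, FS (F 0) (F n) Sd b l → l.length ≤ lam)
    (h2 : ∀ a l, FS (F n) (F 0) Sd a l → l.length ≤ lam) :
    q + 1 + 2 * lam ≤ 3 * w + lam * (8 * w) := by
  classical
  have hex : ∀ i : ℕ, ∃ p p' a b : ℕ, i ∈ W F n → WData F n i Sd p p' a b := by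
    intro i
    by_cases hi : i ∈ W F n
    · obtain ⟨p, p', a, b, h⟩ := wnode hc hi
      exact ⟨p, p', a, b, fun _ => h⟩
    · exact ⟨0, 0, 0, 0, fun h => absurd h hi⟩
  choose p p' a b hd using hex
  obtain ⟨pd, Xf, hX, hinj, hst⟩ := starts hc
  have hsi := sides_count hc p p' a b hd
  have hWc := W_card hc w hw
  obtain ⟨L, hL0e, hLe⟩ : ∃ L : ℕ → Finset ℕ, (∀ j, j ∈ L 0 ↔ j ∈ W F n ∧
      (pd j ∉ W F n ∨ ({p (pd j), a (pd j)} : Finset ℕ) ∈ Sd)) ∧
      ∀ m j, j ∈ L (m + 1) ↔ j ∈ W F n ∧ pd j ∈ W F n ∧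
        ({p (pd j), a (pd j)} : Finset ℕ) ∉ Sd ∧ pd j ∈ L m := by
    refine ⟨fun m => Nat.rec
      ((W F n).filter (fun j => pd j ∉ W F n ∨ ({p (pd j), a (pd j)} : Finset ℕ) ∈ Sd))
      (fun _ A => (W F n).filter (fun j => pd j ∈ W F n ∧
        ({p (pd j), a (pd j)} : Finset ℕ) ∉ Sd ∧ pd j ∈ A)) m, ?_, ?_⟩
    · intro j
      exact mem_filter
    · intro m j
      exact mem_filter
  have hL0 : ∀ j ∈ L 0, j ∈ W F n := fun j hj => by
    exact ((hL0e j).1 hj).1
  have hL : ∀ m : ℕ, ∀ j ∈ L (m + 1), j ∈ W F n ∧ pd j ∈ W F n ∧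
      ({p (pd j), a (pd j)} : Finset ℕ) ∉ Sd ∧ pd j ∈ L m := by
    intro m j hj
    exact (hLe m j).1 hj
  -- every direct step is in one of the levels
  have hcov : ∀ j, j ∈ W F n → ∃ m, j ∈ L m := by
    intro j
    induction j using Nat.strong_induction_on with
    | _ j ih =>
      intro hj
      by_cases h : pd j ∉ W F n ∨ ({p (pd j), a (pd j)} : Finset ℕ) ∈ Sd
      · exact ⟨0, (hL0e j).2 ⟨hj, h⟩⟩
      · rw [not_or, not_not] at h
        obtain ⟨m, hm⟩ := ih (pd j) (hX j hj).2.2.1 h.1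
        exact ⟨m + 1, (hLe m j).2 ⟨hj, h.1, h.2, hm⟩⟩
  -- the levels are bounded
  have hch := CH_chain hc p p' a b hd pd Xf hX L hL0 hL
  have hlam : ∀ m, ∀ j ∈ L m, m < lam := by
    intro m j hj
    obtain ⟨idx, hlen, -, hmem, hpw, hR⟩ := hch m j hj
    rcases hl : CH_lab F n a b j with ⟨_ | _, v⟩
    · have h3 := h2 v _ (CH_fs_false p p' a b hd v idx
        (fun i hi => ⟨(hmem i hi).1, (hmem i hi).2.trans hl⟩) hpw hR)
      rw [List.length_map, hlen] at h3
      omega
    · have h3 := h1 v _ (CH_fs_true p p' a b hd v idx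
        (fun i hi => ⟨(hmem i hi).1, (hmem i hi).2.trans hl⟩) hpw hR)
      rw [List.length_map, hlen] at h3
      omega
  have hdec : ∀ m, (L m).card ≤ (L 0).card := by
    intro m
    induction m with
    | zero => exact le_rfl
    | succ m ih =>
      refine le_trans ?_ ih
      apply card_le_card_of_injOn pd
      · intro j hj
        exact mem_coe.2 (hL m j (mem_coe.1 hj)).2.2.2
      · intro j hj j' hj' e
        obtain ⟨y1, y2, -, -⟩ := hL m j (mem_coe.1 hj)
        obtain ⟨z1, -, -, -⟩ := hL m j' (mem_coe.1 hj')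
        exact hinj j y1 j' z1 e y2
  have hW : (W F n).card ≤ lam * (L 0).card := by
    have hsub : W F n ⊆ (range lam).biUnion L := by
      intro j hj
      obtain ⟨m, hm⟩ := hcov j hj
      exact mem_biUnion.2 ⟨m, mem_range.2 (hlam m j hm), hm⟩
    refine (card_le_card hsub).trans (card_biUnion_le.trans ?_)
    calc ∑ m ∈ range lam, (L m).card ≤ ∑ _m ∈ range lam, (L 0).card := sum_le_sum fun m _ => hdec m
      _ = lam * (L 0).card := by rw [sum_const, card_range, smul_eq_mul]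
  have hH : (L 0).card ≤ ((W F n).filter (fun j => pd j ∉ W F n)).card +
      ((W F n).filter (fun i => ({p i, a i} : Finset ℕ) ∈ Sd)).card := by
    have e1 : (L 0).card = ((L 0).filter (fun j => pd j ∉ W F n)).card +
        ((L 0).filter (fun j => ¬ pd j ∉ W F n)).card :=
      (Finset.card_filter_add_card_filter_not (s := L 0) (fun j => pd j ∉ W F n)).symm
    have e2 : ((L 0).filter (fun j => pd j ∉ W F n)).card ≤
        ((W F n).filter (fun j => pd j ∉ W F n)).card := by
      apply card_le_card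
      intro j hj
      obtain ⟨hj1, hj2⟩ := mem_filter.1 hj
      exact mem_filter.2 ⟨hL0 j hj1, hj2⟩
    have e3 : ((L 0).filter (fun j => ¬ pd j ∉ W F n)).card ≤
        ((W F n).filter (fun i => ({p i, a i} : Finset ℕ) ∈ Sd)).card := by
      apply card_le_card_of_injOn pd
      · intro j hj
        obtain ⟨hj1, hj2⟩ := mem_filter.1 (mem_coe.1 hj)
        have hpW : pd j ∈ W F n := not_not.1 hj2
        rcases ((hL0e j).1 hj1).2 with h | h
        · exact absurd hpW h
        · exact mem_coe.2 (mem_filter.2 ⟨hpW, h⟩)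
      · intro j hj j' hj' e
        obtain ⟨hj1, hj2⟩ := mem_filter.1 (mem_coe.1 hj)
        obtain ⟨hj1', _⟩ := mem_filter.1 (mem_coe.1 hj')
        exact hinj j (hL0 j hj1) j' (hL0 j' hj1') e (not_not.1 hj2)
    omega
  have hfin : (L 0).card + 2 ≤ 8 * w := by omega
  calc q + 1 + 2 * lam ≤ (W F n).card + 3 * w + 2 * lam := by omega
    _ ≤ lam * (L 0).card + 3 * w + 2 * lam := by omega
    _ = 3 * w + lam * ((L 0).card + 2) := by ring
    _ ≤ 3 * w + lam * (8 * w) := by
        have := Nat.mul_le_mul_left lam hfin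
        omega

end RTD
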