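import Pool.Agent.RTD.D2
import Pool.Agent.RTD.BT1

/-! RTD row KD: non-crossing facts for triangulations. -/

namespace RTD

private theorem KD_mem {F : Finset (Finset ℕ)} {f : Finset ℕ} {a b : ℕ} (hf : f ∈ F)
    (hab : a ≠ b) (ha : a ∈ f) (hb : b ∈ f) : ({a, b} : Finset ℕ) ∈ edg F := by
  refine Finset.mem_biUnion.2 ⟨f, hf, ?_⟩
  rw [Finset.mem_powersetCard]
  refine ⟨?_, Finset.card_pair hab⟩
  intro v hv
  simp only [Finset.mem_insert, Finset.mem_singleton] at hv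
  rcases hv with rfl | rfl
  · exact ha
  · exact hb

private theorem KD_edg {F : Finset (Finset ℕ)} {a b : ℕ} (h : ({a, b} : Finset ℕ) ∈ edg F) :
    ∃ f ∈ F, a ∈ f ∧ b ∈ f := by
  obtain ⟨f, hf, h1⟩ := Finset.mem_biUnion.1 h
  rw [Finset.mem_powersetCard] at h1
  exact ⟨f, hf, h1.1 (by simp), h1.1 (by simp)⟩

private theorem KD_bd {t : BT} {i a b : ℕ} (h : ({a, b} : Finset ℕ) ∈ edg (t.tri i)) :
    i ≤ a ∧ a ≤ i + t.size + 1 ∧ i ≤ b ∧ b ≤ i + t.size + 1 := by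
  obtain ⟨f, hf, ha, hb⟩ := KD_edg h
  have h1 := (tri_mem t i f hf).2 a ha
  have h2 := (tri_mem t i f hf).2 b hb
  exact ⟨h1.1, h1.2, h2.1, h2.2⟩

private theorem KD_cases {l r : BT} {i a b : ℕ} (hab : a ≠ b)
    (h : ({a, b} : Finset ℕ) ∈ edg ((BT.node l r).tri i)) :
    ((a = i ∨ a = i + l.size + 1 ∨ a = i + l.size + r.size + 2) ∧
      (b = i ∨ b = i + l.size + 1 ∨ b = i + l.size + r.size + 2)) ∨
    ({a, b} : Finset ℕ) ∈ edg (l.tri i) ∨ ({a, b} : Finset ℕ) ∈ edg (r.tri (i + l.size + 1)) := by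
  obtain ⟨f, hf, ha, hb⟩ := KD_edg h
  simp only [BT.tri, Finset.mem_insert, Finset.mem_union] at hf
  rcases hf with rfl | hf | hf
  · left
    simp only [Finset.mem_insert, Finset.mem_singleton] at ha hb
    exact ⟨ha, hb⟩
  · exact Or.inr (Or.inl (KD_mem hf hab ha hb))
  · exact Or.inr (Or.inr (KD_mem hf hab ha hb))

/-- two edges do not cross.
PROOF: induction on `t`, generalizing `i`; `t = node l r`, `m = i+|l|+1`, `z = i+size+1`.  Edges of `l` live
in `[i,m]`, edges of `r` in `[m,z]`, the edges of the root triangle are `{i,m}, {m,z}, {i,z}`.  Two edges of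
the same subtree: induction hypothesis; otherwise `omega`. (An edge `{a,c}` with `a < c` in `edg` of
the root triangle satisfies `(a,c) ∈ {(i,m),(m,z),(i,z)}`.) -/
theorem nx (t : BT) (i a b c d : ℕ) (h1 : a < b) (h2 : b < c) (h3 : c < d)
    (he : ({a, c} : Finset ℕ) ∈ edg (t.tri i)) (he' : ({b, d} : Finset ℕ) ∈ edg (t.tri i)) :
    False := by
  induction t generalizing i with
  | nil =>
    obtain ⟨f, hf, _⟩ := KD_edg he
    simp [BT.tri] at hf
  | node l r ihl ihr =>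
    rcases KD_cases (by omega) he with k1 | k1 | k1 <;>
      rcases KD_cases (by omega) he' with k2 | k2 | k2
    · omega
    · have := KD_bd k2
      omega
    · have := KD_bd k2
      omega
    · have := KD_bd k1
      omega
    · exact ihl i k1 k2
    · have := KD_bd k1
      have := KD_bd k2
      omega
    · have := KD_bd k1
      omega
    · have := KD_bd k1
      have := KD_bd k2
      omega
    · exact ihr _ k1 k2

/-- two triangles with a common edge lie on different sides of it: the third vertices `u, w` are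
separated by the common edge `{c,d}`, `c < d`.
PROOF: if both are between `c` and `d`, say `c < u < w < d`, then the edges `{c,w}` and `{u,d}` cross
(`nx`).  If both are outside: `u < w < c < d`: `{u,c}`, `{w,d}` cross; `u < c < d < w`: `{u,d}`, `{c,w}` cross;
`c < d < u < w`: `{c,u}`, `{d,w}` cross; and the cases with `u`, `w` exchanged. -/
theorem sep (t : BT) (i u w c d : ℕ) (hcd : c < d) (huw : u ≠ w) (huc : u ≠ c) (hud : u ≠ d)
    (hwc : w ≠ c) (hwd : w ≠ d) (hf : ({u, c, d} : Finset ℕ) ∈ t.tri i)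
    (hg : ({w, c, d} : Finset ℕ) ∈ t.tri i) :
    ((c < u ∧ u < d) ∧ (w < c ∨ d < w)) ∨ ((c < w ∧ w < d) ∧ (u < c ∨ d < u)) := by
  have uc : ({u, c} : Finset ℕ) ∈ edg (t.tri i) := KD_mem hf huc (by simp) (by simp)
  have ud : ({u, d} : Finset ℕ) ∈ edg (t.tri i) := KD_mem hf hud (by simp) (by simp)
  have wc : ({w, c} : Finset ℕ) ∈ edg (t.tri i) := KD_mem hg hwc (by simp) (by simp)
  have wd : ({w, d} : Finset ℕ) ∈ edg (t.tri i) := KD_mem hg hwd (by simp) (by simp)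
  have cu : ({c, u} : Finset ℕ) ∈ edg (t.tri i) := by rw [Finset.pair_comm]; exact uc
  have du : ({d, u} : Finset ℕ) ∈ edg (t.tri i) := by rw [Finset.pair_comm]; exact ud
  have cw : ({c, w} : Finset ℕ) ∈ edg (t.tri i) := by rw [Finset.pair_comm]; exact wc
  have dw : ({d, w} : Finset ℕ) ∈ edg (t.tri i) := by rw [Finset.pair_comm]; exact wd
  have n1 : ¬ (c < u ∧ u < w ∧ w < d) := fun h => nx t i c u w d h.1 h.2.1 h.2.2 cw ud
  have n2 : ¬ (c < w ∧ w < u ∧ u < d) := fun h => nx t i c w u d h.1 h.2.1 h.2.2 cu wd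
  have n3 : ¬ (u < w ∧ w < c) := fun h => nx t i u w c d h.1 h.2 hcd uc wd
  have n4 : ¬ (w < u ∧ u < c) := fun h => nx t i w u c d h.1 h.2 hcd wc ud
  have n5 : ¬ (u < c ∧ d < w) := fun h => nx t i u c d w h.1 hcd h.2 ud cw
  have n6 : ¬ (w < c ∧ d < u) := fun h => nx t i w c d u h.1 hcd h.2 wd cu
  have n7 : ¬ (d < u ∧ u < w) := fun h => nx t i c d u w hcd h.1 h.2 cu dw
  have n8 : ¬ (d < w ∧ w < u) := fun h => nx t i c d w u hcd h.1 h.2 cw du
  omega

private theorem KD_third {f : Finset ℕ} (hf : f.card = 3) {c d : ℕ} (hcd : c ≠ d)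
    (h : ({c, d} : Finset ℕ) ⊆ f) : ∃ p, p ≠ c ∧ p ≠ d ∧ f = {p, c, d} := by
  have h1 : (f \ {c, d}).card = 1 := by
    rw [Finset.card_sdiff_of_subset h, hf, Finset.card_pair hcd]
  obtain ⟨p, hp⟩ := Finset.card_eq_one.1 h1
  have hp' : p ∈ f \ {c, d} := by rw [hp]; simp
  simp only [Finset.mem_sdiff, Finset.mem_insert, Finset.mem_singleton, not_or] at hp'
  refine ⟨p, hp'.2.1, hp'.2.2, ?_⟩
  have h2 : f = (f \ {c, d}) ∪ {c, d} := (Finset.sdiff_union_of_subset h).symm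
  rw [h2, hp]
  exact (Finset.insert_eq _ _).symm

private theorem KD_lt {s : Finset ℕ} (hs : s.card = 2) : ∃ c d, c < d ∧ s = {c, d} := by
  obtain ⟨x, y, hxy, rfl⟩ := Finset.card_eq_two.1 hs
  rcases lt_or_gt_of_ne hxy with h | h
  · exact ⟨x, y, h, rfl⟩
  · exact ⟨y, x, h, Finset.pair_comm _ _⟩

private theorem KD_quad (t : BT) (i : ℕ) (f g : Finset ℕ) (hf : f ∈ t.tri i) (hg : g ∈ t.tri i)
    (hfg : (f ∩ g).card = 2) : ∃ p q c d : ℕ, c < d ∧ p ≠ q ∧ p ≠ c ∧ p ≠ d ∧ q ≠ c ∧ q ≠ d ∧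
      f = {p, c, d} ∧ g = {q, c, d} ∧ f ∩ g = {c, d} ∧ (f ∪ g) \ (f ∩ g) = {p, q} := by
  obtain ⟨c, d, hcd, h1⟩ := KD_lt hfg
  obtain ⟨p, hpc, hpd, hfp⟩ := KD_third (tri_mem t i f hf).1 hcd.ne
    (by rw [← h1]; exact Finset.inter_subset_left)
  obtain ⟨q, hqc, hqd, hgq⟩ := KD_third (tri_mem t i g hg).1 hcd.ne
    (by rw [← h1]; exact Finset.inter_subset_right)
  have hpq : p ≠ q := by
    rintro rfl
    rw [hfp, hgq, Finset.inter_self, ← hfp, (tri_mem t i f hf).1] at hfg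
    omega
  refine ⟨p, q, c, d, hcd, hpq, hpc, hpd, hqc, hqd, hfp, hgq, h1, ?_⟩
  rw [h1, hfp, hgq]
  ext v
  simp only [Finset.mem_sdiff, Finset.mem_union, Finset.mem_insert, Finset.mem_singleton]
  omega

/-- the other diagonal of a quadrilateral is not an edge.
PROOF: write `f = {u,c,d}`, `g = {w,c,d}` with `c < d` (`f ∩ g = {c,d}`), then
`(f ∪ g) \ (f ∩ g) = {u,w}`, which crosses `{c,d}` (`sep`), contradiction to `nx`. -/
theorem opp_not (t : BT) (i : ℕ) (f g : Finset ℕ) (hf : f ∈ t.tri i) (hg : g ∈ t.tri i)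
    (hfg : (f ∩ g).card = 2) : (f ∪ g) \ (f ∩ g) ∉ edg (t.tri i) := by
  obtain ⟨p, q, c, d, hcd, hpq, hpc, hpd, hqc, hqd, hfp, hgq, h1, h2⟩ := KD_quad t i f g hf hg hfg
  rw [h2]
  intro he
  have he' : ({q, p} : Finset ℕ) ∈ edg (t.tri i) := by rw [Finset.pair_comm]; exact he
  have cd : ({c, d} : Finset ℕ) ∈ edg (t.tri i) :=
    KD_mem hf hcd.ne (by rw [hfp]; simp) (by rw [hfp]; simp)
  rcases sep t i p q c d hcd hpq hpc hpd hqc hqd (hfp ▸ hf) (hgq ▸ hg) with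
    ⟨⟨k1, k2⟩, k3 | k3⟩ | ⟨⟨k1, k2⟩, k3 | k3⟩
  · exact nx t i q c p d k3 k1 k2 he' cd
  · exact nx t i c p d q k1 k2 k3 cd he
  · exact nx t i p c q d k3 k1 k2 he cd
  · exact nx t i c q d p k1 k2 k3 cd he'

/-- the sides of a quadrilateral with the diagonal `{c,d}`, in the order `u < c < w < d` or
`c < u < d < w`. -/
private theorem KD_cross (t : BT) (i u w c d a b : ℕ) (huw : u < w)
    (uc : ({u, c} : Finset ℕ) ∈ edg (t.tri i)) (ud : ({u, d} : Finset ℕ) ∈ edg (t.tri i))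
    (wc : ({w, c} : Finset ℕ) ∈ edg (t.tri i)) (wd : ({w, d} : Finset ℕ) ∈ edg (t.tri i))
    (hs : ((c < u ∧ u < d) ∧ (w < c ∨ d < w)) ∨ ((c < w ∧ w < d) ∧ (u < c ∨ d < u)))
    (he : ({a, b} : Finset ℕ) ∈ edg (t.tri i))
    (hx : (a < u ∧ u < b ∧ b < w) ∨ (u < a ∧ a < w ∧ w < b)) : c = a ∧ d = b := by
  have cu : ({c, u} : Finset ℕ) ∈ edg (t.tri i) := by rw [Finset.pair_comm]; exact uc
  have cw : ({c, w} : Finset ℕ) ∈ edg (t.tri i) := by rw [Finset.pair_comm]; exact wc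
  have dw : ({d, w} : Finset ℕ) ∈ edg (t.tri i) := by rw [Finset.pair_comm]; exact wd
  have N : ∀ x y : ℕ, ({x, y} : Finset ℕ) ∈ edg (t.tri i) →
      ¬ (x < a ∧ a < y ∧ y < b) ∧ ¬ (a < x ∧ x < b ∧ b < y) := fun x y h =>
    ⟨fun k => nx t i x a y b k.1 k.2.1 k.2.2 h he, fun k => nx t i a x b y k.1 k.2.1 k.2.2 he h⟩
  rcases hs with ⟨⟨s1, s2⟩, s3⟩ | ⟨⟨s1, s2⟩, s3⟩
  · have s4 : d < w := by
      rcases s3 with s3 | s3
      · exact absurd (s3.trans s1) (by omega)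
      · exact s3
    rcases hx with ⟨x1, x2, x3⟩ | ⟨x1, x2, x3⟩
    · have k1 : ¬ a < c := fun h => (N _ _ cw).2 ⟨h, s1.trans x2, x3⟩
      have k2 : ¬ c < a := fun h => (N _ _ cu).1 ⟨h, x1, x2⟩
      have k3 : ¬ b < d := fun h => (N _ _ ud).2 ⟨x1, x2, h⟩
      have k4 : ¬ d < b := fun h => (N _ _ dw).2 ⟨x1.trans s2, h, x3⟩
      exact ⟨by omega, by omega⟩
    · exact absurd ⟨s1.trans x1, x2, x3⟩ (N _ _ cw).1
  · have s4 : u < c := by
      rcases s3 with s3 | s3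
      · exact s3
      · exact absurd (s2.trans s3) (by omega)
    rcases hx with ⟨x1, x2, x3⟩ | ⟨x1, x2, x3⟩
    · exact absurd ⟨x1, x2, x3.trans s2⟩ (N _ _ ud).2
    · have k1 : ¬ a < c := fun h => (N _ _ uc).1 ⟨x1, h, s1.trans x3⟩
      have k2 : ¬ c < a := fun h => (N _ _ cw).1 ⟨h, x2, x3⟩
      have k3 : ¬ b < d := fun h => (N _ _ wd).2 ⟨x2, x3, h⟩
      have k4 : ¬ d < b := fun h => (N _ _ ud).1 ⟨x1, x2.trans s2, h⟩
      exact ⟨by omega, by omega⟩

/-- the only edge that crosses the other diagonal of a quadrilateral is the diagonal of it.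
PROOF: `f = {u,c,d}`, `g = {w,c,d}`, `c < d`, separated (`sep`); the edges `{u,c}, {u,d}, {w,c}, {w,d}`
are in `edg`; an edge `{a,b}` that crosses `{u,w}` and none of these four is `{c,d}` (`nx`, `omega`
cases). -/
theorem opp_cross (t : BT) (i : ℕ) (f g : Finset ℕ) (hf : f ∈ t.tri i) (hg : g ∈ t.tri i)
    (hfg : (f ∩ g).card = 2) (u w a b : ℕ) (huw : u < w) (hab : a < b)
    (h : (f ∪ g) \ (f ∩ g) = {u, w}) (he : ({a, b} : Finset ℕ) ∈ edg (t.tri i))
    (hx : (a < u ∧ u < b ∧ b < w) ∨ (u < a ∧ a < w ∧ w < b)) : f ∩ g = {a, b} := by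
  obtain ⟨p, q, c, d, hcd, hpq, hpc, hpd, hqc, hqd, hfp, hgq, h1, h2⟩ := KD_quad t i f g hf hg hfg
  have hs := sep t i p q c d hcd hpq hpc hpd hqc hqd (hfp ▸ hf) (hgq ▸ hg)
  have pc' : ({p, c} : Finset ℕ) ∈ edg (t.tri i) :=
    KD_mem hf hpc (by rw [hfp]; simp) (by rw [hfp]; simp)
  have pd : ({p, d} : Finset ℕ) ∈ edg (t.tri i) :=
    KD_mem hf hpd (by rw [hfp]; simp) (by rw [hfp]; simp)
  have qc : ({q, c} : Finset ℕ) ∈ edg (t.tri i) :=
    KD_mem hg hqc (by rw [hgq]; simp) (by rw [hgq]; simp)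
  have qd : ({q, d} : Finset ℕ) ∈ edg (t.tri i) :=
    KD_mem hg hqd (by rw [hgq]; simp) (by rw [hgq]; simp)
  rw [h2] at h
  have hu : u = p ∨ u = q := by
    have : u ∈ ({p, q} : Finset ℕ) := by rw [h]; simp
    simpa using this
  have hw : w = p ∨ w = q := by
    have : w ∈ ({p, q} : Finset ℕ) := by rw [h]; simp
    simpa using this
  have key : c = a ∧ d = b := by
    rcases hu with rfl | rfl <;> rcases hw with rfl | rfl
    · omega
    · exact KD_cross t i _ _ c d a b huw pc' pd qc qd hs he hx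
    · exact KD_cross t i _ _ c d a b huw qc qd pc' pd hs.symm he hx
    · omega
  rw [h1, key.1, key.2]

/-- an edge lies in at most two triangles.  PROOF: the three third vertices would be pairwise
separated by `{c,d}` (`sep`). -/
theorem tri_two (t : BT) (i c d : ℕ) (hcd : c < d) (f g h : Finset ℕ) (hf : f ∈ t.tri i)
    (hg : g ∈ t.tri i) (hh : h ∈ t.tri i) (h1 : ({c, d} : Finset ℕ) ⊆ f)
    (h2 : ({c, d} : Finset ℕ) ⊆ g) (h3 : ({c, d} : Finset ℕ) ⊆ h) :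
    f = g ∨ g = h ∨ f = h := by
  obtain ⟨p, hpc, hpd, rfl⟩ := KD_third (tri_mem t i f hf).1 hcd.ne h1
  obtain ⟨q, hqc, hqd, rfl⟩ := KD_third (tri_mem t i g hg).1 hcd.ne h2
  obtain ⟨r, hrc, hrd, rfl⟩ := KD_third (tri_mem t i h hh).1 hcd.ne h3
  by_cases e1 : p = q
  · left; rw [e1]
  by_cases e2 : q = r
  · right; left; rw [e2]
  by_cases e3 : p = r
  · right; right; rw [e3]
  exfalso
  have s1 := sep t i p q c d hcd e1 hpc hpd hqc hqd hf hg
  have s2 := sep t i q r c d hcd e2 hqc hqd hrc hrd hg hh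
  have s3 := sep t i p r c d hcd e3 hpc hpd hrc hrd hf hh
  omega

end RTD
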