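import Pool.Agent.RTD.KB
import Pool.Agent.RTD.KD

/-! RTD row CL1: no new common diagonal when a side of a strip is contracted. -/

namespace RTD

private theorem CL1_pair {a b c d : ℕ} (h1 : a < b) (h2 : c < d) (h : ({a, b} : Finset ℕ) = {c, d}) :
    a = c ∧ b = d := by
  have e1 : a ∈ ({c, d} : Finset ℕ) := by rw [← h]; simp
  have e2 : b ∈ ({c, d} : Finset ℕ) := by rw [← h]; simp
  have e3 : c ∈ ({a, b} : Finset ℕ) := by rw [h]; simp
  have e4 : d ∈ ({a, b} : Finset ℕ) := by rw [h]; simp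
  simp only [Finset.mem_insert, Finset.mem_singleton] at e1 e2 e3 e4
  omega

private theorem CL1_sub {t : BT} {f : Finset ℕ} (hf : f ∈ t.tri 0) {a b : ℕ} (ha : a ∈ f) (hb : b ∈ f)
    (hab : a ≠ b) : ({a, b} : Finset ℕ) ∈ edg (t.tri 0) := by
  simp only [edg, Finset.mem_biUnion, Finset.mem_powersetCard]
  refine ⟨f, hf, ?_, Finset.card_pair hab⟩
  intro c hc
  simp only [Finset.mem_insert, Finset.mem_singleton] at hc
  rcases hc with rfl | rfl
  · exact ha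
  · exact hb

private theorem CL1_nx (t : BT) {a c b d : ℕ} (he : ({a, c} : Finset ℕ) ∈ edg (t.tri 0))
    (he' : ({b, d} : Finset ℕ) ∈ edg (t.tri 0)) : ¬ (a < b ∧ b < c ∧ c < d) ∧ ¬ (b < a ∧ a < d ∧ d < c) :=
  ⟨fun h => nx t 0 a b c d h.1 h.2.1 h.2.2 he he', fun h => nx t 0 b a d c h.1 h.2.1 h.2.2 he' he⟩

private theorem CL1_sds {q a b : ℕ} (hab : a < b) (h : ({a, b} : Finset ℕ) ∈ sds q) :
    (a = 0 ∧ b = q + 1) ∨ (b = a + 1 ∧ a ≤ q) := by
  simp only [sds, Finset.mem_insert, Finset.mem_image, Finset.mem_range] at h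
  rcases h with h | ⟨k, hk, h⟩
  · left
    exact CL1_pair hab (by omega) h
  · right
    have := CL1_pair (by omega) hab h
    omega

private theorem CL1_edg (t : BT) (g : ℕ) (hg : g ≤ t.size) (ht : 1 ≤ t.size) (e : Finset ℕ)
    (he : e ∈ edg ((t.del g).tri 0)) :
    ∃ p q, p < q ∧ ({p, q} : Finset ℕ) ∈ edg (t.tri 0) ∧ ¬ (p = g ∧ q = g + 1) ∧
      e = {pc g p, pc g q} := by
  obtain ⟨f, hf, hgf, e', he', hc, rfl⟩ := del_edg t g hg ht e he
  obtain ⟨u, v, huv, rfl⟩ := Finset.card_eq_two.1 hc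
  have hu : u ∈ f := he' (by simp)
  have hv : v ∈ f := he' (by simp)
  rcases lt_or_gt_of_ne huv with h | h
  · refine ⟨u, v, h, CL1_sub hf hu hv huv, ?_, ?_⟩
    · rintro ⟨rfl, rfl⟩
      exact hgf he'
    · simp [Finset.image_insert, Finset.image_singleton]
  · refine ⟨v, u, h, CL1_sub hf hv hu huv.symm, ?_, ?_⟩
    · rintro ⟨rfl, rfl⟩
      rw [Finset.pair_comm] at he'
      exact hgf he'
    · rw [Finset.image_insert, Finset.image_singleton, Finset.pair_comm]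

/-- common part of the two proofs -/
private theorem CL1_main (S T : BT) (g : ℕ) (hST : T.size = S.size) (hnc : NCe S T) (hg : g ≤ S.size)
    (hS1 : 1 ≤ S.size)
    (H : ∀ p q p' q', p < q → p' < q' → ¬ (p = g ∧ q = g + 1) → ¬ (p' = g ∧ q' = g + 1) →
      ({p, q} : Finset ℕ) ∈ edg (S.tri 0) → ({p', q'} : Finset ℕ) ∈ edg (T.tri 0) →
      pc g p = pc g p' → pc g q = pc g q' → ¬ (p = p' ∧ q = q') →
      ({pc g p, pc g q} : Finset ℕ) ∈ sds (S.size - 1)) : NCe (S.del g) (T.del g) := by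
  intro e he he'
  obtain ⟨p, q, h1, h2, h3, rfl⟩ := CL1_edg S g hg hS1 e he
  obtain ⟨p', q', h1', h2', h3', h4⟩ := CL1_edg T g (by omega) (by omega) _ he'
  have hsz := del_size S g hg hS1
  have hsz' : (S.del g).size = S.size - 1 := by omega
  rw [hsz']
  have a1 : pc g p < pc g q := by
    unfold pc
    split_ifs <;> omega
  have a2 : pc g p' < pc g q' := by
    unfold pc
    split_ifs <;> omega
  obtain ⟨a3, a4⟩ := CL1_pair a1 a2 h4
  by_cases hc : p = p' ∧ q = q'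
  · obtain ⟨rfl, rfl⟩ := hc
    have h5 := hnc _ h2 h2'
    have h6 := sds_pc S.size g hg hS1 _ h5 (by
      intro h
      have := CL1_pair h1 (by omega) h
      exact h3 this)
    rwa [Finset.image_insert, Finset.image_singleton] at h6
  · exact H p q p' q' h1 h1' h3 h3' h2 h2' a3 a4 hc

/-- PROOF.  Let `e` be an edge of both `S.del x` and `T.del x`; by `del_edg` `e = e₁.image (pc x)`,
`e₁ ∈ edg (S.tri 0)`, `e = e₂.image (pc x)`, `e₂ ∈ edg (T.tri 0)`, and none of `e₁`, `e₂` is `{x,x+1}`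
(their triangles do not contain it).
If `e₁ = e₂` then `e₁ ∈ sds` (`NCe`) and `sds_pc`.  Otherwise `e₁`, `e₂` are `{x,z}`, `{x+1,z}` or
`{x+1,z}`, `{x,z}` with `z ∉ {x,x+1}`.
(i) `e₁ = {x,z}`, `e₂ = {x+1,z}`: `e₁` does not cross `{x+1,v} ∈ edg (S.tri 0)`: `z < x` or `z ≥ v`
(`nx`); `e₂` does not cross `{0,x} ∈ edg (T.tri 0)`: `z = 0` or `z > x+1`.  `z = 0`: `e₁ = {0,x}` is an edge
of `S` and of `T`, so in `sds S.size`: `x = 1` (or `x = S.size+1`, impossible as `x+1 ≤ v ≤ S.size+1`), so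
`e = {0,1} ∈ sds`.  `z ≥ v`: `e₂ = {x+1,z}` crosses `{0,y1}`: contradiction (`nx`).
(ii) `e₁ = {x+1,z}`, `e₂ = {x,z}`: `e₁` does not cross `{x,v}`: `x ≤ z ≤ v`, so `x + 1 < z`; `e₂` crosses
`{0,x+1}`: contradiction. -/
theorem cutL_nc (S T : BT) (x v y1 : ℕ) (hST : T.size = S.size) (hnc : NCe S T) (hx : 1 ≤ x)
    (hv : v ≤ S.size + 1) (hS : ({x, x + 1, v} : Finset ℕ) ∈ S.tri 0)
    (hT : ({0, x, x + 1} : Finset ℕ) ∈ T.tri 0) (h1 : x + 1 < y1) (h2 : y1 < v)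
    (hy : ({0, y1} : Finset ℕ) ∈ edg (T.tri 0)) : NCe (S.del x) (T.del x) := by
  refine CL1_main S T x hST hnc (by omega) (by omega) ?_
  intro p q p' q' b1 b2 b3 b4 b5 b6 b7 b8 b9
  have s1 : ({x, v} : Finset ℕ) ∈ edg (S.tri 0) := CL1_sub hS (by simp) (by simp) (by omega)
  have s2 : ({x + 1, v} : Finset ℕ) ∈ edg (S.tri 0) := CL1_sub hS (by simp) (by simp) (by omega)
  have t1 : ({0, x} : Finset ℕ) ∈ edg (T.tri 0) := CL1_sub hT (by simp) (by simp) (by omega)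
  have t2 : ({0, x + 1} : Finset ℕ) ∈ edg (T.tri 0) := CL1_sub hT (by simp) (by simp) (by omega)
  have c1 := CL1_nx S b5 s1
  have c2 := CL1_nx S b5 s2
  have c3 := CL1_nx T b6 t1
  have c4 := CL1_nx T b6 t2
  have c5 := CL1_nx T b6 hy
  have key : p = 0 ∧ q = x ∧ p' = 0 ∧ q' = x + 1 := by
    unfold pc at b7 b8
    split_ifs at b7 b8 <;> omega
  obtain ⟨rfl, rfl, rfl, rfl⟩ := key
  have h3 := CL1_sds (by omega) (hnc _ b5 t1)
  have h4 : q = 1 := by omega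
  subst h4
  simp only [pc, Nat.zero_le, if_true, le_refl]
  simp only [sds, Finset.mem_insert, Finset.mem_image, Finset.mem_range]
  right
  exact ⟨0, by omega, rfl⟩

/-- PROOF.  As `cutL_nc` with `g`, `g+1`: either `e₁ = e₂`, or
(i) `e₁ = {g+1,z}`, `e₂ = {g,z}`: `e₁` does not cross `{x,g}`: `z ≤ x` or `z > g+1`; `e₂` does not cross
`{0,g+1}`: `z < g`; so `z ≤ x`.  `z = 0`: `e₁ = {0,g+1}` is an edge of both, so in `sds`: `g + 1 = S.size+1`
(`g + 1 ≥ 2`), so `e = {0,g} = {0, (size-1)+1} ∈ sds (size-1)`.  `0 < z ≤ x`: `e₂ = {z,g}` crosses `{0,y1}`.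
(ii) `e₁ = {g,z}`, `e₂ = {g+1,z}`: `e₁` does not cross `{x,g+1}`: `x ≤ z < g`; `e₂ = {z,g+1}` crosses `{0,g}`
(`z ≥ x ≥ 1`). -/
theorem cutR_nc (S T : BT) (x g y1 : ℕ) (hST : T.size = S.size) (hnc : NCe S T) (hx : 1 ≤ x)
    (hxg : x < g) (hg : g ≤ S.size) (hS : ({x, g, g + 1} : Finset ℕ) ∈ S.tri 0)
    (hT : ({0, g, g + 1} : Finset ℕ) ∈ T.tri 0) (h1 : x < y1) (h2 : y1 < g)
    (hy : ({0, y1} : Finset ℕ) ∈ edg (T.tri 0)) : NCe (S.del g) (T.del g) := by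
  refine CL1_main S T g hST hnc hg (by omega) ?_
  intro p q p' q' b1 b2 b3 b4 b5 b6 b7 b8 b9
  have s1 : ({x, g} : Finset ℕ) ∈ edg (S.tri 0) := CL1_sub hS (by simp) (by simp) (by omega)
  have s2 : ({x, g + 1} : Finset ℕ) ∈ edg (S.tri 0) := CL1_sub hS (by simp) (by simp) (by omega)
  have t1 : ({0, g} : Finset ℕ) ∈ edg (T.tri 0) := CL1_sub hT (by simp) (by simp) (by omega)
  have t2 : ({0, g + 1} : Finset ℕ) ∈ edg (T.tri 0) := CL1_sub hT (by simp) (by simp) (by omega)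
  have c1 := CL1_nx S b5 s1
  have c2 := CL1_nx S b5 s2
  have c3 := CL1_nx T b6 t1
  have c4 := CL1_nx T b6 t2
  have c5 := CL1_nx T b6 hy
  have key : p = 0 ∧ q = g + 1 ∧ p' = 0 ∧ q' = g := by
    unfold pc at b7 b8
    split_ifs at b7 b8 <;> omega
  obtain ⟨rfl, rfl, rfl, rfl⟩ := key
  have h3 := CL1_sds (by omega) (hnc _ b5 t2)
  have h4 : q' = S.size := by omega
  have h5 : pc q' 0 = 0 := by simp [pc]
  have h6 : pc q' (q' + 1) = S.size - 1 + 1 := by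
    unfold pc
    split_ifs <;> omega
  rw [h5, h6]
  simp [sds]

end RTD
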