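import Pool.Agent.RTD.CL1

/-! RTD row CL3: a reduced pair stays reduced, right case (mirror image of row CL2). -/

namespace RTD

theorem CL3_pc_eq {g a b : ℕ} (h : pc g a = pc g b) :
    a = b ∨ (a = g ∧ b = g + 1) ∨ (a = g + 1 ∧ b = g) := by
  unfold pc at h
  split_ifs at h <;> omega

theorem CL3_edg {F : Finset (Finset ℕ)} {f : Finset ℕ} (hf : f ∈ F) {a b : ℕ} (ha : a ∈ f)
    (hb : b ∈ f) (hab : a ≠ b) : ({a, b} : Finset ℕ) ∈ edg F := by
  unfold edg
  rw [Finset.mem_biUnion]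
  refine ⟨f, hf, ?_⟩
  rw [Finset.mem_powersetCard]
  refine ⟨?_, Finset.card_pair hab⟩
  intro y hy
  rw [Finset.mem_insert, Finset.mem_singleton] at hy
  rcases hy with rfl | rfl <;> assumption

theorem CL3_three {f : Finset ℕ} (hf : f.card = 3) {a b c : ℕ} (ha : a ∈ f) (hb : b ∈ f)
    (hc : c ∈ f) (hab : a ≠ b) (hac : a ≠ c) (hbc : b ≠ c) : f = {a, b, c} := by
  symm
  apply Finset.eq_of_subset_of_card_le
  · intro y hy
    simp only [Finset.mem_insert, Finset.mem_singleton] at hy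
    rcases hy with rfl | rfl | rfl <;> assumption
  · rw [hf, Finset.card_eq_three.2 ⟨a, b, c, hab, hac, hbc, rfl⟩]

theorem CL3_two {f : Finset ℕ} (hf : f.card = 2) {a b : ℕ} (ha : a ∈ f) (hb : b ∈ f)
    (hab : a ≠ b) : f = {a, b} := by
  symm
  apply Finset.eq_of_subset_of_card_le
  · intro y hy
    simp only [Finset.mem_insert, Finset.mem_singleton] at hy
    rcases hy with rfl | rfl <;> assumption
  · rw [hf, Finset.card_pair hab]

theorem CL3_inter {a b c d : ℕ} (_hab : a ≠ b) (hac : a ≠ c) (had : a ≠ d) (hbc : b ≠ c) (hbd : b ≠ d)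
    (hcd : c ≠ d) : (({a, b, c} : Finset ℕ) ∩ {a, b, d}) = {a, b} ∧
      ((({a, b, c} : Finset ℕ) ∪ {a, b, d}) \ (({a, b, c} : Finset ℕ) ∩ {a, b, d})) = {c, d} := by
  have h1 : (({a, b, c} : Finset ℕ) ∩ {a, b, d}) = {a, b} := by
    ext y
    simp only [Finset.mem_inter, Finset.mem_insert, Finset.mem_singleton]
    omega
  refine ⟨h1, ?_⟩
  rw [h1]
  ext y
  simp only [Finset.mem_union, Finset.mem_sdiff, Finset.mem_insert, Finset.mem_singleton]
  omega

theorem CL3_gen {g a b : ℕ} (h1 : a ≠ b) (h2 : b = g ∨ b = g + 1)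
    (h3 : a = g → b = g + 1 → False) (h4 : b = g → a = g + 1 → False) : a ≠ g ∧ a ≠ g + 1 := by
  rcases h2 with h2 | h2
  · refine ⟨fun h => h1 (h.trans h2.symm), fun h => h4 h2 h⟩
  · refine ⟨fun h => h3 h h2, fun h => h1 (h.trans h2.symm)⟩

theorem CL3_gen2 {g a u : ℕ} (h : a ≠ g ∧ a ≠ g + 1)
    (p : u = a ∨ (u = g ∧ a = g + 1) ∨ (u = g + 1 ∧ a = g)) : u = a := by
  rcases p with p | ⟨_, p⟩ | ⟨_, p⟩
  · exact p
  · exact absurd p h.2
  · exact absurd p h.1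

/-- the combinatorial part: how an adjacent pair of triangles arises after a contraction -/
theorem CL3_comb (Tr : Finset (Finset ℕ)) (hTr : ∀ f ∈ Tr, f.card = 3) (g : ℕ)
    (f₁ f₂ : Finset ℕ) (hf₁ : f₁ ∈ Tr) (hf₂ : f₂ ∈ Tr)
    (hn₁ : ¬ ({g, g + 1} : Finset ℕ) ⊆ f₁) (hn₂ : ¬ ({g, g + 1} : Finset ℕ) ⊆ f₂)
    (hcard : (f₁.image (pc g) ∩ f₂.image (pc g)).card = 2) (e₂ f₃ : Finset ℕ)
    (he₂ : e₂.card = 2) (he₂f : e₂ ⊆ f₃) (hn₃ : ¬ ({g, g + 1} : Finset ℕ) ⊆ f₃)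
    (he : e₂.image (pc g) = (f₁.image (pc g) ∪ f₂.image (pc g)) \
      (f₁.image (pc g) ∩ f₂.image (pc g))) :
    ((f₁ ∩ f₂).card = 2 ∧ e₂ = (f₁ ∪ f₂) \ (f₁ ∩ f₂)) ∨
    (∃ h₁ ∈ Tr, ∃ h₂ ∈ Tr, ∃ s t z : ℕ, ((s = g ∧ t = g + 1) ∨ (s = g + 1 ∧ t = g)) ∧
      z ≠ g ∧ z ≠ g + 1 ∧ (h₁ ∩ h₂).card = 2 ∧ (h₁ ∪ h₂) \ (h₁ ∩ h₂) = {s, z} ∧ t ∉ h₁ ∧
      e₂ = {t, z}) ∨
    (∃ a c c' : ℕ, a ≠ g ∧ a ≠ g + 1 ∧ c ≠ g ∧ c ≠ g + 1 ∧ c' ≠ g ∧ c' ≠ g + 1 ∧ a ≠ c ∧ a ≠ c' ∧
      c ≠ c' ∧ ({g, a, c} : Finset ℕ) ∈ Tr ∧ ({g + 1, a, c'} : Finset ℕ) ∈ Tr ∧ e₂ = {c, c'}) := by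
  have hns : ∀ f : Finset ℕ, ¬ ({g, g + 1} : Finset ℕ) ⊆ f → g ∈ f → g + 1 ∈ f → False := by
    intro f hf h1 h2
    apply hf
    intro y hy
    rw [Finset.mem_insert, Finset.mem_singleton] at hy
    rcases hy with rfl | rfl <;> assumption
  have hc₁ : (f₁.image (pc g)).card = 3 := by
    rw [Finset.card_image_of_injOn (pc_inj g f₁ hn₁), hTr f₁ hf₁]
  have hc₂ : (f₂.image (pc g)).card = 3 := by
    rw [Finset.card_image_of_injOn (pc_inj g f₂ hn₂), hTr f₂ hf₂]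
  set F₁ := f₁.image (pc g) with hF₁
  set F₂ := f₂.image (pc g) with hF₂
  obtain ⟨α, β, hαβ, hI⟩ := Finset.card_eq_two.1 hcard
  have hγ : (F₁ \ (F₁ ∩ F₂)).card = 1 := by
    have := Finset.card_sdiff_add_card_eq_card (Finset.inter_subset_left (s₁ := F₁) (s₂ := F₂))
    omega
  have hδ : (F₂ \ (F₁ ∩ F₂)).card = 1 := by
    have := Finset.card_sdiff_add_card_eq_card (Finset.inter_subset_right (s₁ := F₁) (s₂ := F₂))
    omega
  obtain ⟨γ, hγ⟩ := Finset.card_eq_one.1 hγ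
  obtain ⟨δ, hδ⟩ := Finset.card_eq_one.1 hδ
  have mα : α ∈ F₁ ∩ F₂ := by rw [hI]; simp
  have mβ : β ∈ F₁ ∩ F₂ := by rw [hI]; simp
  have mγ : γ ∈ F₁ \ (F₁ ∩ F₂) := by rw [hγ]; simp
  have mδ : δ ∈ F₂ \ (F₁ ∩ F₂) := by rw [hδ]; simp
  rw [Finset.mem_inter] at mα mβ
  rw [Finset.mem_sdiff] at mγ mδ
  have hγα : γ ≠ α := fun h => mγ.2 (by rw [h, Finset.mem_inter]; exact mα)
  have hγβ : γ ≠ β := fun h => mγ.2 (by rw [h, Finset.mem_inter]; exact mβ)
  have hδα : δ ≠ α := fun h => mδ.2 (by rw [h, Finset.mem_inter]; exact mα)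
  have hδβ : δ ≠ β := fun h => mδ.2 (by rw [h, Finset.mem_inter]; exact mβ)
  have hγδ : γ ≠ δ := fun h => mγ.2 (by rw [Finset.mem_inter]; exact ⟨mγ.1, h ▸ mδ.1⟩)
  have meγ : γ ∈ e₂.image (pc g) := by
    rw [he, Finset.mem_sdiff, Finset.mem_union]
    exact ⟨Or.inl mγ.1, mγ.2⟩
  have meδ : δ ∈ e₂.image (pc g) := by
    rw [he, Finset.mem_sdiff, Finset.mem_union]
    exact ⟨Or.inr mδ.1, mδ.2⟩
  obtain ⟨α₁, mα₁, eα₁⟩ := Finset.mem_image.1 mα.1
  obtain ⟨α₂, mα₂, eα₂⟩ := Finset.mem_image.1 mα.2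
  obtain ⟨β₁, mβ₁, eβ₁⟩ := Finset.mem_image.1 mβ.1
  obtain ⟨β₂, mβ₂, eβ₂⟩ := Finset.mem_image.1 mβ.2
  obtain ⟨γ₁, mγ₁, eγ₁⟩ := Finset.mem_image.1 mγ.1
  obtain ⟨δ₂, mδ₂, eδ₂⟩ := Finset.mem_image.1 mδ.1
  obtain ⟨u, mu, eu⟩ := Finset.mem_image.1 meγ
  obtain ⟨w, mw, ew⟩ := Finset.mem_image.1 meδ
  have n1 : α₁ ≠ β₁ := fun h => hαβ (by rw [← eα₁, ← eβ₁, h])
  have n2 : α₁ ≠ γ₁ := fun h => hγα (by rw [← eα₁, ← eγ₁, h])
  have n3 : β₁ ≠ γ₁ := fun h => hγβ (by rw [← eβ₁, ← eγ₁, h])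
  have n4 : α₂ ≠ β₂ := fun h => hαβ (by rw [← eα₂, ← eβ₂, h])
  have n5 : α₂ ≠ δ₂ := fun h => hδα (by rw [← eα₂, ← eδ₂, h])
  have n6 : β₂ ≠ δ₂ := fun h => hδβ (by rw [← eβ₂, ← eδ₂, h])
  have n7 : u ≠ w := fun h => hγδ (by rw [← eu, ← ew, h])
  have n8 : γ₁ ≠ δ₂ := fun h => hγδ (by rw [← eγ₁, ← eδ₂, h])
  have E1 : f₁ = {α₁, β₁, γ₁} := CL3_three (hTr f₁ hf₁) mα₁ mβ₁ mγ₁ n1 n2 n3
  have E2 : f₂ = {α₂, β₂, δ₂} := CL3_three (hTr f₂ hf₂) mα₂ mβ₂ mδ₂ n4 n5 n6
  have E3 : e₂ = {u, w} := CL3_two he₂ mu mw n7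
  -- constraints
  have k1 : ∀ a ∈ f₁, ∀ b ∈ f₁, a = g → b = g + 1 → False := by
    rintro a ha b hb rfl rfl
    exact hns _ hn₁ ha hb
  have k2 : ∀ a ∈ f₂, ∀ b ∈ f₂, a = g → b = g + 1 → False := by
    rintro a ha b hb rfl rfl
    exact hns _ hn₂ ha hb
  have p1 := CL3_pc_eq (eα₁.trans eα₂.symm)
  have p2 := CL3_pc_eq (eβ₁.trans eβ₂.symm)
  have p3 := CL3_pc_eq (eu.trans eγ₁.symm)
  have p4 := CL3_pc_eq (ew.trans eδ₂.symm)
  by_cases q1 : α₁ = α₂
  · by_cases q2 : β₁ = β₂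
    · subst q1 q2
      have hint := CL3_inter n1 n2 n5 n3 n6 n8
      rw [← E1, ← E2] at hint
      have hcc : (f₁ ∩ f₂).card = 2 := by rw [hint.1, Finset.card_pair n1]
      by_cases q3 : u = γ₁
      · by_cases q4 : w = δ₂
        · left
          refine ⟨hcc, ?_⟩
          rw [hint.2, E3, q3, q4]
        · right; left
          have hw : (w = g ∧ δ₂ = g + 1) ∨ (w = g + 1 ∧ δ₂ = g) := by
            rcases p4 with h | h
            · exact absurd h q4
            · exact h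
          refine ⟨f₂, hf₂, f₁, hf₁, δ₂, w, γ₁, hw.elim (fun h => Or.inr ⟨h.2, h.1⟩) (fun h => Or.inl ⟨h.2, h.1⟩),
            ?_, ?_, ?_, ?_, ?_, ?_⟩
          · intro h
            have : γ = δ := by
              rw [← eγ₁, ← eδ₂, h]
              rcases hw with ⟨_, h2⟩ | ⟨_, h2⟩ <;> rw [h2] <;> simp [pc]
            exact hγδ this
          · intro h
            have : γ = δ := by
              rw [← eγ₁, ← eδ₂, h]
              rcases hw with ⟨_, h2⟩ | ⟨_, h2⟩ <;> rw [h2] <;> simp [pc]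
            exact hγδ this
          · rw [Finset.inter_comm]; exact hcc
          · rw [Finset.inter_comm, Finset.union_comm, hint.2, Finset.pair_comm]
          · intro h
            rcases hw with ⟨h1, h2⟩ | ⟨h1, h2⟩
            · exact k2 _ h _ mδ₂ h1 h2
            · exact k2 _ mδ₂ _ h h2 h1
          · rw [E3, q3, Finset.pair_comm]
      · have hu : (u = g ∧ γ₁ = g + 1) ∨ (u = g + 1 ∧ γ₁ = g) := by
          rcases p3 with h | h
          · exact absurd h q3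
          · exact h
        have q4 : w = δ₂ := by
          rcases p4 with h | h
          · exact h
          · exfalso
            apply hγδ
            rw [← eγ₁, ← eδ₂]
            rcases hu with ⟨_, h2⟩ | ⟨_, h2⟩ <;> rcases h with ⟨_, h4⟩ | ⟨_, h4⟩ <;> rw [h2, h4] <;>
              simp [pc]
        right; left
        refine ⟨f₁, hf₁, f₂, hf₂, γ₁, u, δ₂, hu.elim (fun h => Or.inr ⟨h.2, h.1⟩) (fun h => Or.inl ⟨h.2, h.1⟩),
          ?_, ?_, hcc, hint.2, ?_, ?_⟩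
        · intro h
          have : γ = δ := by
            rw [← eγ₁, ← eδ₂, h]
            rcases hu with ⟨_, h2⟩ | ⟨_, h2⟩ <;> rw [h2] <;> simp [pc]
          exact hγδ this
        · intro h
          have : γ = δ := by
            rw [← eγ₁, ← eδ₂, h]
            rcases hu with ⟨_, h2⟩ | ⟨_, h2⟩ <;> rw [h2] <;> simp [pc]
          exact hγδ this
        · intro h
          rcases hu with ⟨h1, h2⟩ | ⟨h1, h2⟩
          · exact k1 _ h _ mγ₁ h1 h2
          · exact k1 _ mγ₁ _ h h2 h1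
        · rw [E3, q4]
    · -- the second vertex is split
      subst q1
      right; right
      have hβ : (β₁ = g ∧ β₂ = g + 1) ∨ (β₁ = g + 1 ∧ β₂ = g) := by
        rcases p2 with h | h
        · exact absurd h q2
        · exact h
      have b1 : β₁ = g ∨ β₁ = g + 1 := hβ.elim (fun h => Or.inl h.1) (fun h => Or.inr h.1)
      have b2 : β₂ = g ∨ β₂ = g + 1 := hβ.elim (fun h => Or.inr h.2) (fun h => Or.inl h.2)
      have g1 := CL3_gen n1 b1 (k1 _ mα₁ _ mβ₁) (k1 _ mβ₁ _ mα₁)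
      have g2 := CL3_gen n3.symm b1 (k1 _ mγ₁ _ mβ₁) (k1 _ mβ₁ _ mγ₁)
      have g3 := CL3_gen n6.symm b2 (k2 _ mδ₂ _ mβ₂) (k2 _ mβ₂ _ mδ₂)
      have q3 : u = γ₁ := CL3_gen2 g2 p3
      have q4 : w = δ₂ := CL3_gen2 g3 p4
      rcases hβ with ⟨h1, h2⟩ | ⟨h1, h2⟩
      · refine ⟨α₁, γ₁, δ₂, g1.1, g1.2, g2.1, g2.2, g3.1, g3.2, n2, n5, n8,
          ?_, ?_, ?_⟩
        · have : ({g, α₁, γ₁} : Finset ℕ) = f₁ := by
            rw [E1, h1, Finset.insert_comm]
          rw [this]; exact hf₁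
        · have : ({g + 1, α₁, δ₂} : Finset ℕ) = f₂ := by
            rw [E2, h2, Finset.insert_comm]
          rw [this]; exact hf₂
        · rw [E3, q3, q4]
      · refine ⟨α₁, δ₂, γ₁, g1.1, g1.2, g3.1, g3.2, g2.1, g2.2, n5, n2, n8.symm,
          ?_, ?_, ?_⟩
        · have : ({g, α₁, δ₂} : Finset ℕ) = f₂ := by
            rw [E2, h2, Finset.insert_comm]
          rw [this]; exact hf₂
        · have : ({g + 1, α₁, γ₁} : Finset ℕ) = f₁ := by
            rw [E1, h1, Finset.insert_comm]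
          rw [this]; exact hf₁
        · rw [E3, q3, q4, Finset.pair_comm]
  · right; right
    have hα : (α₁ = g ∧ α₂ = g + 1) ∨ (α₁ = g + 1 ∧ α₂ = g) := by
      rcases p1 with h | h
      · exact absurd h q1
      · exact h
    have b1 : α₁ = g ∨ α₁ = g + 1 := hα.elim (fun h => Or.inl h.1) (fun h => Or.inr h.1)
    have b2 : α₂ = g ∨ α₂ = g + 1 := hα.elim (fun h => Or.inr h.2) (fun h => Or.inl h.2)
    have g1 := CL3_gen n1.symm b1 (k1 _ mβ₁ _ mα₁) (k1 _ mα₁ _ mβ₁)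
    have g2 := CL3_gen n2.symm b1 (k1 _ mγ₁ _ mα₁) (k1 _ mα₁ _ mγ₁)
    have g3 := CL3_gen n5.symm b2 (k2 _ mδ₂ _ mα₂) (k2 _ mα₂ _ mδ₂)
    have q2 : β₁ = β₂ := by
      rcases p2 with h | h | h
      · exact h
      · exact absurd h.1 g1.1
      · exact absurd h.1 g1.2
    have q3 : u = γ₁ := CL3_gen2 g2 p3
    have q4 : w = δ₂ := CL3_gen2 g3 p4
    subst q2
    rcases hα with ⟨h1, h2⟩ | ⟨h1, h2⟩
    · refine ⟨β₁, γ₁, δ₂, g1.1, g1.2, g2.1, g2.2, g3.1, g3.2, n3, n6, n8,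
        ?_, ?_, ?_⟩
      · have : ({g, β₁, γ₁} : Finset ℕ) = f₁ := by rw [E1, h1]
        rw [this]; exact hf₁
      · have : ({g + 1, β₁, δ₂} : Finset ℕ) = f₂ := by rw [E2, h2]
        rw [this]; exact hf₂
      · rw [E3, q3, q4]
    · refine ⟨β₁, δ₂, γ₁, g1.1, g1.2, g3.1, g3.2, g2.1, g2.2, n6, n3, n8.symm,
        ?_, ?_, ?_⟩
      · have : ({g, β₁, δ₂} : Finset ℕ) = f₂ := by rw [E2, h2]
        rw [this]; exact hf₂
      · have : ({g + 1, β₁, γ₁} : Finset ℕ) = f₁ := by rw [E1, h1]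
        rw [this]; exact hf₁
      · rw [E3, q3, q4, Finset.pair_comm]

/-- unfolding of an adjacent pair of triangles after the deletion -/
theorem CL3_unf (A B : BT) (g : ℕ) (hA : g ≤ A.size) (hA1 : 1 ≤ A.size) (hB : g ≤ B.size)
    (hB1 : 1 ≤ B.size) (f h : Finset ℕ) (hf : f ∈ (A.del g).tri 0) (hh : h ∈ (A.del g).tri 0)
    (hcard : (f ∩ h).card = 2) (he : (f ∪ h) \ (f ∩ h) ∈ edg ((B.del g).tri 0)) :
    (∃ f₁ ∈ A.tri 0, ∃ f₂ ∈ A.tri 0, (f₁ ∩ f₂).card = 2 ∧ (f₁ ∪ f₂) \ (f₁ ∩ f₂) ∈ edg (B.tri 0)) ∨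
    (∃ h₁ ∈ A.tri 0, ∃ h₂ ∈ A.tri 0, ∃ s t z : ℕ, ((s = g ∧ t = g + 1) ∨ (s = g + 1 ∧ t = g)) ∧
      z ≠ g ∧ z ≠ g + 1 ∧ (h₁ ∩ h₂).card = 2 ∧ (h₁ ∪ h₂) \ (h₁ ∩ h₂) = {s, z} ∧ t ∉ h₁ ∧
      ({t, z} : Finset ℕ) ∈ edg (B.tri 0)) ∨
    (∃ a c c' : ℕ, a ≠ g ∧ a ≠ g + 1 ∧ c ≠ g ∧ c ≠ g + 1 ∧ c' ≠ g ∧ c' ≠ g + 1 ∧ a ≠ c ∧ a ≠ c' ∧
      c ≠ c' ∧ ({g, a, c} : Finset ℕ) ∈ A.tri 0 ∧ ({g + 1, a, c'} : Finset ℕ) ∈ A.tri 0 ∧
      ({c, c'} : Finset ℕ) ∈ edg (B.tri 0)) := by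
  rw [del_tri A g hA hA1, Finset.mem_image] at hf hh
  obtain ⟨f₁, hf₁, rfl⟩ := hf
  obtain ⟨f₂, hf₂, rfl⟩ := hh
  rw [Finset.mem_filter] at hf₁ hf₂
  obtain ⟨f₃, hf₃, hn₃, e₂, he₂f, he₂, hee⟩ := del_edg B g hB hB1 _ he
  have hem : e₂ ∈ edg (B.tri 0) := by
    unfold edg
    rw [Finset.mem_biUnion]
    exact ⟨f₃, hf₃, Finset.mem_powersetCard.2 ⟨he₂f, he₂⟩⟩
  rcases CL3_comb (A.tri 0) (fun f hf => (tri_mem A 0 f hf).1) g f₁ f₂ hf₁.1 hf₂.1 hf₁.2 hf₂.2 hcard
    e₂ f₃ he₂ he₂f hn₃ hee with h | h | h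
  · left
    exact ⟨f₁, hf₁.1, f₂, hf₂.1, h.1, h.2 ▸ hem⟩
  · right; left
    obtain ⟨h₁, hh₁, h₂, hh₂, s, t, z, a1, a2, a3, a4, a5, a6, a7⟩ := h
    exact ⟨h₁, hh₁, h₂, hh₂, s, t, z, a1, a2, a3, a4, a5, a6, a7 ▸ hem⟩
  · right; right
    obtain ⟨a, c, c', b1, b2, b3, b4, b5, b6, b7, b8, b9, b10, b11, b12⟩ := h
    exact ⟨a, c, c', b1, b2, b3, b4, b5, b6, b7, b8, b9, b10, b11, b12 ▸ hem⟩

/-- PROOF.  `NCe` by `cutR_nc`.  `S' = S.del g`, `T' = T.del g`, `s₀ = {x,g,g+1} ∈ S.tri 0`,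
`t₀ = {0,g,g+1} ∈ T.tri 0`.  Same structure as row CL2:
SECOND PART OF `RedF` (`f₁, f₂ ∈ S.tri 0`, `e₂ ∈ edg (T.tri 0)`).
* Case B: `f₁ ∋ g+1`, `f₂ ∋ g`, common vertex `a = x` (`nx` with `{x,g}`, `{x,g+1}`): `f₁ = {x,g+1,c}` with
  `c < x` or `c > g+1`; `f₂ = {x,g,d}` (`tri_two`, `hd`); `e₂ = {c,d}`.  `c = 0`: `{0,x,g+1}` and `s₀` have the
  opposite pair `{0,g} ∈ edg (T.tri 0)`: contradiction to `RedF S T`.  `0 < c < x`: `{c,d}` crosses `{0,y3}`
  (`c < x ≤ y3 < d`).  `c > g+1`: `{d,c}` crosses `{0,g}`.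
* Case A: (A1) `e₁ = {g+1,z}`, `e₂ = {g,z}`: `z = 0`: `e₁ ∈ edg (T.tri 0)`, contradiction.  `z > g+1`: `e₂` crosses
  `{0,g+1}`.  `0 < z < g`: `e₂ = {z,g}` does not cross `{0,y2}`, so `z ≥ y2 > x`; `{x,g}` crosses
  `e₁ = {z,g+1}`, so `f₁ ∩ f₂ = {x,g}`, one of them is `s₀`: contradiction.
  (A2) `e₁ = {g,z}`, `e₂ = {g+1,z}`: `0 < z < g`: `e₂` crosses `{0,g}`.  `z = 0`: `e₁ = {0,g} ∈ edg (T.tri 0)`.
  `z > g+1`: `{x,g+1}` crosses `e₁ = {g,z}`, so `f₁ ∩ f₂ = {x,g+1}`, one is `s₀`: contradiction.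
THIRD PART (`f₁, f₂ ∈ T.tri 0`, `e₂ ∈ edg (S.tri 0)`).
* Case B: common vertex `a = 0`: `f₁ = {0,g,c}`, `f₂ = {0,g+1,c'}`, `0 < c < g`, `c' > g+1`; `{c,g}` does not
  cross `{0,y2}`: `c ≥ y2 > x`; `e₂ = {c,c'}` crosses `{x,g+1}`: contradiction.
* Case A: (A1) `e₁ = {g,z}`, `e₂ = {g+1,z}`: `e₂` does not cross `{x,g}`: `z ≤ x` or `z > g+1`.  `z = 0`: `opp_not`.
  `z > g+1`: `{0,g+1}` crosses `e₁ = {g,z}`: `f₁ ∩ f₂ = {0,g+1}`, one is `t₀`.  `0 < z ≤ x`: `{0,y1}`, `{0,y2}` both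
  cross `e₁ = {z,g}`: contradiction.
  (A2) `e₁ = {g+1,z}`, `e₂ = {g,z}`: `e₂` does not cross `{x,g+1}`: `x ≤ z < g`; `{0,g}` crosses `e₁ = {z,g+1}`:
  `f₁ ∩ f₂ = {0,g}`, one is `t₀`: contradiction. -/
theorem cutR_red (S T : BT) (x g y1 y2 d y3 : ℕ) (hST : T.size = S.size) (hred : RedF S T)
    (hx : 1 ≤ x) (hxg : x < g) (hg : g ≤ S.size) (hS : ({x, g, g + 1} : Finset ℕ) ∈ S.tri 0)
    (hT : ({0, g, g + 1} : Finset ℕ) ∈ T.tri 0) (h1 : x < y1) (h2 : y1 < y2) (h3 : y2 < g)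
    (hy1 : ({0, y1} : Finset ℕ) ∈ edg (T.tri 0)) (hy2 : ({0, y2} : Finset ℕ) ∈ edg (T.tri 0))
    (hd : ({x, d, g} : Finset ℕ) ∈ S.tri 0) (hd1 : x < d) (hd2 : d < g)
    (hy3 : ({0, y3} : Finset ℕ) ∈ edg (T.tri 0)) (h4 : y3 < d) (h5 : x ≤ y3) :
    RedF (S.del g) (T.del g) := by
  have hS1 : 1 ≤ S.size := by omega
  have hgT : g ≤ T.size := by omega
  have hT1 : 1 ≤ T.size := by omega
  have eS1 : ({x, g} : Finset ℕ) ∈ edg (S.tri 0) := CL3_edg hS (by simp) (by simp) (by omega)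
  have eS2 : ({x, g + 1} : Finset ℕ) ∈ edg (S.tri 0) := CL3_edg hS (by simp) (by simp) (by omega)
  have eT1 : ({0, g} : Finset ℕ) ∈ edg (T.tri 0) := CL3_edg hT (by simp) (by simp) (by omega)
  have eT2 : ({0, g + 1} : Finset ℕ) ∈ edg (T.tri 0) := CL3_edg hT (by simp) (by simp) (by omega)
  refine ⟨cutR_nc S T x g y1 hST hred.1 hx hxg hg hS hT h1 (by omega) hy1, ?_, ?_⟩
  · intro f hf h hh hcard he
    rcases CL3_unf S T g hg hS1 hgT hT1 f h hf hh hcard he with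
      ⟨f₁, hf₁, f₂, hf₂, hc, hc2⟩ | ⟨h₁, hh₁, h₂, hh₂, s, t, z, hst, hz1, hz2, hc, hopp, htn, het⟩ |
      ⟨a, c, c', a1, a2, a3, a4, a5, a6, a7, a8, a9, hA, hA', hcc⟩
    · exact hred.2.1 f₁ hf₁ f₂ hf₂ hc hc2
    · have hne : ({s, z} : Finset ℕ) ∉ edg (T.tri 0) := by
        rw [← hopp]
        exact hred.2.1 h₁ hh₁ h₂ hh₂ hc
      rcases hst with ⟨rfl, rfl⟩ | ⟨rfl, rfl⟩
      · -- s = g, t = g + 1
        rcases Nat.eq_zero_or_pos z with h0 | h0
        · subst h0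
          apply hne
          rw [Finset.pair_comm]
          exact eT1
        rcases Nat.lt_or_ge z s with hzx | hzx
        · refine nx T 0 0 z s (s + 1) h0 hzx (by omega) eT1 ?_
          rw [Finset.pair_comm]
          exact het
        · have hint := opp_cross S 0 h₁ h₂ hh₁ hh₂ hc s z x (s + 1) (by omega) (by omega) hopp eS2
            (Or.inl ⟨by omega, by omega, by omega⟩)
          apply htn
          have : s + 1 ∈ h₁ ∩ h₂ := by rw [hint]; simp
          exact (Finset.mem_inter.1 this).1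
      · -- s = g + 1, t = g
        rcases Nat.eq_zero_or_pos z with h0 | h0
        · subst h0
          apply hne
          rw [Finset.pair_comm]
          exact eT2
        rcases Nat.lt_or_ge z t with hzx | hzx
        · have hz4 : y2 ≤ z := by
            by_contra hcon
            refine nx T 0 0 z y2 t (by omega) (by omega) h3 hy2 ?_
            rw [Finset.pair_comm]
            exact het
          have hopp' : (h₁ ∪ h₂) \ (h₁ ∩ h₂) = {z, t + 1} := by rw [hopp, Finset.pair_comm]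
          have hint := opp_cross S 0 h₁ h₂ hh₁ hh₂ hc z (t + 1) x t (by omega) (by omega) hopp' eS1
            (Or.inl ⟨by omega, by omega, by omega⟩)
          apply htn
          have : t ∈ h₁ ∩ h₂ := by rw [hint]; simp
          exact (Finset.mem_inter.1 this).1
        · exact nx T 0 0 t (t + 1) z (by omega) (by omega) (by omega) eT2 het
    · have eA1 : ({g, a} : Finset ℕ) ∈ edg (S.tri 0) := CL3_edg hA (by simp) (by simp) (by omega)
      have eA2 : ({g + 1, a} : Finset ℕ) ∈ edg (S.tri 0) := CL3_edg hA' (by simp) (by simp) (by omega)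
      have ha : a = x := by
        by_contra hav
        rcases Nat.lt_or_ge a x with hlt | hge
        · refine nx S 0 a x g (g + 1) hlt (by omega) (by omega) ?_ eS2
          rw [Finset.pair_comm]
          exact eA1
        rcases Nat.lt_or_ge a g with hlt2 | hge2
        · refine nx S 0 x a g (g + 1) (by omega) hlt2 (by omega) eS1 ?_
          rw [Finset.pair_comm]
          exact eA2
        · exact nx S 0 x g (g + 1) a (by omega) (by omega) (by omega) eS2 eA1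
      subst ha
      have hsep := sep S 0 g c' a (g + 1) (by omega) (by omega) (by omega) (by omega) (by omega)
        (by omega) (by
          have : ({g, a, g + 1} : Finset ℕ) = {a, g, g + 1} := Finset.insert_comm _ _ _
          rw [this]; exact hS) (by
          have : ({c', a, g + 1} : Finset ℕ) = {g + 1, a, c'} := by
            ext y; simp only [Finset.mem_insert, Finset.mem_singleton]; tauto
          rw [this]; exact hA')
      have hcpos : c' < a ∨ g + 1 < c' := by omega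
      have htwo := tri_two S 0 a g (by omega) _ _ _ hA hS hd
        (by intro y hy; simp only [Finset.mem_insert, Finset.mem_singleton] at hy ⊢; tauto)
        (by intro y hy; simp only [Finset.mem_insert, Finset.mem_singleton] at hy ⊢; tauto)
        (by intro y hy; simp only [Finset.mem_insert, Finset.mem_singleton] at hy ⊢; tauto)
      have hcd : c = d := by
        rcases htwo with ht | ht | ht
        · exfalso
          have : g + 1 ∈ ({g, a, c} : Finset ℕ) := by rw [ht]; simp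
          simp only [Finset.mem_insert, Finset.mem_singleton] at this
          omega
        · exfalso
          have : g + 1 ∈ ({a, d, g} : Finset ℕ) := by rw [← ht]; simp
          simp only [Finset.mem_insert, Finset.mem_singleton] at this
          omega
        · have : c ∈ ({a, d, g} : Finset ℕ) := by rw [← ht]; simp
          simp only [Finset.mem_insert, Finset.mem_singleton] at this
          omega
      subst hcd
      rcases Nat.eq_zero_or_pos c' with h0 | h0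
      · subst h0
        have hint := CL3_inter (a := g + 1) (b := a) (c := 0) (d := g) (by omega) (by omega) (by omega)
          (by omega) (by omega) (by omega)
        have e1 : ({g + 1, a, g} : Finset ℕ) = {a, g, g + 1} := by
          ext y; simp only [Finset.mem_insert, Finset.mem_singleton]; tauto
        rw [e1] at hint
        apply hred.2.1 _ hA' _ hS
        · rw [hint.1, Finset.card_pair (by omega)]
        · rw [hint.2]
          exact eT1
      rcases hcpos with hcp | hcp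
      · refine nx T 0 0 c' y3 c h0 (by omega) (by omega) hy3 ?_
        rw [Finset.pair_comm]
        exact hcc
      · exact nx T 0 0 c g c' (by omega) (by omega) (by omega) eT1 hcc
  · intro f hf h hh hcard he
    rcases CL3_unf T S g hgT hT1 hg hS1 f h hf hh hcard he with
      ⟨f₁, hf₁, f₂, hf₂, hc, hc2⟩ | ⟨h₁, hh₁, h₂, hh₂, s, t, z, hst, hz1, hz2, hc, hopp, htn, het⟩ |
      ⟨a, c, c', a1, a2, a3, a4, a5, a6, a7, a8, a9, hA, hA', hcc⟩
    · exact hred.2.2 f₁ hf₁ f₂ hf₂ hc hc2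
    · have hon : ({s, z} : Finset ℕ) ∉ edg (T.tri 0) := by
        rw [← hopp]
        exact opp_not T 0 h₁ h₂ hh₁ hh₂ hc
      rcases hst with ⟨rfl, rfl⟩ | ⟨rfl, rfl⟩
      · -- s = g, t = g + 1
        rcases Nat.eq_zero_or_pos z with h0 | h0
        · subst h0
          apply hon
          rw [Finset.pair_comm]
          exact eT1
        rcases Nat.lt_or_ge z s with hzx | hzx
        · have hz3 : z ≤ x := by
            by_contra hcon
            refine nx S 0 x z s (s + 1) (by omega) hzx (by omega) eS1 ?_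
            rw [Finset.pair_comm]
            exact het
          have hopp' : (h₁ ∪ h₂) \ (h₁ ∩ h₂) = {z, s} := by rw [hopp, Finset.pair_comm]
          have i1 := opp_cross T 0 h₁ h₂ hh₁ hh₂ hc z s 0 y1 (by omega) (by omega) hopp' hy1
            (Or.inl ⟨by omega, by omega, by omega⟩)
          have i2 := opp_cross T 0 h₁ h₂ hh₁ hh₂ hc z s 0 y2 (by omega) (by omega) hopp' hy2
            (Or.inl ⟨by omega, by omega, by omega⟩)
          rw [i1] at i2
          have : y1 ∈ ({0, y2} : Finset ℕ) := by rw [← i2]; simp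
          simp only [Finset.mem_insert, Finset.mem_singleton] at this
          omega
        · have hint := opp_cross T 0 h₁ h₂ hh₁ hh₂ hc s z 0 (s + 1) (by omega) (by omega) hopp eT2
            (Or.inl ⟨by omega, by omega, by omega⟩)
          apply htn
          have : s + 1 ∈ h₁ ∩ h₂ := by rw [hint]; simp
          exact (Finset.mem_inter.1 this).1
      · -- s = g + 1, t = g
        have hz3 : x ≤ z ∧ z < t := by
          rcases Nat.lt_or_ge z x with hlt | hge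
          · exfalso
            refine nx S 0 z x t (t + 1) hlt (by omega) (by omega) ?_ eS2
            rw [Finset.pair_comm]
            exact het
          rcases Nat.lt_or_ge z t with hlt2 | hge2
          · omega
          · exfalso
            exact nx S 0 x t (t + 1) z (by omega) (by omega) (by omega) eS2 het
        have hopp' : (h₁ ∪ h₂) \ (h₁ ∩ h₂) = {z, t + 1} := by rw [hopp, Finset.pair_comm]
        have hint := opp_cross T 0 h₁ h₂ hh₁ hh₂ hc z (t + 1) 0 t (by omega) (by omega) hopp' eT1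
          (Or.inl ⟨by omega, by omega, by omega⟩)
        apply htn
        have : t ∈ h₁ ∩ h₂ := by rw [hint]; simp
        exact (Finset.mem_inter.1 this).1
    · have eA1 : ({g, a} : Finset ℕ) ∈ edg (T.tri 0) := CL3_edg hA (by simp) (by simp) (by omega)
      have eA2 : ({g + 1, a} : Finset ℕ) ∈ edg (T.tri 0) := CL3_edg hA' (by simp) (by simp) (by omega)
      have ha : a = 0 := by
        by_contra hav
        rcases Nat.lt_or_ge a g with hlt | hge
        · refine nx T 0 0 a g (g + 1) (by omega) hlt (by omega) eT1 ?_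
          rw [Finset.pair_comm]
          exact eA2
        · exact nx T 0 0 g (g + 1) a (by omega) (by omega) (by omega) eT2 eA1
      subst ha
      have hsep1 := sep T 0 (g + 1) c 0 g (by omega) (by omega) (by omega) (by omega) (by omega)
        (by omega) (by
          have : ({g + 1, 0, g} : Finset ℕ) = {0, g, g + 1} := by
            ext y; simp only [Finset.mem_insert, Finset.mem_singleton]; tauto
          rw [this]; exact hT) (by
          have : ({c, 0, g} : Finset ℕ) = {g, 0, c} := by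
            ext y; simp only [Finset.mem_insert, Finset.mem_singleton]; tauto
          rw [this]; exact hA)
      have hsep2 := sep T 0 g c' 0 (g + 1) (by omega) (by omega) (by omega) (by omega) (by omega)
        (by omega) (by
          have : ({g, 0, g + 1} : Finset ℕ) = {0, g, g + 1} := by
            ext y; simp only [Finset.mem_insert, Finset.mem_singleton]; tauto
          rw [this]; exact hT) (by
          have : ({c', 0, g + 1} : Finset ℕ) = {g + 1, 0, c'} := by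
            ext y; simp only [Finset.mem_insert, Finset.mem_singleton]; tauto
          rw [this]; exact hA')
      have hc1 : 0 < c ∧ c < g := by omega
      have hc2 : g + 1 < c' := by omega
      have eA3 : ({c, g} : Finset ℕ) ∈ edg (T.tri 0) :=
        CL3_edg hA (by simp) (by simp) (by omega)
      have hc3 : y2 ≤ c := by
        by_contra hcon
        exact nx T 0 0 c y2 g (by omega) (by omega) h3 hy2 eA3
      exact nx S 0 x c (g + 1) c' (by omega) (by omega) (by omega) eS2 hcc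

end RTD
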