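import Pool.Agent.RTD.PA
import Pool.Agent.RTD.RS2

/-! RTD row RS5: a tree with the clade `(x,z)` is recovered from its inside and its outside. -/

namespace RTD

private lemma RS5_all (L : ℕ → Bool) (t : BT) (i : ℕ) (h : ∀ g, i ≤ g → g ≤ i + t.size → L g = true) :
    t.restr L i = some t := by
  induction t generalizing i with
  | nil => simp [BT.restr, h i le_rfl (by simp [BT.size])]
  | node l r ihl ihr =>
    simp only [BT.size] at h
    simp only [BT.restr]
    rw [ihl i (fun g h1 h2 => h g h1 (by omega)), ihr _ (fun g h1 h2 => h g (by omega) (by omega))]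

private lemma RS5_none (L : ℕ → Bool) (t : BT) (i : ℕ)
    (h : ∀ g, i ≤ g → g ≤ i + t.size → L g = false) : t.restr L i = none := by
  induction t generalizing i with
  | nil => simp [BT.restr, h i le_rfl (by simp [BT.size])]
  | node l r ihl ihr =>
    simp only [BT.size] at h
    simp only [BT.restr]
    rw [ihl i (fun g h1 h2 => h g h1 (by omega)), ihr _ (fun g h1 h2 => h g (by omega) (by omega))]

/-- only the last position is left -/
private lemma RS5_last (L : ℕ → Bool) (t : BT) (i : ℕ)
    (h : ∀ g, i ≤ g → g < i + t.size → L g = false) (h' : L (i + t.size) = true) :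
    t.restr L i = some .nil := by
  induction t generalizing i with
  | nil =>
    simp only [BT.size, add_zero] at h'
    simp [BT.restr, h']
  | node l r ihl ihr =>
    simp only [BT.size] at h h'
    simp only [BT.restr]
    have e : i + (l.size + r.size + 1) = i + l.size + 1 + r.size := by omega
    rw [RS5_none L l i (fun g h1 h2 => h g h1 (by omega)),
      ihr _ (fun g h1 h2 => h g (by omega) (by omega)) (by rw [← e]; exact h')]

/-- plugging outside of the range does nothing -/
private lemma RS5_plug_out (t u : BT) (x i : ℕ) (h : x < i ∨ i + t.size < x) :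
    t.plug u x i = t := by
  induction t generalizing i with
  | nil =>
    simp only [BT.size, add_zero] at h
    simp only [BT.plug]
    rw [if_neg (by omega)]
  | node l r ihl ihr =>
    simp only [BT.size] at h
    simp only [BT.plug]
    rw [ihl i (by omega), ihr _ (by omega)]

private lemma RS5_plug_size (t u : BT) (x i : ℕ) (h1 : i ≤ x) (h2 : x ≤ i + t.size) :
    (t.plug u x i).size = t.size + u.size := by
  induction t generalizing i with
  | nil =>
    simp only [BT.size, add_zero] at h2
    simp only [BT.plug]
    rw [if_pos (by omega)]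
    simp [BT.size]
  | node l r ihl ihr =>
    simp only [BT.size] at h2
    simp only [BT.plug, BT.size]
    by_cases hx : x ≤ i + l.size
    · rw [ihl i h1 hx, RS5_plug_out r u x _ (by omega)]
      omega
    · rw [RS5_plug_out l u x i (by omega), ihr _ (by omega) (by omega)]
      omega

/-- PROOF: induction on `t`, generalizing `i`.  `node l r`, `m = i+|l|+1`.
* If `(x,z)` is the root clade `(i, i+size+1)`: the `Lin` restriction is the whole tree (all positions
  are in `Lin x z`; lemma: if `L g = true` for all positions then `restr = some t`), the `Lout`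
  restriction is `some nil` (only the last position is left; lemma by induction), and
  `nil.plug u x i = u` as `i = x`.
* If `(x,z) ∈ l.cl i`: `z ≤ m` (`cl_bound`), the positions of `r` are `≥ m ≥ z`: not in `Lin`, all in
  `Lout`; so `restr Lin = l.restr Lin`, `restr Lout = node (l.restr Lout) r`, and `plug` does not change
  the right part `r`, because its positions in `node o r` start at `i + |o| + 1 > x`
  (lemma: `r.plug u x j = r` if `x < j` or `j + |r| < x`).
* If `(x,z) ∈ r.cl m`: `x ≥ m`, similar; the right part of the outside starts at the same offset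
  `m`. -/
theorem plug_eq (t : BT) (i x z : ℕ) (h : (x, z) ∈ t.cl i) :
    ∃ o u : BT, t.restr (Lin x z) i = some u ∧ t.restr (Lout x z) i = some o ∧
      o.plug u x i = t ∧ u.size + x + 1 = z ∧ o.size + u.size = t.size ∧ i ≤ x ∧
      x ≤ i + o.size := by
  induction t generalizing i with
  | nil => simp [BT.cl] at h
  | node l r ihl ihr =>
    have h0 := h
    simp only [BT.cl, Finset.mem_insert, Finset.mem_union, Prod.mk.injEq] at h
    rcases h with ⟨rfl, rfl⟩ | h | h
    · refine ⟨.nil, .node l r, ?_, ?_, ?_, ?_, ?_, ?_, ?_⟩
      · apply RS5_all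
        intro g h1 h2
        simp only [BT.size] at h2
        simp only [Lin, decide_eq_true_eq]
        omega
      · apply RS5_last
        · intro g h1 h2
          simp only [BT.size] at h2
          simp only [Lout, decide_eq_false_iff_not, not_not]
          omega
        · simp only [BT.size, Lout, decide_eq_true_eq]
          omega
      · simp [BT.plug]
      · simp only [BT.size]; omega
      · simp [BT.size]
      · exact le_rfl
      · simp [BT.size]
    · obtain ⟨o, u, h1, h2, h3, h4, h5, h6, h7⟩ := ihl i h
      have hb := cl_bound l i x z h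
      refine ⟨.node o r, u, ?_, ?_, ?_, h4, ?_, h6, ?_⟩
      · simp only [BT.restr]
        rw [h1, RS5_none (Lin x z) r _ (by
          intro g h1 h2
          simp only [Lin, decide_eq_false_iff_not]
          omega)]
      · simp only [BT.restr]
        rw [h2, RS5_all (Lout x z) r _ (by
          intro g h1 h2
          simp only [Lout, decide_eq_true_eq]
          omega)]
      · simp only [BT.plug]
        rw [h3, RS5_plug_out r u x _ (by omega)]
      · simp only [BT.size]; omega
      · simp only [BT.size]; omega
    · obtain ⟨o, u, h1, h2, h3, h4, h5, h6, h7⟩ := ihr _ h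
      have hb := cl_bound r _ x z h
      refine ⟨.node l o, u, ?_, ?_, ?_, h4, ?_, by omega, ?_⟩
      · simp only [BT.restr]
        rw [h1, RS5_none (Lin x z) l _ (by
          intro g h1 h2
          simp only [Lin, decide_eq_false_iff_not]
          omega)]
      · simp only [BT.restr]
        rw [h2, RS5_all (Lout x z) l _ (by
          intro g h1 h2
          simp only [Lout, decide_eq_true_eq]
          omega)]
      · simp only [BT.plug]
        rw [h3, RS5_plug_out l u x _ (by omega)]
      · simp only [BT.size]; omega
      · simp only [BT.size]; omega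

/-- PROOF: induction on `h`, generalizing `i`; rotations do not change the positions of the parts. -/
theorem rot_plug {o o' : BT} (h : Rot o o') (u : BT) (x i : ℕ) :
    Rot (o.plug u x i) (o'.plug u x i) := by
  induction h generalizing i with
  | right a b c =>
    simp only [BT.plug, BT.size]
    have e1 : i + (a.size + b.size + 1) + 1 = i + a.size + 1 + b.size + 1 := by omega
    rw [e1]
    exact Rot.right _ _ _
  | left a b c =>
    simp only [BT.plug, BT.size]
    have e1 : i + (a.size + b.size + 1) + 1 = i + a.size + 1 + b.size + 1 := by omega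
    rw [e1]
    exact Rot.left _ _ _
  | inl r h ih =>
    simp only [BT.plug, rot_size h]
    exact Rot.inl _ (ih i)
  | inr l h ih =>
    simp only [BT.plug]
    exact Rot.inr _ (ih _)

/-- PROOF: induction on `o`, generalizing `i`: the position `x` lies in the left or in the right
part; the other part is not changed by `plug`. -/
theorem plug_rot (o : BT) {u u' : BT} (h : Rot u u') (x i : ℕ) (hi : i ≤ x) (hx : x ≤ i + o.size) :
    Rot (o.plug u x i) (o.plug u' x i) := by
  induction o generalizing i with
  | nil =>
    simp only [BT.size, add_zero] at hx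
    simp only [BT.plug]
    rw [if_pos (by omega), if_pos (by omega)]
    exact h
  | node l r ihl ihr =>
    simp only [BT.size] at hx
    simp only [BT.plug]
    by_cases hx' : x ≤ i + l.size
    · rw [RS5_plug_out r u x _ (by omega), RS5_plug_out r u' x _ (by omega)]
      exact Rot.inl _ (ihl i hi hx')
    · rw [RS5_plug_out l u x _ (by omega), RS5_plug_out l u' x _ (by omega)]
      exact Rot.inr _ (ihr _ (by omega) (by omega))

/-- PROOF: `plug_eq` for `S` and `T`; first rotate the inside (`plug_rot`), then the outside
(`rot_plug`), `Path.trans`.  (`S.inn x z = u` etc. by `Option.getD_some`.) -/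
theorem path_join {n1 n2 : ℕ} {S T : BT} (x z : ℕ) (hS : (x, z) ∈ S.cl 0) (hT : (x, z) ∈ T.cl 0)
    (h1 : Path n1 (S.inn x z) (T.inn x z)) (h2 : Path n2 (S.out x z) (T.out x z)) :
    Path (n1 + n2) S T := by
  obtain ⟨o, u, a1, a2, a3, a4, a5, a6, a7⟩ := plug_eq S 0 x z hS
  obtain ⟨o', u', b1, b2, b3, b4, b5, b6, b7⟩ := plug_eq T 0 x z hT
  have c1 : S.inn x z = u := by simp [BT.inn, a1]
  have c2 : S.out x z = o := by simp [BT.out, a2]
  have c3 : T.inn x z = u' := by simp [BT.inn, b1]
  have c4 : T.out x z = o' := by simp [BT.out, b2]
  rw [c1, c3] at h1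
  rw [c2, c4] at h2
  have p1 : Path n1 (o.plug u x 0) (o.plug u' x 0) := by
    obtain ⟨t, ht0, htn, htr⟩ := h1
    refine ⟨fun k => o.plug (t k) x 0, by simp [ht0], by simp [htn], fun i hi => ?_⟩
    exact plug_rot o (htr i hi) x 0 a6 a7
  have p2 : Path n2 (o.plug u' x 0) (o'.plug u' x 0) := by
    obtain ⟨t, ht0, htn, htr⟩ := h2
    refine ⟨fun k => (t k).plug u' x 0, by simp [ht0], by simp [htn], fun i hi => ?_⟩
    exact rot_plug (htr i hi) u' x 0
  rw [← a3, ← b3]
  exact p1.trans p2

/-- sizes of the two parts of a clade.  PROOF: `plug_eq`, `cl_bound`. -/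
theorem size_parts (t : BT) (x z : ℕ) (h : (x, z) ∈ t.cl 0) (h' : (x, z) ≠ (0, t.size + 1)) :
    (t.inn x z).size + x + 1 = z ∧ (t.inn x z).size + (t.out x z).size = t.size ∧
      1 ≤ (t.inn x z).size ∧ 1 ≤ (t.out x z).size := by
  obtain ⟨o, u, a1, a2, a3, a4, a5, a6, a7⟩ := plug_eq t 0 x z h
  have hb := cl_bound t 0 x z h
  have c1 : t.inn x z = u := by simp [BT.inn, a1]
  have c2 : t.out x z = o := by simp [BT.out, a2]
  rw [c1, c2]
  refine ⟨a4, by omega, by omega, ?_⟩
  by_contra hc
  apply h'
  have : o.size = 0 := by omega
  rw [Prod.mk.injEq]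
  omega

end RTD
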