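import Pool.Agent.RTD.KB
import Pool.Agent.RTD.RS5

/-! RTD row KE: strips. -/

namespace RTD

private lemma KE_all (L : ℕ → Bool) (t : BT) (i : ℕ) (h : ∀ g, i ≤ g → g ≤ i + t.size → L g = true) :
    t.restr L i = some t := by
  induction t generalizing i with
  | nil => simp [BT.restr, h i le_rfl (by simp [BT.size])]
  | node l r ihl ihr =>
    simp only [BT.size] at h
    simp only [BT.restr]
    rw [ihl i (fun g h1 h2 => h g h1 (by omega)), ihr _ (fun g h1 h2 => h g (by omega) (by omega))]

private lemma KE_plug_out (t u : BT) (x i : ℕ) (h : x < i ∨ i + t.size < x) :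
    t.plug u x i = t := by
  induction t generalizing i with
  | nil =>
    simp only [BT.size, add_zero] at h
    simp only [BT.plug]
    rw [if_neg (by omega)]
  | node l r ihl ihr =>
    simp only [BT.size] at h
    simp only [BT.plug]
    rw [ihl i (by omega), ihr _ (by omega)]

theorem strip_size (σ : List Bool) (X : BT) : (strip σ X).size = X.size + σ.length := by
  induction σ with
  | nil => simp [strip]
  | cons b σ ih =>
    cases b
    · simp only [strip, BT.size, ih, List.length_cons]
      omega
    · simp only [strip, BT.size, ih, List.length_cons]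
      omega

/-- PROOF: induction on `o`, generalizing `i`. -/
theorem plug_size (o u : BT) (x i : ℕ) (hi : i ≤ x) (hx : x ≤ i + o.size) :
    (o.plug u x i).size = o.size + u.size := by
  induction o generalizing i with
  | nil =>
    simp only [BT.size, add_zero] at hx
    simp only [BT.plug]
    rw [if_pos (by omega)]
    simp [BT.size]
  | node l r ihl ihr =>
    simp only [BT.size] at hx
    simp only [BT.plug, BT.size]
    by_cases hx' : x ≤ i + l.size
    · rw [ihl i hi hx', KE_plug_out r u x _ (by omega)]
      omega
    · rw [KE_plug_out l u x i (by omega), ihr _ (by omega) (by omega)]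
      omega

/-- PROOF: induction on `o`, generalizing `i`. -/
theorem plug_tri_sub (o u : BT) (x i : ℕ) (hi : i ≤ x) (hx : x ≤ i + o.size) :
    u.tri x ⊆ (o.plug u x i).tri i := by
  induction o generalizing i with
  | nil =>
    simp only [BT.size, add_zero] at hx
    simp only [BT.plug]
    have h : i = x := by omega
    rw [if_pos h, h]
  | node l r ihl ihr =>
    simp only [BT.size] at hx
    simp only [BT.plug, BT.tri]
    intro f hf
    by_cases hx' : x ≤ i + l.size
    · exact Finset.mem_insert_of_mem (Finset.mem_union_left _ (ihl i hi hx' hf))
    · refine Finset.mem_insert_of_mem (Finset.mem_union_right _ ?_)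
      rw [KE_plug_out l u x i (by omega)]
      exact ihr (i + l.size + 1) (by omega) (by omega) hf

private lemma KE_del (C X : BT) (x i : ℕ) (l : Bool) (σ : List Bool) (hi : i ≤ x)
    (hx : x ≤ i + C.size) :
    (C.plug (strip (l :: σ) X) x i).restr (fun h => decide (h ≠ outer l σ X x)) i =
      some (C.plug (strip σ X) x i) := by
  have hs := strip_size σ X
  have hs' := strip_size (l :: σ) X
  simp only [List.length_cons] at hs'
  have ho1 : x ≤ outer l σ X x := by unfold outer; split <;> omega
  have ho2 : outer l σ X x ≤ x + X.size + σ.length + 1 := by unfold outer; split <;> omega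
  induction C generalizing i with
  | nil =>
    simp only [BT.size, add_zero] at hx
    have h : i = x := by omega
    subst h
    simp only [BT.plug, if_true]
    cases l
    · simp only [strip, BT.restr]
      rw [KE_all _ (strip σ X) i (by
        intro g h1 h2
        simp only [outer, decide_eq_true_eq]
        simp
        omega)]
      rw [if_neg (by simp [outer, hs]; omega)]
    · simp only [strip, BT.restr]
      rw [if_neg (by simp [outer]), KE_all _ (strip σ X) _ (by
        intro g h1 h2
        simp only [BT.size] at h1
        simp only [outer, decide_eq_true_eq]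
        simp
        omega)]
  | node l' r ihl ihr =>
    simp only [BT.size] at hx
    simp only [BT.plug, BT.restr]
    by_cases hx' : x ≤ i + l'.size
    · rw [ihl i hi hx', KE_plug_out r _ x _ (by omega), KE_plug_out r _ x _ (by omega)]
      rw [KE_all _ r _ (by
        intro g h1 h2
        rw [plug_size l' _ x i hi hx'] at h1
        simp only [decide_eq_true_eq]
        omega)]
    · rw [KE_plug_out l' _ x i (by omega), KE_plug_out l' _ x i (by omega),
        ihr _ (by omega) (by omega)]
      rw [KE_all _ l' _ (by
        intro g h1 h2
        simp only [decide_eq_true_eq]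
        omega)]

/-- deleting the outermost leaf of the strip.
PROOF: for an arbitrary offset `i ≤ x ≤ i + |C|`, by induction on `C`: the restriction to the
positions `≠ g` of a tree that does not contain the position `g` is the tree itself; for `C = nil`
(`i = x`): `strip (true :: σ) X = node nil (strip σ X)`, `g = x`: the left part restricts to `none`, the
right part to `some (strip σ X)`; for `false` the same with the right part, `g = x + |X| + |σ| + 1`
(`strip_size`). -/
theorem strip_del (C X : BT) (x : ℕ) (l : Bool) (σ : List Bool) (hx : x ≤ C.size) :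
    (C.plug (strip (l :: σ) X) x 0).del (outer l σ X x) = C.plug (strip σ X) x 0 := by
  unfold BT.del
  rw [KE_del C X x 0 l σ (Nat.zero_le _) (by omega)]
  rfl

/-- the outermost triangle of the strip -/
theorem strip_face_true (C X : BT) (x : ℕ) (σ : List Bool) (hx : x ≤ C.size) :
    ({x, x + 1, x + X.size + σ.length + 2} : Finset ℕ) ∈
      (C.plug (strip (true :: σ) X) x 0).tri 0 := by
  apply plug_tri_sub C (strip (true :: σ) X) x 0 (Nat.zero_le _) (by omega)
  simp only [strip, BT.tri, BT.size]
  apply Finset.mem_insert.2
  left
  rw [strip_size]
  simp only [Nat.add_zero]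
  rw [Nat.add_assoc x X.size σ.length]

theorem strip_face_false (C X : BT) (x : ℕ) (σ : List Bool) (hx : x ≤ C.size) :
    ({x, x + X.size + σ.length + 1, x + X.size + σ.length + 2} : Finset ℕ) ∈
      (C.plug (strip (false :: σ) X) x 0).tri 0 := by
  apply plug_tri_sub C (strip (false :: σ) X) x 0 (Nat.zero_le _) (by omega)
  simp only [strip, BT.tri, BT.size]
  apply Finset.mem_insert.2
  left
  rw [strip_size]
  simp only [Nat.add_zero]
  rw [Nat.add_assoc x X.size σ.length]

/-- PROOF: induction on `σ`, generalizing `x`. -/
theorem stripPos_shift (σ : List Bool) (X : BT) (x : ℕ) :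
    stripPos σ X (x + 1) = (stripPos σ X x).map (· + 1) := by
  induction σ generalizing x with
  | nil => simp [stripPos]
  | cons b σ ih =>
    cases b
    · simp only [stripPos, List.map_cons, ih]
      congr 1
      omega
    · simp only [stripPos, List.map_cons, ih]

/-- PROOF: induction on `σ`, generalizing `x`. -/
theorem stripPos_bound (σ : List Bool) (X : BT) (x p : ℕ) (h : p ∈ stripPos σ X x) :
    x ≤ p ∧ p ≤ x + X.size + σ.length := by
  induction σ generalizing x with
  | nil => simp [stripPos] at h
  | cons b σ ih =>
    cases b
    · simp only [stripPos, List.mem_cons] at h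
      simp only [List.length_cons]
      rcases h with h | h
      · omega
      · have := ih x h
        omega
    · simp only [stripPos, List.mem_cons] at h
      simp only [List.length_cons]
      rcases h with h | h
      · omega
      · have := ih (x + 1) h
        omega

theorem outer_mem (l : Bool) (σ : List Bool) (X : BT) (x : ℕ) :
    outer l σ X x ∈ stripPos (l :: σ) X x := by
  cases l <;> simp [outer, stripPos]

/-- The other tree still sees the vertex `0` from the remaining positions.
PROOF: `del_tri`.  `l = true`, `g = x`: for `p ∈ stripPos σ X x` the position `p + 1` is in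
`stripPos (true :: σ) X x` (`stripPos_shift`), `{0, p+1, p+2} ∈ T.tri 0` does not contain `{x, x+1}`
(`p + 1 ≥ x+1`, `x ≥ 1`), and its image under `pc x` is `{0, p, p+1}`.
`l = false`, `g = x + |X| + |σ| + 1`: `p ≤ x + |X| + |σ| < g`, `{0,p,p+1}` does not contain `g+1` and is
mapped to itself. -/
theorem fan_strip_del (T X : BT) (x : ℕ) (l : Bool) (σ : List Bool) (hx : 1 ≤ x)
    (hT : x + X.size + σ.length + 1 ≤ T.size)
    (h : ∀ p ∈ stripPos (l :: σ) X x, ({0, p, p + 1} : Finset ℕ) ∈ T.tri 0) :
    ∀ p ∈ stripPos σ X x, ({0, p, p + 1} : Finset ℕ) ∈ (T.del (outer l σ X x)).tri 0 := by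
  intro p hp
  have hb := stripPos_bound σ X x p hp
  cases l
  · have ho : outer false σ X x = x + X.size + σ.length + 1 := by simp [outer]
    rw [ho, del_tri T _ hT (by omega)]
    refine Finset.mem_image.2 ⟨{0, p, p + 1}, Finset.mem_filter.2 ⟨h p ?_, ?_⟩, ?_⟩
    · simp only [stripPos, List.mem_cons]
      exact Or.inr hp
    · intro hsub
      have h1 : x + X.size + σ.length + 1 + 1 ∈ ({0, p, p + 1} : Finset ℕ) :=
        hsub (by simp)
      simp only [Finset.mem_insert, Finset.mem_singleton] at h1
      omega
    · simp only [Finset.image_insert, Finset.image_singleton, pc]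
      rw [if_pos (by omega), if_pos (by omega), if_pos (by omega)]
  · have ho : outer true σ X x = x := by simp [outer]
    rw [ho, del_tri T _ (by omega) (by omega)]
    refine Finset.mem_image.2 ⟨{0, p + 1, p + 1 + 1}, Finset.mem_filter.2 ⟨h (p + 1) ?_, ?_⟩, ?_⟩
    · simp only [stripPos, List.mem_cons, stripPos_shift, List.mem_map]
      exact Or.inr ⟨p, hp, rfl⟩
    · intro hsub
      have h1 : x ∈ ({0, p + 1, p + 1 + 1} : Finset ℕ) := hsub (by simp)
      simp only [Finset.mem_insert, Finset.mem_singleton] at h1
      omega
    · simp only [Finset.image_insert, Finset.image_singleton, pc]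
      rw [if_pos (by omega), if_neg (by omega), if_neg (by omega)]
      simp

end RTD
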