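import Pool.Agent.RTD.CL2
import Pool.Agent.RTD.CL3
import Pool.Agent.RTD.KE

/-! RTD row CL4: cutting a strip keeps `NCe` and `RedF`. -/

namespace RTD

private lemma CL4_cast {F : Finset (Finset ℕ)} {a b c a' b' c' : ℕ}
    (h : ({a, b, c} : Finset ℕ) ∈ F) (h1 : a = a') (h2 : b = b') (h3 : c = c') :
    ({a', b', c'} : Finset ℕ) ∈ F := by
  subst h1 h2 h3
  exact h

private lemma CL4_edge {F : Finset (Finset ℕ)} {f : Finset ℕ} {a b : ℕ} (hf : f ∈ F) (ha : a ∈ f)
    (hb : b ∈ f) (hab : a ≠ b) : ({a, b} : Finset ℕ) ∈ edg F := by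
  unfold edg
  refine Finset.mem_biUnion.2 ⟨f, hf, Finset.mem_powersetCard.2 ⟨?_, Finset.card_pair hab⟩⟩
  intro v hv
  simp only [Finset.mem_insert, Finset.mem_singleton] at hv
  rcases hv with rfl | rfl
  · exact ha
  · exact hb

/-- the first edge `{0,y}` of `{0,y,y+1}` -/
private lemma CL4_e1 {T : BT} {p y : ℕ} (h : ({0, p, p + 1} : Finset ℕ) ∈ T.tri 0) (hy : y = p)
    (h0 : 0 < y) : ({0, y} : Finset ℕ) ∈ edg (T.tri 0) := by
  subst hy
  exact CL4_edge h (by simp) (by simp) (by omega)

/-- the second edge `{0,y+1}` of `{0,y,y+1}` -/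
private lemma CL4_e2 {T : BT} {p y : ℕ} (h : ({0, p, p + 1} : Finset ℕ) ∈ T.tri 0) (hy : y = p + 1) :
    ({0, y} : Finset ℕ) ∈ edg (T.tri 0) := by
  subst hy
  exact CL4_edge h (by simp) (by simp) (by omega)

private lemma CL4_root_true (τ : List Bool) (X : BT) (i : ℕ) :
    ({i, i + 1, i + X.size + τ.length + 2} : Finset ℕ) ∈ (strip (true :: τ) X).tri i := by
  simp only [strip, BT.tri, BT.size]
  apply Finset.mem_insert.2
  left
  rw [strip_size]
  simp only [Nat.add_zero]
  rw [Nat.add_assoc i X.size τ.length]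

private lemma CL4_root_false (τ : List Bool) (X : BT) (i : ℕ) :
    ({i, i + X.size + τ.length + 1, i + X.size + τ.length + 2} : Finset ℕ) ∈
      (strip (false :: τ) X).tri i := by
  simp only [strip, BT.tri, BT.size]
  apply Finset.mem_insert.2
  left
  rw [strip_size]
  simp only [Nat.add_zero]
  rw [Nat.add_assoc i X.size τ.length]

private lemma CL4_sub_true (C X : BT) (σ : List Bool) (x : ℕ) (hC : x ≤ C.size) {f : Finset ℕ}
    (hf : f ∈ (strip σ X).tri (x + 1)) : f ∈ (C.plug (strip (true :: σ) X) x 0).tri 0 := by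
  apply plug_tri_sub C (strip (true :: σ) X) x 0 (Nat.zero_le _) (by omega)
  simp only [strip, BT.tri, BT.size]
  exact Finset.mem_insert_of_mem (Finset.mem_union_right _ hf)

private lemma CL4_sub_false (C X : BT) (σ : List Bool) (x : ℕ) (hC : x ≤ C.size) {f : Finset ℕ}
    (hf : f ∈ (strip σ X).tri x) : f ∈ (C.plug (strip (false :: σ) X) x 0).tri 0 := by
  apply plug_tri_sub C (strip (false :: σ) X) x 0 (Nat.zero_le _) (by omega)
  simp only [strip, BT.tri]
  exact Finset.mem_insert_of_mem (Finset.mem_union_left _ hf)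

/-- PROOF: `S = C.plug (strip (l :: σ) X) x 0`, `S.del (outer l σ X x) = C.plug (strip σ X) x 0`
(`strip_del`).  Let `σ = l' :: σ'`.  The triangles of `T` at the first two positions of
`stripPos (l :: σ) X x` are used.
`l = true`: `cutL_nc` with `v = x + |X| + |σ| + 2` (`strip_face_true`), `{0,x,x+1} ∈ T.tri 0` (first position),
second position: `l' = true`: it is `x+1`, `y1 = x+2`; `l' = false`: it is `v - 1`, `y1 = v-1`.
`v ≤ S.size + 1` as `S.size = |C| + |X| + |σ| + 1`, `x ≤ |C|` (`plug_size`, `strip_size`).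
`l = false`: `cutR_nc` with `g = x + |X| + |σ| + 1` (`strip_face_false`), second position: `l' = true`: it is
`x`, `y1 = x+1`; `l' = false`: it is `g - 1`, `y1 = g - 1`. -/
theorem nc_cut (C X T : BT) (x : ℕ) (l : Bool) (σ : List Bool) (hx : 1 ≤ x) (hC : x ≤ C.size)
    (hσ : 1 ≤ σ.length) (hT : T.size = (C.plug (strip (l :: σ) X) x 0).size)
    (hfan : ∀ p ∈ stripPos (l :: σ) X x, ({0, p, p + 1} : Finset ℕ) ∈ T.tri 0)
    (hnc : NCe (C.plug (strip (l :: σ) X) x 0) T) :
    NCe (C.plug (strip σ X) x 0) (T.del (outer l σ X x)) := by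
  rw [← strip_del C X x l σ hC]
  have hsz : (C.plug (strip (l :: σ) X) x 0).size = C.size + (X.size + (σ.length + 1)) := by
    rw [plug_size C _ x 0 (Nat.zero_le _) (by omega), strip_size, List.length_cons]
  obtain ⟨l', σ', rfl⟩ : ∃ l' σ', σ = l' :: σ' := by
    cases σ with
    | nil => simp at hσ
    | cons a b => exact ⟨a, b, rfl⟩
  simp only [List.length_cons] at hsz
  cases l
  · -- right case
    have ho : outer false (l' :: σ') X x = x + X.size + (l' :: σ').length + 1 := by simp [outer]
    have hT0 := hfan _ (outer_mem false (l' :: σ') X x)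
    rw [ho] at hT0 ⊢
    have hS := strip_face_false C X x (l' :: σ') hC
    have hS' := CL4_cast hS rfl rfl
      (show x + X.size + (l' :: σ').length + 2 = x + X.size + (l' :: σ').length + 1 + 1 by omega)
    have hlen : (l' :: σ').length = σ'.length + 1 := List.length_cons
    cases l'
    · have h2 := hfan (x + X.size + σ'.length + 1) (by simp [stripPos])
      exact cutR_nc _ T x _ (x + X.size + σ'.length + 1) hT hnc hx (by omega) (by omega) hS' hT0
        (by omega) (by omega) (CL4_e1 h2 rfl (by omega))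
    · have h2 := hfan x (by simp [stripPos])
      exact cutR_nc _ T x _ (x + 1) hT hnc hx (by omega) (by omega) hS' hT0
        (by omega) (by omega) (CL4_e2 h2 rfl)
  · have ho : outer true (l' :: σ') X x = x := by simp [outer]
    have hT0 := hfan _ (outer_mem true (l' :: σ') X x)
    rw [ho] at hT0 ⊢
    have hS := strip_face_true C X x (l' :: σ') hC
    have hlen : (l' :: σ').length = σ'.length + 1 := List.length_cons
    cases l'
    · have h2 := hfan (x + 1 + X.size + σ'.length + 1) (by simp [stripPos])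
      exact cutL_nc _ T x _ (x + 1 + X.size + σ'.length + 1) hT hnc hx (by omega) hS hT0
        (by omega) (by omega) (CL4_e1 h2 rfl (by omega))
    · have h2 := hfan (x + 1) (by simp [stripPos])
      exact cutL_nc _ T x _ (x + 2) hT hnc hx (by omega) hS hT0
        (by omega) (by omega) (CL4_e2 h2 rfl)

/-- PROOF: let `σ = l₂ :: l₃ :: σ'`, `n₁` = number of `true` in `l :: σ`, etc.
`l = true` (`cutL_red`), `v = x + |X| + |σ| + 2`:
* `(l₂,l₃) = (true,true)`: positions `x+1, x+2`: `y1 = x+2, y2 = x+3` (`< v`), `d = x+2`, `y3 = x+3`;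
* `(true,false)`: positions `x+1`, `v-1`: `y1 = x+2, y2 = v-1, d = x+2, y3 = v`;
* `(false,true)`: positions `v-1`, `x+1`: `y1 = x+2, y2 = v-1, d = v-1, y3 = v`;
* `(false,false)`: positions `v-1, v-2`: `y1 = v-2, y2 = v-1, d = v-1, y3 = v`.
`{x+1, d, v}` is the outermost triangle of the strip `σ` (which sits at `x+1`, right end `v`): it is the
root triangle of `strip σ X` at `x+1` (`plug_tri_sub`: `(node nil (strip σ X)).tri x ⊆ ..`).
`l = false` (`cutR_red`), `g = x + |X| + |σ| + 1`:
* `(true,true)`: positions `x, x+1`: `y1 = x+1, y2 = x+2, d = x+1, y3 = x`;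
* `(true,false)`: positions `x, g-1`: `y1 = x+1, y2 = g-1, d = x+1, y3 = x`;
* `(false,true)`: positions `g-1, x`: `y1 = x+1, y2 = g-1, d = g-1, y3 = x`;
* `(false,false)`: positions `g-1, g-2`: `y1 = g-2, y2 = g-1, d = g-1, y3 = g-2`. -/
theorem red_cut (C X T : BT) (x : ℕ) (l : Bool) (σ : List Bool) (hx : 1 ≤ x) (hC : x ≤ C.size)
    (hσ : 2 ≤ σ.length) (hT : T.size = (C.plug (strip (l :: σ) X) x 0).size)
    (hfan : ∀ p ∈ stripPos (l :: σ) X x, ({0, p, p + 1} : Finset ℕ) ∈ T.tri 0)
    (hred : RedF (C.plug (strip (l :: σ) X) x 0) T) :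
    RedF (C.plug (strip σ X) x 0) (T.del (outer l σ X x)) := by
  rw [← strip_del C X x l σ hC]
  have hsz : (C.plug (strip (l :: σ) X) x 0).size = C.size + (X.size + (σ.length + 1)) := by
    rw [plug_size C _ x 0 (Nat.zero_le _) (by omega), strip_size, List.length_cons]
  obtain ⟨l₂, l₃, σ', rfl⟩ : ∃ l₂ l₃ σ', σ = l₂ :: l₃ :: σ' := by
    cases σ with
    | nil => simp at hσ
    | cons a b =>
      cases b with
      | nil => simp at hσ
      | cons b c => exact ⟨a, b, c, rfl⟩
  have hlen : (l₂ :: l₃ :: σ').length = σ'.length + 2 := by simp only [List.length_cons]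
  have hlen' : (l₃ :: σ').length = σ'.length + 1 := List.length_cons
  rw [hlen] at hsz
  cases l
  · -- right case
    have ho : outer false (l₂ :: l₃ :: σ') X x = x + X.size + (l₂ :: l₃ :: σ').length + 1 := by
      simp [outer]
    have hT0 := hfan _ (outer_mem false (l₂ :: l₃ :: σ') X x)
    rw [ho, hlen] at hT0 ⊢
    have hS := strip_face_false C X x (l₂ :: l₃ :: σ') hC
    rw [hlen] at hS
    have hS' := CL4_cast hS rfl rfl
      (show x + X.size + (σ'.length + 2) + 2 = x + X.size + (σ'.length + 2) + 1 + 1 by omega)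
    have hxg : x < x + X.size + (σ'.length + 2) + 1 := by omega
    have hgS : x + X.size + (σ'.length + 2) + 1 ≤ (C.plug (strip (false :: l₂ :: l₃ :: σ') X) x 0).size := by
      omega
    cases l₂
    · -- d = g - 1
      have hd := CL4_sub_false C X (false :: l₃ :: σ') x hC (CL4_root_false (l₃ :: σ') X x)
      rw [hlen'] at hd
      have hd' := CL4_cast hd rfl rfl
        (show x + X.size + (σ'.length + 1) + 2 = x + X.size + (σ'.length + 2) + 1 by omega)
      have h2 := hfan (x + X.size + (σ'.length + 1) + 1) (by simp [stripPos])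
      have hy2 := CL4_e1 (y := x + X.size + (σ'.length + 1) + 1) h2 rfl (by omega)
      cases l₃
      · have h3 := hfan (x + X.size + σ'.length + 1) (by simp [stripPos])
        have hy1 := CL4_e1 (y := x + X.size + σ'.length + 1) h3 rfl (by omega)
        exact cutR_red _ T x _ _ _ _ _ hT hred hx hxg hgS hS' hT0 (by omega) (by omega)
          (by omega) hy1 hy2 hd' (by omega) (by omega) hy1 (by omega) (by omega)
      · have h3 := hfan x (by simp [stripPos])
        have hy1 := CL4_e2 (y := x + 1) h3 rfl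
        have hy3 := CL4_e1 (y := x) h3 rfl (by omega)
        exact cutR_red _ T x _ _ _ _ _ hT hred hx hxg hgS hS' hT0 (by omega) (by omega)
          (by omega) hy1 hy2 hd' (by omega) (by omega) hy3 (by omega) (by omega)
    · -- d = x + 1
      have hd := CL4_sub_false C X (true :: l₃ :: σ') x hC (CL4_root_true (l₃ :: σ') X x)
      rw [hlen'] at hd
      have hd' := CL4_cast hd rfl rfl
        (show x + X.size + (σ'.length + 1) + 2 = x + X.size + (σ'.length + 2) + 1 by omega)
      have h2 := hfan x (by simp [stripPos])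
      have hy1 := CL4_e2 (y := x + 1) h2 rfl
      have hy3 := CL4_e1 (y := x) h2 rfl (by omega)
      cases l₃
      · have h3 := hfan (x + 1 + X.size + σ'.length + 1) (by simp [stripPos])
        have hy2 := CL4_e1 (y := x + 1 + X.size + σ'.length + 1) h3 rfl (by omega)
        exact cutR_red _ T x _ _ _ _ _ hT hred hx hxg hgS hS' hT0 (by omega) (by omega)
          (by omega) hy1 hy2 hd' (by omega) (by omega) hy3 (by omega) (by omega)
      · have h3 := hfan (x + 1) (by simp [stripPos])
        have hy2 := CL4_e2 (y := x + 2) h3 rfl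
        exact cutR_red _ T x _ _ _ _ _ hT hred hx hxg hgS hS' hT0 (by omega) (by omega)
          (by omega) hy1 hy2 hd' (by omega) (by omega) hy3 (by omega) (by omega)
  · -- left case
    have ho : outer true (l₂ :: l₃ :: σ') X x = x := by simp [outer]
    have hT0 := hfan _ (outer_mem true (l₂ :: l₃ :: σ') X x)
    rw [ho] at hT0 ⊢
    have hS := strip_face_true C X x (l₂ :: l₃ :: σ') hC
    rw [hlen] at hS
    have hvS : x + X.size + (σ'.length + 2) + 2 ≤
        (C.plug (strip (true :: l₂ :: l₃ :: σ') X) x 0).size + 1 := by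
      omega
    cases l₂
    · -- d = v - 1
      have hd := CL4_sub_true C X (false :: l₃ :: σ') x hC (CL4_root_false (l₃ :: σ') X (x + 1))
      rw [hlen'] at hd
      have hd' := CL4_cast hd rfl rfl
        (show x + 1 + X.size + (σ'.length + 1) + 2 = x + X.size + (σ'.length + 2) + 2 by omega)
      have h2 := hfan (x + 1 + X.size + (σ'.length + 1) + 1) (by simp [stripPos])
      have hy2 := CL4_e1 (y := x + 1 + X.size + (σ'.length + 1) + 1) h2 rfl (by omega)
      have hy3 := CL4_e2 (y := x + 1 + X.size + (σ'.length + 1) + 2) h2 rfl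
      cases l₃
      · have h3 := hfan (x + 1 + X.size + σ'.length + 1) (by simp [stripPos])
        have hy1 := CL4_e1 (y := x + 1 + X.size + σ'.length + 1) h3 rfl (by omega)
        exact cutL_red _ T x _ _ _ _ _ hT hred hx hvS hS hT0 (by omega) (by omega)
          (by omega) hy1 hy2 hd' (by omega) (by omega) hy3 (by omega) (by omega)
      · have h3 := hfan (x + 1) (by simp [stripPos])
        have hy1 := CL4_e2 (y := x + 2) h3 rfl
        exact cutL_red _ T x _ _ _ _ _ hT hred hx hvS hS hT0 (by omega) (by omega)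
          (by omega) hy1 hy2 hd' (by omega) (by omega) hy3 (by omega) (by omega)
    · -- d = x + 2
      have hd := CL4_sub_true C X (true :: l₃ :: σ') x hC (CL4_root_true (l₃ :: σ') X (x + 1))
      rw [hlen'] at hd
      have hd' := CL4_cast hd rfl rfl
        (show x + 1 + X.size + (σ'.length + 1) + 2 = x + X.size + (σ'.length + 2) + 2 by omega)
      have h2 := hfan (x + 1) (by simp [stripPos])
      have hy1 := CL4_e2 (y := x + 2) h2 rfl
      cases l₃
      · have h3 := hfan (x + 1 + 1 + X.size + σ'.length + 1) (by simp [stripPos])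
        have hy2 := CL4_e1 (y := x + 1 + 1 + X.size + σ'.length + 1) h3 rfl (by omega)
        have hy3 := CL4_e2 (y := x + 1 + 1 + X.size + σ'.length + 2) h3 rfl
        exact cutL_red _ T x _ _ _ _ _ hT hred hx hvS hS hT0 (by omega) (by omega)
          (by omega) hy1 hy2 hd' (by omega) (by omega) hy3 (by omega) (by omega)
      · have h3 := hfan (x + 1 + 1) (by simp [stripPos])
        have hy2 := CL4_e2 (y := x + 3) h3 rfl
        exact cutL_red _ T x _ _ _ _ _ hT hred hx hvS hS hT0 (by omega) (by omega)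
          (by omega) hy1 hy2 hd' (by omega) (by omega) hy2 (by omega) (by omega)

end RTD
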