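import Pool.Agent.RTD.TY

/-! RTD row CR: few steps create a foreign diagonal. -/

namespace RTD

open Finset

variable {q n : ℕ} {F : ℕ → Finset (Finset ℕ)} {Sd : Finset (Finset ℕ)}

private lemma CR_mem_edg {A : Finset (Finset ℕ)} {e : Finset ℕ} :
    e ∈ edg A ↔ ∃ f ∈ A, e ⊆ f ∧ e.card = 2 := by
  simp [edg, Finset.mem_powersetCard]

private lemma CR_two_subset {a b c : ℕ} {e : Finset ℕ} (h : e ⊆ {a, b, c}) (hc : e.card = 2)
    (hab : a ≠ b) (hac : a ≠ c) (hbc : b ≠ c) : e = {a, b} ∨ e = {a, c} ∨ e = {b, c} := by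
  obtain ⟨u, v, huv, rfl⟩ := Finset.card_eq_two.mp hc
  have hu : u ∈ ({a, b, c} : Finset ℕ) := h (by simp)
  have hv : v ∈ ({a, b, c} : Finset ℕ) := h (by simp)
  simp only [Finset.mem_insert, Finset.mem_singleton] at hu hv
  rcases hu with rfl | rfl | rfl <;> rcases hv with rfl | rfl | rfl <;>
    first
      | exact absurd rfl huv
      | exact Or.inl rfl
      | exact Or.inr (Or.inl rfl)
      | exact Or.inr (Or.inr rfl)
      | exact Or.inl (Finset.pair_comm _ _)
      | exact Or.inr (Or.inl (Finset.pair_comm _ _))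
      | exact Or.inr (Or.inr (Finset.pair_comm _ _))

/-- An edge that is new after a flip is the new diagonal.
PROOF: `e ∈ edg B`: `e.card = 2`, `e ⊆ f ∈ B`.  If `f ∈ A` then `e ∈ edg A`.  So `f ∈ B \ A`, i.e.
`f = {x,y,w}` or `{y,z,w}`.  The 2-subsets of `{x,y,w}` are `{x,y}` (`⊆ {x,y,z} ∈ A`), `{x,w}`
(`⊆ {x,z,w} ∈ A`), `{y,w}`; those of `{y,z,w}` are `{y,z}`, `{z,w}` (both in `edg A`), `{y,w}`. -/
theorem new_edge {A B : Finset (Finset ℕ)} {x y z w : ℕ} (hxy : x ≠ y) (hxz : x ≠ z) (hxw : x ≠ w)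
    (hyz : y ≠ z) (hyw : y ≠ w) (hzw : z ≠ w) (h1 : A \ B = {{x, y, z}, {x, z, w}})
    (h2 : B \ A = {{x, y, w}, {y, z, w}}) {e : Finset ℕ} (he : e ∈ edg B) (he' : e ∉ edg A) :
    e = {y, w} := by
  obtain ⟨f, hfB, hef, hec⟩ := CR_mem_edg.mp he
  have hfA : f ∉ A := fun h => he' (CR_mem_edg.mpr ⟨f, h, hef, hec⟩)
  have hf : f ∈ B \ A := Finset.mem_sdiff.mpr ⟨hfB, hfA⟩
  have hA1 : ({x, y, z} : Finset ℕ) ∈ A := by
    have : ({x, y, z} : Finset ℕ) ∈ A \ B := by rw [h1]; simp
    exact (Finset.mem_sdiff.mp this).1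
  have hA2 : ({x, z, w} : Finset ℕ) ∈ A := by
    have : ({x, z, w} : Finset ℕ) ∈ A \ B := by rw [h1]; simp
    exact (Finset.mem_sdiff.mp this).1
  rw [h2, Finset.mem_insert, Finset.mem_singleton] at hf
  rcases hf with rfl | rfl
  · rcases CR_two_subset hef hec hxy hxw hyw with rfl | rfl | rfl
    · exfalso
      exact he' (CR_mem_edg.mpr ⟨_, hA1, by intro a; simp; tauto, hec⟩)
    · exfalso
      exact he' (CR_mem_edg.mpr ⟨_, hA2, by intro a; simp; tauto, hec⟩)
    · rfl
  · rcases CR_two_subset hef hec hyz hyw hzw with rfl | rfl | rfl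
    · exfalso
      exact he' (CR_mem_edg.mpr ⟨_, hA1, by intro a; simp; tauto, hec⟩)
    · rfl
    · exfalso
      exact he' (CR_mem_edg.mpr ⟨_, hA2, by intro a; simp; tauto, hec⟩)

private lemma CR_cross (P : ℕ → Prop) (m : ℕ) (h0 : ¬ P 0) (hm : P m) :
    ∃ i, i < m ∧ ¬ P i ∧ P (i + 1) := by
  by_contra hcon
  push Not at hcon
  have : ∀ i, i ≤ m → ¬ P i := by
    intro i
    induction i with
    | zero => intro _; exact h0
    | succ k ih => intro hk; exact hcon k (by omega) (ih (by omega))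
  exact this m le_rfl hm

/-- The number of steps with two original triangles is at most `n - (q-1)`.
PROOF: let `D = (edg (F n)).filter (· ∉ Sd)`, `q ≤ |D| + 1` (`hc.dn`).  For `e ∈ D` we have
`e ∉ edg (F 0)` (`hc.com`) and `e ∈ edg (F n)`, so there is `i < n` with `e ∉ edg (F i)`,
`e ∈ edg (F (i+1))` (discrete intermediate value); choose `ι e`.  By `new_edge` `e` is the new
diagonal `{y,w}` of step `ι e`, so `ι` is injective on `D`
(for one step the new diagonal is unique: apply `new_edge` with the same `x y z w` from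
`hc.flip`).  The steps `ι e` are not among the steps `i` with `(orig F i).card = 2`, because then
the new diagonal is not in `edg (F n)` (`new_notMem`) .  So `|D| + #{...} ≤ n`. -/
theorem src_le (hc : Cfg q n F Sd) :
    q + ((range n).filter (fun i => (orig F i).card = 2)).card ≤ n + 1 := by
  classical
  set D := (edg (F n)).filter (fun e => e ∉ Sd) with hD
  have hex : ∀ e ∈ D, ∃ i, i < n ∧ e ∉ edg (F i) ∧ e ∈ edg (F (i + 1)) := by
    intro e he
    rw [hD, Finset.mem_filter] at he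
    have h0 : e ∉ edg (F 0) := fun h => he.2 (hc.com e h he.1)
    exact CR_cross (fun i => e ∈ edg (F i)) n h0 he.1
  choose! ι hι using hex
  have hmaps : ∀ e ∈ D, ι e ∈ (range n).filter (fun i => ¬ (orig F i).card = 2) := by
    intro e he
    obtain ⟨hlt, hni, hi⟩ := hι e he
    rw [Finset.mem_filter, Finset.mem_range]
    refine ⟨hlt, fun hcard => ?_⟩
    obtain ⟨x, y, z, w, hxy, hxz, hxw, hyz, hyw, hzw, h1, h2⟩ := hc.flip _ hlt
    have hee := new_edge hxy hxz hxw hyz hyw hzw h1 h2 hi hni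
    have := new_notMem hc hlt hcard hxy hxz hxw hyz hyw hzw h1
    rw [hD, Finset.mem_filter] at he
    exact this (hee ▸ he.1)
  have hinj : Set.InjOn ι (D : Set (Finset ℕ)) := by
    intro e he e' he' hee
    obtain ⟨hlt, hni, hi⟩ := hι e he
    obtain ⟨hlt', hni', hi'⟩ := hι e' he'
    obtain ⟨x, y, z, w, hxy, hxz, hxw, hyz, hyw, hzw, h1, h2⟩ := hc.flip _ hlt
    have a1 := new_edge hxy hxz hxw hyz hyw hzw h1 h2 hi hni
    rw [← hee] at hni' hi'
    have a2 := new_edge hxy hxz hxw hyz hyw hzw h1 h2 hi' hni'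
    rw [a1, a2]
  have hle := Finset.card_le_card_of_injOn ι hmaps hinj
  have hsplit := Finset.card_filter_add_card_filter_not (s := range n)
    (fun i => (orig F i).card = 2)
  rw [Finset.card_range] at hsplit
  have hdn := hc.dn
  rw [← hD] at hdn
  omega

/-- the symmetric statement for final triangles.
PROOF: for `e ∈ (edg (F 0)).filter (· ∉ Sd)` there is `i < n` with `e ∈ edg (F i)`,
`e ∉ edg (F (i+1))`; `new_edge` with `A`, `B` exchanged (the flip is symmetric: from
`B \ A = {{x,y,w},{y,z,w}}` and `A \ B = {{x,y,z},{x,z,w}}` apply it to `(y,x,w,z)`: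
`{y,x,w}, {y,w,z}` and `{y,x,z}, {x,w,z}`), so `e = {x,z}`; `old_notMem`. -/
theorem snk_le (hc : Cfg q n F Sd) :
    q + ((range n).filter (fun i => (fin F n i).card = 2)).card ≤ n + 1 := by
  classical
  have hswap : ∀ {A B : Finset (Finset ℕ)} {x y z w : ℕ}, x ≠ y → x ≠ z → x ≠ w → y ≠ z →
      y ≠ w → z ≠ w → A \ B = {{x, y, z}, {x, z, w}} → B \ A = {{x, y, w}, {y, z, w}} →
      ∀ {e : Finset ℕ}, e ∈ edg A → e ∉ edg B → e = {x, z} := by
    intro A B x y z w hxy hxz hxw hyz hyw hzw h1 h2 e he he'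
    refine new_edge (A := B) (B := A) (x := y) (y := x) (z := w) (w := z) hxy.symm hyw hyz hxw hxz
      hzw.symm ?_ ?_ he he'
    · rw [h2]
      congr 1
      · ext a; simp; tauto
      · congr 1; ext a; simp; tauto
    · rw [h1]
      congr 1
      · ext a; simp; tauto
      · congr 1; ext a; simp; tauto
  set D := (edg (F 0)).filter (fun e => e ∉ Sd) with hD
  have hex : ∀ e ∈ D, ∃ i, i < n ∧ e ∈ edg (F i) ∧ e ∉ edg (F (i + 1)) := by
    intro e he
    rw [hD, Finset.mem_filter] at he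
    have hn : e ∉ edg (F n) := fun h => he.2 (hc.com e he.1 h)
    obtain ⟨i, h1, h2, h3⟩ := CR_cross (fun i => e ∉ edg (F i)) n (by simpa using he.1) hn
    exact ⟨i, h1, by simpa using h2, h3⟩
  choose! ι hι using hex
  have hmaps : ∀ e ∈ D, ι e ∈ (range n).filter (fun i => ¬ (fin F n i).card = 2) := by
    intro e he
    obtain ⟨hlt, hni, hi⟩ := hι e he
    rw [Finset.mem_filter, Finset.mem_range]
    refine ⟨hlt, fun hcard => ?_⟩
    obtain ⟨x, y, z, w, hxy, hxz, hxw, hyz, hyw, hzw, h1, h2⟩ := hc.flip _ hlt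
    have hee := hswap hxy hxz hxw hyz hyw hzw h1 h2 hni hi
    have := old_notMem hc hlt hcard hxy hxz hxw hyz hyw hzw h2
    rw [hD, Finset.mem_filter] at he
    exact this (hee ▸ he.1)
  have hinj : Set.InjOn ι (D : Set (Finset ℕ)) := by
    intro e he e' he' hee
    obtain ⟨hlt, hni, hi⟩ := hι e he
    obtain ⟨hlt', hni', hi'⟩ := hι e' he'
    obtain ⟨x, y, z, w, hxy, hxz, hxw, hyz, hyw, hzw, h1, h2⟩ := hc.flip _ hlt
    have a1 := hswap hxy hxz hxw hyz hyw hzw h1 h2 hni hi
    rw [← hee] at hni' hi'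
    have a2 := hswap hxy hxz hxw hyz hyw hzw h1 h2 hni' hi'
    rw [a1, a2]
  have hle := Finset.card_le_card_of_injOn ι hmaps hinj
  have hsplit := Finset.card_filter_add_card_filter_not (s := range n)
    (fun i => (fin F n i).card = 2)
  rw [Finset.card_range] at hsplit
  have hd0 := hc.d0
  rw [← hD] at hd0
  omega

end RTD
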