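import Pool.Agent.RTD.Defs

/-!
Project RTD, second batch: restriction of trees, the approximation algorithm.
The positions of a tree with keys `i+1, ..., i+size` are the places `i, ..., i+size` of its empty
subtrees (position `g` lies between the keys `g` and `g+1`; it is the side `{g, g+1}` of the polygon).
-/

namespace RTD

/-- restriction of a tree to a set `L` of positions: every node one of whose two subtrees contains
no position of `L` is removed (replaced by the other subtree) -/
def BT.restr (L : ℕ → Bool) : BT → ℕ → Option BT
  | .nil, i => if L i then some .nil else none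
  | .node l r, i =>
    match l.restr L i, r.restr L (i + l.size + 1) with
    | some a, some b => some (.node a b)
    | some a, none => some a
    | none, some b => some b
    | none, none => none

/-- the positions strictly between the keys `x` and `z` (the vertices `x < z` of the polygon) -/
def Lin (x z : ℕ) : ℕ → Bool := fun g => decide (x ≤ g ∧ g < z)

/-- the positions outside of `(x, z)` and the last one inside -/
def Lout (x z : ℕ) : ℕ → Bool := fun g => decide (¬ (x ≤ g ∧ g + 1 < z))

/-- the part inside: if `(x, z)` is a clade of `t`, this is the subtree with the keys between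
`x` and `z` -/
def BT.inn (t : BT) (x z : ℕ) : BT := (t.restr (Lin x z) 0).getD .nil

/-- the part outside: if `(x, z)` is a clade of `t`, this is the tree that remains when the subtree
with the keys between `x` and `z` is removed -/
def BT.out (t : BT) (x z : ℕ) : BT := (t.restr (Lout x z) 0).getD .nil

/-- put the tree `u` at the position `x` of `t` (the positions of `t` are `i, ..., i+size`) -/
def BT.plug : BT → BT → ℕ → ℕ → BT
  | .nil, u, x, i => if i = x then u else .nil
  | .node l r, u, x, i => .node (l.plug u x i) (r.plug u x (i + l.size + 1))

/-- number of triangles at the vertex `v` -/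
def fan (t : BT) (v : ℕ) : ℕ := ((t.tri 0).filter (fun f => v ∈ f)).card

/-- `S` and `T` have no common subtree interval except the whole, and no single rotation of one
of them produces one -/
def Reduced (S T : BT) : Prop :=
  (∀ x z, (x, z) ∈ S.cl 0 → (x, z) ∈ T.cl 0 → (x, z) = (0, S.size + 1)) ∧
  (∀ S', Rot S S' → ∀ x z, (x, z) ∈ S'.cl 0 → (x, z) ∈ T.cl 0 → (x, z) = (0, S.size + 1)) ∧
  (∀ T', Rot T T' → ∀ x z, (x, z) ∈ S.cl 0 → (x, z) ∈ T'.cl 0 → (x, z) = (0, S.size + 1))

/-- left comb with `q` nodes (every right subtree is empty) -/
def lcomb : ℕ → BT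
  | 0 => .nil
  | q + 1 => .node (lcomb q) .nil

/-- right comb with `q` nodes (every left subtree is empty) -/
def rcomb : ℕ → BT
  | 0 => .nil
  | q + 1 => .node .nil (rcomb q)

/-- the tree with `q` nodes all of whose triangles contain the vertex `v ≤ q+1` -/
def fanTree (q v : ℕ) : BT :=
  if v = 0 then lcomb q else if v = q + 1 then rcomb q else .node (rcomb (v - 1)) (lcomb (q - v))

/-- `Greedy S T c`: `c` is the number of rotations used by a run of the algorithm:
* trees with at most one node: nothing to do;
* if there is a common subtree interval `(x, z)`, solve the inside and the outside separately;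
* if a rotation `S → S'` creates a common subtree interval `(x, z)`, perform it and go on with the
  inside and the outside (the same for a rotation of `T`);
* otherwise take a vertex `v` with the largest total number of triangles, and rotate both trees to
  the tree all of whose triangles contain `v`. -/
inductive Greedy : BT → BT → ℕ → Prop
  | small (S T : BT) : S.size ≤ 1 → Greedy S T 0
  | split (S T : BT) (x z c c' : ℕ) : (x, z) ∈ S.cl 0 → (x, z) ∈ T.cl 0 →
      (x, z) ≠ (0, S.size + 1) → Greedy (S.inn x z) (T.inn x z) c →
      Greedy (S.out x z) (T.out x z) c' → Greedy S T (c + c')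
  | rotL (S S' T : BT) (x z c c' : ℕ) : Rot S S' → (x, z) ∉ S.cl 0 → (x, z) ∈ S'.cl 0 →
      (x, z) ∈ T.cl 0 → Greedy (S'.inn x z) (T.inn x z) c →
      Greedy (S'.out x z) (T.out x z) c' → Greedy S T (1 + c + c')
  | rotR (S T T' : BT) (x z c c' : ℕ) : Rot T T' → (x, z) ∉ T.cl 0 → (x, z) ∈ T'.cl 0 →
      (x, z) ∈ S.cl 0 → Greedy (S.inn x z) (T'.inn x z) c →
      Greedy (S.out x z) (T'.out x z) c' → Greedy S T (1 + c + c')
  | base (S T : BT) (v : ℕ) : 2 ≤ S.size → Reduced S T → v ≤ S.size + 1 →
      (∀ v' ≤ S.size + 1, fan S v' + fan T v' ≤ fan S v + fan T v) →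
      Greedy S T ((S.size - fan S v) + (T.size - fan T v))

end RTD
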