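import Pool.Agent.RTD.D3

/-!
Project RTD, fourth batch: long chains give shrinking steps; the kernel.
-/

namespace RTD

/-- the triangle `f'` is the child of the triangle `f`: `f' = {x, m, z}` with `x < m < z`, and the
third vertex of `f = {x, z, v}` is outside of `[x, z]` -/
def Chd (f f' : Finset ℕ) : Prop :=
  ∃ x m z v : ℕ, x < m ∧ m < z ∧ (v < x ∨ z < v) ∧ f' = {x, m, z} ∧ f = {x, z, v}

/-- the number of subtree intervals of `S` which are not subtree intervals of `T`
(the number of diagonals of the triangulation `S` which are not diagonals of `T`) -/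
def dl (S T : BT) : ℕ := ((S.cl 0) \ (T.cl 0)).card

/-- `Kern k S T S' T'`: the pair `(S', T')` is the result of a run of the kernelization algorithm
with parameter `k` on the pair `(S, T)`:
* at most one node: the result is the empty pair;
* if there is a common subtree interval `(x, z)` (not the whole), the inside and the outside are
  treated separately, and the results are put together again (the result of the inside becomes
  the leftmost part);
* if a rotation `S → S'` creates a common subtree interval `(x, z)`, it is performed and the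
  inside and the outside are treated separately (the same for a rotation of `T`);
* otherwise a shrinking step is done if one is possible. -/
inductive Kern (k : ℕ) : BT → BT → BT → BT → Prop
  | small (S T : BT) : S.size ≤ 1 → Kern k S T .nil .nil
  | split (S T A B A' B' : BT) (x z : ℕ) : (x, z) ∈ S.cl 0 → (x, z) ∈ T.cl 0 →
      (x, z) ≠ (0, S.size + 1) → Kern k (S.inn x z) (T.inn x z) A B →
      Kern k (S.out x z) (T.out x z) A' B' → Kern k S T (A'.plug A 0 0) (B'.plug B 0 0)
  | rotL (S S' T A B A' B' : BT) (x z : ℕ) : Rot S S' → (x, z) ∉ S.cl 0 → (x, z) ∈ S'.cl 0 →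
      (x, z) ∈ T.cl 0 → Kern k (S'.inn x z) (T.inn x z) A B →
      Kern k (S'.out x z) (T.out x z) A' B' → Kern k S T (A'.plug A 0 0) (B'.plug B 0 0)
  | rotR (S T T' A B A' B' : BT) (x z : ℕ) : Rot T T' → (x, z) ∉ T.cl 0 → (x, z) ∈ T'.cl 0 →
      (x, z) ∈ S.cl 0 → Kern k (S.inn x z) (T'.inn x z) A B →
      Kern k (S.out x z) (T'.out x z) A' B' → Kern k S T (A'.plug A 0 0) (B'.plug B 0 0)
  | cut (S T S' T' A B : BT) : 2 ≤ S.size → Reduced S T → Shrink k S T S' T' →
      Kern k S' T' A B → Kern k S T A B
  | done (S T : BT) : 2 ≤ S.size → Reduced S T → (∀ S' T', ¬ Shrink k S T S' T') → Kern k S T S T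

end RTD
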