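import Mathlib

/-!
Project RTD (MP_c1b589_lc, rotation distance).  Basic definitions.
-/

namespace RTD

/-- Binary trees.  The inner nodes are the keys `1, ..., size t` in symmetric order;
`nil` is the empty tree (an empty subtree position). -/
inductive BT : Type
  | nil : BT
  | node : BT → BT → BT
  deriving DecidableEq

/-- number of nodes (keys) -/
def BT.size : BT → ℕ
  | .nil => 0
  | .node l r => l.size + r.size + 1

/-- The triangles of the triangulation that corresponds to a tree whose keys are
`i+1, ..., i+size`: every node gives the triangle whose vertices are the key of the node and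
the two keys which bound the key interval of its subtree. -/
def BT.tri : BT → ℕ → Finset (Finset ℕ)
  | .nil, _ => ∅
  | .node l r, i =>
      insert {i, i + l.size + 1, i + l.size + r.size + 2} (l.tri i ∪ r.tri (i + l.size + 1))

/-- one rotation (at any place of the tree, to the right or to the left) -/
inductive Rot : BT → BT → Prop
  | right (a b c : BT) : Rot (.node (.node a b) c) (.node a (.node b c))
  | left (a b c : BT) : Rot (.node a (.node b c)) (.node (.node a b) c)
  | inl {l l' : BT} (r : BT) : Rot l l' → Rot (.node l r) (.node l' r)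
  | inr (l : BT) {r r' : BT} : Rot r r' → Rot (.node l r) (.node l r')

/-- `S` can be turned into `T` by a sequence of exactly `n` rotations -/
def Path (n : ℕ) (S T : BT) : Prop :=
  ∃ t : ℕ → BT, t 0 = S ∧ t n = T ∧ ∀ i < n, Rot (t i) (t (i + 1))

/-- rotation distance -/
noncomputable def rd (S T : BT) : ℕ := sInf {n | Path n S T}

/-- all 2-subsets of the members of `F` (the sides and the diagonals of a triangulation) -/
def edg (F : Finset (Finset ℕ)) : Finset (Finset ℕ) := F.biUnion (fun f => f.powersetCard 2)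

/-- the sides of the convex polygon with the vertices `0, ..., q+1` -/
def sds (q : ℕ) : Finset (Finset ℕ) :=
  insert {0, q + 1} ((Finset.range (q + 1)).image (fun k => ({k, k + 1} : Finset ℕ)))

/-- `B` arises from the set of triangles `A` by a flip in the quadrilateral `x y z w`:
the diagonal `x z` is replaced by the diagonal `y w`. -/
def Flip (A B : Finset (Finset ℕ)) : Prop :=
  ∃ x y z w : ℕ, x ≠ y ∧ x ≠ z ∧ x ≠ w ∧ y ≠ z ∧ y ≠ w ∧ z ≠ w ∧
    A \ B = {{x, y, z}, {x, z, w}} ∧ B \ A = {{x, y, w}, {y, z, w}}

/-- the abstract data used by the counting argument: a sequence `F 0, ..., F n` of sets of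
triangles, each obtained from the previous one by a flip; `Sd` are the sides of the polygon -/
structure Cfg (q n : ℕ) (F : ℕ → Finset (Finset ℕ)) (Sd : Finset (Finset ℕ)) : Prop where
  sd : Sd.card = q + 2
  flip : ∀ i < n, Flip (F i) (F (i + 1))
  c0 : (F 0).card = q
  cn : (F n).card = q
  side : ∀ i ≤ n, ∀ σ ∈ Sd, ∀ f ∈ F i, ∀ g ∈ F i, σ ⊆ f → σ ⊆ g → f = g
  disj : ∀ f ∈ F 0, f ∉ F n
  d0 : q ≤ ((edg (F 0)).filter (fun e => e ∉ Sd)).card + 1
  dn : q ≤ ((edg (F n)).filter (fun e => e ∉ Sd)).card + 1
  com : ∀ e, e ∈ edg (F 0) → e ∈ edg (F n) → e ∈ Sd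
  red0 : ∀ f ∈ F 0, ∀ g ∈ F 0, (f ∩ g).card = 2 → (f ∪ g) \ (f ∩ g) ∉ edg (F n)
  redn : ∀ f ∈ F n, ∀ g ∈ F n, (f ∩ g).card = 2 → (f ∪ g) \ (f ∩ g) ∉ edg (F 0)

open Classical in
/-- the members of `F i` that disappear at step `i` and were there from the beginning -/
noncomputable def orig (F : ℕ → Finset (Finset ℕ)) (i : ℕ) : Finset (Finset ℕ) :=
  (F i \ F (i + 1)).filter (fun f => ∀ j ≤ i, f ∈ F j)

open Classical in
/-- the members of `F (i+1)` that appear at step `i` and stay until the end -/
noncomputable def fin (F : ℕ → Finset (Finset ℕ)) (n i : ℕ) : Finset (Finset ℕ) :=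
  (F (i + 1) \ F i).filter (fun f => ∀ j, i < j → j ≤ n → f ∈ F j)

open Classical in
/-- the direct steps: one original triangle disappears, one final triangle appears -/
noncomputable def W (F : ℕ → Finset (Finset ℕ)) (n : ℕ) : Finset ℕ :=
  (Finset.range n).filter (fun i => (orig F i).card = 1 ∧ (fin F n i).card = 1)

/-- the data of a direct step `i`: the side `p p'`, the apex `a` of the side before the step and
the apex `b` after the step; the diagonal `p' a` is replaced by `p b` -/
def WData (F : ℕ → Finset (Finset ℕ)) (n i : ℕ) (Sd : Finset (Finset ℕ)) (p p' a b : ℕ) : Prop :=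
  p ≠ p' ∧ p ≠ a ∧ p ≠ b ∧ p' ≠ a ∧ p' ≠ b ∧ a ≠ b ∧ ({p, p'} : Finset ℕ) ∈ Sd ∧
    orig F i = {{p, p', a}} ∧ fin F n i = {{p, p', b}} ∧
    F i \ F (i + 1) = {{p, p', a}, {p', a, b}} ∧ F (i + 1) \ F i = {{p, p', b}, {p, a, b}}

/-- clades: the pairs `(x, z)` such that the keys strictly between `x` and `z` are the keys of a
nonempty subtree (the whole tree included); keys are `i+1, ..., i+size` -/
def BT.cl : BT → ℕ → Finset (ℕ × ℕ)
  | .nil, _ => ∅
  | .node l r, i =>
      insert (i, i + l.size + r.size + 2) (l.cl i ∪ r.cl (i + l.size + 1))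

end RTD
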