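import Pool.Agent.RTD.RS2
import Pool.Agent.RTD.BT2

/-! RTD row ED: edges are sides and clades; flips are rotations. -/

namespace RTD

private theorem ED_root_cl (t : BT) (i : ℕ) : t = .nil ∨ (i, i + t.size + 1) ∈ t.cl i := by
  cases t with
  | nil => exact Or.inl rfl
  | node l r =>
    right
    simp only [BT.cl, BT.size, Finset.mem_insert, Prod.mk.injEq, true_and]
    left
    omega

private theorem ED_edg_mono {A B : Finset (Finset ℕ)} (h : A ⊆ B) {e : Finset ℕ} (he : e ∈ edg A) :
    e ∈ edg B := Finset.biUnion_subset_biUnion_of_subset_left _ h he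

private theorem ED_edg_mk {A : Finset (Finset ℕ)} {f : Finset ℕ} (hf : f ∈ A) {u v : ℕ}
    (huv : u ≠ v) (hu : u ∈ f) (hv : v ∈ f) : ({u, v} : Finset ℕ) ∈ edg A := by
  refine Finset.mem_biUnion.2 ⟨f, hf, Finset.mem_powersetCard.2 ⟨?_, Finset.card_pair huv⟩⟩
  intro x hx
  rcases Finset.mem_insert.1 hx with h | h
  · exact h ▸ hu
  · exact (Finset.mem_singleton.1 h) ▸ hv

/-- PROOF: induction on `t`, generalizing `i`: the three edges of the root triangle `{i, m, z}` are
the root clade `{i,z}`, `{i,m}` (root clade of `l`, or a side if `l = nil`), `{m,z}` (root clade of `r`, or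
a side).  (`z = i+size+1`.) -/
theorem edg_of (t : BT) (i : ℕ) (e : Finset ℕ) (h : e ∈ edg (t.tri i)) :
    (∃ k, i ≤ k ∧ k ≤ i + t.size ∧ e = {k, k + 1}) ∨ ∃ x z, (x, z) ∈ t.cl i ∧ e = {x, z} := by
  induction t generalizing i with
  | nil => simp [edg, BT.tri] at h
  | node l r ihl ihr =>
    obtain ⟨f, hf, he⟩ := Finset.mem_biUnion.1 h
    obtain ⟨he1, he2⟩ := Finset.mem_powersetCard.1 he
    simp only [BT.tri, Finset.mem_insert, Finset.mem_union] at hf
    have hsz : (BT.node l r).size = l.size + r.size + 1 := rfl
    have hcl : (BT.node l r).cl i =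
      insert (i, i + l.size + r.size + 2) (l.cl i ∪ r.cl (i + l.size + 1)) := rfl
    -- the edges `{i, m}` and `{m, Z}`
    have c1 : (∃ k, i ≤ k ∧ k ≤ i + (BT.node l r).size ∧
        ({i, i + l.size + 1} : Finset ℕ) = {k, k + 1}) ∨
        ∃ x z, (x, z) ∈ (BT.node l r).cl i ∧ ({i, i + l.size + 1} : Finset ℕ) = {x, z} := by
      rcases ED_root_cl l i with rfl | h1
      · exact Or.inl ⟨i, le_rfl, by omega, by simp [BT.size]⟩
      · right
        refine ⟨i, i + l.size + 1, ?_, rfl⟩
        rw [hcl]
        exact Finset.mem_insert_of_mem (Finset.mem_union_left _ h1)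
    have c2 : (∃ k, i ≤ k ∧ k ≤ i + (BT.node l r).size ∧
        ({i + l.size + 1, i + l.size + r.size + 2} : Finset ℕ) = {k, k + 1}) ∨
        ∃ x z, (x, z) ∈ (BT.node l r).cl i ∧
          ({i + l.size + 1, i + l.size + r.size + 2} : Finset ℕ) = {x, z} := by
      rcases ED_root_cl r (i + l.size + 1) with rfl | h1
      · exact Or.inl ⟨i + l.size + 1, by omega, by omega, by simp [BT.size]⟩
      · right
        refine ⟨i + l.size + 1, i + l.size + r.size + 2, ?_, rfl⟩
        rw [hcl]
        have h2 : i + l.size + 1 + r.size + 1 = i + l.size + r.size + 2 := by omega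
        rw [h2] at h1
        exact Finset.mem_insert_of_mem (Finset.mem_union_right _ h1)
    have c3 : ∃ x z, (x, z) ∈ (BT.node l r).cl i ∧
        ({i, i + l.size + r.size + 2} : Finset ℕ) = {x, z} :=
      ⟨_, _, by rw [hcl]; exact Finset.mem_insert_self _ _, rfl⟩
    rcases hf with rfl | hf | hf
    · obtain ⟨a, b, hab, rfl⟩ := Finset.card_eq_two.1 he2
      have ha := he1 (Finset.mem_insert_self a {b})
      have hb := he1 (Finset.mem_insert_of_mem (Finset.mem_singleton_self b))
      simp only [Finset.mem_insert, Finset.mem_singleton] at ha hb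
      rcases ha with rfl | rfl | rfl <;> rcases hb with rfl | rfl | rfl
      · exact absurd rfl hab
      · exact c1
      · exact Or.inr c3
      · rw [Finset.pair_comm]; exact c1
      · exact absurd rfl hab
      · exact c2
      · rw [Finset.pair_comm]; exact Or.inr c3
      · rw [Finset.pair_comm]; exact c2
      · exact absurd rfl hab
    · have h1 : e ∈ edg (l.tri i) := Finset.mem_biUnion.2 ⟨f, hf, he⟩
      rcases ihl i h1 with ⟨k, k1, k2, k3⟩ | ⟨x, z, k1, k2⟩
      · exact Or.inl ⟨k, k1, by omega, k3⟩
      · refine Or.inr ⟨x, z, ?_, k2⟩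
        rw [hcl]
        exact Finset.mem_insert_of_mem (Finset.mem_union_left _ k1)
    · have h1 : e ∈ edg (r.tri (i + l.size + 1)) := Finset.mem_biUnion.2 ⟨f, hf, he⟩
      rcases ihr _ h1 with ⟨k, k1, k2, k3⟩ | ⟨x, z, k1, k2⟩
      · exact Or.inl ⟨k, by omega, by omega, k3⟩
      · refine Or.inr ⟨x, z, ?_, k2⟩
        rw [hcl]
        exact Finset.mem_insert_of_mem (Finset.mem_union_right _ k1)

/-- PROOF: induction on `t`, generalizing `i`. -/
theorem cl_edg (t : BT) (i x z : ℕ) (h : (x, z) ∈ t.cl i) : ({x, z} : Finset ℕ) ∈ edg (t.tri i) := by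
  induction t generalizing i with
  | nil => simp [BT.cl] at h
  | node l r ihl ihr =>
    simp only [BT.cl, Finset.mem_insert, Finset.mem_union, Prod.mk.injEq] at h
    rcases h with ⟨rfl, rfl⟩ | h | h
    · refine ED_edg_mk (f := {x, x + l.size + 1, x + l.size + r.size + 2}) ?_ (by omega)
        (by simp) (by simp)
      exact Finset.mem_insert_self _ _
    · refine ED_edg_mono ?_ (ihl i h)
      intro f hf
      exact Finset.mem_insert_of_mem (Finset.mem_union_left _ hf)
    · refine ED_edg_mono ?_ (ihr _ h)
      intro f hf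
      exact Finset.mem_insert_of_mem (Finset.mem_union_right _ hf)

private theorem ED_left (l r : BT) (i : ℕ) (g : Finset ℕ) (hg : g ∈ l.tri i)
    (h : (({i, i + l.size + 1, i + l.size + r.size + 2} : Finset ℕ) ∩ g).card = 2) :
    ∃ t' x z, Rot (.node l r) t' ∧ (x, z) ∈ t'.cl i ∧
      (({i, i + l.size + 1, i + l.size + r.size + 2} : Finset ℕ) ∪ g) \
        (({i, i + l.size + 1, i + l.size + r.size + 2} : Finset ℕ) ∩ g) = {x, z} ∧ x + 2 ≤ z ∧
      (i < x ∨ z < i + (BT.node l r).size + 1) := by
  have hb := (tri_mem l i g hg).2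
  have hsub : ({i, i + l.size + 1, i + l.size + r.size + 2} : Finset ℕ) ∩ g ⊆
      {i, i + l.size + 1} := by
    intro v hv
    rw [Finset.mem_inter] at hv
    have := hb v hv.2
    simp only [Finset.mem_insert, Finset.mem_singleton] at hv ⊢
    omega
  have heq := Finset.eq_of_subset_of_card_le hsub (by
    rw [h]; exact (Finset.card_insert_le _ _).trans (by simp))
  have hsub' : ({i, i + l.size + 1} : Finset ℕ) ⊆ g := by
    rw [← heq]; exact Finset.inter_subset_right
  cases l with
  | nil => simp [BT.tri] at hg
  | node a b =>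
    have hg' : g = {i, i + a.size + 1, i + a.size + b.size + 2} := by
      refine tri_root (.node a b) i g _ hg (Finset.mem_insert_self _ _) hsub' ?_
      intro v hv
      simp only [BT.size, Finset.mem_insert, Finset.mem_singleton] at hv ⊢
      omega
    refine ⟨.node a (.node b r), i + a.size + 1, i + (a.size + b.size + 1) + r.size + 2,
      Rot.right a b r, ?_, ?_, by omega, Or.inl (by omega)⟩
    · simp only [BT.cl, Finset.mem_insert, Finset.mem_union, Prod.mk.injEq]
      right; right; left
      exact ⟨trivial, by omega⟩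
    · subst hg'
      ext v
      simp only [BT.size, Finset.mem_sdiff, Finset.mem_union, Finset.mem_inter,
        Finset.mem_insert, Finset.mem_singleton]
      omega

private theorem ED_right (l r : BT) (i : ℕ) (g : Finset ℕ) (hg : g ∈ r.tri (i + l.size + 1))
    (h : (({i, i + l.size + 1, i + l.size + r.size + 2} : Finset ℕ) ∩ g).card = 2) :
    ∃ t' x z, Rot (.node l r) t' ∧ (x, z) ∈ t'.cl i ∧
      (({i, i + l.size + 1, i + l.size + r.size + 2} : Finset ℕ) ∪ g) \
        (({i, i + l.size + 1, i + l.size + r.size + 2} : Finset ℕ) ∩ g) = {x, z} ∧ x + 2 ≤ z ∧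
      (i < x ∨ z < i + (BT.node l r).size + 1) := by
  have hb := (tri_mem r _ g hg).2
  have hsub : ({i, i + l.size + 1, i + l.size + r.size + 2} : Finset ℕ) ∩ g ⊆
      {i + l.size + 1, i + l.size + r.size + 2} := by
    intro v hv
    rw [Finset.mem_inter] at hv
    have := hb v hv.2
    simp only [Finset.mem_insert, Finset.mem_singleton] at hv ⊢
    omega
  have heq := Finset.eq_of_subset_of_card_le hsub (by
    rw [h]; exact (Finset.card_insert_le _ _).trans (by simp))
  have hsub' : ({i + l.size + 1, i + l.size + r.size + 2} : Finset ℕ) ⊆ g := by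
    rw [← heq]; exact Finset.inter_subset_right
  cases r with
  | nil => simp [BT.tri] at hg
  | node b c =>
    have hg' : g = {i + l.size + 1, i + l.size + 1 + b.size + 1,
        i + l.size + 1 + b.size + c.size + 2} := by
      refine tri_root (.node b c) (i + l.size + 1) g _ hg (Finset.mem_insert_self _ _) ?_ ?_
      · intro v hv
        apply hsub'
        simp only [BT.size, Finset.mem_insert, Finset.mem_singleton] at hv ⊢
        omega
      · intro v hv
        simp only [BT.size, Finset.mem_insert, Finset.mem_singleton] at hv ⊢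
        omega
    refine ⟨.node (.node l b) c, i, i + l.size + b.size + 2, Rot.left l b c, ?_, ?_, by omega,
      Or.inr (by simp only [BT.size]; omega)⟩
    · simp only [BT.cl, Finset.mem_insert, Finset.mem_union, Prod.mk.injEq]
      right; left; left
      exact trivial
    · subst hg'
      ext v
      simp only [BT.size, Finset.mem_sdiff, Finset.mem_union, Finset.mem_inter,
        Finset.mem_insert, Finset.mem_singleton]
      omega

/-- Two triangles with a common edge can be flipped by a rotation.
PROOF: induction on `t`, generalizing `i`; `t = node l r`, `m = i+|l|+1`, `Z = i+size+1`.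
`f = g` is impossible (card 3).  Both in `l.tri i` or both in `r.tri m`: induction hypothesis and
`Rot.inl`, `Rot.inr` (the clades of `l'` are clades of `node l' r`; the clades of `r'` at offset `m`).
One in `l.tri i` and the other in `r.tri m`: the common elements are `≤ m` and `≥ m`, so at most one:
impossible.  `f` the root triangle `{i,m,Z}` and `g ∈ l.tri i` (or conversely): the common elements are
in `[i,m]`, so `f ∩ g = {i,m}`, so `g` is the root triangle of `l` (`tri_root`), `l = node a b`,
`g = {i,m1,m}`, `(f ∪ g) \ (f ∩ g) = {m1, Z}`; the right rotation gives `node a (node b r)` which has the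
clade `(m1, Z)`.  `g ∈ r.tri m`: `r = node b c`, `g = {m, m2, Z}`, the left rotation gives
`node (node l b) c` with the clade `(i, m2)`. In both cases the new clade `(x,z)` satisfies
`i < x ∨ z < i + size + 1` and `x + 2 ≤ z`. -/
theorem flip_rot (t : BT) (i : ℕ) (f g : Finset ℕ) (hf : f ∈ t.tri i) (hg : g ∈ t.tri i)
    (hfg : (f ∩ g).card = 2) :
    ∃ t' x z, Rot t t' ∧ (x, z) ∈ t'.cl i ∧ (f ∪ g) \ (f ∩ g) = {x, z} ∧ x + 2 ≤ z ∧
      (i < x ∨ z < i + t.size + 1) := by
  induction t generalizing i with
  | nil => simp [BT.tri] at hf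
  | node l r ihl ihr =>
    have hsz : (BT.node l r).size = l.size + r.size + 1 := rfl
    simp only [BT.tri, Finset.mem_insert, Finset.mem_union] at hf hg
    have hlr : ∀ f' ∈ l.tri i, ∀ g' ∈ r.tri (i + l.size + 1), (f' ∩ g').card ≤ 1 := by
      intro f' hf' g' hg'
      rw [Finset.card_le_one]
      intro a ha b hb
      rw [Finset.mem_inter] at ha hb
      have := (tri_mem l i f' hf').2 a ha.1
      have := (tri_mem l i f' hf').2 b hb.1
      have := (tri_mem r _ g' hg').2 a ha.2
      have := (tri_mem r _ g' hg').2 b hb.2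
      omega
    rcases hf with rfl | hf | hf <;> rcases hg with rfl | hg | hg
    · exfalso
      rw [Finset.inter_self] at hfg
      have := (tri_mem (.node l r) i _ (Finset.mem_insert_self _ _)).1
      omega
    · exact ED_left l r i g hg hfg
    · exact ED_right l r i g hg hfg
    · rw [Finset.inter_comm] at hfg
      rw [Finset.union_comm, Finset.inter_comm]
      exact ED_left l r i f hf hfg
    · obtain ⟨l', x, z, h1, h2, h3, h4, h5⟩ := ihl i hf hg
      refine ⟨.node l' r, x, z, Rot.inl r h1, ?_, h3, h4, by omega⟩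
      exact Finset.mem_insert_of_mem (Finset.mem_union_left _ h2)
    · have := hlr f hf g hg
      omega
    · rw [Finset.inter_comm] at hfg
      rw [Finset.union_comm, Finset.inter_comm]
      exact ED_right l r i f hf hfg
    · have := hlr g hg f hf
      rw [Finset.inter_comm] at this
      omega
    · obtain ⟨r', x, z, h1, h2, h3, h4, h5⟩ := ihr _ hf hg
      have h6 := cl_bound r' _ x z h2
      refine ⟨.node l r', x, z, Rot.inr l h1, ?_, h3, h4, Or.inl (by omega)⟩
      exact Finset.mem_insert_of_mem (Finset.mem_union_right _ h2)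

end RTD
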