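import Pool.Agent.RTD.D2
import Pool.Agent.RTD.BT4

/-! RTD row PA: basic facts on rotation sequences. -/

namespace RTD

theorem Path.refl (S : BT) : Path 0 S S :=
  ⟨fun _ => S, rfl, rfl, fun _ hi => absurd hi (Nat.not_lt_zero _)⟩

theorem Path.one {S T : BT} (h : Rot S T) : Path 1 S T := by
  refine ⟨fun i => if i = 0 then S else T, by simp, by simp, fun i hi => ?_⟩
  obtain rfl : i = 0 := by omega
  simpa using h

theorem Path.trans {n m : ℕ} {S T U : BT} (h : Path n S T) (h' : Path m T U) :
    Path (n + m) S U := by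
  obtain ⟨t, h0, hn, hs⟩ := h
  obtain ⟨u, h0', hm, hs'⟩ := h'
  refine ⟨fun i => if i ≤ n then t i else u (i - n), by simp [h0], ?_, fun i hi => ?_⟩
  · show (if n + m ≤ n then t (n + m) else u (n + m - n)) = U
    by_cases hm0 : m = 0
    · subst hm0
      rw [if_pos (by omega)]
      rw [Nat.add_zero, hn, ← h0', hm]
    · rw [if_neg (by omega), Nat.add_sub_cancel_left, hm]
  · show Rot (if i ≤ n then t i else u (i - n)) (if i + 1 ≤ n then t (i + 1) else u (i + 1 - n))
    by_cases h1 : i + 1 ≤ n
    · rw [if_pos (by omega), if_pos h1]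
      exact hs i (by omega)
    · rw [if_neg h1]
      by_cases h2 : i ≤ n
      · obtain rfl : i = n := by omega
        rw [if_pos h2, Nat.add_sub_cancel_left, hn, ← h0']
        exact hs' 0 (by omega)
      · rw [if_neg h2]
        have h3 : i + 1 - n = (i - n) + 1 := by omega
        rw [h3]
        exact hs' (i - n) (by omega)

/-- splitting off the first step -/
theorem Path.cons_inv {n : ℕ} {S T : BT} (h : Path (n + 1) S T) :
    ∃ S', Rot S S' ∧ Path n S' T := by
  obtain ⟨t, h0, hn, hs⟩ := h
  refine ⟨t 1, ?_, fun i => t (i + 1), rfl, hn, fun i hi => hs (i + 1) (by omega)⟩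
  rw [← h0]
  exact hs 0 (by omega)

theorem Path.zero_inv {S T : BT} (h : Path 0 S T) : S = T := by
  obtain ⟨t, h0, hn, -⟩ := h
  rw [← h0, hn]

theorem Rot.symm {S T : BT} (h : Rot S T) : Rot T S := by
  induction h with
  | right a b c => exact Rot.left a b c
  | left a b c => exact Rot.right a b c
  | inl r _ ih => exact Rot.inl r ih
  | inr l _ ih => exact Rot.inr l ih

theorem Path.symm {n : ℕ} {S T : BT} (h : Path n S T) : Path n T S := by
  obtain ⟨t, h0, hn, hs⟩ := h
  refine ⟨fun i => t (n - i), by simp [hn], by simp [h0], fun i hi => ?_⟩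
  show Rot (t (n - i)) (t (n - (i + 1)))
  have h1 : n - i = (n - (i + 1)) + 1 := by omega
  rw [h1]
  exact (hs (n - (i + 1)) (by omega)).symm

theorem Path.size {n : ℕ} {S T : BT} (h : Path n S T) : T.size = S.size := by
  obtain ⟨t, h0, hn, hs⟩ := h
  have key : ∀ i, i ≤ n → (t i).size = S.size := by
    intro i
    induction i with
    | zero => intro _; rw [h0]
    | succ i ih =>
      intro hi
      rw [rot_size (hs i (by omega)), ih (by omega)]
  rw [← hn]
  exact key n le_rfl

theorem Path.left {n : ℕ} {S T : BT} (r : BT) (h : Path n S T) :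
    Path n (.node S r) (.node T r) := by
  obtain ⟨t, h0, hn, hs⟩ := h
  exact ⟨fun i => .node (t i) r, by simp [h0], by simp [hn], fun i hi => Rot.inl r (hs i hi)⟩

theorem Path.right {n : ℕ} {S T : BT} (l : BT) (h : Path n S T) :
    Path n (.node l S) (.node l T) := by
  obtain ⟨t, h0, hn, hs⟩ := h
  exact ⟨fun i => .node l (t i), by simp [h0], by simp [hn], fun i hi => Rot.inr l (hs i hi)⟩

theorem rd_le {n : ℕ} {S T : BT} (h : Path n S T) : rd S T ≤ n := Nat.sInf_le h

/-- if there is a path at all, the distance is attained -/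
theorem path_rd {n : ℕ} {S T : BT} (h : Path n S T) : Path (rd S T) S T :=
  Nat.sInf_mem (⟨n, h⟩ : {n | Path n S T}.Nonempty)

end RTD
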