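import Pool.Agent.RTD.D4
import Pool.Agent.RTD.PA
import Pool.Agent.RTD.RS2

/-! RTD row EL1: subtree intervals and rotations. -/

namespace RTD

/-- PROOF: induction on `t`; the intervals of `l` have right end `≤ i+|l|+1`, the ones of `r` have left
end `≥ i+|l|+1` (`cl_bound`), and the root interval is different from all of them (its length is
`|l|+|r|+2`). -/
theorem cl_card (t : BT) (i : ℕ) : (t.cl i).card = t.size := by
  induction t generalizing i with
  | nil => simp [BT.cl, BT.size]
  | node l r ihl ihr =>
    have h1 : (i, i + l.size + r.size + 2) ∉ l.cl i ∪ r.cl (i + l.size + 1) := by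
      rw [Finset.mem_union]
      rintro (h | h)
      · have := cl_bound l i _ _ h
        omega
      · have := cl_bound r _ _ _ h
        omega
    have h2 : Disjoint (l.cl i) (r.cl (i + l.size + 1)) := by
      rw [Finset.disjoint_left]
      rintro ⟨x, z⟩ ha hb
      have := cl_bound l i _ _ ha
      have := cl_bound r _ _ _ hb
      omega
    simp only [BT.cl, BT.size]
    rw [Finset.card_insert_of_notMem h1, Finset.card_union_of_disjoint h2, ihl, ihr]

theorem root_cl (t : BT) (i : ℕ) (ht : 1 ≤ t.size) : (i, i + t.size + 1) ∈ t.cl i := by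
  cases t with
  | nil => simp [BT.size] at ht
  | node l r =>
    simp only [BT.cl, BT.size, Finset.mem_insert, Prod.mk.injEq]
    left
    refine ⟨trivial, ?_⟩
    omega

/-- two subtree intervals do not cross.  PROOF: induction on `t` (`cl_bound`). -/
theorem cl_lam (t : BT) (i x z x' z' : ℕ) (h : (x, z) ∈ t.cl i) (h' : (x', z') ∈ t.cl i)
    (h1 : x < x') (h2 : x' < z) (h3 : z < z') : False := by
  induction t generalizing i with
  | nil => simp [BT.cl] at h
  | node l r ihl ihr =>
    simp only [BT.cl, Finset.mem_insert, Finset.mem_union, Prod.mk.injEq] at h h'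
    rcases h with ⟨a1, a2⟩ | h | h <;> rcases h' with ⟨b1, b2⟩ | h' | h'
    · omega
    · have := cl_bound l i _ _ h'
      omega
    · have := cl_bound r _ _ _ h'
      omega
    · have := cl_bound l i _ _ h
      omega
    · exact ihl i h h'
    · have := cl_bound l i _ _ h
      have := cl_bound r _ _ _ h'
      omega
    · have := cl_bound r _ _ _ h
      omega
    · have := cl_bound r _ _ _ h
      have := cl_bound l i _ _ h'
      omega
    · exact ihr _ h h'

/-- A rotation replaces one subtree interval by another one which crosses it.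
PROOF: induction on `h`, generalizing `i`.  `right a b c`: `m1 = i+|a|+1`, `m2 = m1+|b|+1`,
`m3 = m2+|c|+1`: `t.cl i = {(i,m3), (i,m2)} ∪ (a.cl i ∪ b.cl m1 ∪ c.cl m2)`,
`t'.cl i = {(i,m3), (m1,m3)} ∪ (the same)`; `e = (i,m2)`, `e' = (m1,m3)`; `e` is not in the other sets
(`cl_bound`), neither is `e'`.  `left`: the same with `e`, `e'` exchanged.  `inl`, `inr`: the interval `e` of
the subtree is not in the rest (`cl_bound`), neither is `e'`. -/
theorem rot_cl {t t' : BT} (h : Rot t t') (i : ℕ) :
    ∃ e e' : ℕ × ℕ, e ∈ t.cl i ∧ e' ∉ t.cl i ∧ t'.cl i = insert e' ((t.cl i).erase e) ∧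
      ((e.1 < e'.1 ∧ e'.1 < e.2 ∧ e.2 < e'.2) ∨ (e'.1 < e.1 ∧ e.1 < e'.2 ∧ e'.2 < e.2)) := by
  induction h generalizing i with
  | right a b c =>
    have e0 : i + (a.size + b.size + 1) + 1 = i + a.size + 1 + b.size + 1 := by omega
    refine ⟨(i, i + a.size + b.size + 2), (i + a.size + 1, i + a.size + 1 + b.size + c.size + 2), ?_, ?_, ?_, ?_⟩
    · simp only [BT.cl, BT.size, Finset.mem_insert, Finset.mem_union]
      right; left; left; trivial
    · intro hm
      simp only [BT.cl, BT.size, Finset.mem_insert, Finset.mem_union, Prod.mk.injEq, e0] at hm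
      rcases hm with hm | (hm | hm | hm) | hm
      · omega
      · omega
      · have := cl_bound a _ _ _ hm
        omega
      · have := cl_bound b _ _ _ hm
        omega
      · have := cl_bound c _ _ _ hm
        omega
    · ext ⟨x, z⟩
      have hA := cl_bound a i x z
      have hB := cl_bound b (i + a.size + 1) x z
      have hC := cl_bound c (i + a.size + 1 + b.size + 1) x z
      simp only [BT.cl, BT.size, Finset.mem_insert, Finset.mem_union, Finset.mem_erase, Prod.mk.injEq, e0,
        ne_eq]
      by_cases hA' : (x, z) ∈ a.cl i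
      · have := hA hA'
        simp only [hA', true_or, or_true, and_true, true_iff, iff_true]
        omega
      by_cases hB' : (x, z) ∈ b.cl (i + a.size + 1)
      · have := hB hB'
        simp only [hB', true_or, or_true, and_true, true_iff, iff_true]
        omega
      by_cases hC' : (x, z) ∈ c.cl (i + a.size + 1 + b.size + 1)
      · have := hC hC'
        simp only [hC', true_or, or_true, and_true, true_iff, iff_true]
        omega
      simp only [hA', hB', hC', or_false, false_or]
      omega
    · left
      refine ⟨?_, ?_, ?_⟩ <;> simp only <;> omega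
  | left a b c =>
    have e0 : i + (a.size + b.size + 1) + 1 = i + a.size + 1 + b.size + 1 := by omega
    refine ⟨(i + a.size + 1, i + a.size + 1 + b.size + c.size + 2), (i, i + a.size + b.size + 2), ?_, ?_, ?_, ?_⟩
    · simp only [BT.cl, BT.size, Finset.mem_insert, Finset.mem_union]
      right; right; left; trivial
    · intro hm
      simp only [BT.cl, BT.size, Finset.mem_insert, Finset.mem_union, Prod.mk.injEq, e0] at hm
      rcases hm with hm | hm | hm | hm | hm
      · omega
      · have := cl_bound a _ _ _ hm
        omega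
      · omega
      · have := cl_bound b _ _ _ hm
        omega
      · have := cl_bound c _ _ _ hm
        omega
    · ext ⟨x, z⟩
      have hA := cl_bound a i x z
      have hB := cl_bound b (i + a.size + 1) x z
      have hC := cl_bound c (i + a.size + 1 + b.size + 1) x z
      simp only [BT.cl, BT.size, Finset.mem_insert, Finset.mem_union, Finset.mem_erase, Prod.mk.injEq, e0,
        ne_eq]
      by_cases hA' : (x, z) ∈ a.cl i
      · have := hA hA'
        simp only [hA', true_or, or_true, and_true, true_iff, iff_true]
        omega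
      by_cases hB' : (x, z) ∈ b.cl (i + a.size + 1)
      · have := hB hB'
        simp only [hB', true_or, or_true, and_true, true_iff, iff_true]
        omega
      by_cases hC' : (x, z) ∈ c.cl (i + a.size + 1 + b.size + 1)
      · have := hC hC'
        simp only [hC', true_or, or_true, and_true, true_iff, iff_true]
        omega
      simp only [hA', hB', hC', or_false, false_or]
      omega
    · right
      refine ⟨?_, ?_, ?_⟩ <;> simp only <;> omega
  | @inl l l' r h ih =>
    obtain ⟨e, e', h1, h2, h3, h4⟩ := ih i
    have hs := rot_size h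
    have he := cl_bound l i e.1 e.2 h1
    have he'm : e' ∈ l'.cl i := by rw [h3]; exact Finset.mem_insert_self _ _
    have he' := cl_bound l' i e'.1 e'.2 he'm
    have her : e ∉ r.cl (i + l.size + 1) := by
      intro hm
      have := cl_bound r (i + l.size + 1) e.1 e.2 hm
      omega
    have her' : e' ∉ r.cl (i + l.size + 1) := by
      intro hm
      have := cl_bound r (i + l.size + 1) e'.1 e'.2 hm
      omega
    have hroot : e ≠ (i, i + l.size + r.size + 2) := by
      intro hm
      have := congrArg Prod.snd hm
      simp only at this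
      omega
    have hroot' : e' ≠ (i, i + l.size + r.size + 2) := by
      intro hm
      have := congrArg Prod.snd hm
      simp only at this
      omega
    refine ⟨e, e', ?_, ?_, ?_, h4⟩
    · simp only [BT.cl, Finset.mem_insert, Finset.mem_union]
      exact Or.inr (Or.inl h1)
    · simp only [BT.cl, Finset.mem_insert, Finset.mem_union, not_or]
      exact ⟨hroot', h2, her'⟩
    · simp only [BT.cl, hs, h3]
      ext p
      simp only [Finset.mem_insert, Finset.mem_union, Finset.mem_erase, ne_eq]
      by_cases hp : p = e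
      · subst hp
        tauto
      · tauto
  | @inr l r r' h ih =>
    obtain ⟨e, e', h1, h2, h3, h4⟩ := ih (i + l.size + 1)
    have hs := rot_size h
    have he := cl_bound r _ e.1 e.2 h1
    have he'm : e' ∈ r'.cl (i + l.size + 1) := by rw [h3]; exact Finset.mem_insert_self _ _
    have he' := cl_bound r' _ e'.1 e'.2 he'm
    have her : e ∉ l.cl i := by
      intro hm
      have := cl_bound l i e.1 e.2 hm
      omega
    have her' : e' ∉ l.cl i := by
      intro hm
      have := cl_bound l i e'.1 e'.2 hm
      omega
    have hroot : e ≠ (i, i + l.size + r.size + 2) := by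
      intro hm
      have := congrArg Prod.fst hm
      simp only at this
      omega
    have hroot' : e' ≠ (i, i + l.size + r.size + 2) := by
      intro hm
      have := congrArg Prod.fst hm
      simp only at this
      omega
    refine ⟨e, e', ?_, ?_, ?_, h4⟩
    · simp only [BT.cl, Finset.mem_insert, Finset.mem_union]
      exact Or.inr (Or.inr h1)
    · simp only [BT.cl, Finset.mem_insert, Finset.mem_union, not_or]
      exact ⟨hroot', her', h2⟩
    · simp only [BT.cl, hs, h3]
      ext p
      simp only [Finset.mem_insert, Finset.mem_union, Finset.mem_erase, ne_eq]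
      by_cases hp : p = e
      · subst hp
        tauto
      · tauto

/-- PROOF: `rot_cl`: `S.cl 0 \ T.cl 0 ⊆ insert e (S'.cl 0 \ T.cl 0)`. -/
theorem dl_rot {S S' T : BT} (h : Rot S S') : dl S T ≤ dl S' T + 1 := by
  obtain ⟨e, e', h1, h2, h3, h4⟩ := rot_cl h 0
  unfold dl
  have h5 : S.cl 0 \ T.cl 0 ⊆ insert e (S'.cl 0 \ T.cl 0) := by
    intro p hp
    rw [Finset.mem_sdiff] at hp
    rw [Finset.mem_insert, Finset.mem_sdiff, h3, Finset.mem_insert, Finset.mem_erase]
    by_cases hpe : p = e
    · exact Or.inl hpe
    · exact Or.inr ⟨Or.inr ⟨hpe, hp.1⟩, hp.2⟩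
  exact (Finset.card_le_card h5).trans (Finset.card_insert_le _ _)

/-- PROOF: induction on `n` with `Path.cons_inv`, `dl_rot`; `dl T T = 0`. -/
theorem dl_path {n : ℕ} {S T : BT} (h : Path n S T) : dl S T ≤ n := by
  induction n generalizing S with
  | zero =>
    rw [Path.zero_inv h]
    simp [dl]
  | succ n ih =>
    obtain ⟨S', h1, h2⟩ := Path.cons_inv h
    have := ih h2
    have := dl_rot (T := T) h1
    omega

/-- PROOF: `rot_cl`: `e' = (x,z)` (it is the only new interval), and `e ∉ T.cl 0` because it crosses
`(x,z) ∈ T.cl 0` (`cl_lam`).  So `S.cl 0 \ T.cl 0 = insert e (S'.cl 0 \ T.cl 0)`, with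
`e ∉ S'.cl 0`. -/
theorem dl_create {S S' T : BT} (h : Rot S S') {x z : ℕ} (h1 : (x, z) ∉ S.cl 0)
    (h2 : (x, z) ∈ S'.cl 0) (h3 : (x, z) ∈ T.cl 0) : dl S T = dl S' T + 1 := by
  obtain ⟨e, e', g1, g2, g3, g4⟩ := rot_cl h 0
  have he' : e' = (x, z) := by
    rw [g3, Finset.mem_insert, Finset.mem_erase] at h2
    rcases h2 with h2 | h2
    · exact h2.symm
    · exact absurd h2.2 h1
  have heT : e ∉ T.cl 0 := by
    intro hm
    rw [he'] at g4
    rcases g4 with g4 | g4
    · exact cl_lam T 0 e.1 e.2 x z hm h3 g4.1 g4.2.1 g4.2.2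
    · exact cl_lam T 0 x z e.1 e.2 h3 hm g4.1 g4.2.1 g4.2.2
  have heS : e ∉ S'.cl 0 := by
    rw [g3, Finset.mem_insert, Finset.mem_erase]
    rintro (hm | hm)
    · rw [hm] at g1
      exact g2 g1
    · exact hm.1 rfl
  unfold dl
  have h5 : S.cl 0 \ T.cl 0 = insert e (S'.cl 0 \ T.cl 0) := by
    ext p
    rw [Finset.mem_sdiff, Finset.mem_insert, Finset.mem_sdiff, g3, Finset.mem_insert, Finset.mem_erase]
    constructor
    · rintro ⟨a1, a2⟩
      by_cases hpe : p = e
      · exact Or.inl hpe
      · exact Or.inr ⟨Or.inr ⟨hpe, a1⟩, a2⟩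
    · rintro (hpe | ⟨hpe | ⟨-, a1⟩, a2⟩)
      · rw [hpe]
        exact ⟨g1, heT⟩
      · rw [hpe, he'] at a2
        exact absurd h3 a2
      · exact ⟨a1, a2⟩
  rw [h5, Finset.card_insert_of_notMem]
  rw [Finset.mem_sdiff]
  exact fun hm => heS hm.1

/-- PROOF: `|S.cl 0 \ T.cl 0| + |S.cl 0 ∩ T.cl 0| = |S.cl 0| = S.size`, the same for `T` (`cl_card`). -/
theorem dl_comm {S T : BT} (h : T.size = S.size) : dl S T = dl T S := by
  have h1 := Finset.card_sdiff_add_card_inter (S.cl 0) (T.cl 0)
  have h2 := Finset.card_sdiff_add_card_inter (T.cl 0) (S.cl 0)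
  rw [cl_card] at h1 h2
  rw [Finset.inter_comm] at h2
  unfold dl
  omega

end RTD
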