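import Pool.Agent.RTD.KE
import Pool.Agent.RTD.RS3

/-! RTD row KJ: plugging and unplugging. -/

namespace RTD

private lemma KJ_all (L : ℕ → Bool) (t : BT) (i : ℕ) (h : ∀ g, i ≤ g → g ≤ i + t.size → L g = true) :
    t.restr L i = some t := by
  induction t generalizing i with
  | nil => simp [BT.restr, h i le_rfl (by simp [BT.size])]
  | node l r ihl ihr =>
    simp only [BT.size] at h
    simp only [BT.restr]
    rw [ihl i (fun g h1 h2 => h g h1 (by omega)), ihr _ (fun g h1 h2 => h g (by omega) (by omega))]

private lemma KJ_none (L : ℕ → Bool) (t : BT) (i : ℕ)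
    (h : ∀ g, i ≤ g → g ≤ i + t.size → L g = false) : t.restr L i = none := by
  induction t generalizing i with
  | nil => simp [BT.restr, h i le_rfl (by simp [BT.size])]
  | node l r ihl ihr =>
    simp only [BT.size] at h
    simp only [BT.restr]
    rw [ihl i (fun g h1 h2 => h g h1 (by omega)), ihr _ (fun g h1 h2 => h g (by omega) (by omega))]

/-- only the last position is left -/
private lemma KJ_last (L : ℕ → Bool) (t : BT) (i : ℕ)
    (h : ∀ g, i ≤ g → g < i + t.size → L g = false) (h' : L (i + t.size) = true) :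
    t.restr L i = some .nil := by
  induction t generalizing i with
  | nil =>
    simp only [BT.size, add_zero] at h'
    simp [BT.restr, h']
  | node l r ihl ihr =>
    simp only [BT.size] at h h'
    simp only [BT.restr]
    have e : i + (l.size + r.size + 1) = i + l.size + 1 + r.size := by omega
    rw [KJ_none L l i (fun g h1 h2 => h g h1 (by omega)),
      ihr _ (fun g h1 h2 => h g (by omega) (by omega)) (by rw [← e]; exact h')]

/-- plugging outside of the range does nothing -/
private lemma KJ_plug_out (t u : BT) (x i : ℕ) (h : x < i ∨ i + t.size < x) :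
    t.plug u x i = t := by
  induction t generalizing i with
  | nil =>
    simp only [BT.size, add_zero] at h
    simp only [BT.plug]
    rw [if_neg (by omega)]
  | node l r ihl ihr =>
    simp only [BT.size] at h
    simp only [BT.plug]
    rw [ihl i (by omega), ihr _ (by omega)]

private lemma KJ_triple {x m z a b c : ℕ} (hx : x < m) (hz : m < z) (ha : a < b) (hb : b < c)
    (h : ({x, m, z} : Finset ℕ) = {a, b, c}) : x = a ∧ m = b ∧ z = c := by
  have h1 : x ∈ ({a, b, c} : Finset ℕ) := h ▸ (by simp)
  have h2 : m ∈ ({a, b, c} : Finset ℕ) := h ▸ (by simp)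
  have h3 : z ∈ ({a, b, c} : Finset ℕ) := h ▸ (by simp)
  have h4 : a ∈ ({x, m, z} : Finset ℕ) := h.symm ▸ (by simp)
  have h5 : b ∈ ({x, m, z} : Finset ℕ) := h.symm ▸ (by simp)
  have h6 : c ∈ ({x, m, z} : Finset ℕ) := h.symm ▸ (by simp)
  simp only [Finset.mem_insert, Finset.mem_singleton] at h1 h2 h3 h4 h5 h6
  omega

private lemma KJ_face (t : BT) (i x m z : ℕ) (hx : x < m) (hz : m < z)
    (h : ({x, m, z} : Finset ℕ) ∈ t.tri i) :
    ∃ C A B : BT, t = C.plug (.node A B) x i ∧ i ≤ x ∧ x ≤ i + C.size ∧ x + A.size + 1 = m ∧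
      m + B.size + 1 = z := by
  induction t generalizing i with
  | nil => simp [BT.tri] at h
  | node l r ihl ihr =>
    simp only [BT.tri, Finset.mem_insert, Finset.mem_union] at h
    rcases h with h | h | h
    · obtain ⟨h1, h2, h3⟩ := KJ_triple hx hz (by omega) (by omega) h
      refine ⟨.nil, l, r, ?_, by omega, by omega, by omega, by omega⟩
      simp only [BT.plug]
      rw [if_pos h1.symm]
    · obtain ⟨C, A, B, h1, h2, h3, h4, h5⟩ := ihl i h
      refine ⟨.node C r, A, B, ?_, h2, by simp only [BT.size]; omega, h4, h5⟩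
      simp only [BT.plug]
      rw [← h1, KJ_plug_out r _ x _ (by omega)]
    · obtain ⟨C, A, B, h1, h2, h3, h4, h5⟩ := ihr _ h
      refine ⟨.node l C, A, B, ?_, by omega, by simp only [BT.size]; omega, h4, h5⟩
      simp only [BT.plug]
      rw [← h1, KJ_plug_out l _ x _ (by omega)]

/-- a triangle at the vertex `0` sits on the left spine.
PROOF: induction on `t`; `t = node l r`: if `{0,m,z}` is the root triangle `{0,|l|+1,size+1}`: `D = nil`,
`A = l`, `X = r`.  Otherwise it is in `l.tri 0` (the triangles of `r` do not contain `0`), and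
`l = D'.plug (node A X) 0 0`, `D = node D' r`. -/
theorem face_zero (t : BT) (m z : ℕ) (hm : 0 < m) (hz : m < z)
    (h : ({0, m, z} : Finset ℕ) ∈ t.tri 0) :
    ∃ D A X : BT, t = D.plug (.node A X) 0 0 ∧ A.size + 1 = m ∧ A.size + X.size + 2 = z := by
  obtain ⟨C, A, B, h1, h2, h3, h4, h5⟩ := KJ_face t 0 0 m z hm hz h
  exact ⟨C, A, B, h1, by omega, by omega⟩

/-- every triangle is the root triangle of a subtree.  PROOF: induction (offset). -/
theorem face_plug (t : BT) (x m z : ℕ) (hx : x < m) (hz : m < z)
    (h : ({x, m, z} : Finset ℕ) ∈ t.tri 0) :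
    ∃ C A B : BT, t = C.plug (.node A B) x 0 ∧ x ≤ C.size ∧ x + A.size + 1 = m ∧
      m + B.size + 1 = z := by
  obtain ⟨C, A, B, h1, h2, h3, h4, h5⟩ := KJ_face t 0 x m z hx hz h
  exact ⟨C, A, B, h1, by omega, h4, h5⟩

/-- PROOF: induction on `o`, generalizing `i` (the positions of `u` in `o.plug u x i` are
`x, ..., x + |u|`). -/
theorem plug_restr (o u : BT) (x i : ℕ) (hi : i ≤ x) (hx : x ≤ i + o.size) :
    (o.plug u x i).restr (Lin x (x + u.size + 1)) i = some u ∧
      (o.plug u x i).restr (Lout x (x + u.size + 1)) i = some o := by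
  induction o generalizing i with
  | nil =>
    simp only [BT.size, add_zero] at hx
    have h : i = x := by omega
    subst h
    simp only [BT.plug, if_true]
    constructor
    · apply KJ_all
      intro g h1 h2
      simp only [Lin, decide_eq_true_eq]
      omega
    · apply KJ_last
      · intro g h1 h2
        simp only [Lout, decide_eq_false_iff_not, not_not]
        omega
      · simp only [Lout, decide_eq_true_eq]
        omega
  | node l r ihl ihr =>
    simp only [BT.size] at hx
    simp only [BT.plug, BT.restr]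
    by_cases hx' : x ≤ i + l.size
    · obtain ⟨h1, h2⟩ := ihl i hi hx'
      rw [KJ_plug_out r u x _ (by omega), h1, h2, plug_size l u x i hi hx']
      constructor
      · rw [KJ_none _ r _ (by
          intro g h3 h4
          simp only [Lin, decide_eq_false_iff_not]
          omega)]
      · rw [KJ_all _ r _ (by
          intro g h3 h4
          simp only [Lout, decide_eq_true_eq]
          omega)]
    · obtain ⟨h1, h2⟩ := ihr (i + l.size + 1) (by omega) (by omega)
      rw [KJ_plug_out l u x i (by omega), h1, h2]
      constructor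
      · rw [KJ_none _ l _ (by
          intro g h3 h4
          simp only [Lin, decide_eq_false_iff_not]
          omega)]
      · rw [KJ_all _ l _ (by
          intro g h3 h4
          simp only [Lout, decide_eq_true_eq]
          omega)]

/-- PROOF: induction on `D` (the position `0` is in the left subtree). -/
theorem plug_left (D A X : BT) :
    D.plug (.node A X) 0 0 = (D.plug (.node .nil X) 0 0).plug A 0 0 := by
  induction D with
  | nil =>
    simp only [BT.plug, if_true, BT.size]
    rw [KJ_plug_out X A 0 _ (by omega)]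
  | node l r ihl ihr =>
    simp only [BT.plug]
    rw [ihl, KJ_plug_out r _ 0 _ (by omega), KJ_plug_out r _ 0 _ (by omega),
      KJ_plug_out r _ 0 _ (by omega)]

/-- PROOF: induction on `D`; the position `|A| + 1` of `D.plug (node A nil) 0 0` is the empty right
subtree of the inserted node. -/
theorem plug_right (D A X : BT) :
    D.plug (.node A X) 0 0 = (D.plug (.node A .nil) 0 0).plug X (A.size + 1) 0 := by
  induction D with
  | nil =>
    simp only [BT.plug, if_true]
    rw [KJ_plug_out A X _ _ (by omega), if_pos (by omega)]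
  | node l r ihl ihr =>
    simp only [BT.plug]
    rw [ihl, KJ_plug_out r _ 0 _ (by omega), KJ_plug_out r _ 0 _ (by omega),
      plug_size l _ 0 0 le_rfl (by omega), KJ_plug_out r _ _ _ (by simp only [BT.size]; omega)]

/-- PROOF: first rotate the inside (`plug_rot`), then the outside (`rot_plug`). -/
theorem path_plug {n1 n2 : ℕ} {o o' u u' : BT} (x : ℕ) (hx : x ≤ o.size) (h1 : Path n1 o o')
    (h2 : Path n2 u u') : Path (n1 + n2) (o.plug u x 0) (o'.plug u' x 0) := by
  have p1 : Path n2 (o.plug u x 0) (o.plug u' x 0) := by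
    obtain ⟨t, ht0, htn, htr⟩ := h2
    refine ⟨fun k => o.plug (t k) x 0, by simp [ht0], by simp [htn], fun i hi => ?_⟩
    exact plug_rot o (htr i hi) x 0 (Nat.zero_le _) (by omega)
  have p2 : Path n1 (o.plug u' x 0) (o'.plug u' x 0) := by
    obtain ⟨t, ht0, htn, htr⟩ := h1
    refine ⟨fun k => (t k).plug u' x 0, by simp [ht0], by simp [htn], fun i hi => ?_⟩
    exact rot_plug (htr i hi) u' x 0
  rw [Nat.add_comm]
  exact p1.trans p2

/-- PROOF: `path_split` at `x, x + |u| + 1`, and `plug_restr`. -/
theorem path_unplug {n : ℕ} {o o' u u' : BT} (x : ℕ) (hx : x ≤ o.size) (hx' : x ≤ o'.size)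
    (hu : u'.size = u.size) (h : Path n (o.plug u x 0) (o'.plug u' x 0)) :
    ∃ n1 n2, n1 + n2 ≤ n ∧ Path n1 o o' ∧ Path n2 u u' := by
  obtain ⟨n1, n2, hn, p1, p2⟩ := path_split h x (x + u.size + 1)
  obtain ⟨h1, h2⟩ := plug_restr o u x 0 (Nat.zero_le _) (by omega)
  obtain ⟨h3, h4⟩ := plug_restr o' u' x 0 (Nat.zero_le _) (by omega)
  rw [hu] at h3 h4
  have e1 : (o.plug u x 0).inn x (x + u.size + 1) = u := by simp [BT.inn, h1]
  have e2 : (o'.plug u' x 0).inn x (x + u.size + 1) = u' := by simp [BT.inn, h3]
  have e3 : (o.plug u x 0).out x (x + u.size + 1) = o := by simp [BT.out, h2]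
  have e4 : (o'.plug u' x 0).out x (x + u.size + 1) = o' := by simp [BT.out, h4]
  rw [e1, e2] at p1
  rw [e3, e4] at p2
  exact ⟨n2, n1, by omega, p2, p1⟩

private lemma KJ_del (E B : BT) :
    (E.plug (.node B .nil) 0 0).restr (fun h => decide (h ≠ B.size + 1)) 0 =
      some (E.plug B 0 0) := by
  induction E with
  | nil =>
    simp only [BT.plug, if_true, BT.restr]
    rw [KJ_all _ B 0 (by
      intro g h1 h2
      simp only [decide_eq_true_eq]
      omega)]
    rw [if_neg (by simp)]
  | node l r ihl ihr =>
    simp only [BT.plug, BT.restr]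
    rw [ihl, KJ_plug_out r _ 0 _ (by omega), KJ_plug_out r _ 0 _ (by omega),
      plug_size l _ 0 0 le_rfl (by omega), KJ_all _ r _ (by
      intro g h1 h2
      simp only [BT.size] at h1
      simp only [decide_eq_true_eq]
      omega)]

/-- PROOF: induction on `E`: restriction to the positions `≠ |B|+1`. -/
theorem del_plug (E B : BT) : (E.plug (.node B .nil) 0 0).del (B.size + 1) = E.plug B 0 0 := by
  unfold BT.del
  rw [KJ_del]
  rfl

end RTD
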