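import Pool.Agent.RTD.EL1
import Pool.Agent.RTD.KJ

/-! RTD row EL2: subtree intervals and plugging. -/

namespace RTD

/-- PROOF: induction on `t`, generalizing `i`. -/
theorem cl_shift (t : BT) (i k : ℕ) :
    t.cl (i + k) = (t.cl i).image (fun e => (e.1 + k, e.2 + k)) := by
  induction t generalizing i with
  | nil => simp [BT.cl]
  | node l r ihl ihr =>
    have e1 : i + k + l.size + 1 = (i + l.size + 1) + k := by omega
    have e2 : i + k + l.size + r.size + 2 = (i + l.size + r.size + 2) + k := by omega
    simp only [BT.cl]
    rw [e1, e2, ihl, ihr, Finset.image_insert, Finset.image_union]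

/-- the vertices of `o` in the tree `o.plug u x`, `k = |u|` -/
def stv (x k v : ℕ) : ℕ := if v ≤ x then v else v + k

private theorem EL2_out (t u : BT) (x i : ℕ) (h : x < i ∨ i + t.size < x) :
    t.plug u x i = t := by
  induction t generalizing i with
  | nil =>
    simp only [BT.size, add_zero] at h
    simp only [BT.plug]
    rw [if_neg (by omega)]
  | node l r ihl ihr =>
    simp only [BT.size] at h
    simp only [BT.plug]
    rw [ihl i (by omega), ihr _ (by omega)]

private theorem EL2_high (t : BT) (x k j : ℕ) (h : x < j) :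
    t.cl (j + k) = (t.cl j).image (fun e => (stv x k e.1, stv x k e.2)) := by
  rw [cl_shift]
  apply Finset.image_congr
  rintro ⟨a, b⟩ hab
  have := cl_bound t j a b hab
  simp only [stv]
  rw [if_neg (by omega), if_neg (by omega)]

private theorem EL2_low (t : BT) (x k j : ℕ) (h : j + t.size + 1 ≤ x) :
    t.cl j = (t.cl j).image (fun e => (stv x k e.1, stv x k e.2)) := by
  conv_lhs => rw [← Finset.image_id (s := t.cl j)]
  apply Finset.image_congr
  rintro ⟨a, b⟩ hab
  have := cl_bound t j a b hab
  simp only [stv, id_eq]
  rw [if_pos (by omega), if_pos (by omega)]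

/-- PROOF: induction on `o`, generalizing `i`.  `o = nil`: `i = x`, `(nil.plug u x x) = u`, `nil.cl = ∅`.
`o = node l r`, `m = i+|l|+1`: if `x ≤ i + |l|` then `u` is in the left part: `l.plug u x i` has size
`|l| + |u|` (`plug_size`), `r.plug u x m = r` (the position `x` is not a position of `r`; lemma), so the root
interval is `(i, i+|l|+|u|+|r|+2) = (stv i, stv (i+|l|+|r|+2))`, and `r.cl (m + |u|) = image of r.cl m`
(`cl_shift`; all vertices are `≥ m > x`).  If `x ≥ m`: `l.plug u x i = l`, all vertices of `l` are
`≤ m ≤ x`. -/
theorem cl_plug (o u : BT) (x i : ℕ) (hi : i ≤ x) (hx : x ≤ i + o.size) :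
    (o.plug u x i).cl i =
      u.cl x ∪ (o.cl i).image (fun e => (stv x u.size e.1, stv x u.size e.2)) := by
  induction o generalizing i with
  | nil =>
    simp only [BT.size, add_zero] at hx
    have hix : i = x := by omega
    subst hix
    simp [BT.plug, BT.cl]
  | node l r ihl ihr =>
    simp only [BT.size] at hx
    by_cases hxl : x ≤ i + l.size
    · have h1 : r.plug u x (i + l.size + 1) = r := EL2_out r u x _ (by omega)
      have h2 := plug_size l u x i hi hxl
      have e1 : i + (l.size + u.size) + 1 = (i + l.size + 1) + u.size := by omega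
      simp only [BT.plug, BT.cl]
      rw [h1, h2, e1, ihl i hi hxl, EL2_high r x u.size (i + l.size + 1) (by omega), Finset.image_insert,
        Finset.image_union]
      have e2 : ((i, i + (l.size + u.size) + r.size + 2) : ℕ × ℕ) =
          (stv x u.size i, stv x u.size (i + l.size + r.size + 2)) := by
        simp only [stv]
        rw [if_pos hi, if_neg (by omega)]
        congr 1
        omega
      rw [e2, Finset.union_insert, Finset.union_assoc]
    · have h1 : l.plug u x i = l := EL2_out l u x _ (by omega)
      simp only [BT.plug, BT.cl]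
      rw [h1, ihr _ (by omega) (by omega), Finset.image_insert, Finset.image_union,
        ← EL2_low l x u.size i (by omega), plug_size r u x _ (by omega) (by omega)]
      have e2 : ((i, i + l.size + (r.size + u.size) + 2) : ℕ × ℕ) =
          (stv x u.size i, stv x u.size (i + l.size + r.size + 2)) := by
        simp only [stv]
        rw [if_pos hi, if_neg (by omega)]
        congr 1
        omega
      rw [e2, Finset.union_insert, Finset.union_left_comm]

/-- PROOF: `cl_plug`, `cl_shift` (with `i = 0`, `k = x`).  `stv x k` is injective, so is the shift; the two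
parts are disjoint: intervals of `u.cl x` are contained in `[x, x+|u|+1]` (`cl_bound`), the images of the
intervals `(a,b)` of `o` (`a + 2 ≤ b`) are not (cases `b ≤ x`; `x + 1 ≤ a`; `a ≤ x < b`: the length is
`b - a + |u| ≥ |u| + 2`).  So `|S.cl \ T.cl|` is the sum of the two parts. -/
theorem dl_plug {o o' u u' : BT} (x : ℕ) (hx : x ≤ o.size) (ho : o'.size = o.size)
    (hu : u'.size = u.size) :
    dl (o.plug u x 0) (o'.plug u' x 0) = dl u u' + dl o o' := by
  have hF : Function.Injective (fun e : ℕ × ℕ => (stv x u.size e.1, stv x u.size e.2)) := by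
    rintro ⟨a, b⟩ ⟨c, d⟩ h
    simp only [stv, Prod.mk.injEq] at h
    obtain ⟨h1, h2⟩ := h
    have e1 : a = c := by split_ifs at h1 <;> omega
    have e2 : b = d := by split_ifs at h2 <;> omega
    rw [e1, e2]
  have hG : Function.Injective (fun e : ℕ × ℕ => (e.1 + x, e.2 + x)) := by
    rintro ⟨a, b⟩ ⟨c, d⟩ h
    simp only [Prod.mk.injEq] at h
    have e1 : a = c := by omega
    have e2 : b = d := by omega
    rw [e1, e2]
  have hdis : ∀ (v : BT), v.size = u.size → ∀ (w : BT) (e : ℕ × ℕ), e ∈ v.cl x →
      e ∉ (w.cl 0).image (fun e => (stv x u.size e.1, stv x u.size e.2)) := by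
    intro v hv w e he hm
    obtain ⟨⟨a, b⟩, hab, rfl⟩ := Finset.mem_image.1 hm
    have h1 := cl_bound w 0 a b hab
    have h2 := cl_bound v x _ _ he
    simp only [stv] at h2
    split_ifs at h2 <;> omega
  have hu0 : u.cl x = (u.cl 0).image (fun e => (e.1 + x, e.2 + x)) := by
    have := cl_shift u 0 x
    rwa [zero_add] at this
  have hu0' : u'.cl x = (u'.cl 0).image (fun e => (e.1 + x, e.2 + x)) := by
    have := cl_shift u' 0 x
    rwa [zero_add] at this
  unfold dl
  rw [cl_plug o u x 0 (Nat.zero_le _) (by omega), cl_plug o' u' x 0 (Nat.zero_le _) (by omega), hu]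
  have key : (u.cl x ∪ (o.cl 0).image (fun e => (stv x u.size e.1, stv x u.size e.2))) \
      (u'.cl x ∪ (o'.cl 0).image (fun e => (stv x u.size e.1, stv x u.size e.2))) =
      (u.cl x \ u'.cl x) ∪ ((o.cl 0).image (fun e => (stv x u.size e.1, stv x u.size e.2)) \
        (o'.cl 0).image (fun e => (stv x u.size e.1, stv x u.size e.2))) := by
    ext e
    have d1 := hdis u rfl o' e
    have d2 := hdis u' hu o e
    simp only [Finset.mem_sdiff, Finset.mem_union]
    tauto
  have hd2 : Disjoint (u.cl x \ u'.cl x) ((o.cl 0).image (fun e => (stv x u.size e.1, stv x u.size e.2)) \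
        (o'.cl 0).image (fun e => (stv x u.size e.1, stv x u.size e.2))) := by
    rw [Finset.disjoint_left]
    intro e h1 h2
    rw [Finset.mem_sdiff] at h1 h2
    exact hdis u rfl o e h1.1 h2.1
  rw [key, Finset.card_union_of_disjoint hd2, hu0, hu0', ← Finset.image_sdiff _ _ hG,
    ← Finset.image_sdiff _ _ hF, Finset.card_image_of_injective _ hG, Finset.card_image_of_injective _ hF]

end RTD
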