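import Pool.Agent.RTD.EL2
import Pool.Agent.RTD.AP

/-! RTD row EL3: the excess is additive. -/

namespace RTD

/-- PROOF: `greedy_exists`, `greedy_path` (or `path_fan` with `v = 0` for both trees). -/
theorem path_ex {S T : BT} (h : T.size = S.size) : ∃ n, Path n S T := by
  obtain ⟨c, hc⟩ := greedy_exists S T h
  exact ⟨c, greedy_path S T c hc h⟩

/-- PROOF: `path_rd`. -/
theorem path_rd' {S T : BT} (h : T.size = S.size) : Path (rd S T) S T := by
  obtain ⟨n, hn⟩ := path_ex h
  exact path_rd hn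

theorem rd_comm {S T : BT} : rd S T = rd T S := by
  unfold rd
  congr 1
  ext n
  exact ⟨fun h => Path.symm h, fun h => Path.symm h⟩

/-- PROOF: `dl_path`. -/
theorem dl_le_rd {S T : BT} (h : T.size = S.size) : dl S T ≤ rd S T := by
  exact dl_path (path_rd' h)

/-- PROOF: `path_plug` for `≤`, `path_unplug` for `≥`. -/
theorem rd_plug {o o' u u' : BT} (x : ℕ) (hx : x ≤ o.size) (ho : o'.size = o.size)
    (hu : u'.size = u.size) :
    rd (o.plug u x 0) (o'.plug u' x 0) = rd u u' + rd o o' := by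
  have h1 := path_plug x hx (path_rd' ho) (path_rd' hu)
  have h2 : (o'.plug u' x 0).size = (o.plug u x 0).size := by
    rw [plug_size o' u' x 0 (Nat.zero_le _) (by omega), plug_size o u x 0 (Nat.zero_le _) (by omega), ho, hu]
  obtain ⟨n1, n2, h3, h4, h5⟩ := path_unplug x hx (by omega) hu (path_rd' h2)
  have h6 := rd_le h1
  have h7 := rd_le h4
  have h8 := rd_le h5
  omega

/-- PROOF: `plug_eq` for `S` and `T` (offset 0): `S = o.plug u x 0`, `u = S.inn x z`, `o = S.out x z`,
`|u| = z - x - 1`, and `rd_plug`. -/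
theorem rd_split {S T : BT} (h : T.size = S.size) {x z : ℕ} (h1 : (x, z) ∈ S.cl 0)
    (h2 : (x, z) ∈ T.cl 0) :
    rd S T = rd (S.inn x z) (T.inn x z) + rd (S.out x z) (T.out x z) := by
  obtain ⟨o, u, a1, a2, a3, a4, a5, a6, a7⟩ := plug_eq S 0 x z h1
  obtain ⟨o', u', b1, b2, b3, b4, b5, b6, b7⟩ := plug_eq T 0 x z h2
  have c1 : S.inn x z = u := by simp [BT.inn, a1]
  have c2 : S.out x z = o := by simp [BT.out, a2]
  have c3 : T.inn x z = u' := by simp [BT.inn, b1]
  have c4 : T.out x z = o' := by simp [BT.out, b2]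
  have key := rd_plug (o := o) (o' := o') (u := u) (u' := u') x (by omega) (by omega) (by omega)
  rw [a3, b3] at key
  rw [c1, c2, c3, c4]
  exact key

/-- PROOF: the same with `dl_plug`. -/
theorem dl_split {S T : BT} (h : T.size = S.size) {x z : ℕ} (h1 : (x, z) ∈ S.cl 0)
    (h2 : (x, z) ∈ T.cl 0) :
    dl S T = dl (S.inn x z) (T.inn x z) + dl (S.out x z) (T.out x z) := by
  obtain ⟨o, u, a1, a2, a3, a4, a5, a6, a7⟩ := plug_eq S 0 x z h1
  obtain ⟨o', u', b1, b2, b3, b4, b5, b6, b7⟩ := plug_eq T 0 x z h2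
  have c1 : S.inn x z = u := by simp [BT.inn, a1]
  have c2 : S.out x z = o := by simp [BT.out, a2]
  have c3 : T.inn x z = u' := by simp [BT.inn, b1]
  have c4 : T.out x z = o' := by simp [BT.out, b2]
  have key := dl_plug (o := o) (o' := o') (u := u) (u' := u') x (by omega) (by omega) (by omega)
  rw [a3, b3] at key
  rw [c1, c2, c3, c4]
  exact key

/-- PROOF: `≤`: `Path.one` and `Path.trans`.  `≥`: `path_split'` for `Path (rd S T) S T`;
`S.inn x z = S'.inn x z`, `S.out x z = S'.out x z` (`AP_create`); `path_join` gives a path from `S'` to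
`T` of length `≤ rd S T - 1`. -/
theorem rd_create {S S' T : BT} (hT : T.size = S.size) (h : Rot S S') {x z : ℕ}
    (h1 : (x, z) ∉ S.cl 0) (h2 : (x, z) ∈ S'.cl 0) (h3 : (x, z) ∈ T.cl 0) :
    rd S T = rd S' T + 1 := by
  have hs := rot_size h
  have h4 := rd_le ((Path.one h).trans (path_rd' (S := S') (T := T) (by omega)))
  obtain ⟨n1, n2, h5, h6, h7⟩ := path_split' (path_rd' hT) x z h1 h3
  obtain ⟨e1, e2⟩ := AP_create h h1 h2
  rw [e1] at h6
  rw [e2] at h7
  have h8 := rd_le (path_join x z h2 h3 h6 h7)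
  omega

end RTD
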