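import Pool.Agent.RTD.D4
import Pool.Agent.RTD.KD
import Pool.Agent.RTD.KE
import Pool.Agent.RTD.KJ

/-! RTD row EX1: long chains of triangles with sides are strips. -/

namespace RTD

theorem EX1_three (f : Finset ℕ) (c d : ℕ) (hf : f.card = 3) (hcd : c ≠ d) (h : ({c, d} : Finset ℕ) ⊆ f) :
    ∃ u, u ≠ c ∧ u ≠ d ∧ f = {u, c, d} := by
  have h1 : (f \ {c, d}).card = 1 := by
    rw [Finset.card_sdiff_of_subset h, hf, Finset.card_pair hcd]
  obtain ⟨u, hu⟩ := Finset.card_eq_one.1 h1
  have h2 : u ∈ f \ {c, d} := by
    rw [hu]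
    exact Finset.mem_singleton_self u
  rw [Finset.mem_sdiff, Finset.mem_insert, Finset.mem_singleton, not_or] at h2
  refine ⟨u, h2.2.1, h2.2.2, ?_⟩
  have h3 : f = (f \ {c, d}) ∪ {c, d} := (Finset.sdiff_union_of_subset h).symm
  rw [h3, hu]
  rfl

theorem EX1_form (f g : Finset ℕ) (hf : f.card = 3) (hg : g.card = 3) (h : (f ∩ g).card = 2) :
    ∃ c d u w, c < d ∧ f = {u, c, d} ∧ g = {w, c, d} ∧ (u ≠ c ∧ u ≠ d) ∧ (w ≠ c ∧ w ≠ d) ∧ u ≠ w := by
  obtain ⟨c, d, hcd, he⟩ := Finset.card_eq_two.1 h
  have key : ∀ c d : ℕ, c < d → f ∩ g = {c, d} →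
      ∃ c d u w, c < d ∧ f = {u, c, d} ∧ g = {w, c, d} ∧ (u ≠ c ∧ u ≠ d) ∧ (w ≠ c ∧ w ≠ d) ∧ u ≠ w := by
    intro c d hcd he
    obtain ⟨u, hu1, hu2, hu⟩ := EX1_three f c d hf hcd.ne (by rw [← he]; exact Finset.inter_subset_left)
    obtain ⟨w, hw1, hw2, hw⟩ := EX1_three g c d hg hcd.ne (by rw [← he]; exact Finset.inter_subset_right)
    refine ⟨c, d, u, w, hcd, hu, hw, ⟨hu1, hu2⟩, ⟨hw1, hw2⟩, ?_⟩
    rintro rfl
    have h1 : u ∈ f ∩ g := by
      rw [Finset.mem_inter, hu, hw]
      simp
    rw [he, Finset.mem_insert, Finset.mem_singleton] at h1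
    omega
  rcases lt_or_gt_of_ne hcd with h1 | h1
  · exact key c d h1 he
  · exact key d c h1 (by rw [he, Finset.pair_comm])

/-- PROOF: write `f = {u,c,d}`, `g = {w,c,d}` with `c < d` (`f ∩ g = {c,d}`; all triangles have three
elements, `tri_mem`); `sep`. -/
theorem chd_or (t : BT) (i : ℕ) (f g : Finset ℕ) (hf : f ∈ t.tri i) (hg : g ∈ t.tri i)
    (hfg : (f ∩ g).card = 2) : Chd f g ∨ Chd g f := by
  have hf3 := (tri_mem t i f hf).1
  have hg3 := (tri_mem t i g hg).1
  obtain ⟨c, d, u, w, hcd, hfe, hge, hu, hw, huw⟩ := EX1_form f g hf3 hg3 hfg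
  rw [hfe] at hf
  rw [hge] at hg
  rcases sep t i u w c d hcd huw hu.1 hu.2 hw.1 hw.2 hf hg with ⟨⟨h1, h2⟩, h3⟩ | ⟨⟨h1, h2⟩, h3⟩
  · right
    refine ⟨c, u, d, w, h1, h2, h3, ?_, ?_⟩
    · rw [hfe]
      ext v
      simp only [Finset.mem_insert, Finset.mem_singleton]
      omega
    · rw [hge]
      ext v
      simp only [Finset.mem_insert, Finset.mem_singleton]
      omega
  · left
    refine ⟨c, w, d, u, h1, h2, h3, ?_, ?_⟩
    · rw [hge]
      ext v
      simp only [Finset.mem_insert, Finset.mem_singleton]
      omega
    · rw [hfe]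
      ext v
      simp only [Finset.mem_insert, Finset.mem_singleton]
      omega

/-- PROOF: by `chd_or` otherwise `Chd h g`, so `g = {x,m,z}`, `x, z ∈ h` and `x, z ∈ f` (`x < m < z` are
determined by `g`); `tri_two` for the edge `{x,z}`: two of `f, g, h` are equal, contradiction
(`f ≠ g` because of `Chd f g`: the third vertex). -/
theorem chd_next (t : BT) (i : ℕ) (f g h : Finset ℕ) (hf : f ∈ t.tri i) (hg : g ∈ t.tri i)
    (hh : h ∈ t.tri i) (h1 : Chd f g) (h2 : (g ∩ h).card = 2) (hne : f ≠ h) : Chd g h := by
  rcases chd_or t i g h hg hh h2 with h3 | h3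
  · exact h3
  · exfalso
    obtain ⟨x, m, z, v, hxm, hmz, hv, hg1, hf1⟩ := h1
    obtain ⟨x', m', z', v', hxm', hmz', hv', hg2, hh1⟩ := h3
    have e1 : ({x, m, z} : Finset ℕ) = {x', m', z'} := by rw [← hg1, hg2]
    rw [Finset.ext_iff] at e1
    simp only [Finset.mem_insert, Finset.mem_singleton] at e1
    have a1 := e1 x
    have a2 := e1 m
    have a3 := e1 z
    have a4 := e1 x'
    have a5 := e1 m'
    have a6 := e1 z'
    have hx : x' = x := by omega
    have hz : z' = z := by omega
    subst hx hz
    rcases tri_two t i x' z' (by omega) f g h hf hg hh (by rw [hf1]; intro y; simp; omega)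
      (by rw [hg1]; intro y; simp; omega) (by rw [hh1]; intro y; simp; omega) with h4 | h4 | h4
    · have h5 : v ∈ g := by
        rw [← h4, hf1]
        simp
      rw [hg1] at h5
      simp only [Finset.mem_insert, Finset.mem_singleton] at h5
      omega
    · have h5 : v' ∈ g := by
        rw [h4, hh1]
        simp
      rw [hg1] at h5
      simp only [Finset.mem_insert, Finset.mem_singleton] at h5
      omega
    · exact hne h4

/-- PROOF: by `chd_or` otherwise `Chd g h`.  `Chd g f`: `f = {x,m,z}`, `g = {x,z,v}`; `Chd g h`: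
`h = {x',m',z'}`, `g = {x',z',v'}`.  If `{x,z} = {x',z'}` then `tri_two` gives a contradiction.  Otherwise
`x+2 ≤ z`, `x'+2 ≤ z'`, `v ∉ [x,z]`, `v' ∉ [x',z']`, and `g` contains `{p,p+1}`: impossible (`omega` after
case analysis: the edge of `g` between its minimum and maximum is neither `{x,z}` nor `{x',z'}` (the
third vertex is outside) nor `{p,p+1}`, and these are three different edges of `g`). -/
theorem chd_prev (t : BT) (i p : ℕ) (f g h : Finset ℕ) (hf : f ∈ t.tri i) (hg : g ∈ t.tri i)
    (hh : h ∈ t.tri i) (h1 : Chd g f) (h2 : (g ∩ h).card = 2) (hne : f ≠ h)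
    (hp : ({p, p + 1} : Finset ℕ) ⊆ g) : Chd h g := by
  rcases chd_or t i g h hg hh h2 with h3 | h3
  · exfalso
    obtain ⟨x, m, z, v, hxm, hmz, hv, hf1, hg1⟩ := h1
    obtain ⟨x', m', z', v', hxm', hmz', hv', hh1, hg2⟩ := h3
    have e1 : ({x, z, v} : Finset ℕ) = {x', z', v'} := by rw [← hg1, hg2]
    rw [Finset.ext_iff] at e1
    simp only [Finset.mem_insert, Finset.mem_singleton] at e1
    have a1 := e1 x
    have a2 := e1 z
    have a3 := e1 v
    have a4 := e1 x'
    have a5 := e1 z'
    have a6 := e1 v'
    by_cases hxz : x' = x ∧ z' = z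
    · obtain ⟨hx, hz⟩ := hxz
      subst hx hz
      rcases tri_two t i x' z' (by omega) f g h hf hg hh (by rw [hf1]; intro y; simp; omega)
        (by rw [hg1]; intro y; simp; omega) (by rw [hh1]; intro y; simp; omega) with h4 | h4 | h4
      · have h5 : m ∈ g := by
          rw [← h4, hf1]
          simp
        rw [hg1] at h5
        simp only [Finset.mem_insert, Finset.mem_singleton] at h5
        omega
      · have h5 : m' ∈ g := by
          rw [h4, hh1]
          simp
        rw [hg1] at h5
        simp only [Finset.mem_insert, Finset.mem_singleton] at h5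
        omega
      · exact hne h4
    · have b1 : p ∈ g := hp (by simp)
      have b2 : p + 1 ∈ g := hp (by simp)
      rw [hg1] at b1 b2
      simp only [Finset.mem_insert, Finset.mem_singleton] at b1 b2
      omega
  · exact h3

/-- PROOF: the members of the list are the same, `List.Nodup` of the reverse, and the condition on
consecutive elements is symmetric. -/
theorem FS.reverse {A B : Finset (Finset ℕ)} {Sd : Finset (Finset ℕ)} {b : ℕ}
    {l : List (Finset ℕ × Finset ℕ)} (h : FS A B Sd b l) : FS A B Sd b l.reverse := by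
  refine ⟨fun p hp => h.mem p (List.mem_reverse.1 hp), ?_, ?_⟩
  · rw [List.map_reverse, List.nodup_reverse]
    exact h.nd
  · intro i hi
    have hi' : i + 1 < l.length := by
      rw [List.length_reverse] at hi
      exact hi
    have e1 : l.reverse[i]'(by omega) = l[l.length - 1 - i]'(by omega) := List.getElem_reverse _
    have e2 : l.reverse[i + 1] = l[l.length - 1 - (i + 1)]'(by omega) := List.getElem_reverse _
    have h1 := h.ch (l.length - 1 - (i + 1)) (by omega)
    rw [e1, e2, Finset.inter_comm]
    have e3 : l.length - 1 - (i + 1) + 1 = l.length - 1 - i := by omega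
    simp only [e3] at h1
    exact h1

/-- A descending chain of triangles, each of which contains a side, starting at the root triangle
of the subtree `u` (at the position `x`): `u` is a strip.
PROOF: induction on `l`, generalizing `u`, `x`.  `u ≠ nil` (`m` is strictly between `x` and
`x + |u| + 1`).  `u = node a c`: its root triangle `{x, x+|a|+1, x+|a|+|c|+2}` is in `S.tri 0` (`hsub`) and
equals the first triangle of the list (otherwise the third vertices are separated by `sep`, but
both are inside).  It contains `{p,p+1}`: so `a = nil`, `p = x`, or `c = nil`, `p = x + |a| + 1`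
(`|a| + |c| + 2 ≥ 2`, `omega`).
`l = [pr]`: `a = nil`: `σ = [true]`, `X = c`, `stripPos [true] c x = [x]`; `c = nil`: `σ = [false]`, `X = a`,
`stripPos [false] a x = [x + |a| + 1]`.
`l = pr :: pr' :: l'`: `Chd pr.1 pr'.1`: `pr'.1 = {x1,m1,z1}`, `pr.1 = {x1,z1,v}`, `v ∉ [x1,z1]`, so
`(x1,z1)` is `(x,m)` or `(m,z)` where `m = x+|a|+1`, `z = x+|u|+1`.  If `a = nil` then `m = x+1` and, as
`z1 ≥ x1+2`, `(x1,z1) = (x+1,z)`: induction hypothesis for `c` at `x+1` (`c.tri (x+1) ⊆ u.tri x`); `σ = true ::
σ'`.  If `c = nil` then `(x1,z1) = (x,m)`: induction hypothesis for `a` at `x`; `σ = false :: σ'`,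
`stripPos (false :: σ') X x = (x + |X| + |σ'| + 1) :: stripPos σ' X x` and `|a| = |X| + |σ'|`
(`strip_size`).  (If both `a`, `c` are `nil` then there is no next triangle.) -/
theorem desc_strip (S : BT) (l : List (Finset ℕ × Finset ℕ)) (u : BT) (x : ℕ)
    (hsub : u.tri x ⊆ S.tri 0) (hl : l ≠ [])
    (hm : ∀ pr ∈ l, pr.1 ∈ S.tri 0 ∧ ∃ p, pr.2 = {p, p + 1} ∧ pr.2 ⊆ pr.1)
    (hhead : ∃ m, x < m ∧ m < x + u.size + 1 ∧ (l.head hl).1 = {x, m, x + u.size + 1})
    (hch : ∀ i (h : i + 1 < l.length), Chd (l[i]'(by omega)).1 (l[i + 1]).1) :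
    ∃ σ X, u = strip σ X ∧ σ.length = l.length ∧
      ∀ p ∈ stripPos σ X x, ∃ pr ∈ l, pr.2 = {p, p + 1} := by
  induction l generalizing u x with
  | nil => exact absurd rfl hl
  | cons pr l' ih =>
    obtain ⟨m, hxm, hmz, hpr0⟩ := hhead
    have hpr : pr.1 = {x, m, x + u.size + 1} := hpr0

    obtain ⟨hprS, p, hp2, hpsub⟩ := hm pr (List.mem_cons_self)
    cases u with
    | nil =>
      simp only [BT.size] at hmz
      omega
    | node a c =>
      simp only [BT.size] at hmz hpr
      have hroot : ({x, x + a.size + 1, x + a.size + c.size + 2} : Finset ℕ) ∈ S.tri 0 := by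
        apply hsub
        simp only [BT.tri]
        exact Finset.mem_insert_self _ _
      have hma : m = x + a.size + 1 := by
        by_contra hne
        have h1 : ({m, x, x + a.size + c.size + 2} : Finset ℕ) ∈ S.tri 0 := by
          have : ({m, x, x + a.size + c.size + 2} : Finset ℕ) = pr.1 := by
            rw [hpr]
            ext v
            simp only [Finset.mem_insert, Finset.mem_singleton]
            omega
          rw [this]
          exact hprS
        have h2 : ({x + a.size + 1, x, x + a.size + c.size + 2} : Finset ℕ) ∈ S.tri 0 := by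
          have : ({x + a.size + 1, x, x + a.size + c.size + 2} : Finset ℕ) =
              {x, x + a.size + 1, x + a.size + c.size + 2} := by
            ext v
            simp only [Finset.mem_insert, Finset.mem_singleton]
            omega
          rw [this]
          exact hroot
        have h3 := sep S 0 m (x + a.size + 1) x (x + a.size + c.size + 2) (by omega) hne (by omega)
          (by omega) (by omega) (by omega) h1 h2
        omega
      have hpm : (p = x ∧ a.size = 0) ∨ (p = m ∧ c.size = 0) := by
        rw [hp2, hpr] at hpsub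
        have b1 : p ∈ ({x, m, x + (a.size + c.size + 1) + 1} : Finset ℕ) := hpsub (by simp)
        have b2 : p + 1 ∈ ({x, m, x + (a.size + c.size + 1) + 1} : Finset ℕ) := hpsub (by simp)
        simp only [Finset.mem_insert, Finset.mem_singleton] at b1 b2
        omega
      have hnil : ∀ t : BT, t.size = 0 → t = .nil := by
        intro t ht
        cases t with
        | nil => rfl
        | node l r =>
          simp only [BT.size] at ht
          omega
      cases l' with
      | nil =>
        rcases hpm with ⟨hp, ha⟩ | ⟨hp, hc⟩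
        · refine ⟨[true], c, ?_, rfl, ?_⟩
          · rw [hnil a ha]
            rfl
          · intro p' hp'
            simp only [stripPos, List.mem_singleton] at hp'
            exact ⟨pr, List.mem_cons_self, by rw [hp2, hp', hp]⟩
        · refine ⟨[false], a, ?_, rfl, ?_⟩
          · rw [hnil c hc]
            rfl
          · intro p' hp'
            simp only [stripPos, List.mem_singleton, List.length_nil] at hp'
            exact ⟨pr, List.mem_cons_self, by
              rw [hp2, hp', hp, hma]⟩
      | cons pr' l'' =>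
        have hc0 : Chd pr.1 pr'.1 := hch 0 (by simp)
        obtain ⟨x1, m1, z1, v, h1, h2, hv, h3, h4⟩ := hc0
        have e1 : ({x, m, x + (a.size + c.size + 1) + 1} : Finset ℕ) = {x1, z1, v} := by
          rw [← hpr, h4]
        rw [Finset.ext_iff] at e1
        simp only [Finset.mem_insert, Finset.mem_singleton] at e1
        have a1 := e1 x
        have a2 := e1 m
        have a3 := e1 (x + (a.size + c.size + 1) + 1)
        have a4 := e1 x1
        have a5 := e1 z1
        have a6 := e1 v
        have hm' : ∀ q ∈ pr' :: l'', q.1 ∈ S.tri 0 ∧ ∃ p, q.2 = {p, p + 1} ∧ q.2 ⊆ q.1 :=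
          fun q hq => hm q (List.mem_cons_of_mem _ hq)
        have hch' : ∀ i (h : i + 1 < (pr' :: l'').length),
            Chd ((pr' :: l'')[i]'(by omega)).1 ((pr' :: l'')[i + 1]).1 := by
          intro i hi
          exact hch (i + 1) (by rw [List.length_cons]; omega)
        rcases hpm with ⟨hp, ha⟩ | ⟨hp, hc⟩
        · have hx1 : x1 = x + 1 := by omega
          have hz1 : z1 = x + c.size + 2 := by omega
          obtain ⟨σ, X, hσ, hlen, hpos⟩ := ih c (x + 1) (by
              refine subset_trans ?_ hsub
              simp only [BT.tri, ha]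
              intro y hy
              exact Finset.mem_insert_of_mem (Finset.mem_union_right _ hy)) (by simp) hm'
            ⟨m1, by omega, by omega, by
              rw [List.head_cons, h3, hx1, hz1]
              congr 3
              omega⟩ hch'
          refine ⟨true :: σ, X, ?_, ?_, ?_⟩
          · rw [hnil a ha, hσ]
            rfl
          · rw [List.length_cons, hlen, List.length_cons, List.length_cons, List.length_cons]
          · intro p' hp'
            simp only [stripPos, List.mem_cons] at hp'
            rcases hp' with hp' | hp'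
            · exact ⟨pr, List.mem_cons_self, by rw [hp2, hp', hp]⟩
            · obtain ⟨q, hq, hq2⟩ := hpos p' hp'
              exact ⟨q, List.mem_cons_of_mem _ hq, hq2⟩
        · have hx1 : x1 = x := by omega
          have hz1 : z1 = x + a.size + 1 := by omega
          obtain ⟨σ, X, hσ, hlen, hpos⟩ := ih a x (by
              refine subset_trans ?_ hsub
              simp only [BT.tri]
              intro y hy
              exact Finset.mem_insert_of_mem (Finset.mem_union_left _ hy)) (by simp) hm'
            ⟨m1, by omega, by omega, by rw [List.head_cons, h3, hx1, hz1]⟩ hch'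
          refine ⟨false :: σ, X, ?_, ?_, ?_⟩
          · rw [hnil c hc, hσ]
            rfl
          · rw [List.length_cons, hlen, List.length_cons, List.length_cons, List.length_cons]
          · intro p' hp'
            simp only [stripPos, List.mem_cons] at hp'
            rcases hp' with hp' | hp'
            · refine ⟨pr, List.mem_cons_self, ?_⟩
              have h5 := strip_size σ X
              rw [← hσ] at h5
              have h6 : x + (X.size + σ.length) + 1 = x + X.size + σ.length + 1 := by omega
              rw [hp2, hp', hp, hma, h5, h6]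
            · obtain ⟨q, hq, hq2⟩ := hpos p' hp'
              exact ⟨q, List.mem_cons_of_mem _ hq, hq2⟩

end RTD
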