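import Pool.Agent.RTD.D3
import Pool.Agent.RTD.BT2
import Pool.Agent.RTD.FA

/-! RTD row KB: triangles and edges after the deletion of a position. -/

namespace RTD

/-- PROOF: if `v, v' ∈ f` and `pc g v = pc g v'`, `v < v'`, then `v ≤ g < v'` and `v = v' - 1`, so
`v = g`, `v' = g+1`. -/
theorem pc_inj (g : ℕ) (f : Finset ℕ) (h : ¬ ({g, g + 1} : Finset ℕ) ⊆ f) :
    Set.InjOn (pc g) (f : Set ℕ) := by
  intro v hv v' hv' he
  by_contra hne
  apply h
  unfold pc at he
  intro w hw
  simp only [Finset.mem_insert, Finset.mem_singleton] at hw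
  have hvf : v ∈ f := hv
  have hvf' : v' ∈ f := hv'
  split_ifs at he with h1 h2 h2
  · exact absurd he hne
  · rcases hw with rfl | rfl
    · have : v = w := by omega
      rwa [← this]
    · have : v' = g + 1 := by omega
      rwa [← this]
  · rcases hw with rfl | rfl
    · have : v' = w := by omega
      rwa [← this]
    · have : v = g + 1 := by omega
      rwa [← this]
  · exact absurd (by omega) hne

private lemma KB_out (t : BT) (i g : ℕ) (h : g < i ∨ i + t.size < g) :
    t.restr (fun h => decide (h ≠ g)) i = some t := by
  induction t generalizing i with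
  | nil =>
    have h1 : i ≠ g := by
      simp only [BT.size] at h
      omega
    simp only [BT.restr]
    rw [if_pos (by simpa using h1)]
  | node l r ihl ihr =>
    simp only [BT.size] at h
    simp only [BT.restr]
    rw [ihl i (by omega), ihr (i + l.size + 1) (by omega)]

private lemma KB_low {A : Finset (Finset ℕ)} {g : ℕ} (h : ∀ f ∈ A, ∀ v ∈ f, v ≤ g) :
    A.image (fun f => f.image (pc g)) = A := by
  have key : ∀ f ∈ A, f.image (pc g) = f := by
    intro f hf
    have h1 : f.image (pc g) = f.image id := by
      apply Finset.image_congr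
      intro v hv
      show pc g v = v
      rw [pc, if_pos (h f hf v hv)]
    rw [h1, Finset.image_id]
  have h1 : A.image (fun f => f.image (pc g)) = A.image id := by
    apply Finset.image_congr
    intro f hf
    exact key f hf
  rw [h1, Finset.image_id]

private lemma KB_high (r : BT) (j g : ℕ) (h : g ≤ j) :
    (r.tri (j + 1)).image (fun f => f.image (pc g)) = r.tri j := by
  rw [tri_shift r j 1, Finset.image_image]
  have h1 : (r.tri j).image ((fun f => f.image (pc g)) ∘ fun f => f.image fun v => v + 1) =
      (r.tri j).image id := by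
    apply Finset.image_congr
    intro f hf
    show (f.image fun v => v + 1).image (pc g) = f
    rw [Finset.image_image]
    have h2 : f.image (pc g ∘ fun v => v + 1) = f.image id := by
      apply Finset.image_congr
      intro v hv
      have h3 := ((tri_mem r j f hf).2 v hv).1
      show pc g (v + 1) = v
      rw [pc, if_neg (by omega)]
      omega
    rw [h2, Finset.image_id]
  rw [h1, Finset.image_id]

private lemma KB_keep_high {r : BT} {j g : ℕ} (h : g < j) :
    (r.tri j).filter (fun f => ¬ ({g, g + 1} : Finset ℕ) ⊆ f) = r.tri j := by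
  apply Finset.filter_true_of_mem
  intro f hf h1
  have h2 := (tri_mem r j f hf).2 g (h1 (by simp))
  omega

private lemma KB_keep_low {r : BT} {j g : ℕ} (h : j + r.size + 1 ≤ g) :
    (r.tri j).filter (fun f => ¬ ({g, g + 1} : Finset ℕ) ⊆ f) = r.tri j := by
  apply Finset.filter_true_of_mem
  intro f hf h1
  have h2 := (tri_mem r j f hf).2 (g + 1) (h1 (by simp))
  omega

private lemma KB_sub {a b c g : ℕ} : (({g, g + 1} : Finset ℕ) ⊆ {a, b, c}) ↔
    (g = a ∨ g = b ∨ g = c) ∧ (g + 1 = a ∨ g + 1 = b ∨ g + 1 = c) := by
  constructor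
  · intro h
    have h1 := h (show g ∈ ({g, g + 1} : Finset ℕ) by simp)
    have h2 := h (show g + 1 ∈ ({g, g + 1} : Finset ℕ) by simp)
    simp only [Finset.mem_insert, Finset.mem_singleton] at h1 h2
    exact ⟨h1, h2⟩
  · rintro ⟨h1, h2⟩ v hv
    simp only [Finset.mem_insert, Finset.mem_singleton] at hv ⊢
    rcases hv with rfl | rfl
    · exact h1
    · exact h2

private lemma KB_main (t : BT) (i g : ℕ) (hg : i ≤ g) (hg' : g ≤ i + t.size) (ht : 1 ≤ t.size) :
    ∃ t', t.restr (fun h => decide (h ≠ g)) i = some t' ∧ t'.size + 1 = t.size ∧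
      t'.tri i = ((t.tri i).filter (fun f => ¬ ({g, g + 1} : Finset ℕ) ⊆ f)).image
        (fun f => f.image (pc g)) := by
  induction t generalizing i with
  | nil =>
    simp only [BT.size] at ht
    omega
  | node l r ihl ihr =>
    simp only [BT.size] at hg' ht
    simp only [BT.restr, BT.tri, BT.size]
    rw [Finset.filter_insert, Finset.filter_union]
    by_cases hl : g ≤ i + l.size
    · rw [KB_out r (i + l.size + 1) g (by omega)]
      by_cases hl0 : l.size = 0
      · have hln : l = .nil := by
          cases l with
          | nil => rfl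
          | node a b => simp [BT.size] at hl0
        subst hln
        simp only [BT.size] at hl ⊢
        have hgi : i = g := by omega
        subst hgi
        refine ⟨r, ?_, by omega, ?_⟩
        · simp [BT.restr]
        · rw [if_neg (not_not.2 (KB_sub.2 (by omega))), KB_keep_high (r := r) (by omega)]
          simp only [BT.tri, Finset.filter_empty, Finset.empty_union]
          exact (KB_high r i i le_rfl).symm
      · obtain ⟨l', h1, h2, h3⟩ := ihl i hg hl (by omega)
        rw [h1]
        refine ⟨.node l' r, rfl, by simp only [BT.size]; omega, ?_⟩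
        rw [if_pos (fun h => by have := KB_sub.1 h; omega), KB_keep_high (r := r) (by omega), Finset.image_insert,
          Finset.image_union, ← h3]
        simp only [BT.tri, Finset.image_insert, Finset.image_singleton]
        have c1 : pc g i = i := by rw [pc, if_pos hg]
        have c2 : pc g (i + l.size + 1) = i + l'.size + 1 := by
          rw [pc, if_neg (by omega)]
          omega
        have c3 : pc g (i + l.size + r.size + 2) = i + l'.size + r.size + 2 := by
          rw [pc, if_neg (by omega)]
          omega
        have c4 : i + l.size + 1 = (i + l'.size + 1) + 1 := by omega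
        rw [c1, c2, c3, c4, KB_high r (i + l'.size + 1) g (by omega)]
    · rw [KB_out l i g (by omega)]
      by_cases hr0 : r.size = 0
      · have hrn : r = .nil := by
          cases r with
          | nil => rfl
          | node a b => simp [BT.size] at hr0
        subst hrn
        simp only [BT.size] at hg' ⊢
        have hgi : g = i + l.size + 1 := by omega
        refine ⟨l, ?_, by omega, ?_⟩
        · simp [BT.restr, hgi]
        · rw [if_neg (not_not.2 (KB_sub.2 (by omega))), KB_keep_low (by omega)]
          simp only [BT.tri, Finset.filter_empty, Finset.union_empty]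
          refine (KB_low fun f hf v hv => ?_).symm
          have := ((tri_mem l i f hf).2 v hv).2
          omega
      · obtain ⟨r', h1, h2, h3⟩ := ihr (i + l.size + 1) (by omega) (by omega) (by omega)
        rw [h1]
        refine ⟨.node l r', rfl, by simp only [BT.size]; omega, ?_⟩
        rw [if_pos (fun h => by have := KB_sub.1 h; omega), KB_keep_low (r := l) (by omega), Finset.image_insert,
          Finset.image_union, ← h3]
        simp only [BT.tri, Finset.image_insert, Finset.image_singleton]
        have c1 : pc g i = i := by rw [pc, if_pos hg]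
        have c2 : pc g (i + l.size + 1) = i + l.size + 1 := by
          rw [pc, if_pos (by omega)]
        have c3 : pc g (i + l.size + r.size + 2) = i + l.size + r'.size + 2 := by
          rw [pc, if_neg (by omega)]
          omega
        rw [c1, c2, c3, KB_low (A := l.tri i) fun f hf v hv => by
          have := ((tri_mem l i f hf).2 v hv).2
          omega]

/-- PROOF: for an arbitrary offset `i`, by induction on `t`: if `i ≤ g ≤ i + size` and `size ≥ 1` then
the restriction of `t` to all positions `≠ g` is `some t'` with `t'.size + 1 = t.size`; if `g` is not a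
position of `t` then it is `some t`. -/
theorem del_size (t : BT) (g : ℕ) (hg : g ≤ t.size) (ht : 1 ≤ t.size) :
    (t.del g).size + 1 = t.size := by
  obtain ⟨t', h1, h2, -⟩ := KB_main t 0 g (Nat.zero_le g) (by omega) ht
  rw [BT.del, h1]
  exact h2

/-- PROOF: for an arbitrary offset `i`, by induction on `t`: if `i ≤ g ≤ i + size`, `size ≥ 1`, and
`t'` is the restriction of `t` to the positions `≠ g`, then `t'.tri i` is the image under `pc g` of the
triangles of `t.tri i` that do not contain `{g, g+1}`.
`t = node l r`, `m = i+|l|+1`: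
* `l = nil`, `g = i`: `t' = r` (its restriction is the whole of `r`); the root triangle `{i, i+1, z}`
  contains `{g, g+1}`; the triangles of `r.tri (i+1)` do not contain `i`; `pc g` shifts them by `-1`
  (`tri_shift`).
* `r = nil`, `g = m`: `t' = l`, the root triangle `{i, m, m+1}` contains `{g,g+1}`, `pc g` is the identity
  on the triangles of `l.tri i` (vertices `≤ m`).
* otherwise `g` is a position of `l` (size `≥ 1`) or of `r` (size `≥ 1`); the root triangle stays (it
  does not contain `{g, g+1}`), with the image `{i, pc g m, z-1}`; use the induction hypothesis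
  for this part, and `tri_shift` or the identity for the other part. -/
theorem del_tri (t : BT) (g : ℕ) (hg : g ≤ t.size) (ht : 1 ≤ t.size) :
    (t.del g).tri 0 =
      ((t.tri 0).filter (fun f => ¬ ({g, g + 1} : Finset ℕ) ⊆ f)).image
        (fun f => f.image (pc g)) := by
  obtain ⟨t', h1, -, h3⟩ := KB_main t 0 g (Nat.zero_le g) (by omega) ht
  rw [BT.del, h1]
  exact h3

private lemma KB_side (t : BT) (i g : ℕ) (hg : i ≤ g) (hg' : g ≤ i + t.size) (ht : 1 ≤ t.size) :
    ∃ f ∈ t.tri i, ({g, g + 1} : Finset ℕ) ⊆ f := by
  induction t generalizing i with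
  | nil =>
    simp only [BT.size] at ht
    omega
  | node l r ihl ihr =>
    simp only [BT.size] at hg' ht
    simp only [BT.tri]
    by_cases hl : g ≤ i + l.size
    · by_cases hl0 : l.size = 0
      · exact ⟨_, Finset.mem_insert_self _ _, KB_sub.2 (by omega)⟩
      · obtain ⟨f, hf, h1⟩ := ihl i hg hl (by omega)
        exact ⟨f, Finset.mem_insert_of_mem (Finset.mem_union_left _ hf), h1⟩
    · by_cases hr0 : r.size = 0
      · exact ⟨_, Finset.mem_insert_self _ _, KB_sub.2 (by omega)⟩
      · obtain ⟨f, hf, h1⟩ := ihr (i + l.size + 1) (by omega) (by omega) (by omega)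
        exact ⟨f, Finset.mem_insert_of_mem (Finset.mem_union_right _ hf), h1⟩

/-- PROOF: induction (arbitrary offset): every side lies in a triangle. -/
theorem side_ex (t : BT) (g : ℕ) (hg : g ≤ t.size) (ht : 1 ≤ t.size) :
    ∃ f ∈ t.tri 0, ({g, g + 1} : Finset ℕ) ⊆ f :=
  KB_side t 0 g (Nat.zero_le g) (by omega) ht

/-- PROOF: `del_tri`, `pc_inj`: a 2-subset of `f.image (pc g)` is the image of a 2-subset of `f`. -/
theorem del_edg (t : BT) (g : ℕ) (hg : g ≤ t.size) (ht : 1 ≤ t.size) (e : Finset ℕ)
    (he : e ∈ edg ((t.del g).tri 0)) :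
    ∃ f ∈ t.tri 0, ¬ ({g, g + 1} : Finset ℕ) ⊆ f ∧ ∃ e' ⊆ f, e'.card = 2 ∧
      e'.image (pc g) = e := by
  rw [edg, Finset.mem_biUnion] at he
  obtain ⟨F, hF, heF⟩ := he
  rw [del_tri t g hg ht, Finset.mem_image] at hF
  obtain ⟨f, hf, rfl⟩ := hF
  rw [Finset.mem_filter] at hf
  rw [Finset.mem_powersetCard] at heF
  obtain ⟨e', he', rfl⟩ := Finset.subset_image_iff.1 heF.1
  refine ⟨f, hf.1, hf.2, e', he', ?_, rfl⟩
  rw [← heF.2]
  exact (Finset.card_image_of_injOn ((pc_inj g f hf.2).mono (by exact_mod_cast he'))).symm

/-- PROOF: `sds`: `{k,k+1}` with `k ≠ g` goes to `{k,k+1}` (`k < g`) or `{k-1,k}` (`k > g`);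
`{0,q+1}` goes to `{0,q}` (`g ≤ q`). -/
theorem sds_pc (q g : ℕ) (hg : g ≤ q) (hq : 1 ≤ q) (e : Finset ℕ) (he : e ∈ sds q)
    (hne : e ≠ {g, g + 1}) : e.image (pc g) ∈ sds (q - 1) := by
  simp only [sds, Finset.mem_insert, Finset.mem_image, Finset.mem_range] at he ⊢
  rcases he with rfl | ⟨k, hk, rfl⟩
  · left
    rw [Finset.image_insert, Finset.image_singleton]
    have c1 : pc g 0 = 0 := by rw [pc, if_pos (Nat.zero_le g)]
    have c2 : pc g (q + 1) = q - 1 + 1 := by
      rw [pc, if_neg (by omega)]
      omega
    rw [c1, c2]
  · right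
    have hkg : k ≠ g := by
      rintro rfl
      exact hne rfl
    rw [Finset.image_insert, Finset.image_singleton]
    rcases lt_or_gt_of_ne hkg with h | h
    · refine ⟨k, by omega, ?_⟩
      have c1 : pc g k = k := by rw [pc, if_pos (by omega)]
      have c2 : pc g (k + 1) = k + 1 := by rw [pc, if_pos (by omega)]
      rw [c1, c2]
    · refine ⟨k - 1, by omega, ?_⟩
      have c1 : pc g k = k - 1 := by rw [pc, if_neg (by omega)]
      have c2 : pc g (k + 1) = k - 1 + 1 := by
        rw [pc, if_neg (by omega)]
        omega
      rw [c1, c2]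

end RTD
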