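import Pool.Agent.RTD.D3
import Pool.Agent.RTD.PA
import Pool.Agent.RTD.KB

/-! RTD row SH: re-rooting. -/

namespace RTD

private theorem SH_goSize (t acc : BT) : (t.shGo acc).size = t.size + acc.size := by
  induction t generalizing acc with
  | nil => simp [BT.shGo, BT.size]
  | node l r ihl ihr =>
    simp only [BT.shGo, BT.size]
    rw [ihl]
    simp only [BT.size]
    omega

theorem sh_size (t : BT) : t.sh.size = t.size := by
  unfold BT.sh
  rw [SH_goSize]
  simp [BT.size]

private theorem SH_r (r : BT) (i q : ℕ) :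
    (r.tri (i + 1)).image (fun f => f.image (rho q)) = r.tri i := by
  rw [tri_shift r i 1, Finset.image_image]
  have h : ((fun f : Finset ℕ => f.image (rho q)) ∘ fun f => f.image (fun v => v + 1)) = id := by
    funext f
    simp only [Function.comp_apply, Finset.image_image, id]
    have h2 : (rho q ∘ fun v => v + 1) = id := by
      funext v
      simp [rho]
    rw [h2, Finset.image_id]
  rw [h, Finset.image_id]

private theorem SH_goTri (t acc : BT) (q : ℕ) (hq : q = t.size + acc.size) :
    (t.shGo acc).tri 0 = (t.tri 0).image (fun f => f.image (rho q)) ∪ acc.tri t.size := by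
  induction t generalizing acc with
  | nil => simp [BT.shGo, BT.tri, BT.size]
  | node l r ihl ihr =>
    simp only [BT.size] at hq
    simp only [BT.shGo]
    rw [ihl (.node r acc) (by simp only [BT.size]; omega)]
    simp only [BT.tri, BT.size, Finset.image_insert, Finset.image_union, Finset.image_singleton]
    have e0 : 0 + l.size + 1 = l.size + 1 := by omega
    rw [e0, SH_r]
    have e1 : rho q 0 = l.size + r.size + acc.size + 2 := by
      simp only [rho, if_true]
      omega
    have e2 : rho q (l.size + 1) = l.size := by simp [rho]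
    have e3 : rho q (0 + l.size + r.size + 2) = l.size + r.size + 1 := by
      unfold rho
      rw [if_neg (by omega)]
      omega
    rw [e1, e2, e3]
    ext f
    simp only [Finset.mem_union, Finset.mem_insert]
    have e4 : ({l.size, l.size + r.size + 1, l.size + r.size + acc.size + 2} : Finset ℕ) =
        {l.size + r.size + acc.size + 2, l.size, l.size + r.size + 1} := by
      ext v
      simp only [Finset.mem_insert, Finset.mem_singleton]
      tauto
    rw [e4]
    tauto

/-- PROOF: first for `shGo`: induction on `t`, generalizing `acc`: the triangles of `t.shGo acc` at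
offset `0`, where `t` has the positions `0..|t|`: with `ρ v = v - 1` (`v ≥ 1`) and `ρ 0 = q + 1`,
`q = |t| + |acc|`:
`(t.shGo acc).tri 0 = (t.tri 0).image (image ρ) ∪ acc.tri |t|`.  Indeed
`(node l r).shGo acc = l.shGo (node r acc)`; `(node r acc).tri |l| = {|l|, |l|+|r|+1, q+1}` (the image of the root
triangle `{|l|+1, |l|+|r|+2, 0}` of `t`) `∪ r.tri |l|` (the image of `r.tri (|l|+1)`, `tri_shift`)
`∪ acc.tri (|l|+|r|+1)`. -/
theorem sh_tri (t : BT) :
    t.sh.tri 0 = (t.tri 0).image (fun f => f.image (rho t.size)) := by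
  unfold BT.sh
  rw [SH_goTri t .nil t.size (by simp [BT.size])]
  simp [BT.tri]

private theorem SH_A (t : BT) {acc acc' : BT} (h : Rot acc acc') :
    Rot (t.shGo acc) (t.shGo acc') := by
  induction t generalizing acc acc' with
  | nil => exact h
  | node l r ihl ihr => exact ihl (Rot.inr r h)

private theorem SH_B {t t' : BT} (h : Rot t t') (acc : BT) :
    Rot (t.shGo acc) (t'.shGo acc) := by
  induction h generalizing acc with
  | right a b c => exact SH_A a (Rot.left b c acc)
  | left a b c => exact SH_A a (Rot.right b c acc)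
  | inl r h ih => exact ih (.node r acc)
  | inr l h ih => exact SH_A l (Rot.inl acc h)

/-- PROOF: for `shGo` with any `acc`: induction on `h`: `right a b c`:
`a.shGo (node b (node c acc)) → a.shGo (node (node b c) acc)`: a rotation of `acc`; lemma: a rotation of
`acc` is a rotation of `t.shGo acc` (induction on `t`). -/
theorem rot_sh {t t' : BT} (h : Rot t t') : Rot t.sh t'.sh := SH_B h .nil

/-- the mirror image of `shGo` -/
private def SH_mgo : BT → BT → BT
  | .nil, acc => acc
  | .node l r, acc => SH_mgo r (.node acc l)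

private theorem SH_mgo_shGo (t A : BT) : SH_mgo (t.shGo A) .nil = SH_mgo A t := by
  induction t generalizing A with
  | nil => rfl
  | node l r ihl ihr =>
    show SH_mgo (l.shGo (.node r A)) .nil = _
    rw [ihl]
    rfl

private theorem SH_mA (t : BT) {acc acc' : BT} (h : Rot acc acc') :
    Rot (SH_mgo t acc) (SH_mgo t acc') := by
  induction t generalizing acc acc' with
  | nil => exact h
  | node l r ihl ihr => exact ihr (Rot.inl l h)

private theorem SH_mB {t t' : BT} (h : Rot t t') (acc : BT) :
    Rot (SH_mgo t acc) (SH_mgo t' acc) := by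
  induction h generalizing acc with
  | right a b c => exact SH_mA c (Rot.left acc a b)
  | left a b c => exact SH_mA c (Rot.right acc a b)
  | @inl l l' r h ih => exact SH_mA r (Rot.inr acc h)
  | inr l h ih => exact ih (.node acc l)

/-- PROOF: `sh` has an inverse that also preserves rotations: `shr t = go' t nil` with
`go' nil acc = acc`, `go' (node l r) acc = go' r (node acc l)`;  `(go' t A).shGo nil = A.shGo t` by induction,
so `(shr t).sh = t`; mirror image: `shr (t.sh) = t`. -/
theorem path_sh {n : ℕ} {S T : BT} : Path n S.sh T.sh ↔ Path n S T := by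
  constructor
  · rintro ⟨t, h0, h1, h2⟩
    refine ⟨fun i => SH_mgo (t i) .nil, ?_, ?_, fun i hi => SH_mB (h2 i hi) .nil⟩
    · show SH_mgo (t 0) .nil = S
      rw [h0]
      exact SH_mgo_shGo S .nil
    · show SH_mgo (t n) .nil = T
      rw [h1]
      exact SH_mgo_shGo T .nil
  · rintro ⟨t, h0, h1, h2⟩
    exact ⟨fun i => (t i).sh, by simp [h0], by simp [h1], fun i hi => rot_sh (h2 i hi)⟩

theorem exc_sh {j : ℕ} {S T : BT} : Exc j S.sh T.sh ↔ Exc j S T := by
  unfold Exc
  simp only [path_sh, sh_size]

/-- a permutation of all numbers that agrees with `rho q` on `0, ..., q+1` -/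
private def SH_pi (q v : ℕ) : ℕ := if v = 0 then q + 1 else if v ≤ q + 1 then v - 1 else v

private theorem SH_inj (q : ℕ) : Function.Injective (SH_pi q) := by
  intro a b h
  unfold SH_pi at h
  split_ifs at h <;> omega

private theorem SH_img (q : ℕ) (f : Finset ℕ) (h : ∀ v ∈ f, v ≤ q + 1) :
    f.image (rho q) = f.image (SH_pi q) := by
  apply Finset.image_congr
  intro v hv
  have := h v hv
  unfold rho SH_pi
  by_cases h0 : v = 0
  · rw [if_pos h0, if_pos h0]
  · rw [if_neg h0, if_neg h0, if_pos this]

private theorem SH_tri (t : BT) (q : ℕ) (hq : t.size = q) :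
    t.sh.tri 0 = (t.tri 0).image (fun f => f.image (SH_pi q)) := by
  rw [sh_tri, hq]
  apply Finset.image_congr
  intro f hf
  apply SH_img
  intro v hv
  have := (tri_mem t 0 f hf).2 v hv
  omega

private theorem SH_edg (F : Finset (Finset ℕ)) (q : ℕ) (e : Finset ℕ) :
    e ∈ edg (F.image (fun f => f.image (SH_pi q))) ↔ ∃ e' ∈ edg F, e'.image (SH_pi q) = e := by
  unfold edg
  simp only [Finset.mem_biUnion, Finset.mem_image, Finset.mem_powersetCard]
  constructor
  · rintro ⟨_, ⟨f, hf, rfl⟩, h1, h2⟩
    obtain ⟨s, hs, rfl⟩ := Finset.subset_image_iff.1 h1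
    refine ⟨s, ⟨f, hf, ?_, ?_⟩, rfl⟩
    · exact_mod_cast hs
    · rwa [Finset.card_image_of_injective _ (SH_inj q)] at h2
  · rintro ⟨e', ⟨f, hf, h1, h2⟩, rfl⟩
    refine ⟨_, ⟨f, hf, rfl⟩, Finset.image_subset_image h1, ?_⟩
    rwa [Finset.card_image_of_injective _ (SH_inj q)]

private theorem SH_sds (q : ℕ) (e : Finset ℕ) (he : e ∈ sds q) : e.image (SH_pi q) ∈ sds q := by
  unfold sds at he ⊢
  rw [Finset.mem_insert, Finset.mem_image] at he
  rw [Finset.mem_insert, Finset.mem_image]
  rcases he with rfl | ⟨k, hk, rfl⟩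
  · right
    refine ⟨q, Finset.mem_range.2 (by omega), ?_⟩
    rw [Finset.image_insert, Finset.image_singleton]
    have e1 : SH_pi q 0 = q + 1 := by simp [SH_pi]
    have e2 : SH_pi q (q + 1) = q := by simp [SH_pi]
    rw [e1, e2, Finset.pair_comm]
  · rw [Finset.mem_range] at hk
    rw [Finset.image_insert, Finset.image_singleton]
    by_cases h0 : k = 0
    · left
      subst h0
      have e1 : SH_pi q 0 = q + 1 := by simp [SH_pi]
      have e2 : SH_pi q (0 + 1) = 0 := by simp [SH_pi]
      rw [e1, e2, Finset.pair_comm]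
    · right
      refine ⟨k - 1, Finset.mem_range.2 (by omega), ?_⟩
      have e1 : SH_pi q k = k - 1 := by
        unfold SH_pi
        rw [if_neg h0, if_pos (by omega)]
      have e2 : SH_pi q (k + 1) = k := by
        unfold SH_pi
        rw [if_neg (by omega), if_pos (by omega)]
        omega
      have e3 : k - 1 + 1 = k := by omega
      rw [e1, e2, e3]

private theorem SH_imInj (q : ℕ) : Function.Injective (fun f : Finset ℕ => f.image (SH_pi q)) :=
  Finset.image_injective (SH_inj q)

/-- PROOF: `rho q` is a bijection of `{0,..,q+1}` (all vertices are `≤ q+1`, `tri_mem`), it maps sides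
to sides, `sh_tri`. -/
theorem nce_sh {S T : BT} (hST : T.size = S.size) (h : NCe S T) : NCe S.sh T.sh := by
  intro e he he'
  rw [SH_tri S S.size rfl, SH_edg] at he
  rw [SH_tri T S.size hST, SH_edg] at he'
  obtain ⟨e1, h1, rfl⟩ := he
  obtain ⟨e2, h2, h3⟩ := he'
  have h4 : e2 = e1 := SH_imInj _ h3
  rw [h4] at h2
  rw [sh_size]
  exact SH_sds _ _ (h e1 h1 h2)

private theorem SH_red {S T : BT} (hST : T.size = S.size)
    (h : ∀ f ∈ S.tri 0, ∀ g ∈ S.tri 0, (f ∩ g).card = 2 → (f ∪ g) \ (f ∩ g) ∉ edg (T.tri 0)) :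
    ∀ f ∈ S.sh.tri 0, ∀ g ∈ S.sh.tri 0, (f ∩ g).card = 2 →
      (f ∪ g) \ (f ∩ g) ∉ edg (T.sh.tri 0) := by
  intro f hf g hg hfg he
  rw [SH_tri S S.size rfl, Finset.mem_image] at hf hg
  obtain ⟨f1, hf1, rfl⟩ := hf
  obtain ⟨g1, hg1, rfl⟩ := hg
  rw [SH_tri T S.size hST, SH_edg] at he
  obtain ⟨e2, h2, h3⟩ := he
  have hI := SH_inj S.size
  rw [← Finset.image_inter _ _ hI] at hfg h3
  rw [Finset.card_image_of_injective _ hI] at hfg
  rw [← Finset.image_union, ← Finset.image_sdiff _ _ hI] at h3
  have h4 : e2 = (f1 ∪ g1) \ (f1 ∩ g1) := SH_imInj _ h3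
  rw [h4] at h2
  exact h f1 hf1 g1 hg1 hfg h2

theorem redF_sh {S T : BT} (hST : T.size = S.size) (h : RedF S T) : RedF S.sh T.sh :=
  ⟨nce_sh hST h.1, SH_red hST h.2.1, SH_red hST.symm h.2.2⟩

/-- PROOF: `sh_tri`; map the list with `image (rho q)`; `q = S.size`, `b ≤ q + 1` for nonempty `l`
because `insert b p.2 ∈ T.tri 0`. -/
theorem FS_sh {S T : BT} (hST : T.size = S.size) {b : ℕ} {l : List (Finset ℕ × Finset ℕ)}
    (hl : l ≠ []) (h : FS (S.tri 0) (T.tri 0) (sds S.size) b l) :
    FS (S.sh.tri 0) (T.sh.tri 0) (sds S.size) (rho S.size b)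
      (l.map (fun p => (p.1.image (rho S.size), p.2.image (rho S.size)))) := by
  have hI := SH_inj S.size
  have hb : b ≤ S.size + 1 := by
    obtain ⟨p, hp⟩ := List.exists_mem_of_ne_nil l hl
    have := (tri_mem T 0 _ (h.mem p hp).2.2.2.2).2 b (Finset.mem_insert_self _ _)
    omega
  have hrb : rho S.size b = SH_pi S.size b := by
    unfold rho SH_pi
    by_cases h0 : b = 0
    · rw [if_pos h0, if_pos h0]
    · rw [if_neg h0, if_neg h0, if_pos hb]
  have hv1 : ∀ p ∈ l, ∀ v ∈ p.1, v ≤ S.size + 1 := by
    intro p hp v hv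
    have := (tri_mem S 0 _ (h.mem p hp).1).2 v hv
    omega
  have hmap : l.map (fun p => (p.1.image (rho S.size), p.2.image (rho S.size))) =
      l.map (fun p => (p.1.image (SH_pi S.size), p.2.image (SH_pi S.size))) := by
    apply List.map_congr_left
    intro p hp
    rw [SH_img _ _ (hv1 p hp), SH_img _ _ (fun v hv => hv1 p hp v ((h.mem p hp).2.2.1 hv))]
  rw [hmap, hrb]
  constructor
  · intro p hp
    rw [List.mem_map] at hp
    obtain ⟨p', hp', rfl⟩ := hp
    obtain ⟨k1, k2, k3, k4, k5⟩ := h.mem p' hp'
    refine ⟨?_, SH_sds _ _ k2, Finset.image_subset_image k3, ?_, ?_⟩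
    · rw [SH_tri S S.size rfl]
      exact Finset.mem_image_of_mem _ k1
    · intro hb2
      rw [Finset.mem_image] at hb2
      obtain ⟨v, hv, hv2⟩ := hb2
      rw [hI hv2] at hv
      exact k4 hv
    · rw [SH_tri T S.size hST, ← Finset.image_insert]
      exact Finset.mem_image_of_mem _ k5
  · have e : (l.map (fun p => (p.1.image (SH_pi S.size), p.2.image (SH_pi S.size)))).map Prod.fst =
        (l.map Prod.fst).map (fun f => f.image (SH_pi S.size)) := by
      rw [List.map_map, List.map_map]
      rfl
    rw [e]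
    exact h.nd.map (SH_imInj _)
  · intro i hi
    simp only [List.length_map] at hi
    simp only [List.getElem_map]
    rw [← Finset.image_inter _ _ hI, Finset.card_image_of_injective _ hI]
    exact h.ch i hi

end RTD
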