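import Pool.Agent.RTD.EX1
import Pool.Agent.RTD.SH

/-! RTD row EX2: long chains of triangles with sides give a shrinking step. -/

namespace RTD

theorem EX2_side (S T : BT) (l : List (Finset ℕ × Finset ℕ))
    (h : FS (S.tri 0) (T.tri 0) (sds S.size) 0 l) : ∀ pr ∈ l, ∃ p, pr.2 = {p, p + 1} := by
  intro pr hpr
  obtain ⟨_, h2, h3, h4, _⟩ := h.mem pr hpr
  rw [sds, Finset.mem_insert, Finset.mem_image] at h2
  rcases h2 with h2 | ⟨k, _, hk⟩
  · exfalso
    apply h4
    apply h3
    rw [h2]
    simp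
  · exact ⟨k, hk.symm⟩

theorem EX2_sort (f : Finset ℕ) (hf : f.card = 3) : ∃ x m z, x < m ∧ m < z ∧ f = {x, m, z} := by
  obtain ⟨a, b, c, hab, hac, hbc, rfl⟩ := Finset.card_eq_three.1 hf
  have key : ∀ x m z : ℕ, x < m → m < z → ({a, b, c} : Finset ℕ) = {x, m, z} →
      ∃ x m z, x < m ∧ m < z ∧ ({a, b, c} : Finset ℕ) = {x, m, z} := fun x m z h1 h2 h3 =>
    ⟨x, m, z, h1, h2, h3⟩
  have e : ∀ x m z : ℕ, (∀ v, (v = a ∨ v = b ∨ v = c) ↔ (v = x ∨ v = m ∨ v = z)) →
      ({a, b, c} : Finset ℕ) = {x, m, z} := by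
    intro x m z hv
    ext v
    simp only [Finset.mem_insert, Finset.mem_singleton]
    exact hv v
  rcases lt_or_gt_of_ne hab with h1 | h1
  · rcases lt_or_gt_of_ne hbc with h2 | h2
    · exact key a b c h1 h2 (e _ _ _ fun v => by omega)
    · rcases lt_or_gt_of_ne hac with h3 | h3
      · exact key a c b h3 h2 (e _ _ _ fun v => by omega)
      · exact key c a b h3 h1 (e _ _ _ fun v => by omega)
  · rcases lt_or_gt_of_ne hac with h2 | h2
    · exact key b a c h1 h2 (e _ _ _ fun v => by omega)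
    · rcases lt_or_gt_of_ne hbc with h3 | h3
      · exact key b c a h3 h2 (e _ _ _ fun v => by omega)
      · exact key c b a h3 h1 (e _ _ _ fun v => by omega)

/-- PROOF: every `pr ∈ l` has `pr.2 ∈ sds q` (`q = S.size`), `0 ∉ pr.1`, `pr.2 ⊆ pr.1`, so `pr.2 = {p,p+1}`
with `1 ≤ p ≤ q`.  `l.length ≥ 3`.  By `chd_or` the first two triangles are related by `Chd`.
If `Chd (l[0]).1 (l[1]).1` then by induction (`chd_next`, the triangles are pairwise different) all
consecutive triangles are (`Chd (l[i]).1 (l[i+1]).1`): take `l' = l`.  Otherwise `Chd (l[1]).1 (l[0]).1`, by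
induction with `chd_prev` `Chd (l[i+1]).1 (l[i]).1` for all `i`: take `l' = l.reverse` (`FS.reverse`). -/
theorem desc_or (S T : BT) (l : List (Finset ℕ × Finset ℕ))
    (h : FS (S.tri 0) (T.tri 0) (sds S.size) 0 l) (hl : 3 ≤ l.length) :
    ∃ l', FS (S.tri 0) (T.tri 0) (sds S.size) 0 l' ∧ l'.length = l.length ∧
      ∀ i (h : i + 1 < l'.length), Chd (l'[i]'(by omega)).1 (l'[i + 1]).1 := by
  have hside := EX2_side S T l h
  have hne : ∀ i (hi : i + 2 < l.length), (l[i]'(by omega)).1 ≠ (l[i + 2]).1 := by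
    intro i hi he
    have h1 : (l.map Prod.fst)[i]'(by rw [List.length_map]; omega) =
        (l.map Prod.fst)[i + 2]'(by rw [List.length_map]; omega) := by
      rw [List.getElem_map, List.getElem_map]
      exact he
    have h2 := (List.Nodup.getElem_inj_iff h.nd).1 h1
    omega
  have hmem : ∀ i (hi : i < l.length), (l[i]).1 ∈ S.tri 0 := fun i hi =>
    (h.mem _ (List.getElem_mem hi)).1
  rcases chd_or S 0 _ _ (hmem 0 (by omega)) (hmem 1 (by omega)) (h.ch 0 (by omega)) with h1 | h1
  · refine ⟨l, h, rfl, ?_⟩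
    intro i
    induction i with
    | zero => exact fun _ => h1
    | succ i ih =>
      intro hi
      exact chd_next S 0 _ _ _ (hmem i (by omega)) (hmem (i + 1) (by omega)) (hmem (i + 1 + 1) (by omega))
        (ih (by omega)) (h.ch (i + 1) hi) (hne i (by omega))
  · refine ⟨l.reverse, h.reverse, List.length_reverse, ?_⟩
    have h2 : ∀ i (hi : i + 1 < l.length), Chd (l[i + 1]).1 (l[i]'(by omega)).1 := by
      intro i
      induction i with
      | zero => exact fun _ => h1
      | succ i ih =>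
        intro hi
        obtain ⟨p, hp⟩ := hside _ (List.getElem_mem (show i + 1 < l.length by omega))
        have h3 := (h.mem _ (List.getElem_mem (show i + 1 < l.length by omega))).2.2.1
        exact chd_prev S 0 p _ _ _ (hmem i (by omega)) (hmem (i + 1) (by omega))
          (hmem (i + 1 + 1) (by omega)) (ih (by omega)) (h.ch (i + 1) hi) (hne i (by omega))
          (by rw [← hp]; exact h3)
    intro i hi
    have hi' : i + 1 < l.length := by
      rw [List.length_reverse] at hi
      exact hi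
    have e1 : l.reverse[i]'(by omega) = l[l.length - 1 - i]'(by omega) := List.getElem_reverse _
    have e2 : l.reverse[i + 1] = l[l.length - 1 - (i + 1)]'(by omega) := List.getElem_reverse _
    have h3 := h2 (l.length - 1 - (i + 1)) (by omega)
    rw [e1, e2]
    have e3 : l.length - 1 - (i + 1) + 1 = l.length - 1 - i := by omega
    simp only [e3] at h3
    exact h3

/-- PROOF: `desc_or`; the first triangle is `{x,m,z}` with `x < m < z` (`tri_mem`: card 3), `1 ≤ x` as `0` is
not in it.  `face_plug`: `S = C.plug (node A B) x 0`, `x ≤ |C|`, `z = x + |node A B| + 1`.  `plug_tri_sub` and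
`desc_strip` with `u = node A B`: `u = strip σ X`, `|σ| = l.length ≥ k + 3`, so `σ = l0 :: σ'`,
`|σ'| ≥ k + 2`; for `p ∈ stripPos σ X x` there is `pr ∈ l'` with `pr.2 = {p,p+1}`, so
`{0,p,p+1} = insert 0 pr.2 ∈ T.tri 0`.  `Shrink.cut`. -/
theorem ext0 (k : ℕ) (S T : BT) (hST : T.size = S.size) (l : List (Finset ℕ × Finset ℕ))
    (h : FS (S.tri 0) (T.tri 0) (sds S.size) 0 l) (hl : k + 3 ≤ l.length) :
    ∃ S' T', Shrink k S T S' T' := by
  obtain ⟨l', h', hlen, hch⟩ := desc_or S T l h (by omega)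
  have hl' : l' ≠ [] := by
    rintro rfl
    rw [List.length_nil] at hlen
    omega
  have hside := EX2_side S T l' h'
  have hhm := h'.mem _ (List.head_mem hl')
  obtain ⟨x, m, z, hxm, hmz, hf⟩ := EX2_sort _ (tri_mem S 0 _ hhm.1).1
  have hx : 1 ≤ x := by
    have h0 := hhm.2.2.2.1
    rw [hf] at h0
    simp only [Finset.mem_insert, Finset.mem_singleton, not_or] at h0
    omega
  obtain ⟨C, A, B, hS, hxC, hA, hB⟩ := face_plug S x m z hxm hmz (by rw [← hf]; exact hhm.1)
  have hsub : (BT.node A B).tri x ⊆ S.tri 0 := by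
    rw [hS]
    exact plug_tri_sub C _ x 0 (Nat.zero_le _) (by omega)
  have hz : x + (BT.node A B).size + 1 = z := by
    simp only [BT.size]
    omega
  obtain ⟨σ, X, hσ, hσl, hpos⟩ := desc_strip S l' (.node A B) x hsub hl'
    (fun pr hpr => ⟨(h'.mem pr hpr).1, by
      obtain ⟨p, hp⟩ := hside pr hpr
      exact ⟨p, hp, (h'.mem pr hpr).2.2.1⟩⟩)
    ⟨m, hxm, by rw [hz]; exact hmz, by rw [hz]; exact hf⟩ hch
  cases σ with
  | nil =>
    rw [List.length_nil] at hσl
    omega
  | cons b σ =>
    rw [List.length_cons] at hσl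
    have hcut := Shrink.cut (k := k) C X T x b σ hx hxC (by omega) (by
      intro p hp
      obtain ⟨pr, hpr, hpr2⟩ := hpos p hp
      have h5 := (h'.mem pr hpr).2.2.2.2
      rw [hpr2] at h5
      exact h5)
    rw [← hσ, ← hS] at hcut
    exact ⟨_, _, hcut⟩

/-- PROOF: induction on `b`, generalizing `S`, `T`, `l`: `b = 0`: `ext0`.  `b + 1`: `FS_sh` for `S.sh, T.sh`
(`rho q (b+1) = b`, `sh_size`), induction hypothesis, `Shrink.shift`. -/
theorem ext (k b : ℕ) (S T : BT) (hST : T.size = S.size) (l : List (Finset ℕ × Finset ℕ))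
    (h : FS (S.tri 0) (T.tri 0) (sds S.size) b l) (hl : k + 3 ≤ l.length) :
    ∃ S' T', Shrink k S T S' T' := by
  induction b generalizing S T l with
  | zero => exact ext0 k S T hST l h hl
  | succ b ih =>
    have hl0 : l ≠ [] := by
      rintro rfl
      rw [List.length_nil] at hl
      omega
    have h1 := FS_sh hST hl0 h
    have h2 : rho S.size (b + 1) = b := by
      unfold rho
      rw [if_neg (by omega)]
      rfl
    rw [h2] at h1
    obtain ⟨S', T', h3⟩ := ih S.sh T.sh (by rw [sh_size, sh_size, hST]) _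
      (by rw [sh_size]; exact h1) (by rw [List.length_map]; exact hl)
    exact ⟨S', T', Shrink.shift _ _ _ _ h3⟩

/-- PROOF: `ext`; for the second part `Shrink.swap` (and `T.size = S.size`). -/
theorem irred_len (k : ℕ) (S T : BT) (hST : T.size = S.size)
    (hir : ∀ S' T', ¬ Shrink k S T S' T') :
    (∀ b l, FS (S.tri 0) (T.tri 0) (sds S.size) b l → l.length ≤ k + 2) ∧
    (∀ b l, FS (T.tri 0) (S.tri 0) (sds S.size) b l → l.length ≤ k + 2) := by
  constructor
  · intro b l h
    by_contra hl
    obtain ⟨S', T', h1⟩ := ext k b S T hST l h (by omega)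
    exact hir S' T' h1
  · intro b l h
    by_contra hl
    obtain ⟨S', T', h1⟩ := ext k b T S hST.symm l (by rw [hST]; exact h) (by omega)
    exact hir T' S' (Shrink.swap _ _ _ _ h1)

end RTD
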