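import Pool.Agent.RTD.D2
import Pool.Agent.RTD.BT4

/-! RTD row RS1: rotations and restriction. -/

namespace RTD

/-- PROOF: induction on `t`, generalizing `i`; the positions of `node l r` are those of `l` (from `i`
to `i+|l|`) and those of `r` (from `i+|l|+1` to `i+|l|+1+|r|`). -/
theorem restr_none (L : ℕ → Bool) (t : BT) (i : ℕ) :
    t.restr L i = none ↔ ∀ g, i ≤ g → g ≤ i + t.size → L g = false := by
  induction t generalizing i with
  | nil =>
    simp only [BT.restr, BT.size, Nat.add_zero]
    by_cases h : L i = true
    · rw [if_pos h]
      constructor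
      · intro h'
        exact absurd h' (by simp)
      · intro h'
        have := h' i le_rfl le_rfl
        rw [h] at this
        exact absurd this (by simp)
    · rw [if_neg h]
      constructor
      · intro _ g h1 h2
        have : g = i := le_antisymm h2 h1
        rw [this]
        exact Bool.eq_false_iff.2 h
      · intro _
        rfl
  | node l r ihl ihr =>
    have key : (BT.node l r).restr L i = none ↔
        l.restr L i = none ∧ r.restr L (i + l.size + 1) = none := by
      simp only [BT.restr]
      rcases l.restr L i with _ | a <;> rcases r.restr L (i + l.size + 1) with _ | b <;> simp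
    rw [key, ihl, ihr]
    simp only [BT.size]
    constructor
    · rintro ⟨h1, h2⟩ g hg hg'
      by_cases hc : g ≤ i + l.size
      · exact h1 g hg hc
      · exact h2 g (by omega) (by omega)
    · intro h
      exact ⟨fun g h1 h2 => h g h1 (by omega), fun g h1 h2 => h g (by omega) (by omega)⟩

private theorem RS1_right (L : ℕ → Bool) (a b c : BT) (i : ℕ) :
    (BT.node (.node a b) c).restr L i = (BT.node a (.node b c)).restr L i ∨
      ∃ u v, (BT.node (.node a b) c).restr L i = some u ∧
        (BT.node a (.node b c)).restr L i = some v ∧ Rot u v ∧ Rot v u := by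
  have e : i + (a.size + b.size + 1) + 1 = i + a.size + 1 + b.size + 1 := by omega
  simp only [BT.restr, BT.size, e]
  rcases a.restr L i with _ | a' <;> rcases b.restr L (i + a.size + 1) with _ | b' <;>
    rcases c.restr L (i + a.size + 1 + b.size + 1) with _ | c' <;>
    first
    | exact Or.inl rfl
    | exact Or.inr ⟨_, _, rfl, rfl, Rot.right _ _ _, Rot.left _ _ _⟩

/-- PROOF: induction on `h`, generalizing `i`.  For `right a b c` go through the `2^3` cases
`restr` of `a`, `b`, `c` is `none` or `some`: if all are `some` we get a rotation, otherwise the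
two restrictions are equal.  The same for `left`.  For `inl r h`: `l`, `l'` have the same size
(`rot_size`); if the restrictions of `l`, `l'` are equal, so are those of the nodes; if they are
`some a`, `some b` with `Rot a b` then the restriction of `r` is `none` (get `some a`, `some b`) or
`some c` (get `node a c`, `node b c`, `Rot.inl`).  The same for `inr`. -/
theorem rot_restr (L : ℕ → Bool) {t t' : BT} (h : Rot t t') (i : ℕ) :
    t.restr L i = t'.restr L i ∨
      ∃ a b, t.restr L i = some a ∧ t'.restr L i = some b ∧ Rot a b := by
  induction h generalizing i with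
  | right a b c =>
    rcases RS1_right L a b c i with h | ⟨u, v, h1, h2, h3, _⟩
    · exact Or.inl h
    · exact Or.inr ⟨u, v, h1, h2, h3⟩
  | left a b c =>
    rcases RS1_right L a b c i with h | ⟨u, v, h1, h2, _, h4⟩
    · exact Or.inl h.symm
    · exact Or.inr ⟨v, u, h2, h1, h4⟩
  | @inl l l' r h ih =>
    have hs := rot_size h
    rcases ih i with h1 | ⟨a, b, h1, h2, h3⟩
    · left
      simp only [BT.restr, h1, hs]
    · right
      simp only [BT.restr, h1, h2, hs]
      rcases r.restr L (i + l.size + 1) with _ | c
      · exact ⟨a, b, rfl, rfl, h3⟩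
      · exact ⟨_, _, rfl, rfl, Rot.inl c h3⟩
  | @inr l r r' h ih =>
    rcases ih (i + l.size + 1) with h1 | ⟨a, b, h1, h2, h3⟩
    · left
      simp only [BT.restr, h1]
    · right
      simp only [BT.restr, h1, h2]
      rcases l.restr L i with _ | c
      · exact ⟨a, b, rfl, rfl, h3⟩
      · exact ⟨_, _, rfl, rfl, Rot.inr c h3⟩

end RTD
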