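import Pool.Agent.RTD.D3
import Pool.Agent.RTD.PA
import Pool.Agent.RTD.RS1
import Pool.Agent.RTD.BT2

/-! RTD row KC: rotation sequences after the deletion of a position. -/

namespace RTD

/-- PROOF: `rot_restr`. -/
theorem rot_del {t t' : BT} (h : Rot t t') (g : ℕ) :
    t.del g = t'.del g ∨ Rot (t.del g) (t'.del g) := by
  rcases rot_restr (fun h => decide (h ≠ g)) h 0 with h1 | ⟨a, b, h1, h2, h3⟩
  · left
    unfold BT.del
    rw [h1]
  · right
    unfold BT.del
    rw [h1, h2]
    exact h3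

private theorem KC_abc (L : ℕ → Bool) (a b c : BT) (i : ℕ)
    (h : a.restr L i = none ∨ b.restr L (i + a.size + 1) = none ∨
      c.restr L (i + a.size + 1 + b.size + 1) = none) :
    (BT.node (.node a b) c).restr L i = (BT.node a (.node b c)).restr L i := by
  have e : i + (a.size + b.size + 1) + 1 = i + a.size + 1 + b.size + 1 := by omega
  simp only [BT.restr, BT.size, e]
  rcases h with h | h | h
  · rw [h]
    rcases b.restr L (i + a.size + 1) with _ | b' <;>
      rcases c.restr L (i + a.size + 1 + b.size + 1) with _ | c' <;> rfl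
  · rw [h]
    rcases a.restr L i with _ | b' <;>
      rcases c.restr L (i + a.size + 1 + b.size + 1) with _ | c' <;> rfl
  · rw [h]
    rcases a.restr L i with _ | b' <;>
      rcases b.restr L (i + a.size + 1) with _ | c' <;> rfl

private theorem KC_none (t : BT) (i g : ℕ) (h : t.size = 0) (hg : g = i) :
    t.restr (fun h => decide (h ≠ g)) i = none := by
  rw [restr_none]
  intro g' h1 h2
  obtain rfl : g' = g := by omega
  simp

private theorem KC_lf {t t' : BT} (h : Rot t t') (g : ℕ) (f : Finset ℕ)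
    (hgf : ({g, g + 1} : Finset ℕ) ⊆ f) (i : ℕ) (hf : f ∈ t.tri i) (hf' : f ∉ t'.tri i) :
    t.restr (fun h => decide (h ≠ g)) i = t'.restr (fun h => decide (h ≠ g)) i := by
  induction h generalizing i with
  | right a b c =>
    have e : i + (a.size + b.size + 1) + 1 = i + a.size + 1 + b.size + 1 := by omega
    have g1 := hgf (Finset.mem_insert_self _ _)
    have g2 := hgf (Finset.mem_insert_of_mem (Finset.mem_singleton_self _))
    simp only [BT.tri, BT.size, Finset.mem_insert, Finset.mem_union, e, not_or] at hf hf'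
    have key : (a.size = 0 ∧ g = i) ∨ (b.size = 0 ∧ g = i + a.size + 1) ∨
        (c.size = 0 ∧ g = i + a.size + 1 + b.size + 1) := by
      rcases hf with hf | (hf | hf | hf) | hf
      · rw [hf] at g1 g2
        simp only [Finset.mem_insert, Finset.mem_singleton] at g1 g2
        omega
      · rw [hf] at g1 g2
        simp only [Finset.mem_insert, Finset.mem_singleton] at g1 g2
        omega
      · exact absurd hf hf'.2.1
      · exact absurd hf hf'.2.2.2.1
      · exact absurd hf hf'.2.2.2.2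
    apply KC_abc
    rcases key with ⟨k1, k2⟩ | ⟨k1, k2⟩ | ⟨k1, k2⟩
    · exact Or.inl (KC_none a _ g k1 k2)
    · exact Or.inr (Or.inl (KC_none b _ g k1 k2))
    · exact Or.inr (Or.inr (KC_none c _ g k1 k2))
  | left a b c =>
    have e : i + (a.size + b.size + 1) + 1 = i + a.size + 1 + b.size + 1 := by omega
    have g1 := hgf (Finset.mem_insert_self _ _)
    have g2 := hgf (Finset.mem_insert_of_mem (Finset.mem_singleton_self _))
    simp only [BT.tri, BT.size, Finset.mem_insert, Finset.mem_union, e, not_or] at hf hf'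
    have key : (a.size = 0 ∧ g = i) ∨ (b.size = 0 ∧ g = i + a.size + 1) ∨
        (c.size = 0 ∧ g = i + a.size + 1 + b.size + 1) := by
      rcases hf with hf | hf | hf | hf | hf
      · rw [hf] at g1 g2
        simp only [Finset.mem_insert, Finset.mem_singleton] at g1 g2
        omega
      · exact absurd hf hf'.2.1.2.1
      · rw [hf] at g1 g2
        simp only [Finset.mem_insert, Finset.mem_singleton] at g1 g2
        omega
      · exact absurd hf hf'.2.1.2.2
      · exact absurd hf hf'.2.2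
    symm
    apply KC_abc
    rcases key with ⟨k1, k2⟩ | ⟨k1, k2⟩ | ⟨k1, k2⟩
    · exact Or.inl (KC_none a _ g k1 k2)
    · exact Or.inr (Or.inl (KC_none b _ g k1 k2))
    · exact Or.inr (Or.inr (KC_none c _ g k1 k2))
  | @inl l l' r h ih =>
    have hs := rot_size h
    simp only [BT.tri, Finset.mem_insert, Finset.mem_union, not_or, hs] at hf hf'
    rcases hf with hf | hf | hf
    · exact absurd hf hf'.1
    · have := ih i hf hf'.2.1
      simp only [BT.restr, this, hs]
    · exact absurd hf hf'.2.2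
  | @inr l r r' h ih =>
    have hs := rot_size h
    simp only [BT.tri, Finset.mem_insert, Finset.mem_union, not_or, hs] at hf hf'
    rcases hf with hf | hf | hf
    · exact absurd hf hf'.1
    · exact absurd hf hf'.2.1
    · have := ih _ hf hf'.2.2
      simp only [BT.restr, this]

/-- if a rotation destroys the triangle at the side `{g,g+1}` then it becomes trivial.
PROOF: for an arbitrary offset `i` by induction on `h`: if `f ∈ t.tri i`, `f ∉ t'.tri i`,
`{g,g+1} ⊆ f` then the restrictions of `t`, `t'` to the positions `≠ g` are equal.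
`right a b c`, `m1 = i+|a|+1`, `m2 = m1+|b|+1`, `m3 = m2+|c|+1`: `f` is `{i,m1,m2}` or `{i,m2,m3}` (the
others are also in `t'.tri i`), so `{g,g+1}` is `{i,m1}` (`a = nil`, `g = i`), `{m1,m2}` (`b = nil`,
`g = m1`) or `{m2,m3}` (`c = nil`, `g = m2`); in each case one of `a, b, c` restricts to `none` and the two
restrictions are equal.  `left` the same.  `inl`, `inr`: `f` is in the changed subtree (the root
triangle is the same). -/
theorem rot_del_lf {t t' : BT} (h : Rot t t') (g : ℕ) (f : Finset ℕ) (hf : f ∈ t.tri 0)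
    (hf' : f ∉ t'.tri 0) (hgf : ({g, g + 1} : Finset ℕ) ⊆ f) : t.del g = t'.del g := by
  unfold BT.del
  rw [KC_lf h g f hgf 0 hf hf']

/-- PROOF: induction on `n` with `rot_del`. -/
theorem path_del {n : ℕ} {S T : BT} (h : Path n S T) (g : ℕ) :
    ∃ n' ≤ n, Path n' (S.del g) (T.del g) := by
  induction n generalizing S with
  | zero =>
    obtain rfl := Path.zero_inv h
    exact ⟨0, le_rfl, Path.refl _⟩
  | succ n ih =>
    obtain ⟨S', h1, h2⟩ := Path.cons_inv h
    obtain ⟨n', h3, h4⟩ := ih h2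
    rcases rot_del h1 g with h5 | h5
    · exact ⟨n', by omega, by rw [h5]; exact h4⟩
    · exact ⟨1 + n', by omega, (Path.one h5).trans h4⟩

/-- PROOF: there is a step `t i → t (i+1)` with `f ∈ (t i).tri 0`, `f ∉ (t (i+1)).tri 0`, which is
trivial after deletion (`rot_del_lf`); `path_del` for the parts before and after. (Or induction on
`n`, generalizing `S`.) -/
theorem path_del1 {n : ℕ} {S T : BT} (h : Path n S T) (g : ℕ) (f : Finset ℕ) (hf : f ∈ S.tri 0)
    (hf' : f ∉ T.tri 0) (hgf : ({g, g + 1} : Finset ℕ) ⊆ f) :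
    ∃ n', n' + 1 ≤ n ∧ Path n' (S.del g) (T.del g) := by
  induction n generalizing S with
  | zero =>
    obtain rfl := Path.zero_inv h
    exact absurd hf hf'
  | succ n ih =>
    obtain ⟨S', h1, h2⟩ := Path.cons_inv h
    by_cases h3 : f ∈ S'.tri 0
    · obtain ⟨n', h4, h5⟩ := ih h2 h3
      rcases rot_del h1 g with h6 | h6
      · exact ⟨n', by omega, by rw [h6]; exact h5⟩
      · exact ⟨1 + n', by omega, (Path.one h6).trans h5⟩
    · obtain ⟨n', h4, h5⟩ := path_del h2 g
      exact ⟨n', by omega, by rw [rot_del_lf h1 g f hf h3 hgf]; exact h5⟩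

private theorem KC_zero {Q : BT → Prop} {S T : BT} (h : PathP Q 0 S T) : S = T ∧ Q S := by
  obtain ⟨t, h0, h1, _, h3⟩ := h
  refine ⟨by rw [← h0, ← h1], ?_⟩
  rw [← h0]
  exact h3 0 le_rfl

private theorem KC_cons {Q : BT → Prop} {n : ℕ} {S T : BT} (h : PathP Q (n + 1) S T) :
    ∃ S', Q S ∧ Rot S S' ∧ PathP Q n S' T := by
  obtain ⟨t, h0, h1, h2, h3⟩ := h
  refine ⟨t 1, ?_, ?_, fun i => t (i + 1), rfl, h1, fun i hi => h2 (i + 1) (by omega),
    fun i hi => h3 (i + 1) (by omega)⟩
  · rw [← h0]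
    exact h3 0 (Nat.zero_le _)
  · rw [← h0]
    exact h2 0 (by omega)

private theorem KC_refl {Q : BT → Prop} {S : BT} (h : Q S) : PathP Q 0 S S :=
  ⟨fun _ => S, rfl, rfl, fun _ hi => absurd hi (Nat.not_lt_zero _), fun _ _ => h⟩

private theorem KC_mk {Q : BT → Prop} {n : ℕ} {S S' T : BT} (hS : Q S) (h1 : Rot S S')
    (h2 : PathP Q n S' T) : PathP Q (n + 1) S T := by
  obtain ⟨t, k0, k1, k2, k3⟩ := h2
  refine ⟨fun i => match i with | 0 => S | i + 1 => t i, rfl, k1, ?_, ?_⟩
  · intro i hi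
    cases i with
    | zero =>
      show Rot S (t 0)
      rw [k0]
      exact h1
    | succ i => exact k2 i (by omega)
  · intro i hi
    cases i with
    | zero => exact hS
    | succ i => exact k3 i (by omega)

theorem PathP.trans {Q : BT → Prop} {n m : ℕ} {S T U : BT} (h : PathP Q n S T)
    (h' : PathP Q m T U) : PathP Q (n + m) S U := by
  induction n generalizing S with
  | zero =>
    obtain ⟨rfl, _⟩ := KC_zero h
    rw [Nat.zero_add]
    exact h'
  | succ n ih =>
    obtain ⟨S', h1, h2, h3⟩ := KC_cons h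
    have e : n + 1 + m = n + m + 1 := by omega
    rw [e]
    exact KC_mk h1 h2 (ih h3)

theorem PathP.mono {Q Q' : BT → Prop} {n : ℕ} {S T : BT} (h : PathP Q n S T)
    (hQ : ∀ U, Q U → Q' U) : PathP Q' n S T := by
  obtain ⟨t, k0, k1, k2, k3⟩ := h
  exact ⟨t, k0, k1, k2, fun i hi => hQ _ (k3 i hi)⟩

/-- PROOF: as `path_del`, all trees of the new sequence are deletions of trees of the old one. -/
theorem pathP_del {Q : BT → Prop} {n : ℕ} {S T : BT} (h : PathP Q n S T) (g : ℕ) :
    ∃ n' ≤ n, PathP (fun V => ∃ U, Q U ∧ V = U.del g) n' (S.del g) (T.del g) := by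
  induction n generalizing S with
  | zero =>
    obtain ⟨rfl, h1⟩ := KC_zero h
    exact ⟨0, le_rfl, KC_refl ⟨_, h1, rfl⟩⟩
  | succ n ih =>
    obtain ⟨S', h0, h1, h2⟩ := KC_cons h
    obtain ⟨n', h3, h4⟩ := ih h2
    rcases rot_del h1 g with h5 | h5
    · exact ⟨n', by omega, by rw [h5]; exact h4⟩
    · exact ⟨n' + 1, by omega, KC_mk ⟨_, h0, rfl⟩ h5 h4⟩

/-- PROOF: as `path_del1`. -/
theorem pathP_del1 {Q : BT → Prop} {n : ℕ} {S T : BT} (h : PathP Q n S T) (g : ℕ) (f : Finset ℕ)
    (hf : f ∈ S.tri 0) (hf' : f ∉ T.tri 0) (hgf : ({g, g + 1} : Finset ℕ) ⊆ f) :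
    ∃ n', n' + 1 ≤ n ∧ PathP (fun V => ∃ U, Q U ∧ V = U.del g) n' (S.del g) (T.del g) := by
  induction n generalizing S with
  | zero =>
    obtain ⟨rfl, _⟩ := KC_zero h
    exact absurd hf hf'
  | succ n ih =>
    obtain ⟨S', h0, h1, h2⟩ := KC_cons h
    by_cases h3 : f ∈ S'.tri 0
    · obtain ⟨n', h4, h5⟩ := ih h2 h3
      rcases rot_del h1 g with h6 | h6
      · exact ⟨n', by omega, by rw [h6]; exact h5⟩
      · exact ⟨n' + 1, by omega, KC_mk ⟨_, h0, rfl⟩ h6 h5⟩
    · obtain ⟨n', h4, h5⟩ := pathP_del h2 g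
      exact ⟨n', by omega, by rw [rot_del_lf h1 g f hf h3 hgf]; exact h5⟩

private theorem KC_last {Q : BT → Prop} {n : ℕ} {S T : BT} (h : PathP Q n S T) : Q T := by
  obtain ⟨t, k0, k1, k2, k3⟩ := h
  rw [← k1]
  exact k3 n le_rfl

private theorem KC_first {Q : BT → Prop} {n : ℕ} {S T : BT} (h : PathP Q n S T) : Q S := by
  obtain ⟨t, k0, k1, k2, k3⟩ := h
  rw [← k0]
  exact k3 0 (Nat.zero_le _)

/-- If the triangle at the side `g` cannot change directly from `f` to `f'` then at least two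
steps become trivial.
PROOF: `f ∉ T.tri 0` by `tri_side` (offset 0; `f ≠ f'`).  Let `i` be the first index with
`f ∉ (t (i+1)).tri 0`; the step `i` is trivial after deletion.  Let `V = t (i+1)`; it has a triangle `f''`
that contains `{g,g+1}` (`hex`).  `f'' ≠ f`, and `f'' ≠ f'` by `hdir`.  So `f'' ∉ T.tri 0` (`tri_side`), and
`pathP_del1` applies to the part from `V` to `T`; `pathP_del1` (with `f`) applies to the part from `S`
to `V`; `PathP.trans`. -/
theorem pathP_del2 {Q : BT → Prop} {n : ℕ} {S T : BT} (h : PathP Q n S T) (g : ℕ)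
    (f f' : Finset ℕ) (hf : f ∈ S.tri 0) (hf' : f' ∈ T.tri 0) (hne : f ≠ f')
    (hgf : ({g, g + 1} : Finset ℕ) ⊆ f) (hgf' : ({g, g + 1} : Finset ℕ) ⊆ f')
    (hgs : ∀ U, Q U → g ≤ U.size)
    (hex : ∀ U, Q U → ∃ f'' ∈ U.tri 0, ({g, g + 1} : Finset ℕ) ⊆ f'')
    (hdir : ∀ U U', Q U → Rot U U' → f ∈ U.tri 0 → f' ∈ U'.tri 0 → False) :
    ∃ n', n' + 2 ≤ n ∧ PathP (fun V => ∃ U, Q U ∧ V = U.del g) n' (S.del g) (T.del g) := by
  have hT := hgs T (KC_last h)
  induction n generalizing S with
  | zero =>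
    obtain ⟨rfl, _⟩ := KC_zero h
    exact absurd (tri_side S 0 g (Nat.zero_le _) (by omega) f f' hf hf' hgf hgf') hne
  | succ n ih =>
    obtain ⟨S', h0, h1, h2⟩ := KC_cons h
    by_cases h3 : f ∈ S'.tri 0
    · obtain ⟨n', h4, h5⟩ := ih h2 h3
      rcases rot_del h1 g with h6 | h6
      · exact ⟨n', by omega, by rw [h6]; exact h5⟩
      · exact ⟨n' + 1, by omega, KC_mk ⟨_, h0, rfl⟩ h6 h5⟩
    · obtain ⟨f'', h4, h5⟩ := hex S' (KC_first h2)
      have h6 : f'' ∉ T.tri 0 := by
        intro h7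
        have h8 := tri_side T 0 g (Nat.zero_le _) (by omega) f'' f' h7 hf' h5 hgf'
        rw [h8] at h4
        exact hdir S S' h0 h1 hf h4
      obtain ⟨n', h7, h8⟩ := pathP_del1 h2 g f'' h4 h6 h5
      exact ⟨n', by omega, by rw [rot_del_lf h1 g f hf h3 hgf]; exact h8⟩

end RTD
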