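import Pool.Agent.RTD.PA
import Pool.Agent.RTD.D3
import Pool.Agent.RTD.BT3
import Pool.Agent.RTD.CR

/-! RTD row KF: the trivial lower bound. -/

namespace RTD

/-- PROOF: let `D` be the set of the edges of `T` which are not sides, `S.size ≤ |D| + 1`
(`tri_diag`, equal sizes).  For `e ∈ D` we have `e ∉ edg (S.tri 0)` (`NCe`), so there is a step `i < n`
with `e ∉ edg ((t i).tri 0)`, `e ∈ edg ((t (i+1)).tri 0)`; by `rot_flip` and `new_edge` (row CR) `e` is
the new diagonal of the flip, so `e ↦ i` is injective (for one step the new diagonal is unique).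
So `|D| ≤ n`. -/
theorem nce_lower (S T : BT) (n : ℕ) (hST : T.size = S.size) (hnc : NCe S T) (hp : Path n S T) :
    S.size ≤ n + 1 := by
  classical
  obtain ⟨t, h0, hn, hs⟩ := hp
  set D := (edg (T.tri 0)).filter (fun e => e ∉ sds T.size) with hD
  have h1 : T.size ≤ D.card + 1 := tri_diag T
  have hstep : ∀ e ∈ D, ∃ i < n, e ∉ edg ((t i).tri 0) ∧ e ∈ edg ((t (i + 1)).tri 0) := by
    intro e he
    rw [hD, Finset.mem_filter] at he
    have he0 : e ∉ edg ((t 0).tri 0) := by
      rw [h0]
      intro h
      have := hnc e h he.1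
      rw [← hST] at this
      exact he.2 this
    have hen : e ∈ edg ((t n).tri 0) := by rw [hn]; exact he.1
    by_contra hcon
    push Not at hcon
    have key : ∀ i, i ≤ n → e ∉ edg ((t i).tri 0) := by
      intro i
      induction i with
      | zero => intro _; exact he0
      | succ i ih =>
        intro hi
        exact hcon i (by omega) (ih (by omega))
    exact key n le_rfl hen
  choose! st hst1 hst2 hst3 using hstep
  have hinj : Set.InjOn st D := by
    intro e he e' he' hee
    obtain ⟨x, y, z, w, hxy, hxz, hxw, hyz, hyw, hzw, hA, hB⟩ := rot_flip (hs (st e) (hst1 e he)) 0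
    have e1 := new_edge hxy hxz hxw hyz hyw hzw hA hB (hst3 e he) (hst2 e he)
    have e2 : e' = {y, w} := by
      refine new_edge hxy hxz hxw hyz hyw hzw hA hB ?_ ?_
      · rw [hee]
        exact hst3 e' he'
      · rw [hee]
        exact hst2 e' he'
    rw [e1, e2]
  have h2 : D.card ≤ (Finset.range n).card :=
    Finset.card_le_card_of_injOn st (fun e he => by
      rw [Finset.mem_coe, Finset.mem_range]
      exact hst1 e he) hinj
  rw [Finset.card_range] at h2
  omega

end RTD
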