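import Pool.Agent.RTD.KE
import Pool.Agent.RTD.KC

/-! RTD row KG: trees without a triangle `{0, α, β}`. -/

namespace RTD

/-- no triangle `{0, α, β}` with `α` on the left side and `β` on the right side of the strip -/
def noF (σ : List Bool) (X : BT) (x : ℕ) (U : BT) : Prop :=
  ∀ α β, x ≤ α → α ≤ x + σ.count true → x + σ.count true + X.size + 1 ≤ β →
    β ≤ x + X.size + σ.length + 1 → ({0, α, β} : Finset ℕ) ∉ U.tri 0

private lemma KG_core {A : Finset (Finset ℕ)} {p p' a b u v c d : ℕ} (hpp : p ≠ p')
    (hpa : p ≠ a) (hpb : p ≠ b) (hpa' : p' ≠ a) (hpb' : p' ≠ b) (hab : a ≠ b)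
    (h1 : ({p, p', a} : Finset ℕ) = {u, v, c}) (h2 : ({p, p', b} : Finset ℕ) = {u, v, d})
    (h3 : ({u, c, d} : Finset ℕ) ∈ A) :
    ({p, a, b} : Finset ℕ) ∈ A ∨ ({p', a, b} : Finset ℕ) ∈ A := by
  have m1 : ∀ t, (t = p ∨ t = p' ∨ t = a) ↔ (t = u ∨ t = v ∨ t = c) := by
    intro t
    have := Finset.ext_iff.1 h1 t
    simpa using this
  have m2 : ∀ t, (t = p ∨ t = p' ∨ t = b) ↔ (t = u ∨ t = v ∨ t = d) := by
    intro t
    have := Finset.ext_iff.1 h2 t
    simpa using this
  have hac : a = c := by
    rcases (m1 a).1 (Or.inr (Or.inr rfl)) with h | h | h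
    · rcases (m2 u).2 (Or.inl rfl) with h' | h' | h'
      · exact absurd (h.trans h').symm hpa
      · exact absurd (h.trans h').symm hpa'
      · exact absurd (h.trans h') hab
    · rcases (m2 v).2 (Or.inr (Or.inl rfl)) with h' | h' | h'
      · exact absurd (h.trans h').symm hpa
      · exact absurd (h.trans h').symm hpa'
      · exact absurd (h.trans h') hab
    · exact h
  have hbd : b = d := by
    rcases (m2 b).1 (Or.inr (Or.inr rfl)) with h | h | h
    · rcases (m1 u).2 (Or.inl rfl) with h' | h' | h'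
      · exact absurd (h.trans h').symm hpb
      · exact absurd (h.trans h').symm hpb'
      · exact absurd (h.trans h').symm hab
    · rcases (m1 v).2 (Or.inr (Or.inl rfl)) with h' | h' | h'
      · exact absurd (h.trans h').symm hpb
      · exact absurd (h.trans h').symm hpb'
      · exact absurd (h.trans h').symm hab
    · exact h
  subst hac hbd
  rcases (m1 u).2 (Or.inl rfl) with h | h | h
  · left
    rw [← h]
    exact h3
  · right
    rw [← h]
    exact h3
  · exfalso
    rcases (m2 u).2 (Or.inl rfl) with h' | h' | h'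
    · exact hpa (h'.symm.trans h)
    · exact hpa' (h'.symm.trans h)
    · exact hab (h.symm.trans h')

/-- PROOF: suppose `{0, α', β'} ∈ (U.del g).tri 0`, `g = outer l σ X x ≥ 1`; by `del_tri` it is the image
under `pc g` of a triangle `f ∈ U.tri 0`; `f = {0, α, β}` with `pc g α = α'`, `pc g β = β'` (`pc g v = 0` iff
`v = 0`).  `l = true`, `g = x`: `α' ∈ [x, x + a']`, so `α ∈ [x, x+a'+1]`, `β = β' + 1`.  `l = false`,
`g = x+|X|+|σ|+1`: `α = α'` (as `α' ≤ x + a' < g`), `β ∈ {β'}` or `β' + 1` (`β' = g`).  In both cases `α`,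
`β` are in the ranges for `l :: σ`, contradiction. -/
theorem noF_del (l : Bool) (σ : List Bool) (X : BT) (x : ℕ) (hx : 1 ≤ x) (U : BT)
    (hU : x + X.size + σ.length + 1 ≤ U.size) (h : noF (l :: σ) X x U) :
    noF σ X x (U.del (outer l σ X x)) := by
  classical
  intro α' β' hα1 hα2 hβ1 hβ2 hmem
  set g := outer l σ X x with hg
  have hgU : g ≤ U.size := by
    rw [hg]
    unfold outer
    split_ifs <;> omega
  have hg1 : 1 ≤ g := by
    rw [hg]
    unfold outer
    split_ifs <;> omega
  rw [del_tri U g hgU (by omega), Finset.mem_image] at hmem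
  obtain ⟨f, hf, hfi⟩ := hmem
  rw [Finset.mem_filter] at hf
  obtain ⟨hfU, -⟩ := hf
  have hcard := (tri_mem U 0 f hfU).1
  have hpre : ∀ t, t ∈ ({0, α', β'} : Finset ℕ) → ∃ v ∈ f, pc g v = t := by
    intro t ht
    rw [← hfi, Finset.mem_image] at ht
    exact ht
  obtain ⟨z, hz, hz0⟩ := hpre 0 (by simp)
  obtain ⟨α, hα, hαp⟩ := hpre α' (by simp)
  obtain ⟨β, hβ, hβp⟩ := hpre β' (by simp)
  have hz' : z = 0 := by
    unfold pc at hz0
    split_ifs at hz0 with h1
    · exact hz0
    · omega
  subst hz'
  have hc := List.count_le_length (a := true) (l := σ)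
  have h0α : (0 : ℕ) ≠ α := by
    rintro rfl
    unfold pc at hαp
    split_ifs at hαp <;> omega
  have h0β : (0 : ℕ) ≠ β := by
    rintro rfl
    unfold pc at hβp
    split_ifs at hβp <;> omega
  have hαβ : α ≠ β := by
    rintro rfl
    rw [hαp] at hβp
    omega
  have hfeq : ({0, α, β} : Finset ℕ) = f := by
    apply Finset.eq_of_subset_of_card_le
    · intro t ht
      simp only [Finset.mem_insert, Finset.mem_singleton] at ht
      rcases ht with rfl | rfl | rfl
      · exact hz
      · exact hα
      · exact hβ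
    · rw [hcard, Finset.card_eq_three.2 ⟨0, α, β, h0α, h0β, hαβ, rfl⟩]
  rw [← hfeq] at hfU
  have hg' := hg
  cases l with
  | true =>
    have hgx : g = x := by
      rw [hg]
      simp [outer]
    rw [hgx] at hαp hβp
    refine h α β ?_ ?_ ?_ ?_ hfU
    · unfold pc at hαp
      split_ifs at hαp <;> omega
    · rw [List.count_cons_self]
      unfold pc at hαp
      split_ifs at hαp <;> omega
    · rw [List.count_cons_self]
      unfold pc at hβp
      split_ifs at hβp <;> omega
    · rw [List.length_cons]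
      unfold pc at hβp
      split_ifs at hβp <;> omega
  | false =>
    have hgx : g = x + X.size + σ.length + 1 := by
      rw [hg]
      simp [outer]
    rw [hgx] at hαp hβp
    have hcc : (false :: σ).count true = σ.count true := by simp
    refine h α β ?_ ?_ ?_ ?_ hfU
    · unfold pc at hαp
      split_ifs at hαp <;> omega
    · rw [hcc]
      unfold pc at hαp
      split_ifs at hαp <;> omega
    · rw [hcc]
      unfold pc at hβp
      split_ifs at hβp <;> omega
    · rw [List.length_cons]
      unfold pc at hβp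
      split_ifs at hβp <;> omega

/-- PROOF: let `x y z w` be from the flip: `A \ B = {{x,y,z},{x,z,w}}`, `B \ A = {{x,y,w},{y,z,w}}`;
`{p,p',a}` is one of the first two, `{p,p',b}` one of the last two: in the four cases (as in row WN)
`{p,p'}` is `{x,y}`, `{y,z}`, `{x,w}` or `{z,w}`, and the other triangle of `A \ B` is `{p,a,b}` or
`{p',a,b}`. -/
theorem flip_third {A B : Finset (Finset ℕ)} (h : Flip A B) {p p' a b : ℕ} (hpp : p ≠ p')
    (hpa : p ≠ a) (hpb : p ≠ b) (hpa' : p' ≠ a) (hpb' : p' ≠ b) (hab : a ≠ b)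
    (h1 : ({p, p', a} : Finset ℕ) ∈ A \ B) (h2 : ({p, p', b} : Finset ℕ) ∈ B \ A) :
    ({p, a, b} : Finset ℕ) ∈ A ∨ ({p', a, b} : Finset ℕ) ∈ A := by
  obtain ⟨x, y, z, w, hxy, hxz, hxw, hyz, hyw, hzw, hA, hB⟩ := h
  have hA1 : ({x, y, z} : Finset ℕ) ∈ A := by
    have : ({x, y, z} : Finset ℕ) ∈ A \ B := by rw [hA]; simp
    exact (Finset.mem_sdiff.mp this).1
  have hA2 : ({x, z, w} : Finset ℕ) ∈ A := by
    have : ({x, z, w} : Finset ℕ) ∈ A \ B := by rw [hA]; simp
    exact (Finset.mem_sdiff.mp this).1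
  rw [hA, Finset.mem_insert, Finset.mem_singleton] at h1
  rw [hB, Finset.mem_insert, Finset.mem_singleton] at h2
  rcases h1 with h1 | h1 <;> rcases h2 with h2 | h2
  · exact KG_core hpp hpa hpb hpa' hpb' hab h1 h2 hA2
  · refine KG_core (u := z) (v := y) (c := x) (d := w) hpp hpa hpb hpa' hpb' hab ?_ ?_ ?_
    · rw [h1]; ext t; simp; tauto
    · rw [h2]; ext t; simp; tauto
    · have e : ({z, x, w} : Finset ℕ) = {x, z, w} := by ext t; simp; tauto
      rw [e]; exact hA2
  · refine KG_core (u := x) (v := w) (c := z) (d := y) hpp hpa hpb hpa' hpb' hab ?_ ?_ ?_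
    · rw [h1]; ext t; simp; tauto
    · rw [h2]; ext t; simp; tauto
    · have e : ({x, z, y} : Finset ℕ) = {x, y, z} := by ext t; simp; tauto
      rw [e]; exact hA1
  · refine KG_core (u := z) (v := w) (c := x) (d := y) hpp hpa hpb hpa' hpb' hab ?_ ?_ ?_
    · rw [h1]; ext t; simp; tauto
    · rw [h2]; ext t; simp; tauto
    · have e : ({z, x, y} : Finset ℕ) = {x, y, z} := by ext t; simp; tauto
      rw [e]; exact hA1

/-- The triangle at the outermost side of the strip cannot change directly from the triangle of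
the strip to `{0,g,g+1}` in a step from a tree `U` with `noF`.
PROOF: `l = true`, `g = x`, `v = x + |X| + |σ| + 2`, `f = {x,x+1,v} ∈ U.tri 0`, `f' = {0,x,x+1} ∈ U'.tri 0`.
By `tri_side` `f ∉ U'.tri 0`, `f' ∉ U.tri 0`; by `flip_third` (`rot_flip`) `{x,v,0} ∈ U.tri 0` or
`{x+1,v,0} ∈ U.tri 0`, both excluded by `noF (true :: σ)` (`α ∈ {x, x+1}`, count of `true` is `≥ 1`).
`l = false`: `g = v - 1`, `f = {x, v-1, v}`, `f' = {0, v-1, v}`, get `{v-1, x, 0}` or `{v,x,0}`: excluded
(`β ∈ {v-1, v}`, the count of `false` is `≥ 1`, `σ.count true ≤ σ.length`). -/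
theorem no_direct (l : Bool) (σ : List Bool) (X : BT) (x : ℕ) (hx : 1 ≤ x) (U U' : BT)
    (hU : x + X.size + σ.length + 1 ≤ U.size) (h : noF (l :: σ) X x U) (hr : Rot U U')
    (hf : (if l then ({x, x + 1, x + X.size + σ.length + 2} : Finset ℕ)
      else {x, x + X.size + σ.length + 1, x + X.size + σ.length + 2}) ∈ U.tri 0)
    (hf' : ({0, outer l σ X x, outer l σ X x + 1} : Finset ℕ) ∈ U'.tri 0) : False := by
  have hc := List.count_le_length (a := true) (l := σ)
  have hsz : U'.size = U.size := rot_size hr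
  have hfl := rot_flip hr 0
  cases l with
  | true =>
    have hg : outer true σ X x = x := by simp [outer]
    rw [hg] at hf'
    have hf1 : ({x, x + 1, x + X.size + σ.length + 2} : Finset ℕ) ∈ U.tri 0 := by simpa using hf
    have hne : ({x, x + 1, x + X.size + σ.length + 2} : Finset ℕ) ≠ {0, x, x + 1} := by
      intro he
      have : (0 : ℕ) ∈ ({x, x + 1, x + X.size + σ.length + 2} : Finset ℕ) := by rw [he]; simp
      simp only [Finset.mem_insert, Finset.mem_singleton] at this
      omega
    have s1 : ({x, x + 1} : Finset ℕ) ⊆ {x, x + 1, x + X.size + σ.length + 2} := by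
      intro t ht
      simp only [Finset.mem_insert, Finset.mem_singleton] at ht ⊢
      tauto
    have s2 : ({x, x + 1} : Finset ℕ) ⊆ {0, x, x + 1} := by
      intro t ht
      simp only [Finset.mem_insert, Finset.mem_singleton] at ht ⊢
      tauto
    have n1 : ({x, x + 1, x + X.size + σ.length + 2} : Finset ℕ) ∉ U'.tri 0 := fun hh =>
      hne (tri_side U' 0 x (by omega) (by omega) _ _ hh hf' s1 s2)
    have n2 : ({0, x, x + 1} : Finset ℕ) ∉ U.tri 0 := fun hh =>
      hne (tri_side U 0 x (by omega) (by omega) _ _ hf1 hh s1 s2)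
    have e2 : ({x, x + 1, 0} : Finset ℕ) = {0, x, x + 1} := by ext t; simp; tauto
    have key := flip_third hfl (p := x) (p' := x + 1) (a := x + X.size + σ.length + 2) (b := 0)
      (by omega) (by omega) (by omega) (by omega) (by omega) (by omega)
      (Finset.mem_sdiff.2 ⟨hf1, n1⟩) (by rw [e2]; exact Finset.mem_sdiff.2 ⟨hf', n2⟩)
    rcases key with hk | hk
    · refine h x (x + X.size + σ.length + 2) le_rfl ?_ ?_ ?_ ?_
      · omega
      · rw [List.count_cons_self]; omega
      · rw [List.length_cons]; omega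
      · have e : ({0, x, x + X.size + σ.length + 2} : Finset ℕ) = {x, x + X.size + σ.length + 2, 0} := by
          ext t; simp; tauto
        rw [e]; exact hk
    · refine h (x + 1) (x + X.size + σ.length + 2) (by omega) ?_ ?_ ?_ ?_
      · rw [List.count_cons_self]; omega
      · rw [List.count_cons_self]; omega
      · rw [List.length_cons]; omega
      · have e : ({0, x + 1, x + X.size + σ.length + 2} : Finset ℕ) =
            {x + 1, x + X.size + σ.length + 2, 0} := by
          ext t; simp; tauto
        rw [e]; exact hk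
  | false =>
    have hg : outer false σ X x = x + X.size + σ.length + 1 := by simp [outer]
    rw [hg] at hf'
    have hcc : (false :: σ).count true = σ.count true := by simp
    have hf1 : ({x, x + X.size + σ.length + 1, x + X.size + σ.length + 2} : Finset ℕ) ∈ U.tri 0 := by
      simpa using hf
    obtain ⟨g, hgd⟩ : ∃ g, g = x + X.size + σ.length + 1 := ⟨_, rfl⟩
    have hgd2 : x + X.size + σ.length + 2 = g + 1 := by omega
    rw [hgd2, ← hgd] at hf1
    rw [← hgd] at hf'
    have hne : ({x, g, g + 1} : Finset ℕ) ≠ {0, g, g + 1} := by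
      intro he
      have : (0 : ℕ) ∈ ({x, g, g + 1} : Finset ℕ) := by rw [he]; simp
      simp only [Finset.mem_insert, Finset.mem_singleton] at this
      omega
    have s1 : ({g, g + 1} : Finset ℕ) ⊆ {x, g, g + 1} := by
      intro t ht
      simp only [Finset.mem_insert, Finset.mem_singleton] at ht ⊢
      tauto
    have s2 : ({g, g + 1} : Finset ℕ) ⊆ {0, g, g + 1} := by
      intro t ht
      simp only [Finset.mem_insert, Finset.mem_singleton] at ht ⊢
      tauto
    have n1 : ({x, g, g + 1} : Finset ℕ) ∉ U'.tri 0 := fun hh =>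
      hne (tri_side U' 0 g (by omega) (by omega) _ _ hh hf' s1 s2)
    have n2 : ({0, g, g + 1} : Finset ℕ) ∉ U.tri 0 := fun hh =>
      hne (tri_side U 0 g (by omega) (by omega) _ _ hf1 hh s1 s2)
    have e1 : ({g, g + 1, x} : Finset ℕ) = {x, g, g + 1} := by ext t; simp; tauto
    have e2 : ({g, g + 1, 0} : Finset ℕ) = {0, g, g + 1} := by ext t; simp; tauto
    have key := flip_third hfl (p := g) (p' := g + 1) (a := x) (b := 0)
      (by omega) (by omega) (by omega) (by omega) (by omega) (by omega)
      (by rw [e1]; exact Finset.mem_sdiff.2 ⟨hf1, n1⟩) (by rw [e2]; exact Finset.mem_sdiff.2 ⟨hf', n2⟩)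
    rcases key with hk | hk
    · refine h x g le_rfl ?_ ?_ ?_ ?_
      · omega
      · rw [hcc]; omega
      · rw [List.length_cons]; omega
      · have e : ({0, x, g} : Finset ℕ) = {g, x, 0} := by
          ext t; simp; tauto
        rw [e]; exact hk
    · refine h x (g + 1) le_rfl ?_ ?_ ?_ ?_
      · omega
      · rw [hcc]; omega
      · rw [List.length_cons]; omega
      · have e : ({0, x, g + 1} : Finset ℕ) = {g + 1, x, 0} := by
          ext t; simp; tauto
        rw [e]; exact hk

end RTD
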