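import Pool.Agent.RTD.KG
import Pool.Agent.RTD.KF
import Pool.Agent.RTD.CL4

/-! RTD row KH: a triangle `{0, α, β}` must appear. -/

namespace RTD

private theorem KH_face (C X : BT) (x : ℕ) (hx : 1 ≤ x) (hC : x ≤ C.size) (l : Bool) (σ : List Bool) :
    ∃ f : Finset ℕ, f = (if l then ({x, x + 1, x + X.size + σ.length + 2} : Finset ℕ)
      else {x, x + X.size + σ.length + 1, x + X.size + σ.length + 2}) ∧
      f ∈ (C.plug (strip (l :: σ) X) x 0).tri 0 ∧ 0 ∉ f ∧
      ({outer l σ X x, outer l σ X x + 1} : Finset ℕ) ⊆ f := by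
  refine ⟨_, rfl, ?_, ?_, ?_⟩
  · cases l
    · simpa using strip_face_false C X x σ hC
    · simpa using strip_face_true C X x σ hC
  · cases l
    · simp only [Bool.false_eq_true, if_false, Finset.mem_insert, Finset.mem_singleton, not_or]
      omega
    · simp only [if_true, Finset.mem_insert, Finset.mem_singleton, not_or]
      omega
  · cases l
    · simp only [outer, Bool.false_eq_true, if_false]
      intro a ha
      simp only [Finset.mem_insert, Finset.mem_singleton] at ha ⊢
      omega
    · simp only [outer, if_true]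
      intro a ha
      simp only [Finset.mem_insert, Finset.mem_singleton] at ha ⊢
      omega

/-- PROOF: induction on `σ`, generalizing `T`, `n`.  Put `S = C.plug (strip σ X) x 0`.
`σ = [l]`: `S.size = |C| + |X| + 1 ≤ n + 1` by `nce_lower` (the sequence is in particular a `Path`).
`σ = l :: σ'`, `σ' ≠ []`: `pathP_del2` with `g = outer l σ' X x`, `f` = the outermost triangle of the strip
(`strip_face_true`, `strip_face_false`), `f' = {0,g,g+1}`, `hex` from `side_ex`, `hdir` from `no_direct`;
it gives a sequence of length `n' ≤ n - 2` from `C.plug (strip σ' X) x 0` (`strip_del`) to `T.del g` whose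
trees are `U.del g`, which have size `|C| + |X| + |σ'|` (`del_size`) and `noF σ' X x` (`noF_del`);
`fan_strip_del`, `nc_cut`, induction hypothesis. -/
theorem no_face (C X : BT) (x : ℕ) (hx : 1 ≤ x) (hC : x ≤ C.size) (σ : List Bool)
    (hσ : 1 ≤ σ.length) (T : BT) (n : ℕ)
    (hT : T.size = C.size + X.size + σ.length)
    (hfan : ∀ p ∈ stripPos σ X x, ({0, p, p + 1} : Finset ℕ) ∈ T.tri 0)
    (hnc : NCe (C.plug (strip σ X) x 0) T)
    (hp : PathP (fun U => U.size = C.size + X.size + σ.length ∧ noF σ X x U) n
      (C.plug (strip σ X) x 0) T) :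
    2 * σ.length + C.size + X.size ≤ n + 2 := by
  induction σ generalizing T n with
  | nil => simp at hσ
  | cons l σ' ih =>
    have hsz : (C.plug (strip (l :: σ') X) x 0).size = C.size + X.size + (l :: σ').length := by
      rw [plug_size _ _ _ _ (Nat.zero_le _) (by omega), strip_size]
      omega
    by_cases hσ' : σ' = []
    · subst hσ'
      obtain ⟨t, h0, hn, hs, hq⟩ := hp
      have h1 := nce_lower _ _ n (by rw [hT, hsz]) hnc ⟨t, h0, hn, hs⟩
      rw [hsz] at h1
      simp only [List.length_cons, List.length_nil] at h1 ⊢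
      omega
    · have hl : 1 ≤ σ'.length := List.length_pos_iff.2 hσ'
      obtain ⟨f, hf0, hf1, hf2, hf3⟩ := KH_face C X x hx hC l σ'
      have hg1 : outer l σ' X x ≤ x + X.size + σ'.length + 1 := by
        unfold outer
        split_ifs <;> omega
      simp only [List.length_cons] at hT hsz hp ⊢
      obtain ⟨n', hn', hp'⟩ := pathP_del2 hp (outer l σ' X x) f {0, outer l σ' X x, outer l σ' X x + 1}
        hf1 (hfan _ (outer_mem l σ' X x)) (by
          rintro rfl
          simp at hf2) hf3 (by
          intro a ha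
          simp only [Finset.mem_insert, Finset.mem_singleton] at ha ⊢
          tauto) (by
          intro U hU
          have := hU.1
          omega) (by
          intro U hU
          have := hU.1
          exact side_ex U _ (by omega) (by omega)) (by
          intro U U' hU hr h1 h2
          have := hU.1
          rw [hf0] at h1
          exact no_direct l σ' X x hx U U' (by omega) hU.2 hr h1 h2)
      rw [strip_del C X x l σ' hC] at hp'
      have hp2 := PathP.mono hp' (Q' := fun V => V.size = C.size + X.size + σ'.length ∧ noF σ' X x V) (by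
        rintro V ⟨U, hU, rfl⟩
        have h1 := hU.1
        refine ⟨?_, noF_del l σ' X x hx U (by omega) hU.2⟩
        have := del_size U (outer l σ' X x) (by omega) (by omega)
        omega)
      have h3 := ih hl (T.del (outer l σ' X x)) n' (by
        have := del_size T (outer l σ' X x) (by omega) (by omega)
        omega) (fan_strip_del T X x l σ' hx (by omega) hfan)
        (nc_cut C X T x l σ' hx hC hl (by rw [hT, hsz]) hfan hnc) hp2
      omega

/-- PROOF: by contradiction: if no tree of the sequence has such a triangle then `no_face` gives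
`2|σ| + |C| + |X| ≤ n + 2 ≤ |C| + |X| + |σ| + k + 1`, so `|σ| ≤ k + 1`.  (All trees of the sequence
have the size of `S`, `Path.size` / `rot_size`.)  If `t i` has the triangle then `U = t i`,
`n1 = i`, `n2 = n - i`. -/
theorem mark (C X : BT) (x : ℕ) (hx : 1 ≤ x) (hC : x ≤ C.size) (σ : List Bool) (k : ℕ)
    (hσ : k + 2 ≤ σ.length) (T : BT) (n : ℕ) (hT : T.size = C.size + X.size + σ.length)
    (hfan : ∀ p ∈ stripPos σ X x, ({0, p, p + 1} : Finset ℕ) ∈ T.tri 0)
    (hnc : NCe (C.plug (strip σ X) x 0) T)
    (hp : Path n (C.plug (strip σ X) x 0) T) (hn : n + 1 ≤ C.size + X.size + σ.length + k) :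
    ∃ U n1 n2 α β, Path n1 (C.plug (strip σ X) x 0) U ∧ Path n2 U T ∧ n1 + n2 = n ∧
      x ≤ α ∧ α ≤ x + σ.count true ∧ x + σ.count true + X.size + 1 ≤ β ∧
      β ≤ x + X.size + σ.length + 1 ∧ ({0, α, β} : Finset ℕ) ∈ U.tri 0 := by
  by_contra hcon
  have hsz : (C.plug (strip σ X) x 0).size = C.size + X.size + σ.length := by
    rw [plug_size _ _ _ _ (Nat.zero_le _) (by omega), strip_size]
    omega
  obtain ⟨t, h0, h1, hs⟩ := hp
  have h2 := no_face C X x hx hC σ (by omega) T n hT hfan hnc ⟨t, h0, h1, hs, ?_⟩
  · omega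
  · intro i hi
    have hP1 : Path i (C.plug (strip σ X) x 0) (t i) := ⟨t, h0, rfl, fun j hj => hs j (by omega)⟩
    have hP2 : Path (n - i) (t i) T := by
      refine ⟨fun j => t (i + j), rfl, ?_, ?_⟩
      · show t (i + (n - i)) = T
        rw [Nat.add_sub_cancel' hi, h1]
      · intro j hj
        exact hs (i + j) (by omega)
    refine ⟨by rw [hP1.size, hsz], ?_⟩
    intro α β a1 a2 a3 a4 a5
    exact hcon ⟨t i, i, n - i, α, β, hP1, hP2, by omega, a1, a2, a3, a4, a5⟩

end RTD
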