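import Pool.Agent.RTD.KE
import Pool.Agent.RTD.KC

/-! RTD row KI: contracting the whole strip. -/

namespace RTD

/-- PROOF: induction on `σ`, generalizing `T U n1 n2 α β`.  `σ = []`: `α = x`, `β = x+|X|+1`, nothing to
do (`strip [] X = X`, `dT [] X x T = T`).  `σ = l :: σ'`, `g = outer l σ' X x`; `f` = the triangle of
`S = C.plug (strip σ X) x 0` at the side `{g,g+1}` (`strip_face_true`, `strip_face_false`), it is not a
triangle of `T`, because `{0,g,g+1} ∈ T.tri 0` is the only one at this side (`tri_side`).  If
`f ∉ U.tri 0`: `path_del1` for the first part and `path_del` for the second; if `f ∈ U.tri 0`: `path_del`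
and `path_del1`.  So `n1' + n2' + 1 ≤ n1 + n2`.  The image of `{0,α,β}` under `pc g` is a triangle of
`U.del g` (`del_tri`; `{0,α,β}` does not contain `{g,g+1}`) of the form `{0,α',β'}` with `α', β'` in the
ranges for `σ'` (`l = true`, `g = x`: `β' = β-1`, `α' = max x (α-1)`; `l = false`, `g = x+|X|+|σ'|+1`: `α' = α`,
`β' = min β g`).  `fan_strip_del`, `strip_del`, `del_size`, induction hypothesis. -/
theorem contract (C X : BT) (x : ℕ) (hx : 1 ≤ x) (hC : x ≤ C.size) (σ : List Bool) (T U : BT)
    (n1 n2 α β : ℕ) (hT : T.size = C.size + X.size + σ.length)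
    (hfan : ∀ p ∈ stripPos σ X x, ({0, p, p + 1} : Finset ℕ) ∈ T.tri 0)
    (h1 : Path n1 (C.plug (strip σ X) x 0) U) (h2 : Path n2 U T)
    (hα : x ≤ α) (hα' : α ≤ x + σ.count true) (hβ : x + σ.count true + X.size + 1 ≤ β)
    (hβ' : β ≤ x + X.size + σ.length + 1) (hf : ({0, α, β} : Finset ℕ) ∈ U.tri 0) :
    ∃ U' n1' n2', n1' + n2' + σ.length ≤ n1 + n2 ∧ Path n1' (C.plug X x 0) U' ∧
      Path n2' U' (dT σ X x T) ∧ ({0, x, x + X.size + 1} : Finset ℕ) ∈ U'.tri 0 := by
  induction σ generalizing T U n1 n2 α β with
  | nil =>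
    simp only [List.count_nil, List.length_nil] at hα' hβ hβ'
    have e1 : α = x := by omega
    have e2 : β = x + X.size + 1 := by omega
    rw [e1, e2] at hf
    simp only [strip] at h1
    simp only [dT, List.length_nil]
    exact ⟨U, n1, n2, by omega, h1, h2, hf⟩
  | cons l σ ih =>
    simp only [List.length_cons] at hT hβ'
    have hcnt : σ.count true ≤ σ.length := List.count_le_length
    have hUT : T.size = U.size := h2.size
    set g := outer l σ X x with hg
    have hgmem : g ∈ stripPos (l :: σ) X x := outer_mem l σ X x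
    have hgb := stripPos_bound (l :: σ) X x g hgmem
    simp only [List.length_cons] at hgb
    have hgT : g ≤ T.size := by omega
    have hT0 : ({0, g, g + 1} : Finset ℕ) ∈ T.tri 0 := hfan g hgmem
    -- the triangle at the side
    have hface : ∃ f : Finset ℕ, f ∈ (C.plug (strip (l :: σ) X) x 0).tri 0 ∧
        ({g, g + 1} : Finset ℕ) ⊆ f ∧ 0 ∉ f := by
      cases l
      · have e : g = x + X.size + σ.length + 1 := by rw [hg]; simp [outer]
        refine ⟨_, strip_face_false C X x σ hC, ?_, ?_⟩
        · intro v hv
          simp only [Finset.mem_insert, Finset.mem_singleton] at hv ⊢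
          omega
        · simp only [Finset.mem_insert, Finset.mem_singleton]
          omega
      · have e : g = x := by rw [hg]; simp [outer]
        refine ⟨_, strip_face_true C X x σ hC, ?_, ?_⟩
        · intro v hv
          simp only [Finset.mem_insert, Finset.mem_singleton] at hv ⊢
          omega
        · simp only [Finset.mem_insert, Finset.mem_singleton]
          omega
    obtain ⟨f, hfS, hgf, hf0⟩ := hface
    have hfT : f ∉ T.tri 0 := by
      intro h
      have := tri_side T 0 g (Nat.zero_le _) (by omega) f _ h hT0 hgf (by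
        intro v hv
        simp only [Finset.mem_insert, Finset.mem_singleton] at hv ⊢
        omega)
      rw [this] at hf0
      exact hf0 (by simp)
    have hpath : ∃ m1 m2, m1 + m2 + 1 ≤ n1 + n2 ∧
        Path m1 ((C.plug (strip (l :: σ) X) x 0).del g) (U.del g) ∧
        Path m2 (U.del g) (T.del g) := by
      by_cases hfU : f ∈ U.tri 0
      · obtain ⟨m1, hm1, p1⟩ := path_del h1 g
        obtain ⟨m2, hm2, p2⟩ := path_del1 h2 g f hfU hfT hgf
        exact ⟨m1, m2, by omega, p1, p2⟩
      · obtain ⟨m1, hm1, p1⟩ := path_del1 h1 g f hfS hfU hgf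
        obtain ⟨m2, hm2, p2⟩ := path_del h2 g
        exact ⟨m1, m2, by omega, p1, p2⟩
    obtain ⟨m1, m2, hm, p1, p2⟩ := hpath
    rw [hg, strip_del C X x l σ hC, ← hg] at p1
    have hdel : (T.del g).size = C.size + X.size + σ.length := by
      have := del_size T g hgT (by omega)
      omega
    have hfan' := fan_strip_del T X x l σ hx (by omega) hfan
    rw [← hg] at hfan'
    have himg : ∀ (hn : ¬ ({g, g + 1} : Finset ℕ) ⊆ {0, α, β}),
        ({0, pc g α, pc g β} : Finset ℕ) ∈ (U.del g).tri 0 := by
      intro hn
      rw [del_tri U g (by omega) (by omega)]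
      refine Finset.mem_image.2 ⟨{0, α, β}, Finset.mem_filter.2 ⟨hf, hn⟩, ?_⟩
      simp only [Finset.image_insert, Finset.image_singleton]
      simp [pc]
    have hdt : dT (l :: σ) X x T = dT σ X x (T.del g) := by
      rw [hg]; rfl
    cases l
    · have e : g = x + X.size + σ.length + 1 := by rw [hg]; simp [outer]
      rw [List.count_cons_of_ne (by simp)] at hα' hβ
      have hn : ¬ ({g, g + 1} : Finset ℕ) ⊆ {0, α, β} := by
        intro hs
        have a1 : g ∈ ({0, α, β} : Finset ℕ) := hs (by simp)
        have a2 : g + 1 ∈ ({0, α, β} : Finset ℕ) := hs (by simp)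
        simp only [Finset.mem_insert, Finset.mem_singleton] at a1 a2
        omega
      have h3 := himg hn
      have e1 : pc g α = α := by unfold pc; rw [if_pos (by omega)]
      have e2 : x + σ.count true + X.size + 1 ≤ pc g β ∧ pc g β ≤ x + X.size + σ.length + 1 := by
        unfold pc
        split <;> omega
      rw [e1] at h3
      obtain ⟨U', n1', n2', a1, a2, a3, a4⟩ := ih (T.del g) (U.del g) m1 m2 α (pc g β) hdel hfan'
        p1 p2 hα hα' e2.1 e2.2 h3
      refine ⟨U', n1', n2', ?_, a2, ?_, a4⟩
      · simp only [List.length_cons]; omega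
      · rw [hdt]; exact a3
    · have e : g = x := by rw [hg]; simp [outer]
      rw [List.count_cons_self] at hα' hβ
      have hn : ¬ ({g, g + 1} : Finset ℕ) ⊆ {0, α, β} := by
        intro hs
        have a1 : g ∈ ({0, α, β} : Finset ℕ) := hs (by simp)
        have a2 : g + 1 ∈ ({0, α, β} : Finset ℕ) := hs (by simp)
        simp only [Finset.mem_insert, Finset.mem_singleton] at a1 a2
        omega
      have h3 := himg hn
      have e1 : x ≤ pc g α ∧ pc g α ≤ x + σ.count true := by
        unfold pc
        split <;> omega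
      have e2 : x + σ.count true + X.size + 1 ≤ pc g β ∧ pc g β ≤ x + X.size + σ.length + 1 := by
        unfold pc
        split <;> omega
      obtain ⟨U', n1', n2', a1, a2, a3, a4⟩ := ih (T.del g) (U.del g) m1 m2 (pc g α) (pc g β) hdel
        hfan' p1 p2 e1.1 e1.2 e2.1 e2.2 h3
      refine ⟨U', n1', n2', ?_, a2, ?_, a4⟩
      · simp only [List.length_cons]; omega
      · rw [hdt]; exact a3

end RTD
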