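import Pool.Agent.RTD.KJ

/-! RTD row KK: inserting the strip again. -/

namespace RTD

private lemma KK_nil {t : BT} (h : t.size = 0) : t = .nil := by
  cases t with
  | nil => rfl
  | node l r => simp [BT.size] at h

/-- PROOF: by `face_zero` (`{0, x, x+1}`) `T' = E.plug (node B nil) 0 0` with `|B| + 1 = x` (the right part
has size `0`), so `T'.del x = E.plug B 0 0` (`del_plug`), `|B| = |A|`.
`D.plug (node A Xi) 0 0 = (D.plug (node nil Xi) 0 0).plug A 0 0` (`plug_left`), so `path_unplug` (at `0`) gives
`Path m1 (D.plug (node nil Xi) 0 0) E`, `Path m2 A B`, `m1 + m2 ≤ n`.  One left rotation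
(`rot_plug`/`plug_rot`) turns `D.plug (node A (node nil Xi)) 0 0` into
`D.plug (node (node A nil) Xi) 0 0 = (D.plug (node nil Xi) 0 0).plug (node A nil) 0 0`, and `path_plug` with
`Path.left` gives the rest. -/
theorem ins_true (D A Xi T' : BT) (n : ℕ)
    (hf : ({0, A.size + 1, A.size + 2} : Finset ℕ) ∈ T'.tri 0)
    (hp : Path n (D.plug (.node A Xi) 0 0) (T'.del (A.size + 1))) :
    ∃ n' ≤ n + 1, Path n' (D.plug (.node A (.node .nil Xi)) 0 0) T' := by
  obtain ⟨E, B, X, hT, hB, hX⟩ := face_zero T' (A.size + 1) (A.size + 2) (by omega) (by omega) hf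
  have hX0 : X = .nil := KK_nil (by omega)
  subst hX0
  subst hT
  rw [← hB, del_plug, plug_left D A Xi] at hp
  obtain ⟨n1, n2, hn, p1, p2⟩ := path_unplug 0 (Nat.zero_le _) (Nat.zero_le _) (by omega) hp
  refine ⟨1 + (n1 + n2), by omega, ?_⟩
  have q1 : Path 1 (D.plug (.node A (.node .nil Xi)) 0 0) (D.plug (.node (.node A .nil) Xi) 0 0) :=
    Path.one (plug_rot D (Rot.left A .nil Xi) 0 0 le_rfl (Nat.zero_le _))
  have q2 : Path (n1 + n2) (D.plug (.node (.node A .nil) Xi) 0 0) (E.plug (.node B .nil) 0 0) := by
    rw [plug_left D (.node A .nil) Xi]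
    exact path_plug 0 (Nat.zero_le _) p1 (Path.left .nil p2)
  exact q1.trans q2

/-- PROOF: by `face_zero` `T' = E.plug (node Z nil) 0 0` with `|Z| + 1 = v`, `T'.del v = E.plug Z 0 0`;
`path_unplug` at `0` with the inside `node A Xi`, `Z` (same size): `Path m1 D E`, `Path m2 (node A Xi) Z`.  One
left rotation: `node A (node Xi nil) → node (node A Xi) nil`; `path_plug`, `Path.left`. -/
theorem ins_false (D A Xi T' : BT) (n : ℕ)
    (hf : ({0, A.size + Xi.size + 2, A.size + Xi.size + 3} : Finset ℕ) ∈ T'.tri 0)
    (hp : Path n (D.plug (.node A Xi) 0 0) (T'.del (A.size + Xi.size + 2))) :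
    ∃ n' ≤ n + 1, Path n' (D.plug (.node A (.node Xi .nil)) 0 0) T' := by
  obtain ⟨E, Z, X, hT, hZ, hX⟩ := face_zero T' (A.size + Xi.size + 2) (A.size + Xi.size + 3)
    (by omega) (by omega) hf
  have hX0 : X = .nil := KK_nil (by omega)
  subst hX0
  subst hT
  rw [← hZ, del_plug] at hp
  obtain ⟨n1, n2, hn, p1, p2⟩ := path_unplug 0 (Nat.zero_le _) (Nat.zero_le _)
    (by simp only [BT.size]; omega) hp
  refine ⟨1 + (n1 + n2), by omega, ?_⟩
  have q1 : Path 1 (D.plug (.node A (.node Xi .nil)) 0 0) (D.plug (.node (.node A Xi) .nil) 0 0) :=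
    Path.one (plug_rot D (Rot.left A Xi .nil) 0 0 le_rfl (Nat.zero_le _))
  have q2 : Path (n1 + n2) (D.plug (.node (.node A Xi) .nil) 0 0) (E.plug (.node Z .nil) 0 0) :=
    path_plug 0 (Nat.zero_le _) p1 (Path.left .nil p2)
  exact q1.trans q2

private lemma KK_size (l : Bool) (X : BT) :
    (if l then BT.node .nil X else BT.node X .nil).size = X.size + 1 := by
  cases l <;> simp [BT.size]

private lemma KK_outer (l' l : Bool) (σ : List Bool) (X : BT) (x : ℕ) :
    outer l' (σ ++ [l]) X x = outer l' σ (if l then .node .nil X else .node X .nil) x := by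
  unfold outer
  rw [KK_size, List.length_append]
  simp only [List.length_cons, List.length_nil]
  split
  · rfl
  · omega

/-- deleting all but the last letter.  PROOF: induction on `σ`, generalizing `T`. -/
theorem dT_snoc (σ : List Bool) (l : Bool) (X T : BT) (x : ℕ) :
    dT (σ ++ [l]) X x T =
      (dT σ (if l then .node .nil X else .node X .nil) x T).del (outer l [] X x) := by
  induction σ generalizing T with
  | nil => simp only [List.nil_append, dT]
  | cons l' σ ih =>
    rw [List.cons_append]
    simp only [dT]
    rw [ih, KK_outer]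

theorem strip_snoc (σ : List Bool) (l : Bool) (X : BT) :
    strip (σ ++ [l]) X = strip σ (if l then .node .nil X else .node X .nil) := by
  induction σ with
  | nil => cases l <;> simp [strip]
  | cons l' σ ih =>
    rw [List.cons_append]
    cases l' <;> simp only [strip, ih]

/-- PROOF: induction on `σ`, generalizing `T`: `fan_strip_del` for the outer letters; the last
letter has the position `outer l [] X x` in the tree where all other positions of the strip are
deleted. -/
theorem dT_fan (σ : List Bool) (l : Bool) (X T : BT) (x : ℕ) (hx : 1 ≤ x)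
    (hT : x + X.size + σ.length + 1 ≤ T.size)
    (hfan : ∀ p ∈ stripPos (σ ++ [l]) X x, ({0, p, p + 1} : Finset ℕ) ∈ T.tri 0) :
    ({0, outer l [] X x, outer l [] X x + 1} : Finset ℕ) ∈
      (dT σ (if l then .node .nil X else .node X .nil) x T).tri 0 := by
  induction σ generalizing T with
  | nil =>
    simp only [dT]
    exact hfan _ (outer_mem l [] X x)
  | cons l' σ ih =>
    simp only [List.length_cons] at hT
    simp only [dT]
    rw [← KK_outer]
    have hg : outer l' (σ ++ [l]) X x ≤ T.size := by
      have h1 := stripPos_bound (l' :: (σ ++ [l])) X x _ (outer_mem l' (σ ++ [l]) X x)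
      simp only [List.length_cons, List.length_append, List.length_nil] at h1
      omega
    have hs := del_size T _ hg (by omega)
    apply ih
    · omega
    · intro p hp
      exact fan_strip_del T X x l' (σ ++ [l]) hx
        (by simp only [List.length_append, List.length_cons, List.length_nil]; omega) hfan p hp

private lemma KK_pos (σ : List Bool) (l : Bool) (X : BT) (x p : ℕ)
    (h : p ∈ stripPos σ (if l then .node .nil X else .node X .nil) x) :
    p ∈ stripPos (σ ++ [l]) X x := by
  induction σ generalizing x with
  | nil => simp [stripPos] at h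
  | cons l' σ ih =>
    rw [List.cons_append]
    cases l'
    · simp only [stripPos, List.mem_cons] at h ⊢
      rw [KK_size] at h
      simp only [List.length_append, List.length_cons, List.length_nil]
      rcases h with h | h
      · left; omega
      · exact Or.inr (ih x h)
    · simp only [stripPos, List.mem_cons] at h ⊢
      rcases h with h | h
      · left; exact h
      · exact Or.inr (ih (x + 1) h)

/-- PROOF: induction on the length of `σ` from the inside (`List.reverseRecOn`), generalizing
`X`, `Xi`, `n3`.
`σ = []`: `C.plug X x 0 → (D.plug (node A nil) 0 0).plug Xi x 0` (`path_plug`) `= D.plug (node A Xi) 0 0`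
(`plug_right`, `x = |A| + 1`) `→ T`.
`σ = σ' ++ [l]`: put `X' = node nil X` (`l = true`) or `node X nil`, `Xi'` the same with `Xi`, `Path n1 X' Xi'`
(`Path.left`, `Path.right`); `dT σ X x T = (dT σ' X' x T).del g`, `g = outer l [] X x` (`dT_snoc`), which is
`|A| + 1` resp. `|A| + |Xi| + 2` (`Xi.size = X.size` by `Path.size`); the triangle `{0,g,g+1}` is in
`dT σ' X' x T` (`dT_fan`), so `ins_true`/`ins_false` give a path of length `≤ n3 + 1` from
`D.plug (node A Xi') 0 0` to `dT σ' X' x T`; `stripPos (σ' ++ [l]) X x = stripPos σ' X' x ++ [..]`; induction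
hypothesis; `strip_snoc`. -/
theorem thick (σ : List Bool) (C X D A Xi T : BT) (x n1 n2 n3 : ℕ) (hx : x = A.size + 1)
    (hC : x ≤ C.size) (hT : T.size = C.size + X.size + σ.length)
    (hfan : ∀ p ∈ stripPos σ X x, ({0, p, p + 1} : Finset ℕ) ∈ T.tri 0)
    (h1 : Path n1 X Xi) (h2 : Path n2 C (D.plug (.node A .nil) 0 0))
    (h3 : Path n3 (D.plug (.node A Xi) 0 0) (dT σ X x T)) :
    ∃ n ≤ n1 + n2 + n3 + σ.length, Path n (C.plug (strip σ X) x 0) T := by
  induction σ using List.reverseRecOn generalizing X Xi n3 with
  | nil =>
    simp only [dT] at h3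
    simp only [strip]
    refine ⟨(n2 + n1) + n3, by simp only [List.length_nil]; omega, ?_⟩
    have p1 := path_plug x hC h2 h1
    rw [hx, ← plug_right D A Xi] at p1
    rw [hx]
    exact p1.trans h3
  | append_singleton σ l ih =>
    simp only [List.length_append, List.length_cons, List.length_nil] at hT
    have hsz := h1.size
    rw [dT_snoc] at h3
    have hfan' := dT_fan σ l X T x (by omega) (by omega) hfan
    have key : ∃ n' ≤ n3 + 1, Path n' (D.plug (.node A (if l then .node .nil Xi else .node Xi .nil)) 0 0)
        (dT σ (if l then .node .nil X else .node X .nil) x T) := by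
      cases l
      · have ho : outer false [] X x = A.size + Xi.size + 2 := by
          simp only [outer, List.length_nil]
          simp
          omega
        rw [ho] at h3 hfan'
        exact ins_false D A Xi _ n3 hfan' h3
      · have ho : outer true [] X x = A.size + 1 := by
          simp only [outer]
          simp
          omega
        rw [ho] at h3 hfan'
        exact ins_true D A Xi _ n3 hfan' h3
    obtain ⟨n', hn', h3'⟩ := key
    have h1' : Path n1 (if l then BT.node .nil X else BT.node X .nil)
        (if l then BT.node .nil Xi else BT.node Xi .nil) := by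
      cases l
      · exact Path.left .nil h1
      · exact Path.right .nil h1
    obtain ⟨m, hm, hp⟩ := ih (if l then .node .nil X else .node X .nil)
      (if l then .node .nil Xi else .node Xi .nil) n' (by rw [KK_size]; omega)
      (fun p hp => hfan p (KK_pos σ l X x p hp)) h1' h3'
    refine ⟨m, ?_, ?_⟩
    · simp only [List.length_append, List.length_cons, List.length_nil]
      omega
    · rw [strip_snoc]
      exact hp

end RTD
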