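import Pool.Agent.RTD.KH
import Pool.Agent.RTD.KI
import Pool.Agent.RTD.KK

/-! RTD row KM: the cut step is safe. -/

namespace RTD

private theorem KM_sizes (C X : BT) (x : ℕ) (hC : x ≤ C.size) (σ : List Bool) :
    (C.plug (strip σ X) x 0).size = C.size + X.size + σ.length := by
  rw [plug_size C _ x 0 (Nat.zero_le _) (by omega), strip_size]
  omega

private theorem KM_face (C X T : BT) (x : ℕ) (l : Bool) (σ : List Bool) (hx : 1 ≤ x)
    (hC : x ≤ C.size) (hT : T.size = (C.plug (strip (l :: σ) X) x 0).size)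
    (hfan : ∀ p ∈ stripPos (l :: σ) X x, ({0, p, p + 1} : Finset ℕ) ∈ T.tri 0) :
    ∃ f ∈ (C.plug (strip (l :: σ) X) x 0).tri 0, f ∉ T.tri 0 ∧
      ({outer l σ X x, outer l σ X x + 1} : Finset ℕ) ⊆ f := by
  have hS := KM_sizes C X x hC (l :: σ)
  rw [List.length_cons] at hS
  have hg : ({0, outer l σ X x, outer l σ X x + 1} : Finset ℕ) ∈ T.tri 0 :=
    hfan _ (outer_mem l σ X x)
  have key : ∀ f ∈ (C.plug (strip (l :: σ) X) x 0).tri 0, 0 ∉ f →
      ({outer l σ X x, outer l σ X x + 1} : Finset ℕ) ⊆ f → outer l σ X x ≤ T.size →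
      ∃ f ∈ (C.plug (strip (l :: σ) X) x 0).tri 0, f ∉ T.tri 0 ∧
        ({outer l σ X x, outer l σ X x + 1} : Finset ℕ) ⊆ f := by
    intro f hf h0 hgf hgT
    refine ⟨f, hf, fun hfT => h0 ?_, hgf⟩
    have := tri_side T 0 (outer l σ X x) (Nat.zero_le _) (by omega) f _ hfT hg hgf (by
      intro v hv
      simp only [Finset.mem_insert, Finset.mem_singleton] at hv ⊢
      tauto)
    rw [this]
    simp
  cases l with
  | true =>
    refine key _ (strip_face_true C X x σ hC) ?_ ?_ ?_
    · simp only [Finset.mem_insert, Finset.mem_singleton]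
      omega
    · intro v hv
      simp only [outer, if_true, Finset.mem_insert, Finset.mem_singleton] at hv ⊢
      omega
    · simp only [outer, if_true]
      omega
  | false =>
    refine key _ (strip_face_false C X x σ hC) ?_ ?_ ?_
    · simp only [Finset.mem_insert, Finset.mem_singleton]
      omega
    · intro v hv
      simp only [outer, Bool.false_eq_true, if_false, Finset.mem_insert, Finset.mem_singleton] at hv ⊢
      omega
    · simp only [outer, Bool.false_eq_true, if_false]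
      omega

/-- PROOF.  `S = C.plug (strip (l :: σ) X) x 0`, `S' = C.plug (strip σ X) x 0`, `T' = T.del g`,
`g = outer l σ X x`; `S.size = |C| + |X| + |σ| + 1`, `S'.size = S.size - 1`.
(→) `path_del1` with the outermost triangle of the strip, which is not in `T.tri 0` (`tri_side`,
`{0,g,g+1} ∈ T.tri 0`); `strip_del`.
(←) `Path n S' T'`, `n + 1 ≤ S'.size + j ≤ S'.size + k`.  `nc_cut` gives `NCe S' T'`, `fan_strip_del` the
triangles of `T'`.  `mark` gives `U`, then `contract` gives `U'`, `n1' + n2' + |σ| ≤ n`,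
`Path n1' (C.plug X x 0) U'`, `Path n2' U' (dT σ X x T')`, `{0,x,x+|X|+1} ∈ U'.tri 0`.  `face_zero`:
`U' = D.plug (node A Xi) 0 0`, `|A| + 1 = x`, `|Xi| = |X|`; by `plug_right` and `path_unplug` (at `x`, sizes:
`(D.plug (node A nil) 0 0).size = |C| ≥ x`) `Path m2 C (D.plug (node A nil) 0 0)`, `Path m1 X Xi`,
`m1 + m2 ≤ n1'`.  `dT σ X x T' = dT (l :: σ) X x T`.  `thick` for `l :: σ` gives a path from `S` to `T` of length
`≤ m1 + m2 + n2' + |σ| + 1 ≤ n + 1`. -/
theorem cut_iff (k : ℕ) (C X T : BT) (x : ℕ) (l : Bool) (σ : List Bool) (hx : 1 ≤ x)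
    (hC : x ≤ C.size) (hσ : k + 2 ≤ σ.length)
    (hT : T.size = (C.plug (strip (l :: σ) X) x 0).size)
    (hfan : ∀ p ∈ stripPos (l :: σ) X x, ({0, p, p + 1} : Finset ℕ) ∈ T.tri 0)
    (hnc : NCe (C.plug (strip (l :: σ) X) x 0) T) (j : ℕ) (hj : j ≤ k) :
    Exc j (C.plug (strip (l :: σ) X) x 0) T ↔
      Exc j (C.plug (strip σ X) x 0) (T.del (outer l σ X x)) := by
  have hS := KM_sizes C X x hC (l :: σ)
  rw [List.length_cons] at hS
  have hS' := KM_sizes C X x hC σ
  have hgT : outer l σ X x ≤ T.size := by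
    have := (stripPos_bound (l :: σ) X x _ (outer_mem l σ X x)).2
    rw [List.length_cons] at this
    omega
  have hTs := del_size T (outer l σ X x) hgT (by omega)
  constructor
  · rintro ⟨n, p, hn⟩
    obtain ⟨f, hf, hf', hgf⟩ := KM_face C X T x l σ hx hC hT hfan
    obtain ⟨n', hn', p'⟩ := path_del1 p (outer l σ X x) f hf hf' hgf
    rw [strip_del C X x l σ hC] at p'
    exact ⟨n', p', by omega⟩
  · rintro ⟨n, p, hn⟩
    have hT' : (T.del (outer l σ X x)).size = C.size + X.size + σ.length := by omega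
    have hfan' := fan_strip_del T X x l σ hx (by omega) hfan
    have hnc' := nc_cut C X T x l σ hx hC (by omega) hT hfan hnc
    obtain ⟨U, n1, n2, α, β, p1, p2, hn12, hα, hα', hβ, hβ', hf⟩ :=
      mark C X x hx hC σ k hσ (T.del (outer l σ X x)) n hT' hfan' hnc' p (by omega)
    obtain ⟨U', n1', n2', hle, q1, q2, hf'⟩ :=
      contract C X x hx hC σ (T.del (outer l σ X x)) U n1 n2 α β hT' hfan' p1 p2 hα hα' hβ hβ' hf
    obtain ⟨D, A, Xi, hU', hA, hXi⟩ := face_zero U' x (x + X.size + 1) (by omega) (by omega) hf'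
    have hxi : Xi.size = X.size := by omega
    rw [hU', plug_right, hA] at q1
    have hD : x ≤ (D.plug (.node A .nil) 0 0).size := by
      rw [plug_size D _ 0 0 le_rfl (by omega)]
      simp only [BT.size]
      omega
    obtain ⟨m2, m1, hle2, r1, r2⟩ := path_unplug x hC hD hxi q1
    rw [hU'] at q2
    obtain ⟨N, hN, pN⟩ := thick (l :: σ) C X D A Xi T x m1 m2 n2' hA.symm hC
      (by rw [List.length_cons]; omega) hfan r2 r1 q2
    rw [List.length_cons] at hN
    exact ⟨N, pN, by omega⟩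

end RTD
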