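import Pool.Agent.RTD.KM
import Pool.Agent.RTD.SH

/-! RTD row SO: every shrinking step is safe. -/

namespace RTD

theorem path_comm {n : ℕ} {S T : BT} : Path n S T ↔ Path n T S :=
  ⟨Path.symm, Path.symm⟩

theorem SO_redF {S T : BT} (hST : T.size = S.size) (h : RedF S T) : RedF T S := by
  obtain ⟨h1, h2, h3⟩ := h
  refine ⟨fun e he he' => ?_, h3, h2⟩
  rw [hST]
  exact h1 e he' he

theorem SO_exc {j : ℕ} {S T : BT} (hST : T.size = S.size) : Exc j S T ↔ Exc j T S := by
  constructor
  · rintro ⟨n, h1, h2⟩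
    exact ⟨n, h1.symm, by rw [hST]; exact h2⟩
  · rintro ⟨n, h1, h2⟩
    exact ⟨n, h1.symm, by rw [← hST]; exact h2⟩

/-- PROOF: induction on `h`.  `cut`: `del_size`, `plug_size`, `strip_size`, `red_cut` (`|σ| ≥ 2`),
`cut_iff`.  `swap`: symmetric (sizes are equal, `RedF` is symmetric when the sizes are equal).
`shift`: `sh_size`, `redF_sh`, `exc_sh`. -/
theorem shrink_ok {k : ℕ} {S T S' T' : BT} (h : Shrink k S T S' T') (hST : T.size = S.size)
    (hred : RedF S T) :
    T'.size = S'.size ∧ S'.size + 1 = S.size ∧ RedF S' T' ∧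
      ∀ j ≤ k, (Exc j S T ↔ Exc j S' T') := by
  induction h with
  | cut C X T x l σ hx hC hσ hfan =>
    have e1 : (C.plug (strip (l :: σ) X) x 0).size = C.size + (X.size + (σ.length + 1)) := by
      rw [plug_size _ _ _ _ (Nat.zero_le _) (by omega), strip_size, List.length_cons]
    have e2 : (C.plug (strip σ X) x 0).size = C.size + (X.size + σ.length) := by
      rw [plug_size _ _ _ _ (Nat.zero_le _) (by omega), strip_size]
    have e3 : outer l σ X x ≤ T.size := by
      rw [hST, e1]
      unfold outer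
      split_ifs <;> omega
    have e4 : (T.del (outer l σ X x)).size + 1 = T.size := del_size T _ e3 (by rw [hST, e1]; omega)
    refine ⟨?_, ?_, ?_, ?_⟩
    · rw [e2]
      rw [hST, e1] at e4
      omega
    · rw [e1, e2]
      omega
    · exact red_cut C X T x l σ hx hC (by omega) hST hfan hred
    · exact fun j hj => cut_iff k C X T x l σ hx hC hσ hST hfan hred.1 j hj
  | swap S T S' T' _ ih =>
    obtain ⟨h1, h2, h3, h4⟩ := ih hST.symm (SO_redF hST hred)
    refine ⟨h1.symm, by rw [h1, h2, hST], SO_redF h1 h3, fun j hj => ?_⟩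
    rw [SO_exc hST, h4 j hj, SO_exc h1]
  | shift S T S' T' _ ih =>
    obtain ⟨h1, h2, h3, h4⟩ := ih (by rw [sh_size, sh_size, hST]) (redF_sh hST hred)
    refine ⟨h1, by rw [h2, sh_size], h3, fun j hj => ?_⟩
    rw [← h4 j hj, exc_sh]

end RTD
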