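import Pool.Agent.RTD.EL3
import Pool.Agent.RTD.CH
import Pool.Agent.RTD.EX2
import Pool.Agent.RTD.SO

/-! RTD row KR1: reduced pairs; the size bound. -/

namespace RTD

open Finset in
private theorem KR1_pair {x z x' z' : ℕ} (h1 : x < z) (h2 : x' < z')
    (h : ({x, z} : Finset ℕ) = {x', z'}) : x = x' ∧ z = z' := by
  have a1 : x ∈ ({x', z'} : Finset ℕ) := by rw [← h]; simp
  have a2 : z ∈ ({x', z'} : Finset ℕ) := by rw [← h]; simp
  have a3 : x' ∈ ({x, z} : Finset ℕ) := by rw [h]; simp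
  simp only [Finset.mem_insert, Finset.mem_singleton] at a1 a2 a3
  omega

private theorem KR1_cl {t : BT} {x z : ℕ} (hxz : x + 2 ≤ z) (h : ({x, z} : Finset ℕ) ∈ edg (t.tri 0)) :
    (x, z) ∈ t.cl 0 := by
  rcases edg_of t 0 _ h with ⟨k, _, _, hk⟩ | ⟨x', z', h1, h2⟩
  · have := KR1_pair (by omega) (by omega) hk
    omega
  · have h3 := cl_bound t 0 x' z' h1
    obtain ⟨rfl, rfl⟩ := KR1_pair (by omega) (by omega) h2
    exact h1

/-- PROOF: exactly as in the proof of `fan_cover` (row RD; copy its private lemmas). -/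
theorem redF_of {S T : BT} (hST : T.size = S.size) (h : Reduced S T) : RedF S T := by
  obtain ⟨r0, r1, r2⟩ := h
  refine ⟨?_, ?_, ?_⟩
  · intro e h1 h2
    rcases edg_of S 0 e h1 with ⟨k, _, hk, rfl⟩ | ⟨x, z, hx, rfl⟩
    · unfold sds
      exact Finset.mem_insert_of_mem (Finset.mem_image.2 ⟨k, Finset.mem_range.2 (by omega), rfl⟩)
    · have hb := cl_bound S 0 x z hx
      have hx' := KR1_cl (t := T) hb.2.1 h2
      have h3 := r0 x z hx hx'
      rw [Prod.mk.injEq] at h3
      rw [h3.1, h3.2]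
      exact Finset.mem_insert_self _ _
  · intro f hf g hg hfg h
    obtain ⟨t', x, z, a1, a2, a3, a4, a5⟩ := flip_rot S 0 f g hf hg hfg
    rw [a3] at h
    have h3 := r1 t' a1 x z a2 (KR1_cl a4 h)
    rw [Prod.mk.injEq] at h3
    omega
  · intro f hf g hg hfg h
    obtain ⟨t', x, z, a1, a2, a3, a4, a5⟩ := flip_rot T 0 f g hf hg hfg
    rw [a3] at h
    have h3 := r2 t' a1 x z (KR1_cl a4 h) a2
    rw [Prod.mk.injEq] at h3
    omega

/-- PROOF: `S.cl 0 ∩ T.cl 0 = {(0, S.size+1)}`: if `(x,z)` is in both, then `{x,z}` is an edge of both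
(`cl_edg`), so it is in `sds S.size`; it is not `{k,k+1}` (`cl_bound`: `x + 2 ≤ z`), so `(x,z) = (0,
S.size+1)`; and `root_cl`.  `cl_card`. -/
theorem dl_nce {S T : BT} (hS : 1 ≤ S.size) (hST : T.size = S.size) (h : NCe S T) :
    dl S T + 1 = S.size := by
  have h1 : S.cl 0 ∩ T.cl 0 = {(0, S.size + 1)} := by
    ext ⟨x, z⟩
    rw [Finset.mem_inter, Finset.mem_singleton]
    constructor
    · rintro ⟨a1, a2⟩
      have hb := cl_bound S 0 x z a1
      have h2 := h _ (cl_edg S 0 x z a1) (cl_edg T 0 x z a2)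
      unfold sds at h2
      rw [Finset.mem_insert, Finset.mem_image] at h2
      rcases h2 with h2 | ⟨k, -, h2⟩
      · obtain ⟨h3, h4⟩ := KR1_pair (by omega) (by omega) h2
        rw [h3, h4]
      · have := KR1_pair (by omega) (by omega) h2
        omega
    · intro hxz
      rw [hxz]
      constructor
      · have := root_cl S 0 hS
        rwa [zero_add] at this
      · have := root_cl T 0 (by omega)
        rwa [zero_add, hST] at this
  have h2 := Finset.card_sdiff_add_card_inter (S.cl 0) (T.cl 0)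
  rw [h1, Finset.card_singleton, cl_card] at h2
  exact h2

/-- PROOF: `dl_nce`, `path_rd'`, `rd_le`. -/
theorem exc_iff {S T : BT} (hS : 1 ≤ S.size) (hST : T.size = S.size) (h : NCe S T) (j : ℕ) :
    Exc j S T ↔ rd S T ≤ dl S T + j := by
  have h1 := dl_nce hS hST h
  constructor
  · rintro ⟨n, hn, h2⟩
    have := rd_le hn
    omega
  · intro h2
    exact ⟨rd S T, path_rd' hST, by omega⟩

/-- PROOF: exactly as in the proof of `fan_cover_tri` (row BR): `F i = (t i).tri 0`. -/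
theorem cfg_of (S T : BT) (n : ℕ) (hq : 2 ≤ S.size) (hST : T.size = S.size) (hp : Path n S T)
    (hred : RedF S T) :
    ∃ F : ℕ → Finset (Finset ℕ), F 0 = S.tri 0 ∧ F n = T.tri 0 ∧ Cfg S.size n F (sds S.size) := by
  obtain ⟨h0, h1, h2⟩ := hred
  obtain ⟨t, ht0, htn, htr⟩ := hp
  have hsize : ∀ i ≤ n, (t i).size = S.size := by
    intro i
    induction i with
    | zero => intro _; rw [ht0]
    | succ i ih =>
      intro hi
      rw [rot_size (htr i (by omega)), ih (by omega)]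
  refine ⟨fun i => (t i).tri 0, congrArg (fun s => s.tri 0) ht0, congrArg (fun s => s.tri 0) htn, ?_⟩
  refine ⟨sds_card S.size (by omega), fun i hi => rot_flip (htr i hi) 0, ?_, ?_, ?_, ?_, ?_, ?_, ?_,
    ?_, ?_⟩
  · show ((t 0).tri 0).card = S.size
    rw [tri_card, ht0]
  · show ((t n).tri 0).card = S.size
    rw [tri_card, htn, hST]
  · intro i hi σ hσ f hf g hg h3 h4
    have h5 := hsize i hi
    refine tri_sds (t i) σ ?_ f g hf hg h3 h4
    rw [h5]; exact hσ
  · intro f hf hf'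
    have hf1 : f ∈ S.tri 0 := by rw [← ht0]; exact hf
    have hf2 : f ∈ T.tri 0 := by rw [← htn]; exact hf'
    obtain ⟨e, he, hef, hes⟩ := exists_not_side S.size hq f (tri_mem S 0 f hf1).1
    apply hes
    apply h0
    · unfold edg
      rw [Finset.mem_biUnion]
      exact ⟨f, hf1, Finset.mem_powersetCard.mpr ⟨hef, he⟩⟩
    · unfold edg
      rw [Finset.mem_biUnion]
      exact ⟨f, hf2, Finset.mem_powersetCard.mpr ⟨hef, he⟩⟩
  · have h3 := tri_diag S
    show S.size ≤ ((edg ((t 0).tri 0)).filter (fun e => e ∉ sds S.size)).card + 1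
    rw [ht0]; exact h3
  · have h3 := tri_diag T
    rw [hST] at h3
    show S.size ≤ ((edg ((t n).tri 0)).filter (fun e => e ∉ sds S.size)).card + 1
    rw [htn]; exact h3
  · show ∀ e, e ∈ edg ((t 0).tri 0) → e ∈ edg ((t n).tri 0) → e ∈ sds S.size
    rw [ht0, htn]; exact h0
  · show ∀ f ∈ (t 0).tri 0, ∀ g ∈ (t 0).tri 0, (f ∩ g).card = 2 →
      (f ∪ g) \ (f ∩ g) ∉ edg ((t n).tri 0)
    rw [ht0, htn]; exact h1
  · show ∀ f ∈ (t n).tri 0, ∀ g ∈ (t n).tri 0, (f ∩ g).card = 2 →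
      (f ∪ g) \ (f ∩ g) ∉ edg ((t 0).tri 0)
    rw [ht0, htn]; exact h2

/-- PROOF: `cfg_of`, `chain_bound` with `lam = k + 2`, `irred_len`. -/
theorem size_bound (k : ℕ) (S T : BT) (n w : ℕ) (hq : 2 ≤ S.size) (hST : T.size = S.size)
    (hred : Reduced S T) (hir : ∀ S' T', ¬ Shrink k S T S' T') (hp : Path n S T)
    (hw : n + 1 = S.size + w) :
    S.size + 1 + 2 * (k + 2) ≤ 3 * w + (k + 2) * (8 * w) := by
  obtain ⟨F, h0, hn, hc⟩ := cfg_of S T n hq hST hp (redF_of hST hred)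
  obtain ⟨i1, i2⟩ := irred_len k S T hST hir
  refine chain_bound hc w (k + 2) hw ?_ ?_
  · intro b l hl
    rw [h0, hn] at hl
    exact i1 b l hl
  · intro b l hl
    rw [h0, hn] at hl
    exact i2 b l hl

end RTD
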