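import Pool.Agent.RTD.KR1

/-! RTD row KR2: the kernel. -/

namespace RTD

private theorem KR2_parts {k : ℕ} {S T : BT} (h : T.size = S.size)
    (ih : ∀ m < S.size, ∀ A B : BT, B.size = A.size → A.size = m → ∃ A' B', Kern k A B A' B')
    {x z : ℕ} (hS : (x, z) ∈ S.cl 0) (hT : (x, z) ∈ T.cl 0) (hne : (x, z) ≠ (0, S.size + 1)) :
    (∃ A B, Kern k (S.inn x z) (T.inn x z) A B) ∧ (∃ A B, Kern k (S.out x z) (T.out x z) A B) := by
  obtain ⟨a1, a2, a3, a4⟩ := size_parts S x z hS hne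
  obtain ⟨b1, b2, b3, b4⟩ := size_parts T x z hT (by rw [h]; exact hne)
  exact ⟨ih _ (by omega : (S.inn x z).size < S.size) (S.inn x z) (T.inn x z) (by omega) rfl,
    ih _ (by omega : (S.out x z).size < S.size) (S.out x z) (T.out x z) (by omega) rfl⟩

private theorem KR2_sizes {S T : BT} (h : T.size = S.size)
    {x z : ℕ} (hS : (x, z) ∈ S.cl 0) (hT : (x, z) ∈ T.cl 0) (hne : (x, z) ≠ (0, S.size + 1)) :
    (T.inn x z).size = (S.inn x z).size ∧ (T.out x z).size = (S.out x z).size ∧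
      (S.inn x z).size + (S.out x z).size = S.size ∧ 1 ≤ (S.inn x z).size ∧ 1 ≤ (S.out x z).size := by
  obtain ⟨a1, a2, a3, a4⟩ := size_parts S x z hS hne
  obtain ⟨b1, b2, b3, b4⟩ := size_parts T x z hT (by rw [h]; exact hne)
  refine ⟨by omega, by omega, by omega, by omega, by omega⟩

/-- PROOF: strong induction on `S.size`, generalizing `S T`.  `S.size ≤ 1`: `small`.  If `¬ Reduced S T`:
push the negation: a common subtree interval (`split`), or a rotation `S → S'` with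
`(x,z) ∈ S'.cl 0`, `(x,z) ∈ T.cl 0`, `(x,z) ≠ (0, S.size+1)`: if `(x,z) ∈ S.cl 0` then `split`, otherwise
`rotL`; the same for `T` (`rotR`).  The sizes of the parts: `size_parts` (both parts have at least one
node), `rot_size`.  (This is the same as in `greedy_exists`, row GR.)  If `Reduced S T` and there is a
`Shrink` step: `cut`, with `shrink_ok` (`redF_of`) for the sizes.  Otherwise `done`. -/
theorem kern_exists (k : ℕ) (S T : BT) (h : T.size = S.size) : ∃ S' T', Kern k S T S' T' := by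
  induction hn : S.size using Nat.strong_induction_on generalizing S T with
  | _ n ih =>
    subst hn
    by_cases h1 : S.size ≤ 1
    · exact ⟨_, _, Kern.small S T h1⟩
    by_cases hA : ∃ x z, (x, z) ∈ S.cl 0 ∧ (x, z) ∈ T.cl 0 ∧ (x, z) ≠ (0, S.size + 1)
    · obtain ⟨x, z, hS, hT, hne⟩ := hA
      obtain ⟨⟨A, B, hc⟩, ⟨A', B', hc'⟩⟩ := KR2_parts h ih hS hT hne
      exact ⟨_, _, Kern.split S T A B A' B' x z hS hT hne hc hc'⟩
    push Not at hA
    by_cases hB : ∃ S', Rot S S' ∧ ∃ x z, (x, z) ∈ S'.cl 0 ∧ (x, z) ∈ T.cl 0 ∧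
        (x, z) ≠ (0, S.size + 1)
    · obtain ⟨S', hr, x, z, hS, hT, hne⟩ := hB
      have hs := rot_size hr
      obtain ⟨⟨A, B, hc⟩, ⟨A', B', hc'⟩⟩ := KR2_parts (S := S') (T := T) (by rw [hs]; exact h)
        (by rw [hs]; exact ih) hS hT (by rw [hs]; exact hne)
      exact ⟨_, _, Kern.rotL S S' T A B A' B' x z hr (fun h2 => hne (hA x z h2 hT)) hS hT hc hc'⟩
    push Not at hB
    by_cases hC : ∃ T', Rot T T' ∧ ∃ x z, (x, z) ∈ S.cl 0 ∧ (x, z) ∈ T'.cl 0 ∧
        (x, z) ≠ (0, S.size + 1)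
    · obtain ⟨T', hr, x, z, hS, hT, hne⟩ := hC
      have hs := rot_size hr
      obtain ⟨⟨A, B, hc⟩, ⟨A', B', hc'⟩⟩ := KR2_parts (S := S) (T := T') (by rw [hs]; exact h) ih hS
        hT hne
      exact ⟨_, _, Kern.rotR S T T' A B A' B' x z hr (fun h2 => hne (hA x z hS h2)) hT hS hc hc'⟩
    push Not at hC
    have hred : Reduced S T := ⟨hA, fun S' hr x z k1 k2 => hB S' hr x z k1 k2,
      fun T' hr x z k1 k2 => hC T' hr x z k1 k2⟩
    by_cases hD : ∃ S' T', Shrink k S T S' T'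
    · obtain ⟨S', T', hs⟩ := hD
      obtain ⟨s1, s2, -, -⟩ := shrink_ok hs h (redF_of h hred)
      obtain ⟨A, B, hc⟩ := ih S'.size (by omega) S' T' s1 rfl
      exact ⟨A, B, Kern.cut S T S' T' A B (by omega) hred hs hc⟩
    · push Not at hD
      exact ⟨S, T, Kern.done S T (by omega) hred hD⟩

private theorem KR2_plug0 (o u : BT) : (o.plug u 0 0).size = o.size + u.size :=
  plug_size o u 0 0 le_rfl (by omega)

/-- PROOF: induction on the run.  `split`: `plug_size`, `size_parts` (with `z` the same for `S` and `T`);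
`rotL`: `rot_size`; `AP_ne` gives `(x,z) ≠ (0, size+1)`; `cut`: `shrink_ok`, `redF_of`. -/
theorem kern_size {k : ℕ} {S T S' T' : BT} (h : Kern k S T S' T') (hST : T.size = S.size) :
    T'.size = S'.size ∧ S'.size ≤ S.size := by
  induction h with
  | small S T h1 => exact ⟨rfl, by simp [BT.size]⟩
  | split S T A B A' B' x z hS hT hne hc hc' ih ih' =>
    obtain ⟨s1, s2, s3, -, -⟩ := KR2_sizes hST hS hT hne
    obtain ⟨i1, i2⟩ := ih s1
    obtain ⟨j1, j2⟩ := ih' s2
    rw [KR2_plug0, KR2_plug0]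
    omega
  | rotL S S' T A B A' B' x z hr hnS hS hT hc hc' ih ih' =>
    have hs := rot_size hr
    have hne := AP_ne hr hnS
    obtain ⟨s1, s2, s3, -, -⟩ := KR2_sizes (S := S') (T := T) (by omega) hS hT (by rw [hs]; exact hne)
    obtain ⟨i1, i2⟩ := ih s1
    obtain ⟨j1, j2⟩ := ih' s2
    rw [KR2_plug0, KR2_plug0]
    omega
  | rotR S T T' A B A' B' x z hr hnT hT hS hc hc' ih ih' =>
    have hs := rot_size hr
    have hne := AP_ne hr hnT
    obtain ⟨s1, s2, s3, -, -⟩ := KR2_sizes (S := S) (T := T') (by omega) hS hT (by rw [← hST]; exact hne)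
    obtain ⟨i1, i2⟩ := ih s1
    obtain ⟨j1, j2⟩ := ih' s2
    rw [KR2_plug0, KR2_plug0]
    omega
  | cut S T S' T' A B h2 hred hs hc ih =>
    obtain ⟨s1, s2, -, -⟩ := shrink_ok hs hST (redF_of hST hred)
    obtain ⟨i1, i2⟩ := ih s1
    omega
  | done S T h2 hred hns => exact ⟨hST, le_rfl⟩

/-- additivity, abstractly -/
private theorem KR2_add {k r1 d1 r2 d2 r1' d1' r2' d2' : ℕ} (hd1 : d1 ≤ r1) (hd2 : d2 ≤ r2)
    (hd1' : d1' ≤ r1') (hd2' : d2' ≤ r2')
    (h1 : ∀ j ≤ k, (r1 ≤ d1 + j ↔ r1' ≤ d1' + j)) (h2 : ∀ j ≤ k, (r2 ≤ d2 + j ↔ r2' ≤ d2' + j)) :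
    ∀ j ≤ k, (r1 + r2 ≤ d1 + d2 + j ↔ r1' + r2' ≤ d1' + d2' + j) := by
  intro j hj
  constructor
  · intro h
    have a1 := (h1 (r1 - d1) (by omega)).1 (by omega)
    have a2 := (h2 (r2 - d2) (by omega)).1 (by omega)
    omega
  · intro h
    have a1 := (h1 (r1' - d1') (by omega)).2 (by omega)
    have a2 := (h2 (r2' - d2') (by omega)).2 (by omega)
    omega

private theorem KR2_split {k : ℕ} {S T A B A' B' : BT} {x z : ℕ} (hST : T.size = S.size)
    (hS : (x, z) ∈ S.cl 0) (hT : (x, z) ∈ T.cl 0) (hne : (x, z) ≠ (0, S.size + 1))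
    (hc : Kern k (S.inn x z) (T.inn x z) A B) (hc' : Kern k (S.out x z) (T.out x z) A' B')
    (ih : ∀ j ≤ k, (rd (S.inn x z) (T.inn x z) ≤ dl (S.inn x z) (T.inn x z) + j ↔
      rd A B ≤ dl A B + j))
    (ih' : ∀ j ≤ k, (rd (S.out x z) (T.out x z) ≤ dl (S.out x z) (T.out x z) + j ↔
      rd A' B' ≤ dl A' B' + j)) :
    ∀ j ≤ k, (rd S T ≤ dl S T + j ↔
      rd (A'.plug A 0 0) (B'.plug B 0 0) ≤ dl (A'.plug A 0 0) (B'.plug B 0 0) + j) := by
  obtain ⟨s1, s2, s3, -, -⟩ := KR2_sizes hST hS hT hne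
  obtain ⟨i1, i2⟩ := kern_size hc s1
  obtain ⟨j1, j2⟩ := kern_size hc' s2
  rw [rd_split hST hS hT, dl_split hST hS hT, rd_plug 0 (by omega) j1 i1, dl_plug 0 (by omega) j1 i1]
  exact KR2_add (dl_le_rd s1) (dl_le_rd s2) (dl_le_rd i1) (dl_le_rd j1) ih ih'

/-- PROOF: induction on the run.  `small`: `S = T` (`AP_small_eq`), `rd S S = 0` (`rd_le (Path.refl S)`), both
sides are true.
`split`: `rd_split`, `dl_split`, and for the glued result `rd_plug`, `dl_plug` (`x = 0`; sizes by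
`kern_size`).  Put `e = rd - dl` (`dl_le_rd`): the induction hypotheses say `e₁ ≤ j ↔ e₁' ≤ j` and
`e₂ ≤ j ↔ e₂' ≤ j` for all `j ≤ k`.  If `e₁ + e₂ ≤ j ≤ k` then apply them with `j := e₁` and `j := e₂`:
`e₁' ≤ e₁`, `e₂' ≤ e₂`; the converse is the same.
`rotL`: in addition `rd_create`, `dl_create`; `rotR`: `rd_comm`, `dl_comm` and the same.
`cut`: `redF_of`, `shrink_ok` (`Exc j S T ↔ Exc j S' T'`, `RedF S' T'`, so `NCe S' T'`), `exc_iff` for both
pairs (`S'.size + 1 = S.size`, `1 ≤ S'.size`).  `done`: trivial. -/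
theorem kern_iff {k : ℕ} {S T S' T' : BT} (h : Kern k S T S' T') (hST : T.size = S.size) :
    ∀ j ≤ k, (rd S T ≤ dl S T + j ↔ rd S' T' ≤ dl S' T' + j) := by
  induction h with
  | small S T h1 =>
    intro j hj
    have e := AP_small_eq S T h1 hST
    subst e
    have a := rd_le (Path.refl S)
    have b := rd_le (Path.refl BT.nil)
    constructor <;> intro _ <;> omega
  | split S T A B A' B' x z hS hT hne hc hc' ih ih' =>
    obtain ⟨s1, s2, s3, -, -⟩ := KR2_sizes hST hS hT hne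
    exact KR2_split hST hS hT hne hc hc' (ih s1) (ih' s2)
  | rotL S S' T A B A' B' x z hr hnS hS hT hc hc' ih ih' =>
    have hs := rot_size hr
    have hne := AP_ne hr hnS
    have hST' : T.size = S'.size := by omega
    have hne' : (x, z) ≠ (0, S'.size + 1) := by rw [hs]; exact hne
    obtain ⟨s1, s2, s3, -, -⟩ := KR2_sizes hST' hS hT hne'
    have key := KR2_split hST' hS hT hne' hc hc' (ih s1) (ih' s2)
    have e1 := rd_create hST hr hnS hS hT
    have e2 := dl_create hr hnS hS hT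
    intro j hj
    rw [← key j hj, e1, e2]
    omega
  | rotR S T T' A B A' B' x z hr hnT hT hS hc hc' ih ih' =>
    have hs := rot_size hr
    have hne := AP_ne hr hnT
    have hST' : T'.size = S.size := by omega
    have hne' : (x, z) ≠ (0, S.size + 1) := by rw [← hST]; exact hne
    obtain ⟨s1, s2, s3, -, -⟩ := KR2_sizes hST' hS hT hne'
    have key := KR2_split hST' hS hT hne' hc hc' (ih s1) (ih' s2)
    have e1 := rd_create hST.symm hr hnT hT hS
    have e2 := dl_create hr hnT hT hS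
    intro j hj
    rw [← key j hj, rd_comm (S := S) (T := T), dl_comm hST, e1, e2, rd_comm (S := S) (T := T'),
      dl_comm hST']
    omega
  | cut S T S' T' A B h2 hred hs hc ih =>
    have hr := redF_of hST hred
    obtain ⟨s1, s2, hr', hex⟩ := shrink_ok hs hST hr
    intro j hj
    rw [← ih s1 j hj, ← exc_iff (by omega) hST hr.1 j, ← exc_iff (by omega) s1 hr'.1 j]
    exact hex j hj
  | done S T h2 hred hns => intro j hj; exact Iff.rfl

private theorem KR2_bsplit {k : ℕ} {P Q P' Q' A B A' B' : BT} (s1 : Q.size = P.size)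
    (s2 : Q'.size = P'.size)
    (hc : Kern k P Q A B) (hc' : Kern k P' Q' A' B')
    (ih : A.size + (8 * k + 19) * dl A B ≤ (8 * k + 19) * rd A B)
    (ih' : A'.size + (8 * k + 19) * dl A' B' ≤ (8 * k + 19) * rd A' B') :
    (A'.plug A 0 0).size + (8 * k + 19) * dl (A'.plug A 0 0) (B'.plug B 0 0) ≤
      (8 * k + 19) * rd (A'.plug A 0 0) (B'.plug B 0 0) := by
  obtain ⟨i1, i2⟩ := kern_size hc s1
  obtain ⟨j1, j2⟩ := kern_size hc' s2
  rw [rd_plug 0 (by omega) j1 i1, dl_plug 0 (by omega) j1 i1, KR2_plug0]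
  nlinarith

/-- PROOF: induction on the run.  `small`: size `0`.  `split`, `rotL`, `rotR`: `rd_plug`, `dl_plug`,
`plug_size`: the inequality is additive.  `cut`: the induction hypothesis.  `done`: `size_bound` with
`n = rd S T`, `w = rd S T - dl S T` (`dl_nce`, `dl_le_rd`):
`S.size + 1 + 2(k+2) ≤ 3w + (k+2) 8 w = (8k+19) w`. -/
theorem kern_bound {k : ℕ} {S T S' T' : BT} (h : Kern k S T S' T') (hST : T.size = S.size) :
    S'.size + (8 * k + 19) * dl S' T' ≤ (8 * k + 19) * rd S' T' := by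
  induction h with
  | small S T h1 =>
    have b := dl_le_rd (S := BT.nil) (T := BT.nil) rfl
    have : (8 * k + 19) * dl BT.nil BT.nil ≤ (8 * k + 19) * rd BT.nil BT.nil :=
      Nat.mul_le_mul_left _ b
    simpa [BT.size] using this
  | split S T A B A' B' x z hS hT hne hc hc' ih ih' =>
    obtain ⟨s1, s2, s3, -, -⟩ := KR2_sizes hST hS hT hne
    exact KR2_bsplit s1 s2 hc hc' (ih s1) (ih' s2)
  | rotL S S' T A B A' B' x z hr hnS hS hT hc hc' ih ih' =>
    have hs := rot_size hr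
    have hne := AP_ne hr hnS
    obtain ⟨s1, s2, s3, -, -⟩ := KR2_sizes (S := S') (T := T) (by omega) hS hT (by rw [hs]; exact hne)
    exact KR2_bsplit s1 s2 hc hc' (ih s1) (ih' s2)
  | rotR S T T' A B A' B' x z hr hnT hT hS hc hc' ih ih' =>
    have hs := rot_size hr
    have hne := AP_ne hr hnT
    obtain ⟨s1, s2, s3, -, -⟩ := KR2_sizes (S := S) (T := T') (by omega) hS hT (by rw [← hST]; exact hne)
    exact KR2_bsplit s1 s2 hc hc' (ih s1) (ih' s2)
  | cut S T S' T' A B h2 hred hs hc ih =>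
    obtain ⟨s1, -, -, -⟩ := shrink_ok hs hST (redF_of hST hred)
    exact ih s1
  | done S T h2 hred hns =>
    have h3 := dl_nce (by omega) hST (redF_of hST hred).1
    have h4 := dl_le_rd hST
    have h5 := size_bound k S T (rd S T) (rd S T - dl S T) h2 hST hred hns (path_rd' hST) (by omega)
    obtain ⟨w, hw⟩ : ∃ w, rd S T = dl S T + w := ⟨rd S T - dl S T, by omega⟩
    rw [hw] at h5 ⊢
    rw [Nat.add_sub_cancel_left] at h5
    nlinarith

/-- PROOF: `kern_iff` with `j = k`, `kern_bound`. -/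
theorem kern_small {k : ℕ} {S T S' T' : BT} (h : Kern k S T S' T') (hST : T.size = S.size)
    (hk : rd S T ≤ dl S T + k) : S'.size ≤ (8 * k + 19) * k := by
  have h1 := (kern_iff h hST k le_rfl).1 hk
  have h2 := kern_bound h hST
  have h3 : (8 * k + 19) * rd S' T' ≤ (8 * k + 19) * (dl S' T' + k) := Nat.mul_le_mul_left _ h1
  rw [Nat.mul_add] at h3
  omega

end RTD
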