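import Pool.Agent.RTD.SU
import Pool.Agent.RTD.CR

/-! RTD row NW: many steps are direct. -/

namespace RTD

open Finset

variable {q n : ℕ} {F : ℕ → Finset (Finset ℕ)} {Sd : Finset (Finset ℕ)}

/-- PROOF: for `i < n` put `s = (orig F i).card`, `u = (fin F n i).card`.  By `card_le_two`,
`fin_zero`, `orig_zero`:
`s + u ≤ 1 + [i ∈ W] + [s = 2] + [u = 2]` (if `s = 2` then `u = 0`: `2 ≤ 1 + 0 + 1`; `u = 2` the
same; otherwise `s, u ≤ 1` and `s + u = 2` iff `i ∈ W`).  Sum over `i < n` with `sum_orig`, `sum_fin`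
(`hc.disj`), `hc.c0`, `hc.cn`: `2 q ≤ n + |W| + #{s=2} + #{u=2}`, and with `src_le`, `snk_le`:
`2q ≤ n + |W| + 2 (n+1-q)`. With `n + 1 = q + w` this is `q + 1 ≤ |W| + 3 w`. -/
theorem W_card (hc : Cfg q n F Sd) (w : ℕ) (hw : n + 1 = q + w) :
    q + 1 ≤ (W F n).card + 3 * w := by
  classical
  have h1 : ∀ i ∈ range n, (orig F i).card + (fin F n i).card ≤
      1 + (if (orig F i).card = 1 ∧ (fin F n i).card = 1 then 1 else 0) +
      (if (orig F i).card = 2 then 1 else 0) + (if (fin F n i).card = 2 then 1 else 0) := by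
    intro i hi
    rw [mem_range] at hi
    obtain ⟨h2, h3⟩ := card_le_two hc hi
    have h4 := fin_zero hc hi
    have h5 := orig_zero hc hi
    split_ifs <;> omega
  have h2 := Finset.sum_le_sum h1
  rw [Finset.sum_add_distrib, sum_orig F n hc.disj, sum_fin F n hc.disj, hc.c0, hc.cn,
    Finset.sum_add_distrib, Finset.sum_add_distrib, Finset.sum_add_distrib, Finset.sum_const,
    card_range, ← Finset.card_filter, ← Finset.card_filter, ← Finset.card_filter] at h2
  have h3 : (W F n).card = ((range n).filter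
      (fun i => (orig F i).card = 1 ∧ (fin F n i).card = 1)).card := by
    unfold W
    congr 1
  have h4 := src_le hc
  have h5 := snk_le hc
  rw [h3]
  simp only [smul_eq_mul, mul_one] at h2
  omega

end RTD
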