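import Pool.Agent.RTD.ED
import Pool.Agent.RTD.PA
import Pool.Agent.RTD.BR

/-! RTD row RD: the fan cover theorem for reduced pairs of trees. -/

namespace RTD

open Finset

private theorem RD_pair {x z x' z' : ℕ} (h1 : x < z) (h2 : x' < z')
    (h : ({x, z} : Finset ℕ) = {x', z'}) : x = x' ∧ z = z' := by
  have a1 : x ∈ ({x', z'} : Finset ℕ) := by rw [← h]; simp
  have a2 : z ∈ ({x', z'} : Finset ℕ) := by rw [← h]; simp
  have a3 : x' ∈ ({x, z} : Finset ℕ) := by rw [h]; simp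
  simp only [Finset.mem_insert, Finset.mem_singleton] at a1 a2 a3
  omega

private theorem RD_cl {t : BT} {x z : ℕ} (hxz : x + 2 ≤ z) (h : ({x, z} : Finset ℕ) ∈ edg (t.tri 0)) :
    (x, z) ∈ t.cl 0 := by
  rcases edg_of t 0 _ h with ⟨k, _, _, hk⟩ | ⟨x', z', h1, h2⟩
  · have := RD_pair (by omega) (by omega) hk
    omega
  · have h3 := cl_bound t 0 x' z' h1
    obtain ⟨rfl, rfl⟩ := RD_pair (by omega) (by omega) h2
    exact h1

/-- PROOF: `fan_cover_tri`.
`h0`: if `e ∈ edg (S.tri 0)`, `e ∈ edg (T.tri 0)` and `e ∉ sds q` then by `edg_of` `e = {x,z}` with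
`(x,z) ∈ S.cl 0` and `e = {x',z'}` with `(x',z') ∈ T.cl 0` (the sides `{k,k+1}` are in `sds`);
`x < z`, `x' < z'` (`cl_bound`) so `x = x'`, `z = z'`; so `(x,z) = (0,q+1)` by `Reduced`, but `{0,q+1}` is
in `sds q`.
`h1`: if `f, g ∈ S.tri 0` have two common elements and `(f ∪ g) \ (f ∩ g) ∈ edg (T.tri 0)`: by
`flip_rot` it is `{x,z}` with `(x,z) ∈ S'.cl 0`, `Rot S S'`, `x + 2 ≤ z`, `(x,z) ≠ (0,q+1)`; by `edg_of` for
`T` (it is not of the form `{k,k+1}` as `x+2 ≤ z`) `(x,z) ∈ T.cl 0`; contradiction to `Reduced`.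
`h2`: the same with `T`. -/
theorem fan_cover (S T : BT) (n : ℕ) (hq : 2 ≤ S.size) (hST : T.size = S.size)
    (hred : Reduced S T) (hp : Path n S T) :
    ∃ w : ℕ, n + 1 = S.size + w ∧ ∃ A B : Finset ℕ, A.card + B.card + 2 ≤ 8 * w ∧
      S.size + 1 ≤ 3 * w + ∑ v ∈ A, fan S v + ∑ v ∈ B, fan T v := by
  obtain ⟨r0, r1, r2⟩ := hred
  refine fan_cover_tri S T S.size n hq rfl hST hp ?_ ?_ ?_
  · intro e h1 h2
    rcases edg_of S 0 e h1 with ⟨k, _, hk, rfl⟩ | ⟨x, z, hx, rfl⟩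
    · unfold sds
      exact Finset.mem_insert_of_mem (Finset.mem_image.2 ⟨k, Finset.mem_range.2 (by omega), rfl⟩)
    · have hb := cl_bound S 0 x z hx
      have hx' := RD_cl (t := T) hb.2.1 h2
      have h3 := r0 x z hx hx'
      rw [Prod.mk.injEq] at h3
      rw [h3.1, h3.2]
      exact Finset.mem_insert_self _ _
  · intro f hf g hg hfg h
    obtain ⟨t', x, z, a1, a2, a3, a4, a5⟩ := flip_rot S 0 f g hf hg hfg
    rw [a3] at h
    have h3 := r1 t' a1 x z a2 (RD_cl a4 h)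
    rw [Prod.mk.injEq] at h3
    omega
  · intro f hf g hg hfg h
    obtain ⟨t', x, z, a1, a2, a3, a4, a5⟩ := flip_rot T 0 f g hf hg hfg
    rw [a3] at h
    have h3 := r2 t' a1 x z (RD_cl a4 h) a2
    rw [Prod.mk.injEq] at h3
    omega

/-- bounded fans.  PROOF: `fan_cover`: `q + 1 ≤ 3 w + D (|A| + |B|) ≤ 3 w + D (8 w - 2)`. -/
theorem fan_bound (S T : BT) (n D : ℕ) (hq : 2 ≤ S.size) (hST : T.size = S.size)
    (hred : Reduced S T) (hp : Path n S T) (hS : ∀ v, fan S v ≤ D) (hT : ∀ v, fan T v ≤ D) :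
    ∃ w : ℕ, n + 1 = S.size + w ∧ S.size + 1 + 2 * D ≤ (8 * D + 3) * w := by
  obtain ⟨w, h1, A, B, h2, h3⟩ := fan_cover S T n hq hST hred hp
  refine ⟨w, h1, ?_⟩
  have hA : ∑ v ∈ A, fan S v ≤ A.card * D := by
    have := Finset.sum_le_card_nsmul A (fan S) D (fun v _ => hS v)
    simpa using this
  have hB : ∑ v ∈ B, fan T v ≤ B.card * D := by
    have := Finset.sum_le_card_nsmul B (fan T) D (fun v _ => hT v)
    simpa using this
  have h4 : (A.card + B.card + 2) * D ≤ 8 * w * D := Nat.mul_le_mul_right D h2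
  nlinarith

end RTD
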