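import Pool.Agent.RTD.Defs

/-! RTD row SU: double counting of the original and of the final triangles. -/

namespace RTD

open Finset

private lemma SU_mem_orig (F : ℕ → Finset (Finset ℕ)) (i : ℕ) (f : Finset ℕ) :
    f ∈ orig F i ↔ f ∉ F (i + 1) ∧ ∀ j ≤ i, f ∈ F j := by
  classical
  simp only [orig, Finset.mem_filter, Finset.mem_sdiff]
  constructor
  · rintro ⟨⟨_, h⟩, h'⟩; exact ⟨h, h'⟩
  · rintro ⟨h, h'⟩; exact ⟨⟨h' i le_rfl, h⟩, h'⟩

private lemma SU_mem_fin (F : ℕ → Finset (Finset ℕ)) (n i : ℕ) (hi : i < n) (f : Finset ℕ) :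
    f ∈ fin F n i ↔ f ∉ F i ∧ ∀ j, i < j → j ≤ n → f ∈ F j := by
  classical
  simp only [fin, Finset.mem_filter, Finset.mem_sdiff]
  constructor
  · rintro ⟨⟨_, h⟩, h'⟩; exact ⟨h, h'⟩
  · rintro ⟨h, h'⟩; exact ⟨⟨h' (i + 1) (by omega) (by omega), h⟩, h'⟩

/-- PROOF: the sets `orig F i` (`i < n`) are pairwise disjoint: if `f ∈ orig F i`, `f ∈ orig F i'`
with `i < i'` then `f ∉ F (i+1)` but `f ∈ F (i+1)` since `i+1 ≤ i'`.  Their union is `F 0`: an
element of `orig F i` is in `F 0` (`j = 0`); conversely for `f ∈ F 0` we have `f ∉ F n`, let `j` be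
the least index with `f ∉ F j` (`Nat.find`), then `j ≥ 1`, `j ≤ n` and `f ∈ orig F (j-1)`.
`Finset.card_biUnion`. -/
theorem sum_orig (F : ℕ → Finset (Finset ℕ)) (n : ℕ) (h : ∀ f ∈ F 0, f ∉ F n) :
    ∑ i ∈ range n, (orig F i).card = (F 0).card := by
  classical
  rw [← Finset.card_biUnion]
  · congr 1
    ext f
    simp only [Finset.mem_biUnion, Finset.mem_range, SU_mem_orig]
    constructor
    · rintro ⟨i, _, _, h'⟩; exact h' 0 (Nat.zero_le _)
    · intro hf
      have hex : ∃ j, f ∉ F j := ⟨n, h f hf⟩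
      have h1 := Nat.find_spec hex
      have h2 : ∀ j < Nat.find hex, f ∈ F j := fun j hj => not_not.1 (Nat.find_min hex hj)
      have h3 : Nat.find hex ≤ n := Nat.find_min' hex (h f hf)
      have h4 : Nat.find hex ≠ 0 := fun h0 => by rw [h0] at h1; exact h1 hf
      refine ⟨Nat.find hex - 1, by omega, ?_, fun j hj => h2 j (by omega)⟩
      rwa [Nat.sub_add_cancel (by omega)]
  · intro i _ j _ hij
    rw [Function.onFun, Finset.disjoint_left]
    intro f hf hf'
    rw [SU_mem_orig] at hf hf'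
    rcases lt_or_gt_of_ne hij with hlt | hlt
    · exact hf.1 (hf'.2 _ (by omega))
    · exact hf'.1 (hf.2 _ (by omega))

/-- PROOF: the same for the last index `j ≤ n` with `f ∉ F j` (`f ∈ F n`, `f ∉ F 0`);
`f ∈ fin F n j`.  (Or reverse the sequence.) -/
theorem sum_fin (F : ℕ → Finset (Finset ℕ)) (n : ℕ) (h : ∀ f ∈ F 0, f ∉ F n) :
    ∑ i ∈ range n, (fin F n i).card = (F n).card := by
  classical
  rw [← Finset.card_biUnion]
  · congr 1
    ext f
    simp only [Finset.mem_biUnion, Finset.mem_range]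
    constructor
    · rintro ⟨i, hi, h'⟩
      rw [SU_mem_fin F n i hi] at h'
      exact h'.2 n hi le_rfl
    · intro hf
      have h0 : f ∉ F 0 := fun h0 => h f h0 hf
      have h1 : f ∉ F (Nat.findGreatest (fun j => f ∉ F j) n) :=
        Nat.findGreatest_spec (P := fun j => f ∉ F j) (Nat.zero_le n) h0
      have h2 : ∀ j, Nat.findGreatest (fun j => f ∉ F j) n < j → j ≤ n → f ∈ F j :=
        fun j hj hj' => not_not.1 (Nat.findGreatest_is_greatest hj hj')
      have h3 : Nat.findGreatest (fun j => f ∉ F j) n ≤ n := Nat.findGreatest_le n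
      have h4 : Nat.findGreatest (fun j => f ∉ F j) n ≠ n := fun h0 => by
        rw [h0] at h1; exact h1 hf
      refine ⟨Nat.findGreatest (fun j => f ∉ F j) n, by omega, ?_⟩
      rw [SU_mem_fin F n _ (by omega)]
      exact ⟨h1, h2⟩
  · intro i hi j hj hij
    rw [Function.onFun, Finset.disjoint_left]
    intro f hf hf'
    simp only [Finset.coe_range, Set.mem_Iio] at hi hj
    rw [SU_mem_fin F n _ hi] at hf
    rw [SU_mem_fin F n _ hj] at hf'
    rcases lt_or_gt_of_ne hij with hlt | hlt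
    · exact hf'.1 (hf.2 _ hlt (by omega))
    · exact hf.1 (hf'.2 _ hlt (by omega))

/-- PROOF: let `i` be the largest index `< j` with `X ∉ F i` (exists). -/
theorem exists_pred (F : ℕ → Finset (Finset ℕ)) (j : ℕ) (X : Finset ℕ) (hX : X ∈ F j)
    (hne : ¬ ∀ k ≤ j, X ∈ F k) :
    ∃ i < j, X ∈ F (i + 1) \ F i ∧ ∀ k, i < k → k ≤ j → X ∈ F k := by
  classical
  push Not at hne
  obtain ⟨k, hk, hk'⟩ := hne
  have h1 : X ∉ F (Nat.findGreatest (fun j => X ∉ F j) j) :=
    Nat.findGreatest_spec (P := fun j => X ∉ F j) hk hk'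
  have h2 : ∀ k, Nat.findGreatest (fun j => X ∉ F j) j < k → k ≤ j → X ∈ F k :=
    fun k hk hk' => not_not.1 (Nat.findGreatest_is_greatest hk hk')
  have h3 : Nat.findGreatest (fun k => X ∉ F k) j ≤ j := Nat.findGreatest_le j
  have h4 : Nat.findGreatest (fun k => X ∉ F k) j ≠ j := fun h0 => by
    rw [h0] at h1; exact h1 hX
  refine ⟨Nat.findGreatest (fun k => X ∉ F k) j, by omega, ?_, h2⟩
  rw [Finset.mem_sdiff]
  exact ⟨h2 _ (by omega) (by omega), h1⟩

end RTD
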