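import Pool.Agent.RTD.Defs

/-! RTD row TY: possible types of a step of a reduced pair. -/

namespace RTD

open Finset

variable {q n : ℕ} {F : ℕ → Finset (Finset ℕ)} {Sd : Finset (Finset ℕ)}

private lemma TY_pair {x y z w : ℕ} (hxy : x ≠ y) (hyz : y ≠ z) (hyw : y ≠ w) :
    (({{x, y, z}, {x, z, w}} : Finset (Finset ℕ))).card = 2 := by
  rw [Finset.card_pair]
  intro h
  have : y ∈ ({x, z, w} : Finset ℕ) := by rw [← h]; simp
  simp only [Finset.mem_insert, Finset.mem_singleton] at this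
  omega

/-- PROOF: by `hc.flip i hi` the sets `F i \ F (i+1)` and `F (i+1) \ F i` have exactly two elements
(the two members of `{{x,y,z},{x,z,w}}` differ because `y` is only in the first one). -/
theorem card_diff (hc : Cfg q n F Sd) {i : ℕ} (hi : i < n) :
    (F i \ F (i + 1)).card = 2 ∧ (F (i + 1) \ F i).card = 2 := by
  obtain ⟨x, y, z, w, hxy, hxz, hxw, hyz, hyw, hzw, h1, h2⟩ := hc.flip i hi
  rw [h1, h2]
  refine ⟨TY_pair hxy hyz hyw, ?_⟩
  have e1 : ({x, y, w} : Finset ℕ) = {y, x, w} := by ext v; simp; tauto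
  have e2 : ({y, z, w} : Finset ℕ) = {y, w, z} := by ext v; simp; tauto
  rw [e1, e2]
  exact TY_pair hxy.symm hxw hxz

private lemma TY_orig_sub (F : ℕ → Finset (Finset ℕ)) (i : ℕ) : orig F i ⊆ F i \ F (i + 1) := by
  classical
  intro f hf
  rw [orig, Finset.mem_filter] at hf
  exact hf.1

private lemma TY_fin_sub (F : ℕ → Finset (Finset ℕ)) (n i : ℕ) : fin F n i ⊆ F (i + 1) \ F i := by
  classical
  intro f hf
  rw [fin, Finset.mem_filter] at hf
  exact hf.1

/-- PROOF: subsets of sets with two elements. -/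
theorem card_le_two (hc : Cfg q n F Sd) {i : ℕ} (hi : i < n) :
    (orig F i).card ≤ 2 ∧ (fin F n i).card ≤ 2 :=
  ⟨(Finset.card_le_card (TY_orig_sub F i)).trans (card_diff hc hi).1.le,
    (Finset.card_le_card (TY_fin_sub F n i)).trans (card_diff hc hi).2.le⟩

private lemma TY_inter {x y z w : ℕ} (hxz : x ≠ z) (hyw : y ≠ w) (hxy : x ≠ y) (hyz : y ≠ z)
    (hxw : x ≠ w) (hzw : z ≠ w) :
    (({x, y, z} : Finset ℕ) ∩ {x, z, w}).card = 2 ∧
    (({x, y, z} : Finset ℕ) ∪ {x, z, w}) \ (({x, y, z} : Finset ℕ) ∩ {x, z, w}) = {y, w} := by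
  have e : (({x, y, z} : Finset ℕ) ∩ {x, z, w}) = {x, z} := by
    ext v
    simp only [Finset.mem_inter, Finset.mem_insert, Finset.mem_singleton]
    omega
  refine ⟨by rw [e, Finset.card_pair hxz], ?_⟩
  rw [e]
  ext v
  simp only [Finset.mem_sdiff, Finset.mem_union, Finset.mem_insert, Finset.mem_singleton]
  omega

/-- if both disappearing triangles are original then the new diagonal `{y,w}` is not an edge of
`F n`.  PROOF: `orig F i` has two elements and is a subset of `F i \ F (i+1)` which has two elements,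
so they are equal, so `{x,y,z}, {x,z,w} ∈ F 0`; their intersection is `{x,z}` (card 2) and
`(f ∪ g) \ (f ∩ g) = {y,w}`; `hc.red0`. -/
theorem new_notMem (hc : Cfg q n F Sd) {i : ℕ} (hi : i < n) (h : (orig F i).card = 2)
    {x y z w : ℕ} (hxy : x ≠ y) (hxz : x ≠ z) (hxw : x ≠ w) (hyz : y ≠ z) (hyw : y ≠ w)
    (hzw : z ≠ w) (h1 : F i \ F (i + 1) = {{x, y, z}, {x, z, w}}) :
    ({y, w} : Finset ℕ) ∉ edg (F n) := by
  classical
  have he : orig F i = F i \ F (i + 1) :=
    Finset.eq_of_subset_of_card_le (TY_orig_sub F i) (by rw [h, (card_diff hc hi).1])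
  have hm : ∀ f ∈ F i \ F (i + 1), f ∈ F 0 := by
    intro f hf
    rw [← he, orig, Finset.mem_filter] at hf
    exact hf.2 0 (Nat.zero_le _)
  have ha : ({x, y, z} : Finset ℕ) ∈ F 0 := hm _ (by rw [h1]; simp)
  have hb : ({x, z, w} : Finset ℕ) ∈ F 0 := hm _ (by rw [h1]; simp)
  obtain ⟨k1, k2⟩ := TY_inter hxz hyw hxy hyz hxw hzw
  have := hc.red0 _ ha _ hb k1
  rwa [k2] at this

/-- symmetric statement: if both new triangles are final then the old diagonal `{x,z}` is not an
edge of `F 0` -/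
theorem old_notMem (hc : Cfg q n F Sd) {i : ℕ} (hi : i < n) (h : (fin F n i).card = 2)
    {x y z w : ℕ} (hxy : x ≠ y) (hxz : x ≠ z) (hxw : x ≠ w) (hyz : y ≠ z) (hyw : y ≠ w)
    (hzw : z ≠ w) (h2 : F (i + 1) \ F i = {{x, y, w}, {y, z, w}}) :
    ({x, z} : Finset ℕ) ∉ edg (F 0) := by
  classical
  have he : fin F n i = F (i + 1) \ F i :=
    Finset.eq_of_subset_of_card_le (TY_fin_sub F n i) (by rw [h, (card_diff hc hi).2])
  have hm : ∀ f ∈ F (i + 1) \ F i, f ∈ F n := by
    intro f hf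
    rw [← he, fin, Finset.mem_filter] at hf
    exact hf.2 n hi le_rfl
  have ha : ({x, y, w} : Finset ℕ) ∈ F n := hm _ (by rw [h2]; simp)
  have hb : ({y, z, w} : Finset ℕ) ∈ F n := hm _ (by rw [h2]; simp)
  have e1 : ({x, y, w} : Finset ℕ) = {y, x, w} := by ext v; simp; tauto
  have e2 : ({y, z, w} : Finset ℕ) = {y, w, z} := by ext v; simp; tauto
  rw [e1] at ha
  rw [e2] at hb
  obtain ⟨k1, k2⟩ := TY_inter (x := y) (y := x) (z := w) (w := z) hyw hxz hxy.symm hxw hyz hzw.symm
  have := hc.redn _ ha _ hb k1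
  rwa [k2] at this

/-- PROOF: a final triangle of step `i` is in `F n` and contains the new diagonal `{y,w}`, which
would be in `edg (F n)`, contradicting `new_notMem`. -/
theorem fin_zero (hc : Cfg q n F Sd) {i : ℕ} (hi : i < n) (h : (orig F i).card = 2) :
    (fin F n i).card = 0 := by
  classical
  obtain ⟨x, y, z, w, hxy, hxz, hxw, hyz, hyw, hzw, h1, h2⟩ := hc.flip i hi
  have key := new_notMem hc hi h hxy hxz hxw hyz hyw hzw h1
  rw [Finset.card_eq_zero, Finset.eq_empty_iff_forall_notMem]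
  intro f hf
  have hf1 := TY_fin_sub F n i hf
  rw [fin, Finset.mem_filter] at hf
  have hf2 : f ∈ F n := hf.2 n hi le_rfl
  refine key (Finset.mem_biUnion.2 ⟨f, hf2, ?_⟩)
  rw [Finset.mem_powersetCard]
  refine ⟨?_, Finset.card_pair hyw⟩
  rw [h2] at hf1
  simp only [Finset.mem_insert, Finset.mem_singleton] at hf1
  rcases hf1 with rfl | rfl
  · intro v; simp; tauto
  · intro v; simp; tauto

/-- PROOF: an original triangle of step `i` is in `F 0` and contains the old diagonal `{x,z}`;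
`old_notMem`. -/
theorem orig_zero (hc : Cfg q n F Sd) {i : ℕ} (hi : i < n) (h : (fin F n i).card = 2) :
    (orig F i).card = 0 := by
  classical
  obtain ⟨x, y, z, w, hxy, hxz, hxw, hyz, hyw, hzw, h1, h2⟩ := hc.flip i hi
  have key := old_notMem hc hi h hxy hxz hxw hyz hyw hzw h2
  rw [Finset.card_eq_zero, Finset.eq_empty_iff_forall_notMem]
  intro f hf
  have hf1 := TY_orig_sub F i hf
  rw [orig, Finset.mem_filter] at hf
  have hf2 : f ∈ F 0 := hf.2 0 (Nat.zero_le _)
  refine key (Finset.mem_biUnion.2 ⟨f, hf2, ?_⟩)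
  rw [Finset.mem_powersetCard]
  refine ⟨?_, Finset.card_pair hxz⟩
  rw [h1] at hf1
  simp only [Finset.mem_insert, Finset.mem_singleton] at hf1
  rcases hf1 with rfl | rfl
  · intro v; simp; tauto
  · intro v; simp; tauto

end RTD
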